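import Pool.Agent.Helper892.PB.Defs

set_option autoImplicit false

open MeasureTheory Set
open scoped ComplexConjugate

namespace Pool.Agent.H892PB

/-! ### cauchy_iter -/

theorem cauchy_iter_line (v : P → ℂ) (hv : Differentiable ℂ v) (z u : P) (t : ℂ) :
    HasDerivAt (fun t : ℂ => v (z + t • u)) (fderiv ℂ v (z + t • u) u) t := by
  have h1 : HasDerivAt (fun t : ℂ => z + t • u) u t := by
    have := ((hasDerivAt_id t).smul_const u).const_add z
    simpa using this
  exact (hv (z + t • u)).hasFDerivAt.comp_hasDerivAt t h1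

theorem cauchy_iter_one (v : P → ℂ) (hv : Differentiable ℂ v) (z u : P) (r M : ℝ) (hr : 0 < r)
    (hb : ∀ z' : P, ‖z' - z‖ ≤ r → ‖v z'‖ ≤ M) :
    ‖fderiv ℂ v z u‖ ≤ M / r * ‖u‖ := by
  by_cases hu : u = 0
  · simp [hu]
  have hun : 0 < ‖u‖ := norm_pos_iff.mpr hu
  have hR : 0 < r / ‖u‖ := div_pos hr hun
  have hd : DiffContOnCl ℂ (fun t : ℂ => v (z + t • u)) (Metric.ball 0 (r / ‖u‖)) := by
    have : Differentiable ℂ (fun t : ℂ => v (z + t • u)) :=
      fun t => (cauchy_iter_line v hv z u t).differentiableAt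
    exact this.diffContOnCl
  have h1 := Complex.norm_deriv_le_of_forall_mem_sphere_norm_le (C := M) hR hd ?_
  · rw [(cauchy_iter_line v hv z u 0).deriv] at h1
    simp only [zero_smul, add_zero] at h1
    calc ‖fderiv ℂ v z u‖ ≤ M / (r / ‖u‖) := h1
      _ = M / r * ‖u‖ := by field_simp
  · intro t ht
    apply hb
    rw [add_sub_cancel_left, norm_smul]
    rw [mem_sphere_zero_iff_norm] at ht
    rw [ht]
    rw [div_mul_cancel₀ _ hun.ne']

theorem cauchy_iter_op (v : P → ℂ) (hv : Differentiable ℂ v) (z : P) (r M : ℝ) (hr : 0 < r)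
    (hM : 0 ≤ M) (hb : ∀ z' : P, ‖z' - z‖ ≤ r → ‖v z'‖ ≤ M) :
    ‖fderiv ℂ v z‖ ≤ M / r :=
  ContinuousLinearMap.opNorm_le_bound _ (by positivity) fun u =>
    cauchy_iter_one v hv z u r M hr hb

theorem cauchy_iter_formula (v : P → ℂ) (hv : Differentiable ℂ v) (z u : P) :
    fderiv ℂ v z u = (2 * Real.pi * Complex.I : ℂ)⁻¹ * ∫ θ in (0 : ℝ)..2 * Real.pi,
      (deriv (circleMap 0 1) θ * (1 / (circleMap 0 1 θ) ^ 2)) * v (z + circleMap 0 1 θ • u) := by
  have hd : DifferentiableOn ℂ (fun t : ℂ => v (z + t • u)) (Metric.closedBall 0 1) :=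
    fun t _ => (cauchy_iter_line v hv z u t).differentiableAt.differentiableWithinAt
  have h1 := hd.deriv_eq_smul_circleIntegral (c := (0 : ℂ)) one_pos
  rw [(cauchy_iter_line v hv z u 0).deriv] at h1
  simp only [zero_smul, add_zero, sub_zero, smul_eq_mul] at h1
  rw [circleIntegral] at h1
  have h2 : (2 * Real.pi * Complex.I : ℂ) ≠ 0 := Complex.two_pi_I_ne_zero
  rw [eq_inv_mul_iff_mul_eq₀ h2, ← h1]
  refine intervalIntegral.integral_congr fun θ _ => ?_
  simp only [smul_eq_mul]
  ring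

theorem cauchy_iter_dir (v : P → ℂ) (hv : Differentiable ℂ v) (u : P) :
    Differentiable ℂ (fun z => fderiv ℂ v z u) := by
  intro z₀
  have hfun : (fun z => fderiv ℂ v z u) = fun z => (2 * Real.pi * Complex.I : ℂ)⁻¹ *
      ∫ θ in (0 : ℝ)..2 * Real.pi,
      (deriv (circleMap 0 1) θ * (1 / (circleMap 0 1 θ) ^ 2)) * v (z + circleMap 0 1 θ • u) := by
    funext z
    exact cauchy_iter_formula v hv z u
  rw [hfun]
  have hcm : Continuous (circleMap 0 1) := continuous_circleMap 0 1
  have hk : Continuous fun θ : ℝ => (deriv (circleMap 0 1) θ * (1 / (circleMap 0 1 θ) ^ 2) : ℂ) := by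
    have h0 : ∀ θ : ℝ, (circleMap 0 1 θ) ^ 2 ≠ 0 := fun θ => pow_ne_zero _ (by
      have := circleMap_ne_center (c := (0 : ℂ)) (R := 1) one_ne_zero (θ := θ)
      simpa using this)
    simp only [deriv_circleMap]
    exact ((hcm).mul continuous_const).mul (continuous_const.div (hcm.pow 2) h0)
  have hkn : ∀ θ : ℝ, ‖(deriv (circleMap 0 1) θ * (1 / (circleMap 0 1 θ) ^ 2) : ℂ)‖ = 1 := by
    intro θ
    simp [deriv_circleMap]
  have hvc : Continuous v := hv.continuous
  -- bound
  obtain ⟨M, hM⟩ : ∃ M : ℝ, ∀ w ∈ Metric.closedBall z₀ (2 + ‖u‖), ‖v w‖ ≤ M :=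
    (isCompact_closedBall z₀ (2 + ‖u‖)).exists_bound_of_continuousOn hvc.continuousOn
  have hM0 : 0 ≤ M := by
    have := hM z₀ (Metric.mem_closedBall_self (by positivity))
    exact (norm_nonneg _).trans this
  have hcn : ∀ θ : ℝ, ‖circleMap 0 1 θ • u‖ = ‖u‖ := by
    intro θ; rw [norm_smul]; simp
  have key := intervalIntegral.hasFDerivAt_integral_of_dominated_of_fderiv_le (𝕜 := ℂ)
    (μ := volume) (a := 0) (b := 2 * Real.pi)
    (F := fun (z : P) (θ : ℝ) => (deriv (circleMap 0 1) θ * (1 / (circleMap 0 1 θ) ^ 2)) *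
      v (z + circleMap 0 1 θ • u))
    (F' := fun (z : P) (θ : ℝ) => (deriv (circleMap 0 1) θ * (1 / (circleMap 0 1 θ) ^ 2)) •
      fderiv ℂ v (z + circleMap 0 1 θ • u))
    (x₀ := z₀) (s := Metric.ball z₀ 1) (bound := fun _ => M)
    (Metric.ball_mem_nhds z₀ one_pos) ?_ ?_ ?_ ?_ ?_ ?_
  · exact (key.const_mul _).differentiableAt
  · refine Filter.Eventually.of_forall fun z => ?_
    refine Continuous.aestronglyMeasurable ?_
    exact hk.mul (hvc.comp (continuous_const.add (hcm.smul continuous_const)))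
  · refine Continuous.intervalIntegrable ?_ _ _
    exact hk.mul (hvc.comp (continuous_const.add (hcm.smul continuous_const)))
  · refine Measurable.aestronglyMeasurable ?_
    refine hk.measurable.smul ?_
    exact (measurable_fderiv ℂ v).comp
      (continuous_const.add (hcm.smul continuous_const)).measurable
  · refine Filter.Eventually.of_forall fun θ _ x hx => ?_
    rw [norm_smul, hkn, one_mul]
    have h3 := cauchy_iter_op v hv (x + circleMap 0 1 θ • u) 1 M one_pos hM0 ?_
    · simpa using h3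
    · intro w hw
      apply hM
      rw [Metric.mem_closedBall, dist_eq_norm]
      rw [Metric.mem_ball, dist_eq_norm] at hx
      calc ‖w - z₀‖ = ‖(w - (x + circleMap 0 1 θ • u)) + (x - z₀) + circleMap 0 1 θ • u‖ := by
            congr 1; abel
        _ ≤ ‖w - (x + circleMap 0 1 θ • u)‖ + ‖x - z₀‖ + ‖circleMap 0 1 θ • u‖ := by
            refine (norm_add_le _ _).trans ?_
            gcongr
            exact norm_add_le _ _
        _ ≤ 1 + 1 + ‖u‖ := by
            rw [hcn]
            gcongr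
        _ = 2 + ‖u‖ := by ring
  · exact intervalIntegrable_const
  · refine Filter.Eventually.of_forall fun θ _ x _ => ?_
    have h4 : HasFDerivAt (fun x : P => v (x + circleMap 0 1 θ • u))
        (fderiv ℂ v (x + circleMap 0 1 θ • u)) x := by
      have h5 : HasFDerivAt (fun x : P => x + circleMap 0 1 θ • u)
          (ContinuousLinearMap.id ℂ P) x := (hasFDerivAt_id x).add_const _
      have h6 := (hv (x + circleMap 0 1 θ • u)).hasFDerivAt.comp x h5
      rw [ContinuousLinearMap.comp_id] at h6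
      exact h6
    exact h4.const_mul _

theorem cauchy_iter_contDiff (n : ℕ) : ∀ v : P → ℂ, Differentiable ℂ v → ContDiff ℂ n v := by
  induction n with
  | zero =>
    intro v hv
    exact contDiff_zero.mpr hv.continuous
  | succ n ih =>
    intro v hv
    have h := (contDiff_succ_iff_fderiv_apply (𝕜 := ℂ) (n := (n : WithTop ℕ∞)) (f := v)).mpr
      ⟨hv, fun h => absurd h (by simp), fun y => ih _ (cauchy_iter_dir v hv y)⟩
    exact_mod_cast h

theorem cauchy_iter_aux (l : ℕ) : ∃ C : ℝ, 0 < C ∧ ∀ v : P → ℂ, Differentiable ℂ v →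
    ∀ (z : P) (r M : ℝ), 0 < r → 0 ≤ M → (∀ z' : P, ‖z' - z‖ ≤ r → ‖v z'‖ ≤ M) →
    ∀ m : Fin l → P, ‖iteratedFDeriv ℝ l v z m‖ ≤ C * M / r ^ l * ∏ i, ‖m i‖ := by
  induction l with
  | zero =>
    refine ⟨1, one_pos, ?_⟩
    intro v hv z r M hr hM hb m
    have := hb z (by simpa using hr.le)
    simpa using this
  | succ l ih =>
    obtain ⟨C, hC, h⟩ := ih
    refine ⟨C * 2 ^ (l + 1), by positivity, ?_⟩
    intro v hv z r M hr hM hb m
    set u : P := m (Fin.last l) with hu
    have hw : Differentiable ℂ (fun y => fderiv ℂ v y u) := cauchy_iter_dir v hv u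
    have hwb : ∀ z' : P, ‖z' - z‖ ≤ r / 2 → ‖fderiv ℂ v z' u‖ ≤ M / (r / 2) * ‖u‖ := by
      intro z' hz'
      refine cauchy_iter_one v hv z' u (r / 2) M (by linarith) ?_
      intro w hw
      apply hb
      calc ‖w - z‖ = ‖(w - z') + (z' - z)‖ := by congr 1; abel
        _ ≤ ‖w - z'‖ + ‖z' - z‖ := norm_add_le _ _
        _ ≤ r := by linarith
    have h1 := h _ hw z (r / 2) (M / (r / 2) * ‖u‖) (by linarith) (by positivity) hwb (Fin.init m)
    have h2 : iteratedFDeriv ℝ (l + 1) v z m =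
        iteratedFDeriv ℝ l (fun y => fderiv ℂ v y u) z (Fin.init m) := by
      rw [iteratedFDeriv_succ_apply_right]
      have hcd : ContDiff ℝ (l + 1 : ℕ) v := (cauchy_iter_contDiff (l + 1) v hv).restrict_scalars ℝ
      have hcd2 : ContDiff ℝ l (fun y => fderiv ℝ v y) :=
        hcd.fderiv_right (by norm_cast)
      have h3 := (ContinuousLinearMap.apply ℝ ℂ u).iteratedFDeriv_comp_left
        (f := fun y => fderiv ℝ v y) (x := z) (n := (l : WithTop ℕ∞)) hcd2.contDiffAt
        (i := l) le_rfl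
      have h4 : (fun y => fderiv ℂ v y u) =
          (ContinuousLinearMap.apply ℝ ℂ u) ∘ (fun y => fderiv ℝ v y) := by
        funext y
        simp only [Function.comp, ContinuousLinearMap.apply_apply]
        rw [(hv y).fderiv_restrictScalars ℝ]
        rfl
      rw [h4, h3]
      rfl
    rw [h2]
    refine h1.trans (le_of_eq ?_)
    rw [Fin.prod_univ_castSucc]
    have h5 : ∀ i : Fin l, ‖m i.castSucc‖ = ‖Fin.init m i‖ := fun i => rfl
    simp only [h5]
    rw [← hu]
    rw [div_pow]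
    field_simp
    ring

theorem cauchy_iter (l : ℕ) : ∃ C : ℝ, 0 < C ∧ ∀ v : P → ℂ, Differentiable ℂ v → ∀ (z : P) (r M : ℝ),
    0 < r → 0 ≤ M → (∀ z' : P, ‖z' - z‖ ≤ r → ‖v z'‖ ≤ M) → ‖iteratedFDeriv ℝ l v z‖ ≤ C * M / r ^ l := by
  obtain ⟨C, hC, h⟩ := cauchy_iter_aux l
  refine ⟨C, hC, fun v hv z r M hr hM hb => ?_⟩
  exact ContinuousMultilinearMap.opNorm_le_bound (by positivity) (h v hv z r M hr hM hb)

end Pool.Agent.H892PB
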