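import Pool.Agent.Helper892.PB.Geo
import Pool.Agent.Helper892.PB.CIt

set_option autoImplicit false

open MeasureTheory Set
open scoped ComplexConjugate

namespace Pool.Agent.H892PB

/-! ### cauchy_diffs -/

noncomputable def cauchy_diffs_J (w : P) : P := (-w.2, w.1)

noncomputable def cauchy_diffs_cj (x : P) : P := (conj x.1, conj x.2)

noncomputable def cauchy_diffs_L (p q r s : ℂ) (X : P × P) : P × P :=
  (p • X.1 + q • cauchy_diffs_J X.2, r • cauchy_diffs_J X.1 + s • X.2)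

noncomputable def cauchy_diffs_Ly (y : P) (X : P × P) : P × P :=
  cauchy_diffs_L y.1 y.2 (conj y.2) (conj y.1) X

noncomputable def cauchy_diffs_dC : List P → (P × P → ℂ) → P × P → ℂ
  | [], U, X => U X
  | y :: ys, U, X => cauchy_diffs_dC ys U X - cauchy_diffs_dC ys U (cauchy_diffs_Ly y X)

def cauchy_diffs_N (s : ℝ) (X : P × P) : Prop :=
  ∃ x ∈ S, ∃ p q r t : ℂ, ‖p - 1‖ ≤ Real.cosh s - 1 ∧ ‖q‖ ≤ Real.sinh s ∧ ‖r‖ ≤ Real.sinh s ∧
    ‖t - 1‖ ≤ Real.cosh s - 1 ∧ X = cauchy_diffs_L p q r t (x, cauchy_diffs_cj x)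

theorem cauchy_diffs_comp (p q r s p' q' r' s' : ℂ) (X : P × P) :
    cauchy_diffs_L p' q' r' s' (cauchy_diffs_L p q r s X) =
      cauchy_diffs_L (p' * p - q' * r) (p' * q + q' * s) (r' * p + s' * r) (s' * s - r' * q) X := by
  obtain ⟨⟨x1, x2⟩, ⟨w1, w2⟩⟩ := X
  simp only [cauchy_diffs_L, cauchy_diffs_J, Prod.smul_mk, Prod.mk_add_mk, smul_eq_mul, Prod.mk.injEq,
    Prod.fst_add, Prod.snd_add, Prod.smul_fst, Prod.smul_snd]
  refine ⟨⟨?_, ?_⟩, ?_, ?_⟩ <;> ring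

theorem cauchy_diffs_Ly_base (y x : P) :
    cauchy_diffs_Ly y (x, cauchy_diffs_cj x) = (act y x, cauchy_diffs_cj (act y x)) := by
  obtain ⟨x1, x2⟩ := x
  obtain ⟨a, b⟩ := y
  refine Prod.ext (Prod.ext ?_ ?_) (Prod.ext ?_ ?_)
  all_goals
    simp only [cauchy_diffs_Ly, cauchy_diffs_L, cauchy_diffs_J, cauchy_diffs_cj, act, perp, Prod.smul_mk,
      Prod.mk_add_mk, smul_eq_mul, map_add, map_mul, map_neg, Complex.conj_conj]
    try ring

/-- `X + t (yX - X) = L_{y(t)} X` -/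
theorem cauchy_diffs_path (y : P) (t : ℂ) (X : P × P) :
    X + t • (cauchy_diffs_Ly y X - X) =
      cauchy_diffs_L (1 + t * (y.1 - 1)) (t * y.2) (t * conj y.2) (1 + t * (conj y.1 - 1)) X := by
  obtain ⟨⟨x1, x2⟩, ⟨w1, w2⟩⟩ := X
  obtain ⟨a, b⟩ := y
  simp only [cauchy_diffs_Ly, cauchy_diffs_L, cauchy_diffs_J, Prod.smul_mk, Prod.mk_add_mk, smul_eq_mul,
    Prod.mk.injEq, Prod.mk_sub_mk]
  refine ⟨⟨?_, ?_⟩, ?_, ?_⟩ <;> ring

theorem cauchy_diffs_Ly_add (y : P) (X V : P × P) (t : ℂ) :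
    cauchy_diffs_Ly y (X + t • V) = cauchy_diffs_Ly y X + t • cauchy_diffs_Ly y V := by
  obtain ⟨⟨x1, x2⟩, ⟨w1, w2⟩⟩ := X
  obtain ⟨⟨v1, v2⟩, ⟨u1, u2⟩⟩ := V
  obtain ⟨a, b⟩ := y
  simp only [cauchy_diffs_Ly, cauchy_diffs_L, cauchy_diffs_J, Prod.smul_mk, Prod.mk_add_mk, smul_eq_mul,
    Prod.mk.injEq, Prod.mk_sub_mk]
  refine ⟨⟨?_, ?_⟩, ?_, ?_⟩ <;> ring

theorem cauchy_diffs_N_mul {s s' : ℝ} (hs : 0 ≤ s) (hs' : 0 ≤ s') {X : P × P} (hX : cauchy_diffs_N s X)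
    {p' q' r' t' : ℂ} (hp : ‖p' - 1‖ ≤ Real.cosh s' - 1) (hq : ‖q'‖ ≤ Real.sinh s')
    (hr : ‖r'‖ ≤ Real.sinh s') (ht : ‖t' - 1‖ ≤ Real.cosh s' - 1) :
    cauchy_diffs_N (s + s') (cauchy_diffs_L p' q' r' t' X) := by
  obtain ⟨x, hx, p, q, r, t, h1, h2, h3, h4, rfl⟩ := hX
  have c1 : 1 ≤ Real.cosh s := Real.one_le_cosh s
  have c2 : 1 ≤ Real.cosh s' := Real.one_le_cosh s'
  have e1 : 0 ≤ Real.sinh s := Real.sinh_nonneg_iff.2 hs
  have e2 : 0 ≤ Real.sinh s' := Real.sinh_nonneg_iff.2 hs'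
  have key : ∀ {a b c d : ℂ}, ‖a - 1‖ ≤ Real.cosh s' - 1 → ‖b - 1‖ ≤ Real.cosh s - 1 →
      ‖c‖ ≤ Real.sinh s' → ‖d‖ ≤ Real.sinh s → ‖a * b - c * d - 1‖ ≤ Real.cosh (s + s') - 1 := by
    intro a b c d ha hb hc hd
    have : a * b - c * d - 1 = (a - 1) * (b - 1) + (a - 1) + (b - 1) - c * d := by ring
    rw [this]
    calc ‖(a - 1) * (b - 1) + (a - 1) + (b - 1) - c * d‖
        ≤ ‖(a - 1) * (b - 1) + (a - 1) + (b - 1)‖ + ‖c * d‖ := norm_sub_le _ _
      _ ≤ (‖(a - 1) * (b - 1) + (a - 1)‖ + ‖b - 1‖) + ‖c * d‖ := by gcongr; exact norm_add_le _ _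
      _ ≤ ((‖(a - 1) * (b - 1)‖ + ‖a - 1‖) + ‖b - 1‖) + ‖c * d‖ := by gcongr; exact norm_add_le _ _
      _ = ((‖a - 1‖ * ‖b - 1‖ + ‖a - 1‖) + ‖b - 1‖) + ‖c‖ * ‖d‖ := by rw [norm_mul, norm_mul]
      _ ≤ (((Real.cosh s' - 1) * (Real.cosh s - 1) + (Real.cosh s' - 1)) + (Real.cosh s - 1)) +
          Real.sinh s' * Real.sinh s := by
        gcongr
      _ = Real.cosh (s + s') - 1 := by rw [Real.cosh_add]; ring
  have key2 : ∀ {a b c d : ℂ}, ‖a - 1‖ ≤ Real.cosh s' - 1 → ‖b‖ ≤ Real.sinh s →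
      ‖c‖ ≤ Real.sinh s' → ‖d - 1‖ ≤ Real.cosh s - 1 → ‖a * b + c * d‖ ≤ Real.sinh (s + s') := by
    intro a b c d ha hb hc hd
    have ha' : ‖a‖ ≤ Real.cosh s' := by
      have := norm_add_le (a - 1) 1
      rw [sub_add_cancel, norm_one] at this
      linarith
    have hd' : ‖d‖ ≤ Real.cosh s := by
      have := norm_add_le (d - 1) 1
      rw [sub_add_cancel, norm_one] at this
      linarith
    calc ‖a * b + c * d‖ ≤ ‖a * b‖ + ‖c * d‖ := norm_add_le _ _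
      _ = ‖a‖ * ‖b‖ + ‖c‖ * ‖d‖ := by rw [norm_mul, norm_mul]
      _ ≤ Real.cosh s' * Real.sinh s + Real.sinh s' * Real.cosh s := by gcongr
      _ = Real.sinh (s + s') := by rw [Real.sinh_add]; ring
  refine ⟨x, hx, _, _, _, _, ?_, ?_, ?_, ?_, cauchy_diffs_comp _ _ _ _ _ _ _ _ _⟩
  · exact key hp h1 hq h3
  · exact key2 hp h2 hq h4
  · have := key2 (a := t') (b := r) (c := r') (d := p) ht h3 hr h1
    rwa [add_comm] at this
  · exact key ht h4 hr h2

theorem cauchy_diffs_cosh_ge (s : ℝ) : s ^ 2 / 2 ≤ Real.cosh s - 1 := by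
  wlog hs : 0 ≤ s with H
  · have := H (-s) (by linarith)
    rw [Real.cosh_neg] at this
    simpa using this
  have h1 : Real.cosh s = 1 + 2 * Real.sinh (s / 2) ^ 2 := by
    have := Real.cosh_two_mul (s / 2)
    rw [show 2 * (s / 2) = s by ring] at this
    rw [this, Real.cosh_sq]
    ring
  have h2 : s / 2 ≤ Real.sinh (s / 2) := Real.self_le_sinh_iff.2 (by linarith)
  have h3 : (s / 2) ^ 2 ≤ Real.sinh (s / 2) ^ 2 := by
    apply pow_le_pow_left₀ (by linarith) h2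
  rw [h1]
  nlinarith

theorem cauchy_diffs_cosh_le {s : ℝ} (hs : 0 ≤ s) (hs1 : s ≤ 1) : Real.cosh s - 1 ≤ s ^ 2 := by
  have h1 := Real.cosh_le_exp_half_sq s
  have h2 := Real.abs_exp_sub_one_le (x := s ^ 2 / 2) (by rw [abs_of_nonneg (by positivity)]; nlinarith)
  rw [abs_of_nonneg (show (0:ℝ) ≤ s ^ 2 / 2 by positivity)] at h2
  have := (abs_le.1 h2).2
  linarith

theorem cauchy_diffs_sinh_le {s : ℝ} (hs : 0 ≤ s) (hs1 : s ≤ 1) : Real.sinh s ^ 2 ≤ 3 * s ^ 2 := by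
  have h1 := cauchy_diffs_cosh_le hs hs1
  have h2 := Real.cosh_sq s
  have h3 := Real.one_le_cosh s
  have h4 : s ^ 2 ≤ 1 := by nlinarith
  have h5 : 0 ≤ (Real.cosh s - 1) * (3 - (Real.cosh s + 1)) := by
    apply mul_nonneg <;> linarith
  nlinarith

theorem cauchy_diffs_schwarz {g : ℂ → ℂ} (hg : Differentiable ℂ g) {R B : ℝ} (hR : 1 < R)
    (hB : ∀ t, ‖t‖ ≤ R → ‖g t‖ ≤ B) : ‖g 0 - g 1‖ ≤ 2 * B / R := by
  have h := Complex.dist_le_div_mul_dist_of_mapsTo_ball (f := g) (c := 0) (z := 1) (R₁ := R) (R₂ := 2 * B)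
    hg.differentiableOn (by
      intro t ht
      rw [Metric.mem_ball, dist_zero_right] at ht
      rw [Metric.mem_closedBall, dist_eq_norm]
      have h1 := hB t ht.le
      have h2 := hB 0 (by rw [norm_zero]; linarith)
      have := norm_sub_le (g t) (g 0)
      linarith) (by rw [Metric.mem_ball, dist_zero_right, norm_one]; exact hR)
  rw [dist_zero_right, norm_one, mul_one, dist_eq_norm, norm_sub_rev] at h
  exact h

theorem cauchy_diffs_dC_diff (ys : List P) (U : P × P → ℂ)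
    (hU : ∀ X V : P × P, Differentiable ℂ (fun t : ℂ => U (X + t • V))) (X V : P × P) :
    Differentiable ℂ (fun t : ℂ => cauchy_diffs_dC ys U (X + t • V)) := by
  induction ys generalizing X V with
  | nil => exact hU X V
  | cons y ys ih =>
    simp only [cauchy_diffs_dC]
    apply Differentiable.sub (ih X V)
    have : (fun t : ℂ => cauchy_diffs_dC ys U (cauchy_diffs_Ly y (X + t • V))) =
        fun t : ℂ => cauchy_diffs_dC ys U (cauchy_diffs_Ly y X + t • cauchy_diffs_Ly y V) := by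
      funext t
      rw [cauchy_diffs_Ly_add]
    rw [this]
    exact ih _ _

theorem cauchy_diffs_b {y : P} (hy : y ∈ S) : ‖y.2‖ ^ 2 ≤ 2 * ‖1 - y.1‖ := by
  have h1 : ‖y.1‖ ^ 2 + ‖y.2‖ ^ 2 = 1 := hy
  have h2 : 1 ≤ ‖y.1‖ + ‖1 - y.1‖ := by
    have := norm_add_le y.1 (1 - y.1)
    rw [add_sub_cancel, norm_one] at this
    exact this
  have h3 : ‖y.1‖ ≤ 1 := by nlinarith [norm_nonneg y.1, norm_nonneg y.2, sq_nonneg ‖y.2‖]
  nlinarith [norm_nonneg y.1]

theorem cauchy_diffs_main (U : P × P → ℂ)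
    (hU : ∀ X V : P × P, Differentiable ℂ (fun t : ℂ => U (X + t • V))) (M : ℝ) (hM : 0 ≤ M) {s1 : ℝ}
    (hs1 : 0 < s1) (ys : List P) (hys : ∀ y ∈ ys, y ∈ S ∧ 2 * √‖1 - y.1‖ < s1) (s0 : ℝ) (hs0 : 0 ≤ s0)
    (hN : ∀ X, cauchy_diffs_N (s0 + ys.length * s1) X → ‖U X‖ ≤ M) (X : P × P) (hX : cauchy_diffs_N s0 X) :
    ‖cauchy_diffs_dC ys U X‖ ≤ M * (ys.map (fun y => 4 * √‖1 - y.1‖ / s1)).prod := by
  induction ys generalizing s0 X with
  | nil =>
    simp only [cauchy_diffs_dC, List.map_nil, List.prod_nil, mul_one]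
    apply hN
    simpa using hX
  | cons y ys ih =>
    simp only [cauchy_diffs_dC, List.map_cons, List.prod_cons]
    set δ : ℝ := √‖1 - y.1‖ with hδ
    have hδ2 : δ ^ 2 = ‖1 - y.1‖ := Real.sq_sqrt (norm_nonneg _)
    have hδ0 : 0 ≤ δ := Real.sqrt_nonneg _
    obtain ⟨hyS, hyd⟩ := hys y (by simp)
    have hb := cauchy_diffs_b hyS
    rw [← hδ2] at hb
    rcases hδ0.eq_or_lt with h0 | h0
    · have hz : ‖1 - y.1‖ = 0 := by rw [← hδ2, ← h0]; ring
      have hy1 : y.1 = 1 := by rw [norm_eq_zero, sub_eq_zero] at hz; exact hz.symm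
      have hy2 : y.2 = 0 := by
        rw [← h0] at hb
        have : ‖y.2‖ ^ 2 = 0 := le_antisymm (by simpa using hb) (by positivity)
        exact norm_eq_zero.1 (by simpa using this)
      have : cauchy_diffs_Ly y X = X := by
        obtain ⟨⟨x1, x2⟩, ⟨w1, w2⟩⟩ := X
        simp [cauchy_diffs_Ly, cauchy_diffs_L, hy1, hy2]
      rw [this, sub_self, norm_zero, ← h0]
      simp
    · set R : ℝ := s1 / (2 * δ) with hR
      have hR1 : 1 < R := by rw [hR, one_lt_div (by positivity)]; exact hyd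
      have hRδ : 2 * (R * δ) = s1 := by rw [hR]; field_simp
      have hlen : s0 + ((y :: ys).length : ℕ) * s1 = (s0 + s1) + ys.length * s1 := by
        simp only [List.length_cons, Nat.cast_add, Nat.cast_one]
        ring
      rw [hlen] at hN
      have hstep : ∀ t : ℂ, ‖t‖ ≤ R → ‖cauchy_diffs_dC ys U (X + t • (cauchy_diffs_Ly y X - X))‖ ≤
          M * (ys.map (fun y => 4 * √‖1 - y.1‖ / s1)).prod := by
        intro t ht
        apply ih (fun y hy => hys y (by simp [hy])) (s0 + s1) (by positivity) hN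
        rw [cauchy_diffs_path]
        have hc := cauchy_diffs_cosh_ge s1
        have hsi : s1 ≤ Real.sinh s1 := Real.self_le_sinh_iff.2 hs1.le
        have hdiag : ∀ a : ℂ, ‖a - 1‖ = δ ^ 2 → ‖1 + t * (a - 1) - 1‖ ≤ Real.cosh s1 - 1 := by
          intro a ha
          rw [add_sub_cancel_left, norm_mul, ha]
          calc ‖t‖ * δ ^ 2 ≤ R * δ ^ 2 := by gcongr
            _ ≤ s1 ^ 2 / 2 := by
              rw [← hRδ]
              have : 0 ≤ R * δ ^ 2 * (2 * R - 1) := by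
                apply mul_nonneg (by positivity); linarith
              nlinarith
            _ ≤ _ := hc
        have hoff : ∀ b : ℂ, ‖b‖ = ‖y.2‖ → ‖t * b‖ ≤ Real.sinh s1 := by
          intro b hb'
          rw [norm_mul, hb']
          have hb2 : ‖y.2‖ ≤ 2 * δ := by
            apply le_of_sq_le_sq _ (by positivity)
            nlinarith
          calc ‖t‖ * ‖y.2‖ ≤ R * (2 * δ) := by gcongr
            _ = s1 := by rw [← hRδ]; ring
            _ ≤ _ := hsi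
        have hconj : ‖conj y.1 - 1‖ = δ ^ 2 := by
          rw [hδ2, ← Complex.norm_conj (1 - y.1), norm_sub_rev]
          simp
        apply cauchy_diffs_N_mul hs0 hs1.le hX
        · exact hdiag _ (by rw [hδ2, norm_sub_rev])
        · exact hoff _ rfl
        · exact hoff _ (Complex.norm_conj _)
        · exact hdiag _ hconj
      have hfin := cauchy_diffs_schwarz (cauchy_diffs_dC_diff ys U hU X (cauchy_diffs_Ly y X - X)) hR1 hstep
      simp only [zero_smul, add_zero, one_smul, add_sub_cancel] at hfin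
      refine hfin.trans (le_of_eq ?_)
      rw [hR]
      field_simp
      ring

theorem cauchy_diffs_real (ys : List P) (u : P → ℂ) (U : P × P → ℂ)
    (hu : ∀ x, u x = U (x, cauchy_diffs_cj x)) (z : P) :
    diffs ys (fun z => (u z).re) z = (cauchy_diffs_dC ys U (z, cauchy_diffs_cj z)).re := by
  induction ys generalizing z with
  | nil => simp only [diffs, cauchy_diffs_dC, hu]
  | cons y ys ih =>
    simp only [diffs, cauchy_diffs_dC, Complex.sub_re]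
    rw [ih, ih, cauchy_diffs_Ly_base]

theorem cauchy_diffs_Udiff {ι : Type} [Fintype ι] (A B : ι → P → ℂ) (hA : ∀ i, Differentiable ℂ (A i))
    (hB : ∀ i, Differentiable ℂ (B i)) (X V : P × P) :
    Differentiable ℂ (fun t : ℂ => ∑ i, A i (X + t • V).1 * conj (B i (cauchy_diffs_cj (X + t • V).2))) := by
  apply Differentiable.fun_sum
  intro i _
  apply Differentiable.mul
  · apply (hA i).comp
    show Differentiable ℂ (fun t : ℂ => X.1 + t • V.1)
    fun_prop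
  · intro t
    have h1 : Differentiable ℂ (fun τ : ℂ => B i (cauchy_diffs_cj X.2 + τ • cauchy_diffs_cj V.2)) := by
      apply (hB i).comp
      fun_prop
    have h2 := (h1 (conj t)).conj_conj
    rw [Complex.conj_conj] at h2
    have h3 : (fun t : ℂ => conj (B i (cauchy_diffs_cj (X + t • V).2))) =
        (⇑(starRingEnd ℂ) ∘ (fun τ : ℂ => B i (cauchy_diffs_cj X.2 + τ • cauchy_diffs_cj V.2)) ∘ ⇑(starRingEnd ℂ)) := by
      funext τ
      simp only [Function.comp]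
      congr 2
      simp [cauchy_diffs_cj]
    rw [h3]
    exact h2

theorem cauchy_diffs (m : ℕ) : ∃ c0 C : ℝ, 0 < c0 ∧ 0 < C ∧ ∀ k : ℕ, 1 ≤ k → ∀ (ι : Type) [Fintype ι]
    (A B : ι → P → ℂ), (∀ i, Differentiable ℂ (A i)) → (∀ i, Differentiable ℂ (B i)) → ∀ M : ℝ, 0 ≤ M →
    (∀ x ∈ S, ∀ α β α' β' : ℂ, ‖α - 1‖ ≤ 1 / k → ‖β‖ ^ 2 ≤ 1 / k → ‖α' - 1‖ ≤ 1 / k → ‖β'‖ ^ 2 ≤ 1 / k →
      ‖∑ i, A i (α • x + β • perp x) * conj (B i (α' • x + β' • perp x))‖ ≤ M) →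
    ∀ ys : List P, ys.length = m → (∀ y ∈ ys, y ∈ S ∧ k * ‖1 - y.1‖ ≤ c0) → ∀ z ∈ S,
      |diffs ys (fun z => (∑ i, A i z * conj (B i z)).re) z|
        ≤ C * M * (ys.map (fun y => √(k * ‖1 - y.1‖))).prod := by
  refine ⟨1 / (8 * ((m:ℝ) + 1)) ^ 2, (8 * ((m:ℝ) + 1)) ^ m, by positivity, by positivity, ?_⟩
  intro k hk ι _ A B hA hB M hM hbd ys hlen hys z hz
  have hk0 : (0:ℝ) < k := by exact_mod_cast hk
  have hk1 : (1:ℝ) ≤ k := by exact_mod_cast hk
  have hsk : 0 < √(k:ℝ) := Real.sqrt_pos.2 hk0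
  have hsk2 : √(k:ℝ) ^ 2 = k := Real.sq_sqrt hk0.le
  have hsk1 : 1 ≤ √(k:ℝ) := by rw [Real.one_le_sqrt]; exact hk1
  set U : P × P → ℂ := fun X => ∑ i, A i X.1 * conj (B i (cauchy_diffs_cj X.2)) with hUdef
  set s1 : ℝ := 1 / (2 * ((m:ℝ) + 1) * √k) with hs1
  have hm0 : (0:ℝ) < (m:ℝ) + 1 := by positivity
  have hs1pos : 0 < s1 := by positivity
  have hms : (m:ℝ) * s1 ≤ 1 / (2 * √k) := by
    rw [hs1, mul_one_div, div_le_div_iff₀ (by positivity) (by positivity)]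
    nlinarith
  have hreal := cauchy_diffs_real ys (fun z => ∑ i, A i z * conj (B i z)) U (by
    intro x
    simp only [hUdef]
    apply Finset.sum_congr rfl
    intro i _
    congr 3
    simp [cauchy_diffs_cj]) z
  rw [hreal]
  refine (Complex.abs_re_le_norm _).trans ?_
  have hmain := cauchy_diffs_main U (fun X V => cauchy_diffs_Udiff A B hA hB X V) M hM hs1pos ys (by
    intro y hy
    obtain ⟨h1, h2⟩ := hys y hy
    refine ⟨h1, ?_⟩
    have h3 : √(k:ℝ) * √‖1 - y.1‖ ≤ 1 / (8 * ((m:ℝ) + 1)) := by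
      rw [← Real.sqrt_mul hk0.le]
      calc √(k * ‖1 - y.1‖) ≤ √((1 / (8 * ((m:ℝ) + 1))) ^ 2) := Real.sqrt_le_sqrt (by rw [one_div_pow]; exact h2)
        _ = _ := Real.sqrt_sq (by positivity)
    rw [hs1, lt_div_iff₀ (by positivity)]
    rw [le_div_iff₀ (by positivity)] at h3
    nlinarith [Real.sqrt_nonneg ‖1 - y.1‖]) 0 le_rfl (by
    rintro X ⟨x, hx, p, q, r, t, h1, h2, h3, h4, rfl⟩
    rw [zero_add, hlen] at h1 h2 h3 h4
    set s : ℝ := m * s1 with hs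
    have hs0 : 0 ≤ s := by positivity
    have hsq : s ^ 2 ≤ 1 / (4 * (k:ℝ)) := by
      calc s ^ 2 ≤ (1 / (2 * √(k:ℝ))) ^ 2 := by gcongr
        _ = 1 / (4 * (k:ℝ)) := by rw [one_div_pow, mul_pow, hsk2]; norm_num
    have hs1' : s ≤ 1 := by
      refine hms.trans ?_
      rw [div_le_one (by positivity)]
      linarith
    have hc := cauchy_diffs_cosh_le hs0 hs1'
    have hsh := cauchy_diffs_sinh_le hs0 hs1'
    have hsh0 : 0 ≤ Real.sinh s := Real.sinh_nonneg_iff.2 hs0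
    have hk4 : 1 / (4 * (k:ℝ)) ≤ 1 / k := by
      apply one_div_le_one_div_of_le hk0; linarith
    have hk34 : 3 * (1 / (4 * (k:ℝ))) ≤ 1 / k := by
      rw [mul_one_div, div_le_div_iff₀ (by positivity) hk0]; linarith
    have hoff : ∀ b : ℂ, ‖b‖ ≤ Real.sinh s → ‖b‖ ^ 2 ≤ 1 / k := by
      intro b hb
      calc ‖b‖ ^ 2 ≤ Real.sinh s ^ 2 := by gcongr
        _ ≤ 3 * s ^ 2 := hsh
        _ ≤ 3 * (1 / (4 * k)) := by gcongr
        _ ≤ _ := hk34
    have := hbd x hx p q (conj t) (conj r) (h1.trans (hc.trans (hsq.trans hk4))) (hoff _ h2)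
      (by
        have : ‖conj t - 1‖ = ‖t - 1‖ := by
          rw [← Complex.norm_conj (t - 1)]; simp
        rw [this]
        exact h4.trans (hc.trans (hsq.trans hk4))) (hoff _ (by rw [Complex.norm_conj]; exact h3))
    convert this using 2
    simp only [hUdef]
    apply Finset.sum_congr rfl
    intro i _
    have e1 : (cauchy_diffs_L p q r t (x, cauchy_diffs_cj x)).1 = p • x + q • perp x := by
      simp only [cauchy_diffs_L, cauchy_diffs_J, cauchy_diffs_cj, perp]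
    have e2 : cauchy_diffs_cj (cauchy_diffs_L p q r t (x, cauchy_diffs_cj x)).2 = conj t • x + conj r • perp x := by
      refine Prod.ext ?_ ?_
      · simp [cauchy_diffs_L, cauchy_diffs_J, cauchy_diffs_cj, perp]; ring
      · simp [cauchy_diffs_L, cauchy_diffs_J, cauchy_diffs_cj, perp]; ring
    rw [e1, e2]) (z, cauchy_diffs_cj z) ⟨z, hz, 1, 0, 0, 1, by simp, by simp, by simp, by simp, by
        simp [cauchy_diffs_L]⟩
  refine hmain.trans (le_of_eq ?_)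
  rw [mul_comm ((8 * ((m:ℝ) + 1)) ^ m) M, mul_assoc]
  congr 1
  clear hmain hreal hz hys
  have hterm : ∀ y : P, 4 * √‖1 - y.1‖ / s1 = (8 * ((m:ℝ) + 1)) * √(k * ‖1 - y.1‖) := by
    intro y
    rw [hs1, Real.sqrt_mul hk0.le]
    field_simp
    ring
  simp only [hterm]
  have hgen : ∀ (c : ℝ) (l : List P), (l.map (fun y : P => c * √(k * ‖1 - y.1‖))).prod =
      c ^ l.length * (l.map (fun y : P => √(k * ‖1 - y.1‖))).prod := by
    intro c l
    induction l with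
    | nil => simp
    | cons a l ih => simp only [List.map_cons, List.prod_cons, List.length_cons, ih]; ring
  rw [hgen, hlen]

/-! ### exists_orth -/

theorem exists_orth_line (l : ℕ) (H : P → ℂ) (hH : Differentiable ℂ H) (ζ u : P) :
    iteratedDeriv l (fun t : ℂ => H (ζ + t • u)) 0 = iteratedFDeriv ℂ l H ζ (fun _ => u) := by
  have h1 : (fun t : ℂ => H (ζ + t • u)) =
      (fun y : P => H (ζ + y)) ∘ (ContinuousLinearMap.toSpanSingleton ℂ u) := by
    funext t; simp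
  have hcd : ContDiff ℂ l (fun y : P => H (ζ + y)) :=
    (cauchy_iter_contDiff l H hH).comp (contDiff_const.add contDiff_id)
  rw [iteratedDeriv_eq_iteratedFDeriv, h1,
    ContinuousLinearMap.iteratedFDeriv_comp_right _ hcd 0 le_rfl, map_zero,
    iteratedFDeriv_comp_add_left]
  simp

theorem exists_orth (w d : ℕ) (hd : 2 ^ w ≤ d) (h : Fin d → P → ℂ) (hh : ∀ c, Differentiable ℂ (h c)) (ζ : P) :
    ∃ ξ : Fin d → ℂ, ∑ c, ‖ξ c‖ ^ 2 = 1 ∧ ∀ l < w, ∀ u : P,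
      iteratedDeriv l (fun t : ℂ => ∑ c, h c (ζ + t • u) * conj (ξ c)) 0 = 0 := by
  classical
  let b : Module.Basis (Fin 2) ℂ P := Module.finBasisOfFinrankEq ℂ P (by simp)
  let Φ : (Fin d → ℂ) →ₗ[ℂ] ((Σ l : Fin w, (Fin l → Fin 2)) → ℂ) :=
    LinearMap.pi (fun s => ∑ c, (iteratedFDeriv ℂ s.1 (h c) ζ (fun i => b (s.2 i))) • LinearMap.proj c)
  have hcard : Module.finrank ℂ ((Σ l : Fin w, (Fin l → Fin 2)) → ℂ) < Module.finrank ℂ (Fin d → ℂ) := by
    rw [Module.finrank_fintype_fun_eq_card, Module.finrank_fintype_fun_eq_card]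
    simp only [Fintype.card_sigma, Fintype.card_fun, Fintype.card_fin]
    rw [Fin.sum_univ_eq_sum_range (fun l => 2 ^ l) w, Nat.geomSum_eq le_rfl]
    have : 1 ≤ 2 ^ w := Nat.one_le_two_pow
    omega
  obtain ⟨η, hη1, hη0⟩ := Submodule.exists_mem_ne_zero_of_ne_bot
    (LinearMap.ker_ne_bot_of_finrank_lt (f := Φ) hcard)
  have hη : Φ η = 0 := LinearMap.mem_ker.1 hη1
  have hη' : ∀ (l : Fin w) (σ : Fin l → Fin 2), ∑ c, iteratedFDeriv ℂ l (h c) ζ (fun i => b (σ i)) * η c = 0 := by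
    intro l σ
    have := congrFun hη ⟨l, σ⟩
    simpa [Φ] using this
  set N : ℝ := ∑ c, ‖η c‖ ^ 2 with hN
  have hN0 : 0 < N := by
    obtain ⟨c, hc⟩ : ∃ c, η c ≠ 0 := by
      by_contra hcon
      push Not at hcon
      exact hη0 (funext hcon)
    have h1 : ‖η c‖ ^ 2 ≤ N := Finset.single_le_sum (f := fun c => ‖η c‖ ^ 2) (fun _ _ => by positivity) (Finset.mem_univ c)
    have h2 : 0 < ‖η c‖ := norm_pos_iff.2 hc
    have h3 : 0 < ‖η c‖ ^ 2 := by positivity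
    linarith
  refine ⟨fun c => ((1 / √N : ℝ) : ℂ) * conj (η c), ?_, ?_⟩
  · have h1 : ∀ c, ‖((1 / √N : ℝ) : ℂ) * conj (η c)‖ ^ 2 = (1 / N) * ‖η c‖ ^ 2 := by
      intro c
      rw [norm_mul, RCLike.norm_conj, Complex.norm_real, Real.norm_of_nonneg (by positivity), mul_pow,
        div_pow, one_pow, Real.sq_sqrt hN0.le]
    simp only [h1]
    rw [← Finset.mul_sum, ← hN]
    field_simp
  · intro l hl u
    set H : P → ℂ := fun z => ∑ c, h c z * conj (((1 / √N : ℝ) : ℂ) * conj (η c)) with hH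
    have hHd : Differentiable ℂ H := by
      rw [hH]
      fun_prop
    have h1 : (fun t : ℂ => ∑ c, h c (ζ + t • u) * conj (((1 / √N : ℝ) : ℂ) * conj (η c))) =
        fun t : ℂ => H (ζ + t • u) := rfl
    rw [h1, exists_orth_line l H hHd ζ u]
    have hHf : iteratedFDeriv ℂ l H ζ = ∑ c, (conj (((1 / √N : ℝ) : ℂ) * conj (η c))) • iteratedFDeriv ℂ l (h c) ζ := by
      have e1 : H = fun z => ∑ c ∈ Finset.univ, (conj (((1 / √N : ℝ) : ℂ) * conj (η c)) • h c) z := by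
        funext z
        simp only [hH, Pi.smul_apply, smul_eq_mul]
        exact Finset.sum_congr rfl fun c _ => mul_comm _ _
      have hcd : ∀ c ∈ (Finset.univ : Finset (Fin d)),
          ContDiffAt ℂ l (conj (((1 / √N : ℝ) : ℂ) * conj (η c)) • h c) ζ := fun c _ =>
        (ContDiff.const_smul (f := h c) (conj (((1 / √N : ℝ) : ℂ) * conj (η c)))
          (cauchy_iter_contDiff l (h c) (hh c))).contDiffAt
      rw [e1, iteratedFDeriv_fun_sum_apply hcd]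
      apply Finset.sum_congr rfl
      intro c _
      exact iteratedFDeriv_const_smul_apply (cauchy_iter_contDiff l (h c) (hh c)).contDiffAt
    have hz : (iteratedFDeriv ℂ l H ζ).toMultilinearMap = 0 := by
      apply Module.Basis.ext_multilinear (fun _ => b)
      intro σ
      have h2 := hη' ⟨l, hl⟩ σ
      simp only [ContinuousMultilinearMap.coe_coe, zero_apply]
      rw [hHf]
      simp only [sum_apply, smul_apply, smul_eq_mul,
        map_mul, Complex.conj_ofReal, Complex.conj_conj]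
      calc ∑ c, ((1 / √N : ℝ) : ℂ) * η c * iteratedFDeriv ℂ l (h c) ζ (fun i => b (σ i))
          = ((1 / √N : ℝ) : ℂ) * ∑ c, iteratedFDeriv ℂ l (h c) ζ (fun i => b (σ i)) * η c := by
            rw [Finset.mul_sum]; exact Finset.sum_congr rfl fun c _ => by ring
        _ = 0 := by rw [h2, mul_zero]
    have := congrArg (fun f => f (fun _ => u)) hz
    simpa using this

/-! ### taylor_bound -/

theorem taylor_bound (w : ℕ) : ∃ C : ℝ, 0 < C ∧ ∀ g : ℂ → ℂ, Differentiable ℂ g → ∀ M θ : ℝ, 0 ≤ M → 0 < θ →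
    (∀ t : ℂ, ‖t‖ ≤ 1 / θ → ‖g t‖ ≤ M) → ‖g 1‖ ≤ M →
    ‖g 1 - ∑ l ∈ Finset.range w, iteratedDeriv l g 0 / (l.factorial : ℂ)‖ ≤ C * M * θ ^ w := by
  refine ⟨((w : ℝ) + 1) * 2 ^ w + 2, by positivity, ?_⟩
  intro g hg M θ hM hθ hb h1
  have hcoef : ∀ l : ℕ, ‖iteratedDeriv l g 0 / (l.factorial : ℂ)‖ ≤ M * θ ^ l := by
    intro l
    have hR : (0 : ℝ) < 1 / θ := by positivity
    have h := Complex.norm_iteratedDeriv_le_of_forall_mem_sphere_norm_le (f := g) (c := 0) (C := M)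
      l hR hg.diffContOnCl (by
        intro z hz
        apply hb
        rw [mem_sphere_zero_iff_norm] at hz
        exact hz.le)
    rw [norm_div, Complex.norm_natCast]
    have hf : (0 : ℝ) < (l.factorial : ℝ) := by exact_mod_cast Nat.factorial_pos l
    rw [div_le_iff₀ hf]
    refine h.trans (le_of_eq ?_)
    rw [div_pow, one_pow, div_div_eq_mul_div, div_one]
    ring
  rcases le_or_gt (1 / 2) θ with hθ2 | hθ2
  · have h2θ : 1 ≤ 2 * θ := by linarith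
    have hpw : ∀ l ≤ w, θ ^ l ≤ 2 ^ w * θ ^ w := by
      intro l hl
      have e1 : (2 : ℝ) ^ w * θ ^ w = (2 * θ) ^ (w - l) * (2 ^ l) * θ ^ l := by
        rw [mul_pow]
        calc (2 : ℝ) ^ w * θ ^ w = 2 ^ (w - l + l) * θ ^ (w - l + l) := by
              rw [Nat.sub_add_cancel hl]
          _ = _ := by rw [pow_add, pow_add]; ring
      rw [e1]
      have h3 : (1 : ℝ) ≤ (2 * θ) ^ (w - l) := one_le_pow₀ h2θ
      have h4 : (1 : ℝ) ≤ 2 ^ l := one_le_pow₀ (by norm_num)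
      have h5 : (1 : ℝ) ≤ (2 * θ) ^ (w - l) * 2 ^ l := one_le_mul_of_one_le_of_one_le h3 h4
      have h6 : 0 ≤ θ ^ l := by positivity
      nlinarith
    have hsum : ‖∑ l ∈ Finset.range w, iteratedDeriv l g 0 / (l.factorial : ℂ)‖
        ≤ w * (M * (2 ^ w * θ ^ w)) := by
      refine (norm_sum_le _ _).trans ?_
      refine (Finset.sum_le_card_nsmul _ _ (M * (2 ^ w * θ ^ w)) ?_).trans ?_
      · intro l hl
        refine (hcoef l).trans ?_
        exact mul_le_mul_of_nonneg_left (hpw l (Finset.mem_range.1 hl).le) hM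
      · rw [Finset.card_range, nsmul_eq_mul]
    have h7 : ‖g 1‖ ≤ M * (2 ^ w * θ ^ w) := by
      have h8 := hpw 0 (Nat.zero_le w)
      rw [pow_zero] at h8
      calc ‖g 1‖ ≤ M * 1 := by rw [mul_one]; exact h1
        _ ≤ _ := mul_le_mul_of_nonneg_left h8 hM
    have h9 : 0 ≤ M * θ ^ w := by positivity
    calc _ ≤ ‖g 1‖ + ‖∑ l ∈ Finset.range w, iteratedDeriv l g 0 / (l.factorial : ℂ)‖ := norm_sub_le _ _
      _ ≤ M * (2 ^ w * θ ^ w) + w * (M * (2 ^ w * θ ^ w)) := add_le_add h7 hsum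
      _ = (((w : ℝ) + 1) * 2 ^ w) * (M * θ ^ w) := by ring
      _ ≤ (((w : ℝ) + 1) * 2 ^ w + 2) * (M * θ ^ w) := by nlinarith
      _ = _ := by ring
  · have hs := Complex.hasSum_taylorSeries_of_entire hg 0 1
    have hs' : HasSum (fun l : ℕ => iteratedDeriv l g 0 / (l.factorial : ℂ)) (g 1) := by
      have e : (fun l : ℕ => iteratedDeriv l g 0 / (l.factorial : ℂ))
          = fun n : ℕ => ((n.factorial : ℂ))⁻¹ • ((1 : ℂ) - 0) ^ n • iteratedDeriv n g 0 := by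
        funext l
        rw [sub_zero, one_pow, one_smul, smul_eq_mul, div_eq_inv_mul]
      rw [e]
      exact hs
    have hs2 := (hasSum_nat_add_iff' w).mpr hs'
    have hgeo : HasSum (fun l : ℕ => M * θ ^ w * θ ^ l) (M * θ ^ w * (1 - θ)⁻¹) :=
      (hasSum_geometric_of_lt_one hθ.le (by linarith)).mul_left _
    have h10 := hs2.norm_le_of_bounded hgeo (by
      intro l
      refine (hcoef (l + w)).trans (le_of_eq ?_)
      rw [pow_add]
      ring)
    refine h10.trans ?_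
    have h11 : (1 - θ)⁻¹ ≤ 2 := by
      rw [inv_le_comm₀ (by linarith) (by norm_num)]
      linarith
    have h12 : 0 ≤ M * θ ^ w := by positivity
    have h13 : (0 : ℝ) ≤ ((w : ℝ) + 1) * 2 ^ w := by positivity
    calc M * θ ^ w * (1 - θ)⁻¹ ≤ M * θ ^ w * 2 := mul_le_mul_of_nonneg_left h11 h12
      _ ≤ (((w : ℝ) + 1) * 2 ^ w + 2) * (M * θ ^ w) := by nlinarith
      _ = _ := by ring

/-! ### jet_bound -/

theorem jet_bound_nsq {ζ : P} (hζ : ζ ∈ S) (a b : ℂ) :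
    nsq (a • ζ + b • perp ζ) = ‖a‖ ^ 2 + ‖b‖ ^ 2 := by
  have h1 : ‖ζ.1‖ ^ 2 + ‖ζ.2‖ ^ 2 = 1 := hζ
  unfold nsq perp
  simp only [Prod.fst_add, Prod.snd_add, Prod.smul_fst, Prod.smul_snd, smul_eq_mul,
    ← Complex.normSq_eq_norm_sq, Complex.normSq_apply, Complex.add_re, Complex.add_im,
    Complex.mul_re, Complex.mul_im, Complex.neg_re, Complex.neg_im, Complex.conj_re,
    Complex.conj_im] at h1 ⊢
  linear_combination (a.re * a.re + a.im * a.im + b.re * b.re + b.im * b.im) * h1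

theorem jet_bound_decomp {ζ : P} (hζ : ζ ∈ S) (z : P) :
    z = ip z ζ • ζ + ip z (perp ζ) • perp ζ := by
  have h1 : ‖ζ.1‖ ^ 2 + ‖ζ.2‖ ^ 2 = 1 := hζ
  have h2 : ζ.1 * conj ζ.1 + ζ.2 * conj ζ.2 = 1 := by
    rw [Complex.mul_conj, Complex.mul_conj, Complex.normSq_eq_norm_sq, Complex.normSq_eq_norm_sq]
    exact_mod_cast h1
  apply Prod.ext
  · simp only [ip, perp, Prod.fst_add, Prod.smul_fst, smul_eq_mul, map_neg, Complex.conj_conj]
    linear_combination (-z.1) * h2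
  · simp only [ip, perp, Prod.snd_add, Prod.smul_snd, smul_eq_mul, map_neg, Complex.conj_conj]
    linear_combination (-z.2) * h2

theorem jet_bound_line {ζ : P} (hζ : ζ ∈ S) (z : P) (t : ℂ) :
    nsq (ζ + t • (z - ζ)) = ‖1 - t * (1 - ip z ζ)‖ ^ 2 + ‖t * ip z (perp ζ)‖ ^ 2 := by
  rw [← jet_bound_nsq hζ]
  congr 1
  have h := jet_bound_decomp hζ z
  have h2 : ζ + t • (z - ζ) = ζ + t • ((ip z ζ • ζ + ip z (perp ζ) • perp ζ) - ζ) := by
    rw [← h]
  rw [h2]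
  module

theorem jet_bound_tau {ζ : P} (hζ : ζ ∈ S) (z : P) :
    nsq z = ‖ip z ζ‖ ^ 2 + ‖ip z (perp ζ)‖ ^ 2 := by
  have h := jet_bound_line hζ z 1
  simpa using h

theorem jet_bound (w' : ℕ) : ∃ C : ℝ, 0 < C ∧ ∀ (j : ℕ) (H : ℕ → P → ℂ) (M : ℕ → ℝ) (κ : ℕ → ℕ) (k : ℕ),
    1 ≤ k → (∀ i, Differentiable ℂ (H i)) → (∀ i < j, 0 ≤ M i ∧ 1 ≤ κ i ∧ κ i ≤ k) →
    (∀ i < j, ∀ z : P, nsq z ≤ 1 + 4 / κ i → ‖H i z‖ ≤ M i) →
    ∀ ζ ∈ S, (∀ l < 2 * w', ∀ u : P, iteratedDeriv l (fun t : ℂ => ∑ i ∈ Finset.range j, H i (ζ + t • u)) 0 = 0) →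
    ∀ x ∈ S, ∀ α β : ℂ, ‖α - 1‖ ≤ 1 / k → ‖β‖ ^ 2 ≤ 1 / k →
      ‖∑ i ∈ Finset.range j, H i (α • x + β • perp x)‖
        ≤ C * (∑ i ∈ Finset.range j, M i * ((κ i : ℝ) / k) ^ w') * (1 + k * D x ζ) ^ (2 * w') := by
  obtain ⟨C₀, hC₀, htay⟩ := taylor_bound (2 * w')
  refine ⟨C₀ * 144 ^ w', by positivity, ?_⟩
  intro j H M κ k hk hH hM hbd ζ hζ hjet x hx α β hα hβ
  obtain ⟨hz1, -, hz3⟩ := near_geo hk hx hζ hα hβ
  set z : P := α • x + β • perp x with hz
  have hk0 : (0 : ℝ) < k := by exact_mod_cast hk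
  have hk1 : (1 : ℝ) ≤ k := by exact_mod_cast hk
  have hD0 : 0 ≤ D x ζ := D_nonneg _ _
  set ν : ℂ := 1 - ip z ζ with hν
  set τ : ℂ := ip z (perp ζ) with hτ
  set L : ℝ := 1 + k * D x ζ with hL
  have hL1 : 1 ≤ L := by
    have : 0 ≤ (k : ℝ) * D x ζ := by positivity
    linarith
  set Δ : ℝ := 8 * L / k with hΔ
  have hΔ0 : 0 < Δ := by positivity
  have hν1 : ‖ν‖ ≤ 2 * L / k := by
    rw [le_div_iff₀ hk0]
    linarith
  have hνΔ : ‖ν‖ ≤ Δ := by
    refine hν1.trans ?_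
    rw [hΔ]
    gcongr
    norm_num
  have hτΔ : ‖τ‖ ^ 2 ≤ Δ := by
    have h1 := jet_bound_tau hζ z
    have h2 : ip z ζ = 1 - ν := by rw [hν]; ring
    have h3 : 1 - ‖ν‖ ≤ ‖1 - ν‖ := by
      have := norm_sub_norm_le (1 : ℂ) ν
      simpa using this
    have h4 : 1 - 2 * ‖ν‖ ≤ ‖1 - ν‖ ^ 2 := by
      nlinarith [norm_nonneg ν, norm_nonneg (1 - ν), sq_nonneg (1 - ‖ν‖), sq_nonneg (‖1 - ν‖ - 1)]
    rw [h2] at h1
    have h5 : ‖τ‖ ^ 2 ≤ 4 / k + 2 * (2 * L / k) := by linarith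
    have h6 : 4 / (k : ℝ) ≤ 4 * L / k := by
      gcongr
      linarith
    calc ‖τ‖ ^ 2 ≤ 4 / k + 2 * (2 * L / k) := h5
      _ ≤ 4 * L / k + 2 * (2 * L / k) := by linarith
      _ = Δ := by rw [hΔ]; ring
  let g : ℕ → ℂ → ℂ := fun i t => H i (ζ + t • (z - ζ))
  have hg1 : ∀ i, g i 1 = H i z := by
    intro i
    show H i (ζ + (1 : ℂ) • (z - ζ)) = H i z
    rw [one_smul, add_sub_cancel]
  have hgd : ∀ i, Differentiable ℂ (g i) := by
    intro i
    have h1 : Differentiable ℂ fun t : ℂ => ζ + t • (z - ζ) := by fun_prop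
    exact (hH i).comp h1
  have hT : ∑ i ∈ Finset.range j, ∑ l ∈ Finset.range (2 * w'),
      iteratedDeriv l (g i) 0 / (l.factorial : ℂ) = 0 := by
    rw [Finset.sum_comm]
    apply Finset.sum_eq_zero
    intro l hl
    rw [← Finset.sum_div]
    have h1 := hjet l (Finset.mem_range.1 hl) (z - ζ)
    have h2 : iteratedDeriv l (fun t : ℂ => ∑ i ∈ Finset.range j, H i (ζ + t • (z - ζ))) 0 =
        ∑ i ∈ Finset.range j, iteratedDeriv l (g i) 0 := by
      have h3 := iteratedDeriv_fun_sum (𝕜 := ℂ) (I := Finset.range j) (n := l) (x := (0 : ℂ))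
        (f := g) (fun i _ => ((hgd i).contDiff (n := l)).contDiffAt)
      exact h3
    rw [← h2, h1, zero_div]
  have hmain : ∀ i ∈ Finset.range j, ‖g i 1 - ∑ l ∈ Finset.range (2 * w'),
      iteratedDeriv l (g i) 0 / (l.factorial : ℂ)‖ ≤
      C₀ * 144 ^ w' * (M i * ((κ i : ℝ) / k) ^ w') * L ^ (2 * w') := by
    intro i hi
    obtain ⟨hMi, hκ1, hκk⟩ := hM i (Finset.mem_range.1 hi)
    have hκ0 : (0 : ℝ) < κ i := by exact_mod_cast hκ1
    have hκ1' : (1 : ℝ) ≤ κ i := by exact_mod_cast hκ1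
    have hκk' : (κ i : ℝ) ≤ k := by exact_mod_cast hκk
    set Y : ℝ := κ i * Δ with hY
    have hY0 : 0 < Y := by positivity
    set θ : ℝ := Y + √Y with hθ
    have hsY : 0 < √Y := Real.sqrt_pos.2 hY0
    have hsY2 : √Y ^ 2 = Y := Real.sq_sqrt hY0.le
    have hθ0 : 0 < θ := by positivity
    have hθ1 : Y ≤ θ := by linarith
    have hθ2 : Y ≤ θ ^ 2 := by nlinarith
    have h1 := htay (g i) (hgd i) (M i) θ hMi hθ0 ?_ ?_
    · refine h1.trans ?_
      have h2 : θ ^ 2 ≤ 144 * ((κ i : ℝ) / k) * L ^ 2 := by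
        have h3 : θ ^ 2 ≤ 2 * (Y ^ 2 + Y) := by nlinarith [sq_nonneg (Y - √Y)]
        have h4 : Y = 8 * ((κ i : ℝ) / k) * L := by rw [hY, hΔ]; ring
        have h5 : (κ i : ℝ) / k ≤ 1 := (div_le_one hk0).2 hκk'
        have h6 : 0 < (κ i : ℝ) / k := by positivity
        have h7 : Y ≤ 8 * L := by
          rw [h4]
          nlinarith
        have h8 : Y ^ 2 + Y ≤ 8 * ((κ i : ℝ) / k) * L * (9 * L) := by
          have : Y ^ 2 + Y = Y * (Y + 1) := by ring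
          rw [this]
          rw [← h4]
          apply mul_le_mul_of_nonneg_left _ hY0.le
          linarith
        nlinarith
      calc C₀ * M i * θ ^ (2 * w') = C₀ * M i * (θ ^ 2) ^ w' := by rw [pow_mul]
        _ ≤ C₀ * M i * (144 * ((κ i : ℝ) / k) * L ^ 2) ^ w' := by gcongr
        _ = C₀ * 144 ^ w' * (M i * ((κ i : ℝ) / k) ^ w') * L ^ (2 * w') := by
          rw [mul_pow, mul_pow, ← pow_mul]
          ring
    · intro t ht
      apply hbd i (Finset.mem_range.1 hi)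
      rw [jet_bound_line hζ z t]
      have ht' : ‖t‖ * θ ≤ 1 := by
        rw [le_div_iff₀ hθ0] at ht
        exact ht
      have h2 : ‖t * ν‖ ≤ 1 / κ i := by
        rw [norm_mul, le_div_iff₀ hκ0]
        calc ‖t‖ * ‖ν‖ * κ i ≤ ‖t‖ * Δ * κ i := by gcongr
          _ = ‖t‖ * Y := by rw [hY]; ring
          _ ≤ ‖t‖ * θ := by gcongr
          _ ≤ 1 := ht'
      have h3 : ‖t * τ‖ ^ 2 ≤ 1 / κ i := by
        rw [norm_mul, mul_pow, le_div_iff₀ hκ0]
        calc ‖t‖ ^ 2 * ‖τ‖ ^ 2 * κ i ≤ ‖t‖ ^ 2 * Δ * κ i := by gcongr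
          _ = ‖t‖ ^ 2 * Y := by rw [hY]; ring
          _ ≤ ‖t‖ ^ 2 * θ ^ 2 := by gcongr
          _ = (‖t‖ * θ) ^ 2 := by ring
          _ ≤ 1 := by
            have : 0 ≤ ‖t‖ * θ := by positivity
            nlinarith
      have h4 : ‖1 - t * ν‖ ≤ 1 + 1 / κ i := by
        have := norm_sub_le (1 : ℂ) (t * ν)
        rw [norm_one] at this
        linarith
      have h5 : ‖1 - t * ν‖ ^ 2 ≤ (1 + 1 / κ i) ^ 2 := by gcongr
      have h6 : (1 / (κ i : ℝ)) ^ 2 ≤ 1 / κ i := by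
        have h7 : 1 / (κ i : ℝ) ≤ 1 := by
          rw [div_le_one hκ0]; exact hκ1'
        have h8 : 0 < 1 / (κ i : ℝ) := by positivity
        nlinarith
      have h9 : (4 : ℝ) / κ i = 4 * (1 / κ i) := by ring
      rw [h9]
      nlinarith
    · rw [hg1]
      apply hbd i (Finset.mem_range.1 hi)
      refine hz1.trans ?_
      gcongr
  have hsum : ∑ i ∈ Finset.range j, H i z = ∑ i ∈ Finset.range j, (g i 1 -
      ∑ l ∈ Finset.range (2 * w'), iteratedDeriv l (g i) 0 / (l.factorial : ℂ)) := by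
    rw [Finset.sum_sub_distrib, hT, sub_zero]
    exact Finset.sum_congr rfl fun i _ => (hg1 i).symm
  rw [hsum]
  refine (norm_sum_le _ _).trans ?_
  refine (Finset.sum_le_sum hmain).trans (le_of_eq ?_)
  rw [Finset.mul_sum, Finset.sum_mul]

end Pool.Agent.H892PB
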