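import Pool.Agent.Helper892.PB.Main

set_option autoImplicit false

open scoped ComplexConjugate

namespace Pool.Agent.H892PB

/-! Data on the sphere with a finite index set `Fin c`. -/

theorem data_fin (t : ℕ) : ∃ (c : ℕ) (cc : ℝ), 1 ≤ c ∧ 0 < cc ∧
    ∃ f : Fin c → P → ℂ, (∀ e, ContDiffOn ℝ (t : WithTop ℕ∞) (f e) {z | nsq z ≤ 1}) ∧
      (∀ e, DifferentiableOn ℂ (f e) {z | nsq z < 1}) ∧
      ∀ z, nsq z = 1 → ‖(cc : ℂ) * Complex.exp z.1‖ ^ 2 + ∑ e, ‖f e z‖ ^ 2 = 1 := by
  obtain ⟨K, d, cc, hKd, hcc, f, h1, h2, h3⟩ := main_data t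
  refine ⟨K * d, cc, by omega, hcc, fun i => f (finProdFinEquiv.symm i), fun e => h1 _, fun e => h2 _, ?_⟩
  intro z hz
  rw [← h3 z hz]
  congr 1
  exact Equiv.sum_comp finProdFinEquiv.symm (fun e => ‖f e z‖ ^ 2)

/-- the components stay strictly inside the unit disc on the closed ball -/
theorem data_lt_one {c : ℕ} (cc : ℝ) (hcc : 0 < cc) (f : Fin c → P → ℂ)
    (h1 : ∀ e, ContinuousOn (f e) {z | nsq z ≤ 1})
    (h2 : ∀ e, DifferentiableOn ℂ (f e) {z | nsq z < 1})
    (h3 : ∀ z, nsq z = 1 → ‖(cc : ℂ) * Complex.exp z.1‖ ^ 2 + ∑ e, ‖f e z‖ ^ 2 = 1)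
    (e : Fin c) (z : P) (hz : nsq z ≤ 1) : ‖f e z‖ < 1 := by
  have hpos : ∀ z : P, 0 < ‖(cc : ℂ) * Complex.exp z.1‖ ^ 2 := by
    intro z
    have : (cc : ℂ) * Complex.exp z.1 ≠ 0 :=
      mul_ne_zero (Complex.ofReal_ne_zero.2 hcc.ne') (Complex.exp_ne_zero _)
    positivity
  have hsing : ∀ z, ‖f e z‖ ^ 2 ≤ ∑ e, ‖f e z‖ ^ 2 := fun z =>
    Finset.single_le_sum (f := fun e => ‖f e z‖ ^ 2) (fun _ _ => by positivity) (Finset.mem_univ e)
  rcases hz.lt_or_eq with hlt | heq
  · let g : Option (Fin c) → P → ℂ := fun o z => o.elim ((cc : ℂ) * Complex.exp z.1) (fun i => f i z)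
    have hE : Differentiable ℂ (fun z : P => (cc : ℂ) * Complex.exp z.1) := by fun_prop
    have hs := strict_inside (Option (Fin c)) g ?_ ?_ ?_ none ?_ z hlt
    · rw [Fintype.sum_option] at hs
      have h4 : ‖f e z‖ ^ 2 < 1 := by
        have := hsing z
        have := hpos z
        simp only [g, Option.elim] at hs
        linarith
      nlinarith [norm_nonneg (f e z)]
    · rintro (_ | i)
      · exact hE.continuous.continuousOn
      · exact h1 i
    · rintro (_ | i)
      · exact hE.differentiableOn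
      · exact h2 i
    · intro z hz
      rw [Fintype.sum_option]
      exact h3 z hz
    · intro z hz
      by_contra hcon
      push Not at hcon
      have ha := hcon (0, 0) (by simp [nsq])
      have hb := hcon (1 / 2, 0) (by simp [nsq]; norm_num)
      simp only [g, Option.elim] at ha hb
      rw [← ha] at hb
      have hc0 : (cc : ℂ) ≠ 0 := Complex.ofReal_ne_zero.2 hcc.ne'
      have h5 := mul_left_cancel₀ hc0 hb
      have h6 := congrArg norm h5
      rw [Complex.norm_exp, Complex.norm_exp, Real.exp_eq_exp] at h6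
      norm_num at h6
  · have h4 := h3 z heq
    have h5 := hsing z
    have h6 := hpos z
    nlinarith [norm_nonneg (f e z)]

end Pool.Agent.H892PB
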