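import Mathlib

set_option autoImplicit false

open MeasureTheory Set
open scoped ComplexConjugate

namespace Pool.Agent.H892PB

/-- points of `ℂ²` -/
abbrev P := ℂ × ℂ

/-- squared Euclidean norm -/
noncomputable def nsq (z : P) : ℝ := ‖z.1‖ ^ 2 + ‖z.2‖ ^ 2

/-- Hermitian product, linear in the first variable -/
noncomputable def ip (z w : P) : ℂ := z.1 * conj w.1 + z.2 * conj w.2

/-- unit sphere of `ℂ²` -/
def S : Set P := {z | nsq z = 1}

/-- `x ↦ (-conj x₂, conj x₁)`, orthogonal to `x` -/
noncomputable def perp (x : P) : P := (-(conj x.2), conj x.1)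

/-- `act y x = y₁ x + y₂ (perp x)` -/
noncomputable def act (y x : P) : P := y.1 • x + y.2 • perp x

/-- Koranyi gauge (square of a distance on `S`) -/
noncomputable def D (z w : P) : ℝ := ‖1 - ip z w‖

/-- averaged geometric sum -/
noncomputable def F (k : ℕ) (s : ℂ) : ℂ := (∑ i ∈ Finset.range k, s ^ i) / k

/-- normalisation -/
noncomputable def nrm (u : P) : P := (((1 / √(nsq u) : ℝ)) : ℂ) • u

/-- a rotation invariant finite measure on the sphere: image of Lebesgue measure of the shell `1 ≤ |u| ≤ 2` -/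
noncomputable def sig : Measure P :=
  Measure.map nrm ((volume : Measure P).restrict {u | 1 ≤ nsq u ∧ nsq u ≤ 4})

/-- the kernel -/
noncomputable def dens (q k : ℕ) (y : P) : ℝ := ‖F k y.1‖ ^ (2 * q)

noncomputable def II (q k : ℕ) : ℝ := ∫ y, dens q k y ∂sig

/-- the averaging operator -/
noncomputable def T (q k : ℕ) (u : P → ℝ) (z : P) : ℝ :=
  (∫ y, u (act y z) * dens q k y ∂sig) / II q k

noncomputable def Dop (q k : ℕ) (u : P → ℝ) : P → ℝ := fun z => u z - T q k u z

/-- iterated differences along the action -/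
noncomputable def diffs : List P → (P → ℝ) → P → ℝ
  | [], u, z => u z
  | y :: ys, u, z => diffs ys u z - diffs ys u (act y z)

/-- the new layer -/
noncomputable def wave (q k : ℕ) {K d : ℕ} (Λ : Finset P) (w : P → ℝ) (ξ : P → Fin d → ℂ)
    (col : P → Fin K) (g : Fin K) (c : Fin d) (z : P) : ℂ :=
  ∑ ζ ∈ Λ.filter (fun ζ => col ζ = g), ((√(w ζ) : ℝ) : ℂ) * ξ ζ c * (F k (ip z ζ)) ^ q

end Pool.Agent.H892PB
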