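import Pool.Agent.Helper892.PB.Ops

set_option autoImplicit false

open MeasureTheory Set
open scoped ComplexConjugate

namespace Pool.Agent.H892PB

/-! ### sep_sum -/

theorem sep_sum_cont (x : P) : Continuous (fun η : P => D x η) := by
  unfold D ip
  fun_prop

theorem sep_sum_measS : MeasurableSet S := by
  have h : Continuous (fun z : P => nsq z) := by
    unfold nsq
    fun_prop
  exact (isClosed_eq h continuous_const).measurableSet

theorem sep_sum_measB (ζ : P) (δ : ℝ) : MeasurableSet {η : P | D ζ η ≤ δ} :=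
  (isClosed_le (sep_sum_cont ζ) continuous_const).measurableSet

/-- the kernel as a continuous function -/
theorem sep_sum_gcont (k : ℕ) (x : P) : Continuous (fun η : P => ((1 + (k : ℝ) * D x η) ^ 3)⁻¹) := by
  refine Continuous.inv₀ ?_ ?_
  · exact (continuous_const.add (continuous_const.mul (sep_sum_cont x))).pow 3
  · intro η
    have h1 : 0 ≤ (k : ℝ) * D x η := mul_nonneg (Nat.cast_nonneg k) (D_nonneg x η)
    positivity

theorem sep_sum_gpos (k : ℕ) (x η : P) : 0 ≤ ((1 + (k : ℝ) * D x η) ^ 3)⁻¹ := by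
  have h1 : 0 ≤ (k : ℝ) * D x η := mul_nonneg (Nat.cast_nonneg k) (D_nonneg x η)
  positivity

theorem sep_sum_gle (k : ℕ) (x η : P) : ((1 + (k : ℝ) * D x η) ^ 3)⁻¹ ≤ 1 := by
  have h1 : 0 ≤ (k : ℝ) * D x η := mul_nonneg (Nat.cast_nonneg k) (D_nonneg x η)
  apply inv_le_one_of_one_le₀
  exact one_le_pow₀ (by linarith)

theorem sep_sum_gint (k : ℕ) (x : P) :
    Integrable (fun η : P => ((1 + (k : ℝ) * D x η) ^ 3)⁻¹) sig := by
  have := sig_finite
  refine Integrable.of_bound (sep_sum_gcont k x).aestronglyMeasurable 1 ?_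
  refine Filter.Eventually.of_forall fun η => ?_
  rw [Real.norm_eq_abs, abs_of_nonneg (sep_sum_gpos k x η)]
  exact sep_sum_gle k x η

/-- comparison of the kernel at nearby points -/
theorem sep_sum_cmp {k : ℕ} (hk : 1 ≤ k) {r : ℝ} (hr : 0 < r) (hr1 : r ≤ 1) {x ζ η : P}
    (hx : x ∈ S) (hζ : ζ ∈ S) (hη : η ∈ S) (h : D ζ η ≤ r ^ 2 / (16 * k)) :
    ((1 + (k : ℝ) * D x ζ) ^ 3)⁻¹ ≤ 8 * ((1 + (k : ℝ) * D x η) ^ 3)⁻¹ := by
  have hk0 : (0 : ℝ) < k := by exact_mod_cast hk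
  have ht : √(D x η) ≤ √(D ζ η) + √(D ζ x) := D_triangle hζ hx hη
  have h1 : D x η ≤ 2 * D ζ η + 2 * D ζ x := by
    have a1 := Real.sq_sqrt (D_nonneg x η)
    have a2 := Real.sq_sqrt (D_nonneg ζ η)
    have a3 := Real.sq_sqrt (D_nonneg ζ x)
    have b1 := Real.sqrt_nonneg (D x η)
    have b2 := Real.sqrt_nonneg (D ζ η)
    have b3 := Real.sqrt_nonneg (D ζ x)
    nlinarith [sq_nonneg (√(D ζ η) - √(D ζ x)), mul_self_le_mul_self b1 ht]
  have h2 : (k : ℝ) * D ζ η ≤ 1 / 16 := by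
    have : (k : ℝ) * D ζ η ≤ k * (r ^ 2 / (16 * k)) := mul_le_mul_of_nonneg_left h hk0.le
    have e : (k : ℝ) * (r ^ 2 / (16 * k)) = r ^ 2 / 16 := by field_simp
    have : r ^ 2 ≤ 1 := by nlinarith
    linarith
  have h3 : 1 + (k : ℝ) * D x η ≤ 2 * (1 + (k : ℝ) * D x ζ) := by
    have h4 : (k : ℝ) * D x η ≤ k * (2 * D ζ η + 2 * D ζ x) := mul_le_mul_of_nonneg_left h1 hk0.le
    rw [D_comm ζ x] at h4
    nlinarith
  have p1 : 0 ≤ (k : ℝ) * D x η := mul_nonneg (Nat.cast_nonneg k) (D_nonneg x η)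
  have p2 : 0 ≤ (k : ℝ) * D x ζ := mul_nonneg (Nat.cast_nonneg k) (D_nonneg x ζ)
  have h5 : (1 + (k : ℝ) * D x η) ^ 3 ≤ (2 * (1 + (k : ℝ) * D x ζ)) ^ 3 :=
    pow_le_pow_left₀ (by positivity) h3 3
  have h6 : (0 : ℝ) < (1 + (k : ℝ) * D x η) ^ 3 := by positivity
  have h7 : (0 : ℝ) < (1 + (k : ℝ) * D x ζ) ^ 3 := by positivity
  rw [inv_eq_one_div, inv_eq_one_div, ← mul_div_assoc, mul_one, div_le_div_iff₀ h7 h6]
  nlinarith

theorem sep_sum : ∃ C : ℝ, 0 < C ∧ ∀ k : ℕ, 1 ≤ k → ∀ r : ℝ, 0 < r → r ≤ 1 → ∀ Λ : Finset P,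
    (∀ ζ ∈ Λ, ζ ∈ S) → (∀ ζ ∈ Λ, ∀ ζ' ∈ Λ, ζ ≠ ζ' → r ^ 2 ≤ k * D ζ ζ') →
    ∀ x ∈ S, ∑ ζ ∈ Λ, ((1 + k * D x ζ) ^ 3)⁻¹ ≤ C / r ^ 4 := by
  obtain ⟨C, hC, hI⟩ := sig_int
  obtain ⟨c, hc, hL⟩ := sig_lower
  refine ⟨2048 * C / c, by positivity, ?_⟩
  intro k hk r hr hr1 Λ hΛ hsep x hx
  have hfin := sig_finite
  have hk0 : (0 : ℝ) < k := by exact_mod_cast hk
  have hk1 : (1 : ℝ) ≤ k := by exact_mod_cast hk
  set δ : ℝ := r ^ 2 / (16 * k) with hδ
  have hδ0 : 0 < δ := by positivity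
  have hδ2 : δ ≤ 2 := by
    rw [hδ, div_le_iff₀ (by positivity)]
    nlinarith
  have hδ4 : (k : ℝ) * (4 * δ) = r ^ 2 / 4 := by
    rw [hδ]; field_simp; norm_num
  let B : P → Set P := fun ζ => S ∩ {η | D ζ η ≤ δ}
  have hBm : ∀ ζ, MeasurableSet (B ζ) := fun ζ => sep_sum_measS.inter (sep_sum_measB ζ δ)
  have hBs : ∀ ζ, sig (B ζ) = sig {η | D ζ η ≤ δ} := by
    intro ζ
    have : (B ζ : Set P) = {η | D ζ η ≤ δ} \ Sᶜ := by
      ext η; simp [B, and_comm]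
    rw [this]
    exact measure_sdiff_null sig_S
  have hBl : ∀ ζ ∈ Λ, c * δ ^ 2 ≤ sig.real (B ζ) := by
    intro ζ hζ
    rw [Measure.real, hBs]
    exact hL ζ (hΛ ζ hζ) δ hδ0 hδ2
  have hdisj : Set.Pairwise (↑Λ : Set P) (Function.onFun Disjoint B) := by
    intro ζ hζ ζ' hζ' hne
    rw [Function.onFun, Set.disjoint_left]
    rintro η ⟨hηS, h1⟩ ⟨_, h2⟩
    have h1' : D ζ η ≤ δ := h1
    have h2' : D ζ' η ≤ δ := h2
    have ht : √(D ζ ζ') ≤ √(D η ζ') + √(D η ζ) := D_triangle hηS (hΛ ζ hζ) (hΛ ζ' hζ')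
    rw [D_comm η ζ', D_comm η ζ] at ht
    have s1 : √(D ζ η) ≤ √δ := Real.sqrt_le_sqrt h1'
    have s2 : √(D ζ' η) ≤ √δ := Real.sqrt_le_sqrt h2'
    have h3 : √(D ζ ζ') ≤ 2 * √δ := by linarith
    have h4 : D ζ ζ' ≤ 4 * δ := by
      have a1 := Real.sq_sqrt (D_nonneg ζ ζ')
      have a2 := Real.sq_sqrt hδ0.le
      have b1 := Real.sqrt_nonneg (D ζ ζ')
      nlinarith [mul_self_le_mul_self b1 h3]
    have h5 := hsep ζ hζ ζ' hζ' hne
    have h6 : (k : ℝ) * D ζ ζ' ≤ k * (4 * δ) := mul_le_mul_of_nonneg_left h4 hk0.le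
    rw [hδ4] at h6
    have : 0 < r ^ 2 := by positivity
    linarith
  have hgi := sep_sum_gint k x
  have hone : ∀ ζ ∈ Λ, (c * δ ^ 2) * ((1 + (k : ℝ) * D x ζ) ^ 3)⁻¹ ≤
      8 * ∫ η in B ζ, ((1 + (k : ℝ) * D x η) ^ 3)⁻¹ ∂sig := by
    intro ζ hζ
    have e1 : ∫ η in B ζ, ((1 + (k : ℝ) * D x ζ) ^ 3)⁻¹ ∂sig ≤
        ∫ η in B ζ, 8 * ((1 + (k : ℝ) * D x η) ^ 3)⁻¹ ∂sig := by
      refine setIntegral_mono_on ?_ ?_ (hBm ζ) ?_
      · exact integrableOn_const (measure_ne_top _ _)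
      · exact (hgi.const_mul 8).integrableOn
      · intro η hη
        exact sep_sum_cmp hk hr hr1 hx (hΛ ζ hζ) hη.1 hη.2
    rw [setIntegral_const, integral_const_mul, smul_eq_mul] at e1
    refine le_trans ?_ e1
    exact mul_le_mul_of_nonneg_right (hBl ζ hζ) (sep_sum_gpos k x ζ)
  have hsum : (c * δ ^ 2) * ∑ ζ ∈ Λ, ((1 + (k : ℝ) * D x ζ) ^ 3)⁻¹ ≤ 8 * (C / (k : ℝ) ^ 2) := by
    rw [Finset.mul_sum]
    calc ∑ ζ ∈ Λ, (c * δ ^ 2) * ((1 + (k : ℝ) * D x ζ) ^ 3)⁻¹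
        ≤ ∑ ζ ∈ Λ, 8 * ∫ η in B ζ, ((1 + (k : ℝ) * D x η) ^ 3)⁻¹ ∂sig := Finset.sum_le_sum hone
      _ = 8 * ∑ ζ ∈ Λ, ∫ η in B ζ, ((1 + (k : ℝ) * D x η) ^ 3)⁻¹ ∂sig := by rw [Finset.mul_sum]
      _ = 8 * ∫ η in ⋃ ζ ∈ Λ, B ζ, ((1 + (k : ℝ) * D x η) ^ 3)⁻¹ ∂sig := by
          rw [integral_biUnion_finset Λ (fun ζ _ => hBm ζ) hdisj (fun ζ _ => hgi.integrableOn)]
      _ ≤ 8 * ∫ η, ((1 + (k : ℝ) * D x η) ^ 3)⁻¹ ∂sig := by
          refine mul_le_mul_of_nonneg_left ?_ (by norm_num)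
          exact setIntegral_le_integral hgi (Filter.Eventually.of_forall fun η => sep_sum_gpos k x η)
      _ ≤ 8 * (C / (k : ℝ) ^ 2) := mul_le_mul_of_nonneg_left (hI k hk x hx) (by norm_num)
  have hfinal : ∑ ζ ∈ Λ, ((1 + (k : ℝ) * D x ζ) ^ 3)⁻¹ ≤ 8 * (C / (k : ℝ) ^ 2) / (c * δ ^ 2) := by
    rw [le_div_iff₀ (by positivity), mul_comm]
    exact hsum
  refine hfinal.trans (le_of_eq ?_)
  rw [hδ]
  field_simp
  norm_num

/-! ### pack -/

theorem pack_meas (z : P) (δ : ℝ) : MeasurableSet {η | D z η ≤ δ} := by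
  have hc : Continuous (fun η : P => D z η) := by
    unfold D ip
    have h1 : Continuous (fun η : P => conj η.1) := Complex.continuous_conj.comp continuous_fst
    have h2 : Continuous (fun η : P => conj η.2) := Complex.continuous_conj.comp continuous_snd
    exact (continuous_const.sub ((continuous_const.mul h1).add (continuous_const.mul h2))).norm
  exact (isClosed_le hc continuous_const).measurableSet

theorem pack_sqrt {k : ℕ} (hk : 1 ≤ k) {a t : ℝ} (ha : 0 ≤ a) (h : a ≤ t ^ 2 / k) (ht : 0 ≤ t) :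
    √a ≤ t / √k := by
  have hk0 : (0:ℝ) < k := by exact_mod_cast hk
  have : √a ≤ √(t ^ 2 / k) := Real.sqrt_le_sqrt h
  rwa [Real.sqrt_div (by positivity), Real.sqrt_sq ht] at this

theorem pack : ∃ C : ℝ, 0 < C ∧ ∀ k : ℕ, 1 ≤ k → ∀ r : ℝ, 0 < r → r ≤ 1 → ∀ Λ : Finset P,
    (∀ ζ ∈ Λ, ζ ∈ S) → (∀ ζ ∈ Λ, ∀ ζ' ∈ Λ, ζ ≠ ζ' → r ^ 2 ≤ k * D ζ ζ') →
    ∀ x ∈ S, ∀ ρ : ℝ, r ≤ ρ → ∀ A : Finset P, A ⊆ Λ → (∀ ζ ∈ A, k * D x ζ ≤ ρ ^ 2) →
      (A.card : ℝ) ≤ C * (ρ / r) ^ 4 := by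
  obtain ⟨C, hC, hup⟩ := sig_upper
  obtain ⟨c, hc, hlo⟩ := sig_lower
  haveI := sig_finite
  refine ⟨4096 * C / c, by positivity, ?_⟩
  intro k hk r hr hr1 Λ hΛ hsep x hx ρ hρ A hA hAx
  have hk0 : (0:ℝ) < k := by exact_mod_cast hk
  have hk1 : (1:ℝ) ≤ k := by exact_mod_cast hk
  have hsk : 0 < √(k:ℝ) := Real.sqrt_pos.mpr hk0
  have hρ0 : 0 < ρ := lt_of_lt_of_le hr hρ
  set δ : ℝ := r ^ 2 / (16 * k) with hδ
  have hδ0 : 0 < δ := by positivity
  have hδ2 : δ ≤ 2 := by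
    rw [hδ, div_le_iff₀ (by positivity)]
    nlinarith
  have hδe : δ = (r / 4) ^ 2 / k := by rw [hδ]; field_simp; ring
  set δ' : ℝ := (2 * ρ) ^ 2 / k with hδ'
  have hδ'0 : 0 < δ' := by positivity
  -- disjointness
  have hdis : (A : Set P).Pairwise (Function.onFun (AEDisjoint sig) (fun ζ => {η | D ζ η ≤ δ})) := by
    intro ζ hζ ζ' hζ' hne
    show sig ({η | D ζ η ≤ δ} ∩ {η | D ζ' η ≤ δ}) = 0
    refine measure_mono_null ?_ sig_S
    rintro η ⟨h1, h2⟩ hηS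
    have h1 : D ζ η ≤ δ := h1
    have h2 : D ζ' η ≤ δ := h2
    have hζA := hA hζ
    have hζA' := hA hζ'
    have t := D_triangle (x := η) (y := ζ') (ζ := ζ) hηS (hΛ _ hζA') (hΛ _ hζA)
    rw [D_comm η ζ, D_comm η ζ'] at t
    have s1 := pack_sqrt hk (D_nonneg ζ η) (hδe ▸ h1) (by positivity)
    have s2 := pack_sqrt hk (D_nonneg ζ' η) (hδe ▸ h2) (by positivity)
    have s3 := hsep ζ' hζA' ζ hζA hne.symm
    have s4 : r / √k ≤ √(D ζ' ζ) := by
      rw [div_le_iff₀ hsk, ← Real.sqrt_mul' _ hk0.le]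
      apply Real.le_sqrt_of_sq_le
      linarith
    have s5 : r / √k ≤ r / 4 / √k + r / 4 / √k := by linarith
    have s6 : r / 4 / √k + r / 4 / √k = (r / √k) / 2 := by ring
    have s7 : 0 < r / √k := by positivity
    linarith
  have hun := measure_biUnion_finset₀ (μ := sig) hdis (fun ζ _ => (pack_meas ζ δ).nullMeasurableSet)
  have hsub : sig (⋃ ζ ∈ A, {η | D ζ η ≤ δ}) ≤ sig {η | D x η ≤ δ'} := by
    calc sig (⋃ ζ ∈ A, {η | D ζ η ≤ δ}) ≤ sig ({η | D x η ≤ δ'} ∪ Sᶜ) := by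
          apply measure_mono
          intro η hη
          simp only [mem_iUnion] at hη
          obtain ⟨ζ, hζ, h1⟩ := hη
          have h1 : D ζ η ≤ δ := h1
          by_cases hηS : η ∈ S
          · left
            have hζS := hΛ _ (hA hζ)
            have t := D_triangle (x := ζ) (y := x) (ζ := η) hζS hx hηS
            rw [D_comm ζ x] at t
            have s1 := pack_sqrt hk (D_nonneg ζ η) (hδe ▸ h1) (by positivity)
            have s2 : D x ζ ≤ ρ ^ 2 / k := by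
              rw [le_div_iff₀ hk0]
              have := hAx ζ hζ
              linarith
            have s3 := pack_sqrt hk (D_nonneg x ζ) s2 hρ0.le
            show D x η ≤ δ'
            have s4 : √(D x η) ≤ 2 * ρ / √k := by
              calc √(D x η) ≤ r / 4 / √k + ρ / √k := by linarith
                _ = (r / 4 + ρ) / √k := by ring
                _ ≤ 2 * ρ / √k := by gcongr; linarith
            have s5 : D x η = √(D x η) ^ 2 := (Real.sq_sqrt (D_nonneg x η)).symm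
            rw [s5, hδ']
            calc √(D x η) ^ 2 ≤ (2 * ρ / √k) ^ 2 := pow_le_pow_left₀ (Real.sqrt_nonneg _) s4 2
              _ = (2 * ρ) ^ 2 / k := by rw [div_pow, Real.sq_sqrt hk0.le]
          · right; exact hηS
      _ ≤ sig {η | D x η ≤ δ'} + sig Sᶜ := measure_union_le _ _
      _ = sig {η | D x η ≤ δ'} := by rw [sig_S, add_zero]
  rw [hun] at hsub
  have hR : ∑ ζ ∈ A, (sig {η | D ζ η ≤ δ}).toReal ≤ (sig {η | D x η ≤ δ'}).toReal := by
    rw [← ENNReal.toReal_sum (fun ζ _ => measure_ne_top _ _)]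
    exact ENNReal.toReal_mono (measure_ne_top _ _) hsub
  have hL : (A.card : ℝ) * (c * δ ^ 2) ≤ ∑ ζ ∈ A, (sig {η | D ζ η ≤ δ}).toReal := by
    rw [← nsmul_eq_mul, ← Finset.sum_const]
    exact Finset.sum_le_sum (fun ζ hζ => hlo ζ (hΛ _ (hA hζ)) δ hδ0 hδ2)
  have hU := hup x hx δ' hδ'0
  have hfin : (A.card : ℝ) * (c * δ ^ 2) ≤ C * δ' ^ 2 := hL.trans (hR.trans hU)
  have e1 : C * δ' ^ 2 = (4096 * C / c * (ρ / r) ^ 4) * (c * δ ^ 2) := by
    rw [hδ, hδ']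
    field_simp
    ring
  rw [e1] at hfin
  exact le_of_mul_le_mul_right hfin (by positivity)

/-! ### color -/

theorem color_greedy {α : Type} (near : α → α → Prop) [∀ x, DecidablePred (near x)]
    (hsymm : ∀ x y, near x y → near y x)
    (K : ℕ) (hK : 0 < K) : ∀ Λ : Finset α,
      (∀ x ∈ Λ, (Λ.filter (near x)).card < K) →
    ∃ col : α → Fin K, ∀ ζ ∈ Λ, ∀ ζ' ∈ Λ, ζ ≠ ζ' → col ζ = col ζ' → ¬ near ζ ζ' := by
  classical
  intro Λ
  induction Λ using Finset.induction_on with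
  | empty =>
    intro _
    exact ⟨fun _ => ⟨0, hK⟩, fun ζ hζ => absurd hζ (Finset.notMem_empty _)⟩
  | insert a Λ ha ih =>
    intro h
    obtain ⟨col, hcol⟩ := ih (by
      intro x hx
      refine lt_of_le_of_lt (Finset.card_le_card ?_) (h x (Finset.mem_insert_of_mem hx))
      exact Finset.filter_subset_filter _ (Finset.subset_insert a Λ))
    have hN : (Λ.filter (near a)).card < K := by
      refine lt_of_le_of_lt (Finset.card_le_card ?_) (h a (Finset.mem_insert_self a Λ))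
      exact Finset.filter_subset_filter _ (Finset.subset_insert a Λ)
    obtain ⟨c, hc⟩ : ∃ c : Fin K, c ∉ (Λ.filter (near a)).image col := by
      by_contra hcon
      push Not at hcon
      have h1 : (Finset.univ : Finset (Fin K)) ⊆ (Λ.filter (near a)).image col :=
        fun c _ => hcon c
      have h2 := Finset.card_le_card h1
      rw [Finset.card_univ, Fintype.card_fin] at h2
      exact absurd (lt_of_le_of_lt (h2.trans Finset.card_image_le) hN) (lt_irrefl _)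
    have hc' : ∀ ζ ∈ Λ, c = col ζ → ¬ near a ζ := by
      intro ζ hζ hcz hn
      apply hc
      rw [Finset.mem_image]
      exact ⟨ζ, Finset.mem_filter.mpr ⟨hζ, hn⟩, hcz.symm⟩
    refine ⟨Function.update col a c, ?_⟩
    intro ζ hζ ζ' hζ' hne hcc
    rw [Finset.mem_insert] at hζ hζ'
    rcases hζ with rfl | hζ
    · rcases hζ' with rfl | hζ'
      · exact absurd rfl hne
      · rw [Function.update_self, Function.update_of_ne (Ne.symm hne)] at hcc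
        exact hc' ζ' hζ' hcc
    · have hza : ζ ≠ a := by rintro rfl; exact ha hζ
      rcases hζ' with rfl | hζ'
      · rw [Function.update_self, Function.update_of_ne hne] at hcc
        intro hn
        exact hc' ζ hζ hcc.symm (hsymm _ _ hn)
      · have hza' : ζ' ≠ a := by rintro rfl; exact ha hζ'
        rw [Function.update_of_ne hza, Function.update_of_ne hza'] at hcc
        exact hcol ζ hζ ζ' hζ' hne hcc

theorem color : ∀ r : ℝ, 0 < r → r ≤ 1 → ∃ K : ℕ, 0 < K ∧ ∀ k : ℕ, 1 ≤ k → ∀ Λ : Finset P,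
    (∀ ζ ∈ Λ, ζ ∈ S) → (∀ ζ ∈ Λ, ∀ ζ' ∈ Λ, ζ ≠ ζ' → r ^ 2 ≤ k * D ζ ζ') →
    ∃ col : P → Fin K, ∀ ζ ∈ Λ, ∀ ζ' ∈ Λ, ζ ≠ ζ' → col ζ = col ζ' → 1 / r ^ 2 ≤ k * D ζ ζ' := by
  classical
  obtain ⟨C, hC, hpack⟩ := pack
  intro r hr hr1
  refine ⟨⌊C * ((1 / r) / r) ^ 4⌋₊ + 1, Nat.succ_pos _, ?_⟩
  intro k hk Λ hΛ hsep
  obtain ⟨col, hcol⟩ := color_greedy (fun x y : P => k * D x y < 1 / r ^ 2)
    (fun x y h => by rw [D_comm]; exact h) (⌊C * ((1 / r) / r) ^ 4⌋₊ + 1) (Nat.succ_pos _) Λ (by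
      intro x hx
      have h1 : r ≤ 1 / r := by
        rw [le_div_iff₀ hr]
        nlinarith
      have h2 := hpack k hk r hr hr1 Λ hΛ hsep x (hΛ x hx) (1 / r) h1
        (Λ.filter (fun y => k * D x y < 1 / r ^ 2)) (Finset.filter_subset _ _) (by
          intro ζ hζ
          have h3 := (Finset.mem_filter.mp hζ).2
          rw [one_div, inv_pow, ← one_div]
          exact h3.le)
      have h4 := Nat.le_floor h2
      exact lt_of_le_of_lt h4 (Nat.lt_succ_self _))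
  refine ⟨col, ?_⟩
  intro ζ hζ ζ' hζ' hne hcc
  have := hcol ζ hζ ζ' hζ' hne hcc
  exact not_lt.mp this

/-! ### maxsep -/

theorem maxsep_self {z : P} (hz : z ∈ S) : D z z = 0 := by
  have h : ip z z = 1 := by
    have h1 : nsq z = 1 := hz
    unfold ip
    rw [Complex.mul_conj, Complex.mul_conj, Complex.normSq_eq_norm_sq, Complex.normSq_eq_norm_sq]
    rw [← Complex.ofReal_add]
    have h2 : ‖z.1‖ ^ 2 + ‖z.2‖ ^ 2 = 1 := h1
    rw [h2, Complex.ofReal_one]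
  rw [D, h, sub_self, norm_zero]

theorem maxsep (k : ℕ) (hk : 1 ≤ k) (r : ℝ) (hr : 0 < r) (hr1 : r ≤ 1) : ∃ Λ : Finset P,
    (∀ ζ ∈ Λ, ζ ∈ S) ∧ (∀ ζ ∈ Λ, ∀ ζ' ∈ Λ, ζ ≠ ζ' → r ^ 2 ≤ k * D ζ ζ') ∧
    ∀ ζ' ∈ S, ∃ ζ ∈ Λ, k * D ζ ζ' < r ^ 2 := by
  classical
  obtain ⟨C, hC, hpack⟩ := pack
  have hx : ((1, 0) : P) ∈ S := by
    change nsq (1, 0) = 1
    simp [nsq]
  have hk' : (1 : ℝ) ≤ k := by exact_mod_cast hk
  set ρ : ℝ := √(2 * k) with hρ
  have hρ2 : ρ ^ 2 = 2 * k := Real.sq_sqrt (by positivity)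
  have hrρ : r ≤ ρ := by
    refine hr1.trans ?_
    rw [hρ]
    refine Real.le_sqrt_of_sq_le ?_
    linarith
  let Q : Finset P → Prop := fun Λ => (∀ ζ ∈ Λ, ζ ∈ S) ∧
    (∀ ζ ∈ Λ, ∀ ζ' ∈ Λ, ζ ≠ ζ' → r ^ 2 ≤ k * D ζ ζ')
  have hbound : ∀ Λ : Finset P, Q Λ → Λ.card ≤ ⌊C * (ρ / r) ^ 4⌋₊ := by
    intro Λ hΛ
    have h := hpack k hk r hr hr1 Λ hΛ.1 hΛ.2 (1, 0) hx ρ hrρ Λ (Finset.Subset.refl _) (by
      intro ζ hζ
      rw [hρ2]
      have := D_le_two hx (hΛ.1 ζ hζ)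
      nlinarith)
    exact Nat.le_floor h
  have hex : ∃ Λ : Finset P, Q Λ ∧ ∀ Λ' : Finset P, Q Λ' → Λ'.card ≤ Λ.card := by
    let R : ℕ → Prop := fun n => ∃ Λ : Finset P, Q Λ ∧ Λ.card = n
    have h0 : R 0 := ⟨∅, ⟨by simp, by simp⟩, rfl⟩
    obtain ⟨Λ, hΛ, hcard⟩ := Nat.findGreatest_spec (P := R) (Nat.zero_le ⌊C * (ρ / r) ^ 4⌋₊) h0
    refine ⟨Λ, hΛ, fun Λ' hΛ' => ?_⟩
    rw [hcard]
    exact Nat.le_findGreatest (hbound Λ' hΛ') ⟨Λ', hΛ', rfl⟩
  obtain ⟨Λ, hΛ, hmax⟩ := hex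
  refine ⟨Λ, hΛ.1, hΛ.2, fun ζ' hζ' => ?_⟩
  by_contra hcon
  push Not at hcon
  have hnot : ζ' ∉ Λ := by
    intro h
    have h1 := hcon ζ' h
    rw [maxsep_self hζ', mul_zero] at h1
    have : 0 < r ^ 2 := by positivity
    linarith
  have hQ : Q (insert ζ' Λ) := by
    refine ⟨?_, ?_⟩
    · intro ζ hζ
      rcases Finset.mem_insert.1 hζ with h | h
      · rw [h]; exact hζ'
      · exact hΛ.1 ζ h
    · intro ζ hζ ξ hξ hne
      rcases Finset.mem_insert.1 hζ with h | h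
      · rcases Finset.mem_insert.1 hξ with h' | h'
        · exact absurd (h.trans h'.symm) hne
        · rw [h, D_comm]; exact hcon ξ h'
      · rcases Finset.mem_insert.1 hξ with h' | h'
        · rw [h']; exact hcon ζ h
        · exact hΛ.2 ζ h ξ h' hne
  have h1 := hmax _ hQ
  rw [Finset.card_insert_of_notMem hnot] at h1
  omega

/-! ### riemann -/

theorem riemann_cont_ip (z : P) : Continuous (fun w : P => ip z w) := by
  unfold ip
  exact (continuous_const.mul (Complex.continuous_conj.comp continuous_fst)).add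
    (continuous_const.mul (Complex.continuous_conj.comp continuous_snd))

theorem riemann_cont_D (z : P) : Continuous (fun w : P => D z w) := by
  unfold D
  exact (continuous_const.sub (riemann_cont_ip z)).norm

theorem riemann_cont_K (q k : ℕ) (z : P) :
    Continuous (fun w : P => ‖F k (ip z w)‖ ^ (2 * q)) := by
  have h := riemann_cont_ip z
  unfold F
  refine Continuous.pow (Continuous.norm (Continuous.div_const ?_ _)) _
  exact continuous_finset_sum _ (fun i _ => h.pow i)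

theorem riemann_ae_S : ∀ᵐ w ∂sig, w ∈ S := by
  rw [ae_iff]
  exact sig_S

theorem riemann_ip_le {z w : P} (hz : z ∈ S) (hw : w ∈ S) : ‖ip z w‖ ≤ 1 := by
  have h1 := norm_ip_sq_le z w
  have h2 : nsq z = 1 := hz
  have h3 : nsq w = 1 := hw
  rw [h2, h3, one_mul] at h1
  nlinarith [norm_nonneg (ip z w)]

/-- the indicator of a ball -/
noncomputable def riemann_ind (k : ℕ) (r : ℝ) (ζ ζ' : P) : ℝ :=
  {w : P | k * D ζ w < r ^ 2}.indicator (fun _ => (1 : ℝ)) ζ'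

/-- the partition of unity -/
noncomputable def riemann_chi (k : ℕ) (r : ℝ) (Λ : Finset P) (ζ ζ' : P) : ℝ :=
  riemann_ind k r ζ ζ' / ∑ η ∈ Λ, riemann_ind k r η ζ'

theorem riemann_ind_meas_set (k : ℕ) (r : ℝ) (ζ : P) :
    MeasurableSet {w : P | k * D ζ w < r ^ 2} :=
  measurableSet_lt (measurable_const.mul (riemann_cont_D ζ).measurable) measurable_const

theorem riemann_ind_meas (k : ℕ) (r : ℝ) (ζ : P) : Measurable (riemann_ind k r ζ) :=
  measurable_const.indicator (riemann_ind_meas_set k r ζ)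

theorem riemann_ind_nonneg (k : ℕ) (r : ℝ) (ζ ζ' : P) : 0 ≤ riemann_ind k r ζ ζ' :=
  Set.indicator_nonneg (fun _ _ => zero_le_one) _

theorem riemann_ind_cases (k : ℕ) (r : ℝ) (ζ ζ' : P) :
    (k * D ζ ζ' < r ^ 2 ∧ riemann_ind k r ζ ζ' = 1) ∨ riemann_ind k r ζ ζ' = 0 := by
  by_cases h : k * D ζ ζ' < r ^ 2
  · exact Or.inl ⟨h, Set.indicator_of_mem (s := {w : P | k * D ζ w < r ^ 2}) h _⟩
  · exact Or.inr (Set.indicator_of_notMem (s := {w : P | k * D ζ w < r ^ 2}) h _)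

theorem riemann_chi_meas (k : ℕ) (r : ℝ) (Λ : Finset P) (ζ : P) :
    Measurable (riemann_chi k r Λ ζ) :=
  (riemann_ind_meas k r ζ).div (Finset.measurable_sum _ (fun η _ => riemann_ind_meas k r η))

theorem riemann_chi_nonneg (k : ℕ) (r : ℝ) (Λ : Finset P) (ζ ζ' : P) :
    0 ≤ riemann_chi k r Λ ζ ζ' :=
  div_nonneg (riemann_ind_nonneg _ _ _ _)
    (Finset.sum_nonneg (fun η _ => riemann_ind_nonneg _ _ _ _))

theorem riemann_chi_le (k : ℕ) (r : ℝ) (Λ : Finset P) {ζ : P} (hζ : ζ ∈ Λ) (ζ' : P) :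
    riemann_chi k r Λ ζ ζ' ≤ riemann_ind k r ζ ζ' := by
  unfold riemann_chi
  rcases riemann_ind_cases k r ζ ζ' with ⟨_, h⟩ | h
  · have h1 : riemann_ind k r ζ ζ' ≤ ∑ η ∈ Λ, riemann_ind k r η ζ' :=
      Finset.single_le_sum (fun η _ => riemann_ind_nonneg k r η ζ') hζ
    rw [h] at h1 ⊢
    exact div_le_one_of_le₀ h1 (by linarith)
  · rw [h, zero_div]

theorem riemann_chi_sum (k : ℕ) (r : ℝ) (Λ : Finset P) (ζ' : P)
    (h : ∃ ζ ∈ Λ, k * D ζ ζ' < r ^ 2) : ∑ ζ ∈ Λ, riemann_chi k r Λ ζ ζ' = 1 := by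
  unfold riemann_chi
  rw [← Finset.sum_div]
  apply div_self
  obtain ⟨ζ, hζ, h1⟩ := h
  have h2 : riemann_ind k r ζ ζ' = 1 :=
    Set.indicator_of_mem (s := {w : P | k * D ζ w < r ^ 2}) h1 _
  have h3 : riemann_ind k r ζ ζ' ≤ ∑ η ∈ Λ, riemann_ind k r η ζ' :=
    Finset.single_le_sum (fun η _ => riemann_ind_nonneg k r η ζ') hζ
  rw [h2] at h3
  linarith

theorem riemann (q : ℕ) (hq : 3 ≤ q) : ∃ C : ℝ, 0 < C ∧ ∀ r : ℝ, 0 < r → r ≤ 1 →
    ∀ k : ℕ, 1 ≤ k → ∀ W : P → ℝ, Continuous W → ∀ ε : ℝ, 0 < ε → (∀ z ∈ S, 0 ≤ W z ∧ W z ≤ 2 * ε) →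
    ∀ Λ : Finset P, (∀ ζ ∈ Λ, ζ ∈ S) → (∀ ζ' ∈ S, ∃ ζ ∈ Λ, k * D ζ ζ' < r ^ 2) →
    ∃ w : P → ℝ, (∀ ζ ∈ Λ, 0 ≤ w ζ ∧ w ζ ≤ C * ε * r ^ 4) ∧
      ∀ z ∈ S, |∑ ζ ∈ Λ, w ζ * ‖F k (ip z ζ)‖ ^ (2 * q) - T q k W z| ≤ C * r * ε := by
  obtain ⟨C1, hC1, hup⟩ := sig_upper
  obtain ⟨c, hc, hII⟩ := II_lower q
  obtain ⟨C2, hC2, hlip⟩ := F_lip q (by omega)
  obtain ⟨C3, hC3, hint⟩ := sig_int
  obtain ⟨C4, hC4, hFb⟩ := F_bound
  refine ⟨2 * C1 / c + 2 * C2 * C3 / c, by positivity, ?_⟩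
  intro r hr hr1 k hk W hW ε hε hWb Λ hΛ hcov
  have := sig_finite
  have hk0 : (0 : ℝ) < k := by exact_mod_cast hk
  have hIIpos : 0 < II q k := lt_of_lt_of_le (by positivity) (hII k hk)
  have hA1 : 0 < 2 * C1 / c := by positivity
  have hA2 : 0 < 2 * C2 * C3 / c := by positivity
  -- integrability
  have hWae : ∀ᵐ ζ' ∂sig, 0 ≤ W ζ' ∧ W ζ' ≤ 2 * ε := riemann_ae_S.mono (fun w hw => hWb w hw)
  have hint_of : ∀ (g : P → ℝ) (B : ℝ), Measurable g → (∀ᵐ w ∂sig, |g w| ≤ B) →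
      Integrable g sig := by
    intro g B hg hB
    exact Integrable.of_bound hg.aestronglyMeasurable B hB
  have hchi1 : ∀ ζ ∈ Λ, ∀ ζ', riemann_chi k r Λ ζ ζ' ≤ 1 := by
    intro ζ hζ ζ'
    refine (riemann_chi_le k r Λ hζ ζ').trans ?_
    rcases riemann_ind_cases k r ζ ζ' with ⟨_, h⟩ | h
    · exact h.le
    · rw [h]; exact zero_le_one
  have hg_abs : ∀ ζ ∈ Λ, ∀ᵐ ζ' ∂sig, |W ζ' * riemann_chi k r Λ ζ ζ'| ≤ 2 * ε := by
    intro ζ hζ
    filter_upwards [hWae] with ζ' h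
    rw [abs_mul, abs_of_nonneg h.1, abs_of_nonneg (riemann_chi_nonneg k r Λ ζ ζ')]
    calc W ζ' * riemann_chi k r Λ ζ ζ' ≤ (2 * ε) * 1 :=
          mul_le_mul h.2 (hchi1 ζ hζ ζ') (riemann_chi_nonneg _ _ _ _ _) (by positivity)
      _ = 2 * ε := mul_one _
  have hg_meas : ∀ ζ, Measurable (fun ζ' => W ζ' * riemann_chi k r Λ ζ ζ') :=
    fun ζ => hW.measurable.mul (riemann_chi_meas k r Λ ζ)
  have hg_int : ∀ ζ ∈ Λ, Integrable (fun ζ' => W ζ' * riemann_chi k r Λ ζ ζ') sig :=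
    fun ζ hζ => hint_of _ (2 * ε) (hg_meas ζ) (hg_abs ζ hζ)
  refine ⟨fun ζ => (∫ ζ', W ζ' * riemann_chi k r Λ ζ ζ' ∂sig) / II q k, ?_, ?_⟩
  · intro ζ hζ
    refine ⟨div_nonneg (integral_nonneg_of_ae ?_) hIIpos.le, ?_⟩
    · filter_upwards [hWae] with ζ' h
      exact mul_nonneg h.1 (riemann_chi_nonneg _ _ _ _ _)
    · have hb : ∫ ζ', W ζ' * riemann_chi k r Λ ζ ζ' ∂sig ≤ 2 * ε * (C1 * (r ^ 2 / k) ^ 2) := by
        have hsub : (sig {w : P | k * D ζ w < r ^ 2}).toReal ≤ C1 * (r ^ 2 / k) ^ 2 := by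
          refine le_trans ?_ (hup ζ (hΛ ζ hζ) (r ^ 2 / k) (by positivity))
          refine ENNReal.toReal_mono (measure_ne_top _ _) (measure_mono ?_)
          intro w hw
          have hw' : k * D ζ w < r ^ 2 := hw
          show D ζ w ≤ r ^ 2 / k
          rw [le_div_iff₀ hk0, mul_comm]
          exact hw'.le
        have h2 : ∫ ζ', W ζ' * riemann_chi k r Λ ζ ζ' ∂sig ≤
            ∫ ζ', {w : P | k * D ζ w < r ^ 2}.indicator (fun _ => 2 * ε) ζ' ∂sig := by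
          refine integral_mono_ae (hg_int ζ hζ)
            ((integrable_const (2 * ε)).indicator (riemann_ind_meas_set k r ζ)) ?_
          filter_upwards [hWae] with ζ' h
          have h3 := riemann_chi_le k r Λ hζ ζ'
          rcases riemann_ind_cases k r ζ ζ' with ⟨h5, h4⟩ | h4
          · rw [Set.indicator_of_mem (s := {w : P | k * D ζ w < r ^ 2}) h5]
            rw [h4] at h3
            calc W ζ' * riemann_chi k r Λ ζ ζ' ≤ (2 * ε) * 1 :=
                  mul_le_mul h.2 h3 (riemann_chi_nonneg _ _ _ _ _) (by positivity)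
              _ = 2 * ε := mul_one _
          · have h6 : riemann_chi k r Λ ζ ζ' = 0 := by
              unfold riemann_chi
              rw [h4, zero_div]
            rw [h6, mul_zero]
            exact Set.indicator_nonneg (fun _ _ => by positivity) _
        rw [integral_indicator (riemann_ind_meas_set k r ζ), setIntegral_const, smul_eq_mul,
          measureReal_def] at h2
        refine h2.trans ?_
        rw [mul_comm]
        exact mul_le_mul_of_nonneg_left hsub (by positivity)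
      have h7 : (∫ ζ', W ζ' * riemann_chi k r Λ ζ ζ' ∂sig) / II q k ≤
          (2 * C1 / c) * ε * r ^ 4 := by
        rw [div_le_iff₀ hIIpos]
        refine hb.trans ?_
        calc 2 * ε * (C1 * (r ^ 2 / k) ^ 2) = (2 * C1 / c) * ε * r ^ 4 * (c / (k : ℝ) ^ 2) := by
              field_simp
          _ ≤ (2 * C1 / c) * ε * r ^ 4 * II q k :=
              mul_le_mul_of_nonneg_left (hII k hk) (by positivity)
      refine h7.trans ?_
      have h8 : 0 ≤ (2 * C2 * C3 / c) * ε * r ^ 4 := by positivity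
      nlinarith
  · intro z hz
    have hKb : ∀ᵐ ζ' ∂sig, |‖F k (ip z ζ')‖ ^ (2 * q)| ≤ C4 ^ (2 * q) := by
      filter_upwards [riemann_ae_S] with ζ' hζ'
      rw [abs_of_nonneg (by positivity)]
      refine pow_le_pow_left₀ (norm_nonneg _) ?_ _
      have h1 := riemann_ip_le hz hζ'
      refine (hFb k hk (ip z ζ') ?_).trans ?_
      · have : (0 : ℝ) ≤ 2 / k := by positivity
        linarith
      · apply div_le_self hC4.le
        have : 0 ≤ k * ‖1 - ip z ζ'‖ := by positivity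
        linarith
    have hgK_int : ∀ ζ ∈ Λ, Integrable (fun ζ' => W ζ' * riemann_chi k r Λ ζ ζ' *
        ‖F k (ip z ζ')‖ ^ (2 * q)) sig := by
      intro ζ hζ
      refine hint_of _ (2 * ε * C4 ^ (2 * q)) ((hg_meas ζ).mul (riemann_cont_K q k z).measurable) ?_
      filter_upwards [hg_abs ζ hζ, hKb] with ζ' h1 h2
      rw [abs_mul]
      exact mul_le_mul h1 h2 (abs_nonneg _) (by positivity)
    have hTW : T q k W z = (∑ ζ ∈ Λ, ∫ ζ', W ζ' * riemann_chi k r Λ ζ ζ' *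
        ‖F k (ip z ζ')‖ ^ (2 * q) ∂sig) / II q k := by
      rw [T_kernel q k hW hz, ← integral_finsetSum _ hgK_int]
      congr 1
      apply integral_congr_ae
      filter_upwards [riemann_ae_S] with ζ' hζ'
      have h1 := riemann_chi_sum k r Λ ζ' (hcov ζ' hζ')
      rw [← Finset.sum_mul, ← Finset.mul_sum, h1, mul_one]
    have hsum : ∑ ζ ∈ Λ, (∫ ζ', W ζ' * riemann_chi k r Λ ζ ζ' ∂sig) / II q k *
        ‖F k (ip z ζ)‖ ^ (2 * q) = (∑ ζ ∈ Λ, ∫ ζ', W ζ' * riemann_chi k r Λ ζ ζ' *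
        ‖F k (ip z ζ)‖ ^ (2 * q) ∂sig) / II q k := by
      rw [Finset.sum_div]
      refine Finset.sum_congr rfl (fun ζ _ => ?_)
      rw [integral_mul_const]
      ring
    have hdiff : ∑ ζ ∈ Λ, (∫ ζ', W ζ' * riemann_chi k r Λ ζ ζ' ∂sig) / II q k *
        ‖F k (ip z ζ)‖ ^ (2 * q) - T q k W z = (∫ ζ', ∑ ζ ∈ Λ, W ζ' * riemann_chi k r Λ ζ ζ' *
        (‖F k (ip z ζ)‖ ^ (2 * q) - ‖F k (ip z ζ')‖ ^ (2 * q)) ∂sig) / II q k := by
      rw [hTW, hsum, ← sub_div, ← Finset.sum_sub_distrib]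
      congr 1
      rw [integral_finsetSum]
      · refine Finset.sum_congr rfl (fun ζ hζ => ?_)
        rw [← integral_sub ((hg_int ζ hζ).mul_const _) (hgK_int ζ hζ)]
        congr 1
        funext ζ'
        ring
      · intro ζ hζ
        refine (((hg_int ζ hζ).mul_const (‖F k (ip z ζ)‖ ^ (2 * q))).sub
          (hgK_int ζ hζ)).congr (Filter.Eventually.of_forall (fun ζ' => ?_))
        show W ζ' * riemann_chi k r Λ ζ ζ' * ‖F k (ip z ζ)‖ ^ (2 * q) -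
          W ζ' * riemann_chi k r Λ ζ ζ' * ‖F k (ip z ζ')‖ ^ (2 * q) = _
        ring
    have hbd : |∫ ζ', ∑ ζ ∈ Λ, W ζ' * riemann_chi k r Λ ζ ζ' *
        (‖F k (ip z ζ)‖ ^ (2 * q) - ‖F k (ip z ζ')‖ ^ (2 * q)) ∂sig| ≤
        2 * ε * (C2 * r) * (C3 / (k : ℝ) ^ 2) := by
      have hDint : Integrable (fun ζ' => ((1 + k * D z ζ') ^ 3)⁻¹) sig := by
        refine hint_of _ 1 ?_ (Filter.Eventually.of_forall (fun ζ' => ?_))
        · have h := (riemann_cont_D z).measurable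
          exact ((measurable_const.add (measurable_const.mul h)).pow_const 3).inv
        · have h1 : 1 ≤ (1 + k * D z ζ') ^ 3 := by
            apply one_le_pow₀
            have := D_nonneg z ζ'
            have : 0 ≤ k * D z ζ' := by positivity
            linarith
          rw [abs_of_nonneg (by positivity)]
          exact inv_le_one_of_one_le₀ h1
      have h1 : ‖∫ ζ', ∑ ζ ∈ Λ, W ζ' * riemann_chi k r Λ ζ ζ' *
          (‖F k (ip z ζ)‖ ^ (2 * q) - ‖F k (ip z ζ')‖ ^ (2 * q)) ∂sig‖ ≤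
          ∫ ζ', 2 * ε * (C2 * r) * ((1 + k * D z ζ') ^ 3)⁻¹ ∂sig := by
        refine norm_integral_le_of_norm_le (hDint.const_mul _) ?_
        filter_upwards [riemann_ae_S, hWae] with ζ' hζ' hWζ
        have hD3 : 0 ≤ ((1 + k * D z ζ') ^ 3)⁻¹ := by
          have := D_nonneg z ζ'
          positivity
        have h2 : ∀ ζ ∈ Λ, ‖W ζ' * riemann_chi k r Λ ζ ζ' *
            (‖F k (ip z ζ)‖ ^ (2 * q) - ‖F k (ip z ζ')‖ ^ (2 * q))‖ ≤
            riemann_chi k r Λ ζ ζ' * (2 * ε * (C2 * r) * ((1 + k * D z ζ') ^ 3)⁻¹) := by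
          intro ζ hζ
          have hchi0 := riemann_chi_nonneg k r Λ ζ ζ'
          rw [Real.norm_eq_abs, abs_mul, abs_mul, abs_of_nonneg hWζ.1, abs_of_nonneg hchi0]
          rcases riemann_ind_cases k r ζ ζ' with ⟨h5, _⟩ | h4
          · have h6 := hlip k hk r hr hr1 z hz ζ' hζ' ζ (hΛ ζ hζ)
              (by rw [D_comm]; exact h5.le)
            rw [abs_sub_comm] at h6
            calc W ζ' * riemann_chi k r Λ ζ ζ' *
                |‖F k (ip z ζ)‖ ^ (2 * q) - ‖F k (ip z ζ')‖ ^ (2 * q)|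
                ≤ (2 * ε) * riemann_chi k r Λ ζ ζ' *
                  (C2 * r * ((1 + k * D z ζ') ^ 3)⁻¹) := by
                  apply mul_le_mul _ h6 (abs_nonneg _) (by positivity)
                  exact mul_le_mul_of_nonneg_right hWζ.2 hchi0
              _ = _ := by ring
          · have h6 : riemann_chi k r Λ ζ ζ' = 0 := by
              unfold riemann_chi
              rw [h4, zero_div]
            rw [h6, mul_zero, zero_mul, zero_mul]
        refine (norm_sum_le _ _).trans ((Finset.sum_le_sum h2).trans ?_)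
        rw [← Finset.sum_mul, riemann_chi_sum k r Λ ζ' (hcov ζ' hζ'), one_mul]
      rw [Real.norm_eq_abs, integral_const_mul] at h1
      refine h1.trans (mul_le_mul_of_nonneg_left (hint k hk z hz) (by positivity))
    show |∑ ζ ∈ Λ, (∫ ζ', W ζ' * riemann_chi k r Λ ζ ζ' ∂sig) / II q k *
        ‖F k (ip z ζ)‖ ^ (2 * q) - T q k W z| ≤ _
    rw [hdiff, abs_div, abs_of_pos hIIpos, div_le_iff₀ hIIpos]
    refine hbd.trans ?_
    calc 2 * ε * (C2 * r) * (C3 / (k : ℝ) ^ 2) =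
          (2 * C2 * C3 / c) * r * ε * (c / (k : ℝ) ^ 2) := by field_simp
      _ ≤ (2 * C2 * C3 / c) * r * ε * II q k :=
          mul_le_mul_of_nonneg_left (hII k hk) (by positivity)
      _ ≤ (2 * C1 / c + 2 * C2 * C3 / c) * r * ε * II q k := by
          have h8 : 0 ≤ 2 * C1 / c * r * ε * II q k := by positivity
          nlinarith

end Pool.Agent.H892PB
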