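import Pool.Agent.Helper892.PB.Defs

set_option autoImplicit false

open MeasureTheory Set
open scoped ComplexConjugate

namespace Pool.Agent.H892PB

/-! ### exp_not_rational -/

theorem exp_not_rational_point (q : MvPolynomial (Fin 2) ℂ) (hq : q ≠ 0) :
    ∃ a b : ℂ, ‖a‖ < 1 / 2 ∧ ‖b‖ < 1 / 2 ∧ MvPolynomial.eval ![a, b] q ≠ 0 := by
  by_contra hcon
  push Not at hcon
  apply hq
  apply MvPolynomial.funext_set (fun _ : Fin 2 => Metric.ball (0 : ℂ) (1 / 2))
  · intro _
    exact infinite_of_mem_nhds (0 : ℂ) (Metric.ball_mem_nhds _ (by norm_num))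
  · intro x hx
    have h0 := hx 0 (mem_univ _)
    have h1 := hx 1 (mem_univ _)
    simp only [Metric.mem_ball, dist_zero_right] at h0 h1
    have h2 := hcon (x 0) (x 1) h0 h1
    have h3 : x = ![x 0, x 1] := by
      funext i; fin_cases i <;> rfl
    rw [h3, h2, map_zero]

theorem exp_not_rational (c : ℂ) (hc : c ≠ 0) : ¬ ∃ p q : MvPolynomial (Fin 2) ℂ, q ≠ 0 ∧
    ∀ z : Fin 2 → ℂ, ∑ i, ‖z i‖ ^ 2 < 1 → c * Complex.exp (z 0) * MvPolynomial.eval z q = MvPolynomial.eval z p := by
  rintro ⟨p, q, hq, h⟩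
  obtain ⟨a, b, ha, hb, hab⟩ := exp_not_rational_point q hq
  let φ : MvPolynomial (Fin 2) ℂ →ₐ[ℂ] Polynomial ℂ :=
    MvPolynomial.aeval ![Polynomial.X, Polynomial.C b]
  have hφ : ∀ (r : MvPolynomial (Fin 2) ℂ) (s : ℂ),
      (φ r).eval s = MvPolynomial.eval ![s, b] r := by
    intro r s
    induction r using MvPolynomial.induction_on with
    | C a => simp [φ]
    | add p q hp hq => rw [map_add, Polynomial.eval_add, hp, hq, map_add]
    | mul_X p i hp =>
      rw [map_mul, Polynomial.eval_mul, hp, map_mul]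
      congr 1
      fin_cases i <;> simp [φ]
  have hQ : φ q ≠ 0 := by
    intro h0
    apply hab
    rw [← hφ, h0, Polynomial.eval_zero]
  -- small s
  have hsmall : ∀ s : ℂ, ‖s‖ < 1 / 2 → c * Complex.exp s * (φ q).eval s = (φ p).eval s := by
    intro s hs
    rw [hφ, hφ]
    have := h ![s, b] (by
      rw [Fin.sum_univ_two]
      simp only [Matrix.cons_val_zero, Matrix.cons_val_one]
      nlinarith [norm_nonneg s, norm_nonneg b])
    simpa using this
  have hall : ∀ s : ℂ, c * Complex.exp s * (φ q).eval s = (φ p).eval s := by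
    have hf : AnalyticOnNhd ℂ (fun s : ℂ => c * Complex.exp s * (φ q).eval s) univ := by
      apply DifferentiableOn.analyticOnNhd _ isOpen_univ
      exact (((Complex.differentiable_exp.const_mul c).mul (φ q).differentiable)).differentiableOn
    have hg : AnalyticOnNhd ℂ (fun s : ℂ => (φ p).eval s) univ := by
      apply DifferentiableOn.analyticOnNhd _ isOpen_univ
      exact (φ p).differentiable.differentiableOn
    have heq : (fun s : ℂ => c * Complex.exp s * (φ q).eval s) =ᶠ[nhds 0]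
        (fun s : ℂ => (φ p).eval s) := by
      filter_upwards [Metric.ball_mem_nhds (0 : ℂ) (show (0:ℝ) < 1 / 2 by norm_num)] with s hs
      apply hsmall
      simpa using hs
    have := hf.eq_of_eventuallyEq hg heq
    intro s
    exact congrFun this s
  have hper : ∀ s₀ : ℂ, Polynomial.C (c * Complex.exp s₀) * φ q = φ p := by
    intro s₀
    rw [← sub_eq_zero]
    apply Polynomial.eq_zero_of_infinite_isRoot
    apply Set.infinite_of_injective_forall_mem
      (f := fun n : ℕ => s₀ + n * (2 * Real.pi * Complex.I))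
    · intro m n hmn
      have h1 : (m : ℂ) * (2 * Real.pi * Complex.I) = n * (2 * Real.pi * Complex.I) :=
        add_left_cancel hmn
      have h2 : (m : ℂ) = n := mul_right_cancel₀ Complex.two_pi_I_ne_zero h1
      exact_mod_cast h2
    · intro n
      change Polynomial.IsRoot _ _
      rw [Polynomial.IsRoot, Polynomial.eval_sub, Polynomial.eval_mul, Polynomial.eval_C, sub_eq_zero,
        ← hall]
      congr 2
      rw [Complex.exp_add, Complex.exp_nat_mul_two_pi_mul_I, mul_one]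
  have h1 := (hper 0).trans (hper 1).symm
  have h2 : (Polynomial.C (c * Complex.exp 0) - Polynomial.C (c * Complex.exp 1)) * φ q = 0 := by
    rw [sub_mul, h1, sub_self]
  rcases mul_eq_zero.1 h2 with h3 | h3
  · rw [← Polynomial.C_sub, Polynomial.C_eq_zero, sub_eq_zero] at h3
    have h4 := mul_left_cancel₀ hc h3
    have h5 := congrArg norm h4
    rw [Complex.norm_exp, Complex.norm_exp] at h5
    simp at h5
    have h6 := Real.add_one_lt_exp (show (1:ℝ) ≠ 0 by norm_num)
    linarith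
  · exact hQ h3

/-! ### strict_inside -/

theorem strict_inside_cont : Continuous nsq := by
  unfold nsq
  fun_prop

theorem strict_inside_convex : Convex ℝ {z : P | nsq z < 1} := by
  have h : ConvexOn ℝ Set.univ nsq := by
    have h1 : ConvexOn ℝ Set.univ (fun z : P => ‖z.1‖ ^ 2) := by
      have := (convexOn_univ_norm (E := ℂ)).comp_linearMap (LinearMap.fst ℝ ℂ ℂ)
      exact this.pow (fun z _ => norm_nonneg _) 2
    have h2 : ConvexOn ℝ Set.univ (fun z : P => ‖z.2‖ ^ 2) := by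
      have := (convexOn_univ_norm (E := ℂ)).comp_linearMap (LinearMap.snd ℝ ℂ ℂ)
      exact this.pow (fun z _ => norm_nonneg _) 2
    exact h1.add h2
  have := h.convex_lt 1
  simpa using this

theorem strict_inside (ι : Type) [Fintype ι] (f : ι → P → ℂ) (hcont : ∀ i, ContinuousOn (f i) {z | nsq z ≤ 1})
    (hdiff : ∀ i, DifferentiableOn ℂ (f i) {z | nsq z < 1}) (hsph : ∀ z, nsq z = 1 → ∑ i, ‖f i z‖ ^ 2 = 1)
    (i0 : ι) (hne : ∀ z, nsq z < 1 → ∃ w, nsq w < 1 ∧ f i0 w ≠ f i0 z) :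
    ∀ z, nsq z < 1 → ∑ i, ‖f i z‖ ^ 2 < 1 := by
  classical
  set U : Set P := {z | nsq z < 1} with hU
  let g : P → EuclideanSpace ℂ ι := fun z => WithLp.toLp 2 (fun i => f i z)
  have hg : ∀ z, ‖g z‖ ^ 2 = ∑ i, ‖f i z‖ ^ 2 := fun z => EuclideanSpace.norm_sq_eq _
  have hopen : IsOpen U := isOpen_lt strict_inside_cont continuous_const
  have hcl : closure U ⊆ {z | nsq z ≤ 1} :=
    closure_minimal (fun z (hz : nsq z < 1) => show nsq z ≤ 1 from hz.le) (isClosed_le strict_inside_cont continuous_const)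
  have hfr : ∀ z ∈ frontier U, nsq z = 1 := by
    intro z hz
    rw [hopen.frontier_eq] at hz
    exact le_antisymm (hcl hz.1) (not_lt.mp hz.2)
  have hbd : Bornology.IsBounded U := by
    refine (Metric.isBounded_closedBall (x := (0 : P)) (r := 1)).subset fun z hz => ?_
    rw [mem_closedBall_zero_iff]
    have hz' : ‖z.1‖ ^ 2 + ‖z.2‖ ^ 2 < 1 := hz
    rw [Prod.norm_def]
    apply max_le
    · nlinarith [norm_nonneg z.1, norm_nonneg z.2, sq_nonneg ‖z.2‖]
    · nlinarith [norm_nonneg z.1, norm_nonneg z.2, sq_nonneg ‖z.1‖]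
  have hgd : DifferentiableOn ℂ g U := by
    rw [differentiableOn_euclidean]
    intro i
    exact hdiff i
  have hgc : ContinuousOn g (closure U) := by
    have h1 : ContinuousOn (fun z => (fun i => f i z : ι → ℂ)) (closure U) :=
      continuousOn_pi.mpr fun i => (hcont i).mono hcl
    exact (PiLp.continuous_toLp 2 _).comp_continuousOn h1
  have hle : ∀ z ∈ closure U, ‖g z‖ ≤ 1 := by
    intro z hz
    refine Complex.norm_le_of_forall_mem_frontier_norm_le hbd ⟨hgd, hgc⟩ (fun w hw => ?_) hz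
    have h1 := hg w
    rw [hsph w (hfr w hw)] at h1
    nlinarith [norm_nonneg (g w)]
  intro z hz
  rw [← hg]
  have hlt : ‖g z‖ < 1 := by
    refine lt_of_le_of_ne (hle z (subset_closure hz)) fun heq => ?_
    have hmax : IsMaxOn (norm ∘ g) U z := by
      intro w hw
      show ‖g w‖ ≤ ‖g z‖
      rw [heq]
      exact hle w (subset_closure hw)
    have hE := Complex.eqOn_of_isPreconnected_of_isMaxOn_norm
      strict_inside_convex.isPreconnected hopen hgd hz hmax
    obtain ⟨w, hw, hw2⟩ := hne z hz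
    apply hw2
    have h3 := hE hw
    exact congrFun (congrArg WithLp.ofLp h3) i0
  nlinarith [norm_nonneg (g z)]

/-! ### final_of_data -/

/-- the map `(z 0, z 1)` -/
noncomputable def final_of_data_phi (z : Fin 2 → ℂ) : P := (z 0, z 1)

theorem final_of_data_nsq (z : Fin 2 → ℂ) : nsq (final_of_data_phi z) = ∑ i, ‖z i‖ ^ 2 := by
  simp [nsq, final_of_data_phi, Fin.sum_univ_two]

/-- the components -/
noncomputable def final_of_data_H {ι : Type} (c : ℝ) (f : ι → P → ℂ) : Option ι → P → ℂ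
  | none => fun z => (c : ℂ) * Complex.exp z.1
  | some i => f i

theorem final_of_data_ne (c : ℝ) (hc : 0 < c) (z : P) :
    ∃ w : P, nsq w < 1 ∧ (c : ℂ) * Complex.exp w.1 ≠ (c : ℂ) * Complex.exp z.1 := by
  by_contra hcon
  push Not at hcon
  have h1 := hcon ((0 : ℂ), (0 : ℂ)) (by simp [nsq])
  have h2 := hcon (((1 / 2 : ℝ) : ℂ), (0 : ℂ)) (by
    simp only [nsq, Complex.norm_real]; norm_num)
  have hc' : (c : ℂ) ≠ 0 := by exact_mod_cast hc.ne'
  have h3 := mul_left_cancel₀ hc' (h1.trans h2.symm)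
  simp only [Complex.exp_zero] at h3
  have h4 : ‖Complex.exp (((1 / 2 : ℝ) : ℂ))‖ = 1 := by rw [← h3]; simp
  rw [Complex.norm_exp, Complex.ofReal_re] at h4
  have h5 : (1 : ℝ) < Real.exp (1 / 2) := by
    rw [← Real.exp_zero]; exact Real.exp_lt_exp.mpr (by norm_num)
  linarith

theorem final_of_data_contphi : Continuous final_of_data_phi := by
  unfold final_of_data_phi
  fun_prop

theorem final_of_data_ball_compact : IsCompact {z : Fin 2 → ℂ | ∑ i, ‖z i‖ ^ 2 ≤ 1} := by
  have hcl : IsClosed {z : Fin 2 → ℂ | ∑ i, ‖z i‖ ^ 2 ≤ 1} := by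
    apply isClosed_le _ continuous_const
    fun_prop
  apply (isCompact_closedBall (0 : Fin 2 → ℂ) 1).of_isClosed_subset hcl
  intro z hz
  simp only [mem_setOf_eq] at hz
  rw [mem_closedBall_zero_iff, pi_norm_le_iff_of_nonneg zero_le_one]
  intro i
  have : ‖z i‖ ^ 2 ≤ ∑ i, ‖z i‖ ^ 2 :=
    Finset.single_le_sum (f := fun i => ‖z i‖ ^ 2) (fun j _ => by positivity) (Finset.mem_univ i)
  nlinarith [norm_nonneg (z i)]

theorem final_of_data (t : ℕ) (ι : Type) [Fintype ι] (hι : 2 ≤ Fintype.card ι) (c : ℝ) (hc : 0 < c)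
    (f : ι → P → ℂ) (hcont : ∀ i, ContDiffOn ℝ (t : WithTop ℕ∞) (f i) {z | nsq z ≤ 1})
    (hdiff : ∀ i, DifferentiableOn ℂ (f i) {z | nsq z < 1})
    (hsph : ∀ z, nsq z = 1 → ‖(c : ℂ) * Complex.exp z.1‖ ^ 2 + ∑ i, ‖f i z‖ ^ 2 = 1) :
    ∃ N : ℕ, 2 < N ∧ ∃ G : (Fin 2 → ℂ) → (Fin N → ℂ),
      Set.MapsTo G {z : Fin 2 → ℂ | ∑ i, ‖z i‖ ^ 2 < 1} {w : Fin N → ℂ | ∑ j, ‖w j‖ ^ 2 < 1} ∧
      DifferentiableOn ℂ G {z : Fin 2 → ℂ | ∑ i, ‖z i‖ ^ 2 < 1} ∧
      (∀ K : Set (Fin N → ℂ), K ⊆ {w : Fin N → ℂ | ∑ j, ‖w j‖ ^ 2 < 1} → IsCompact K →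
        IsCompact ({z : Fin 2 → ℂ | ∑ i, ‖z i‖ ^ 2 < 1} ∩ G ⁻¹' K)) ∧
      ContDiffOn ℝ (t : WithTop ℕ∞) G {z : Fin 2 → ℂ | ∑ i, ‖z i‖ ^ 2 ≤ 1} ∧
      ¬ ∃ p : Fin N → MvPolynomial (Fin 2) ℂ, ∃ q : MvPolynomial (Fin 2) ℂ, q ≠ 0 ∧
        ∀ z ∈ {z : Fin 2 → ℂ | ∑ i, ‖z i‖ ^ 2 < 1}, ∀ j : Fin N,
          G z j * MvPolynomial.eval z q = MvPolynomial.eval z (p j) := by
  classical
  have hcard : Fintype.card (Option ι) = Fintype.card ι + 1 := Fintype.card_option
  let e : Fin (Fintype.card ι + 1) ≃ Option ι := (Fintype.equivFinOfCardEq hcard).symm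
  let G : (Fin 2 → ℂ) → (Fin (Fintype.card ι + 1) → ℂ) :=
    fun z j => final_of_data_H c f (e j) (final_of_data_phi z)
  have hsum : ∀ z, ∑ j, ‖G z j‖ ^ 2 = ∑ o : Option ι, ‖final_of_data_H c f o (final_of_data_phi z)‖ ^ 2 := by
    intro z
    exact Equiv.sum_comp e (fun o => ‖final_of_data_H c f o (final_of_data_phi z)‖ ^ 2)
  have hHcd : ∀ o, ContDiffOn ℝ (t : WithTop ℕ∞) (final_of_data_H c f o) {z | nsq z ≤ 1} := by
    intro o
    cases o with
    | none =>
      apply ContDiff.contDiffOn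
      show ContDiff ℝ _ (fun z : P => (c : ℂ) * Complex.exp z.1)
      exact contDiff_const.mul (Complex.contDiff_exp.comp contDiff_fst)
    | some i => exact hcont i
  have hHc : ∀ o, ContinuousOn (final_of_data_H c f o) {z | nsq z ≤ 1} := fun o => (hHcd o).continuousOn
  have hHd : ∀ o, DifferentiableOn ℂ (final_of_data_H c f o) {z | nsq z < 1} := by
    intro o
    cases o with
    | none =>
      apply Differentiable.differentiableOn
      show Differentiable ℂ (fun z : P => (c : ℂ) * Complex.exp z.1)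
      fun_prop
    | some i => exact hdiff i
  have hHs : ∀ z, nsq z = 1 → ∑ o : Option ι, ‖final_of_data_H c f o z‖ ^ 2 = 1 := by
    intro z hz
    rw [Fintype.sum_option]
    exact hsph z hz
  have hin := strict_inside (Option ι) (final_of_data_H c f) hHc hHd hHs none
    (fun z _ => final_of_data_ne c hc z)
  have hphiR : ContDiff ℝ (t : WithTop ℕ∞) final_of_data_phi := by
    unfold final_of_data_phi
    fun_prop
  have hphiC : Differentiable ℂ final_of_data_phi := by
    unfold final_of_data_phi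
    fun_prop
  have hGcd : ContDiffOn ℝ (t : WithTop ℕ∞) G {z : Fin 2 → ℂ | ∑ i, ‖z i‖ ^ 2 ≤ 1} := by
    rw [contDiffOn_pi]
    intro j
    apply (hHcd (e j)).comp hphiR.contDiffOn
    intro z hz
    simp only [mem_setOf_eq] at hz ⊢
    rw [final_of_data_nsq]; exact hz
  refine ⟨Fintype.card ι + 1, by omega, G, ?_, ?_, ?_, hGcd, ?_⟩
  · intro z hz
    simp only [mem_setOf_eq] at hz ⊢
    rw [hsum]
    exact hin _ (by rw [final_of_data_nsq]; exact hz)
  · rw [differentiableOn_pi]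
    intro j
    apply (hHd (e j)).comp hphiC.differentiableOn
    intro z hz
    simp only [mem_setOf_eq] at hz ⊢
    rw [final_of_data_nsq]; exact hz
  · intro K hK hKc
    have heq : {z : Fin 2 → ℂ | ∑ i, ‖z i‖ ^ 2 < 1} ∩ G ⁻¹' K
        = {z : Fin 2 → ℂ | ∑ i, ‖z i‖ ^ 2 ≤ 1} ∩ G ⁻¹' K := by
      ext z
      simp only [mem_inter_iff, mem_setOf_eq, mem_preimage]
      constructor
      · rintro ⟨h1, h2⟩
        exact ⟨h1.le, h2⟩
      · rintro ⟨h1, h2⟩
        refine ⟨lt_of_le_of_ne h1 ?_, h2⟩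
        intro h3
        have h4 := hK h2
        simp only [mem_setOf_eq] at h4
        rw [hsum, hHs _ (by rw [final_of_data_nsq]; exact h3)] at h4
        exact lt_irrefl _ h4
    rw [heq]
    have hcl : IsClosed ({z : Fin 2 → ℂ | ∑ i, ‖z i‖ ^ 2 ≤ 1} ∩ G ⁻¹' K) :=
      hGcd.continuousOn.preimage_isClosed_of_isClosed final_of_data_ball_compact.isClosed hKc.isClosed
    exact final_of_data_ball_compact.of_isClosed_subset hcl inter_subset_left
  · rintro ⟨p, q, hq, h⟩
    apply exp_not_rational (c : ℂ) (by exact_mod_cast hc.ne')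
    refine ⟨p (e.symm none), q, hq, fun z hz => ?_⟩
    have h1 := h z hz (e.symm none)
    have h2 : G z (e.symm none) = (c : ℂ) * Complex.exp (z 0) := by
      show final_of_data_H c f (e (e.symm none)) (final_of_data_phi z) = _
      rw [Equiv.apply_symm_apply]
      rfl
    rw [h2] at h1
    exact h1

end Pool.Agent.H892PB
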