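import Pool.Agent.Helper892.PB.Defs

set_option autoImplicit false

open MeasureTheory Set
open scoped ComplexConjugate

namespace Pool.Agent.H892PB

/-! ### geo -/

theorem geo_conj (z w : P) : ip w z = conj (ip z w) := by
  simp only [ip, map_add, map_mul, Complex.conj_conj]
  ring

theorem geo_norm_comm (z w : P) : ‖ip w z‖ = ‖ip z w‖ := by
  rw [geo_conj z w, Complex.norm_conj]

theorem geo_id (y x : P) : ‖ip y x‖ ^ 2 + ‖ip y (perp x)‖ ^ 2 = nsq y * nsq x := by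
  obtain ⟨y1, y2⟩ := y
  obtain ⟨x1, x2⟩ := x
  simp only [ip, perp, nsq, Complex.sq_norm, Complex.normSq_apply, Complex.add_re, Complex.add_im,
    Complex.mul_re, Complex.mul_im, Complex.conj_re, Complex.conj_im, map_neg, Complex.neg_re,
    Complex.neg_im, Complex.conj_conj]
  ring

theorem geo_nsq_comb (a b : ℂ) (x : P) :
    nsq (a • x + b • perp x) = (‖a‖ ^ 2 + ‖b‖ ^ 2) * nsq x := by
  obtain ⟨x1, x2⟩ := x
  simp only [perp, nsq, Complex.sq_norm, Complex.normSq_apply, Prod.fst_add, Prod.snd_add,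
    Prod.smul_fst, Prod.smul_snd, smul_eq_mul, Complex.add_re, Complex.add_im,
    Complex.mul_re, Complex.mul_im, Complex.conj_re, Complex.conj_im, Complex.neg_re,
    Complex.neg_im]
  ring

theorem geo_lin (a b : ℂ) (x w z : P) : ip (a • x + b • w) z = a * ip x z + b * ip w z := by
  simp only [ip, Prod.fst_add, Prod.snd_add, Prod.smul_fst, Prod.smul_snd, smul_eq_mul]
  ring

theorem geo_ip_self (x : P) : ip x x = (nsq x : ℂ) := by
  simp only [ip, nsq, Complex.mul_conj, Complex.sq_norm]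
  push_cast
  ring

theorem geo_ip_perp (x : P) : ip (perp x) x = 0 := by
  simp only [ip, perp]
  ring

theorem geo_dec {x : P} (hx : x ∈ S) (y : P) :
    y = (ip y x) • x + (ip y (perp x)) • perp x := by
  have h : x.1 * conj x.1 + x.2 * conj x.2 = 1 := by
    have h1 := geo_ip_self x
    have h2 : nsq x = 1 := hx
    rw [h2] at h1
    simpa [ip] using h1
  apply Prod.ext
  · simp only [ip, perp, Prod.fst_add, Prod.smul_fst, smul_eq_mul, map_neg, Complex.conj_conj]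
    linear_combination (-y.1) * h
  · simp only [ip, perp, Prod.snd_add, Prod.smul_snd, smul_eq_mul, map_neg, Complex.conj_conj]
    linear_combination (-y.2) * h

theorem geo_perp_sq {x z : P} (hx : x ∈ S) (hz : z ∈ S) :
    ‖ip (perp x) z‖ ^ 2 = 1 - ‖ip x z‖ ^ 2 := by
  have h := geo_id z x
  have h1 : nsq x = 1 := hx
  have h2 : nsq z = 1 := hz
  rw [h1, h2, geo_norm_comm x z, geo_norm_comm (perp x) z] at h
  linarith

theorem D_nonneg (z w : P) : 0 ≤ D z w := norm_nonneg _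

theorem D_comm (z w : P) : D z w = D w z := by
  unfold D
  rw [geo_conj z w]
  have h : (1 : ℂ) - conj (ip z w) = conj (1 - ip z w) := by simp
  rw [h, Complex.norm_conj]

theorem norm_ip_sq_le (z w : P) : ‖ip z w‖ ^ 2 ≤ nsq z * nsq w := by
  have h := geo_id z w
  have h1 : 0 ≤ ‖ip z (perp w)‖ ^ 2 := sq_nonneg _
  linarith

theorem geo_norm_le_one {x y : P} (hx : x ∈ S) (hy : y ∈ S) : ‖ip x y‖ ≤ 1 := by
  have h := norm_ip_sq_le x y
  have h1 : nsq x = 1 := hx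
  have h2 : nsq y = 1 := hy
  rw [h1, h2] at h
  nlinarith [norm_nonneg (ip x y)]

theorem D_le_two {x y : P} (hx : x ∈ S) (hy : y ∈ S) : D x y ≤ 2 := by
  unfold D
  have h := geo_norm_le_one hx hy
  have h1 := norm_sub_le (1 : ℂ) (ip x y)
  rw [norm_one] at h1
  linarith

theorem act_mem {y x : P} (hy : y ∈ S) (hx : x ∈ S) : act y x ∈ S := by
  show nsq (act y x) = 1
  have h1 : nsq x = 1 := hx
  have h2 : ‖y.1‖ ^ 2 + ‖y.2‖ ^ 2 = 1 := hy
  unfold act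
  rw [geo_nsq_comb, h1, h2, mul_one]

theorem ip_act {y x : P} (hx : x ∈ S) : ip (act y x) x = y.1 := by
  unfold act
  have h1 : nsq x = 1 := hx
  rw [geo_lin, geo_ip_self, geo_ip_perp, h1]
  simp

theorem D_act {y x : P} (hx : x ∈ S) : D x (act y x) = ‖1 - y.1‖ := by
  rw [D_comm]
  unfold D
  rw [ip_act hx]

/-- `1 - |s|² ≤ 2 |1 - s|` for `|s| ≤ 1` -/
theorem geo_defect {s : ℂ} (hs : ‖s‖ ≤ 1) : 1 - ‖s‖ ^ 2 ≤ 2 * ‖1 - s‖ := by
  have h : 1 - ‖s‖ ≤ ‖1 - s‖ := by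
    have := norm_sub_norm_le (1 : ℂ) s
    rwa [norm_one] at this
  nlinarith [norm_nonneg s]

theorem geo_perp_le {x z : P} (hx : x ∈ S) (hz : z ∈ S) :
    ‖ip (perp x) z‖ ≤ √(2 * D x z) := by
  apply Real.le_sqrt_of_sq_le
  rw [geo_perp_sq hx hz]
  exact geo_defect (geo_norm_le_one hx hz)

theorem geo_near_diff {x ζ : P} (hx : x ∈ S) (hζ : ζ ∈ S) (α β : ℂ) :
    ‖ip (α • x + β • perp x) ζ - ip x ζ‖ ≤ ‖α - 1‖ + ‖β‖ * √(2 * D x ζ) := by
  rw [geo_lin]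
  have h : α * ip x ζ + β * ip (perp x) ζ - ip x ζ = (α - 1) * ip x ζ + β * ip (perp x) ζ := by ring
  rw [h]
  refine (norm_add_le _ _).trans ?_
  rw [norm_mul, norm_mul]
  have h1 := geo_norm_le_one hx hζ
  have h2 := geo_perp_le hx hζ
  have h3 : ‖α - 1‖ * ‖ip x ζ‖ ≤ ‖α - 1‖ * 1 := mul_le_mul_of_nonneg_left h1 (norm_nonneg _)
  have h4 : ‖β‖ * ‖ip (perp x) ζ‖ ≤ ‖β‖ * √(2 * D x ζ) := mul_le_mul_of_nonneg_left h2 (norm_nonneg _)
  linarith

theorem D_triangle {x y ζ : P} (hx : x ∈ S) (hy : y ∈ S) (hζ : ζ ∈ S) :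
    √(D y ζ) ≤ √(D x ζ) + √(D x y) := by
  have hdec := geo_dec hx y
  set a := ip y x with ha
  set b := ip y (perp x) with hb
  have hD : D x y = ‖a - 1‖ := by
    rw [D_comm]
    unfold D
    rw [← ha, norm_sub_rev]
  have ha1 : ‖a‖ ≤ 1 := geo_norm_le_one hy hx
  have hb2 : ‖b‖ ≤ √(2 * D x y) := by
    rw [hb, geo_norm_comm (perp x) y]
    exact geo_perp_le hx hy
  have h1 := geo_near_diff hx hζ a b
  rw [← hdec, ← hD] at h1
  have h2 : D y ζ ≤ D x ζ + ‖ip y ζ - ip x ζ‖ := by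
    unfold D
    have h3 : (1 : ℂ) - ip y ζ = (1 - ip x ζ) - (ip y ζ - ip x ζ) := by ring
    rw [h3]
    exact norm_sub_le _ _
  have h5 : ‖b‖ * √(2 * D x ζ) ≤ √(2 * D x y) * √(2 * D x ζ) :=
    mul_le_mul_of_nonneg_right hb2 (Real.sqrt_nonneg _)
  have n1 := D_nonneg x y
  have n2 := D_nonneg x ζ
  have h6 : √(2 * D x y) * √(2 * D x ζ) = 2 * (√(D x y) * √(D x ζ)) := by
    rw [Real.sqrt_mul (by norm_num), Real.sqrt_mul (by norm_num)]
    have h7 : √2 * √2 = (2 : ℝ) := Real.mul_self_sqrt (by norm_num)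
    calc √2 * √(D x y) * (√2 * √(D x ζ)) = (√2 * √2) * (√(D x y) * √(D x ζ)) := by ring
      _ = _ := by rw [h7]
  have h8 : √(D x y) ^ 2 = D x y := Real.sq_sqrt n1
  have h9 : √(D x ζ) ^ 2 = D x ζ := Real.sq_sqrt n2
  rw [Real.sqrt_le_left (by positivity)]
  nlinarith

theorem near_geo {k : ℕ} (hk : 1 ≤ k) {x ζ : P} (hx : x ∈ S) (hζ : ζ ∈ S) {α β : ℂ}
    (hα : ‖α - 1‖ ≤ 1 / k) (hβ : ‖β‖ ^ 2 ≤ 1 / k) :
    nsq (α • x + β • perp x) ≤ 1 + 4 / k ∧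
    1 + k * D x ζ ≤ 5 * (1 + k * ‖1 - ip (α • x + β • perp x) ζ‖) ∧
    k * ‖1 - ip (α • x + β • perp x) ζ‖ ≤ 2 * (1 + k * D x ζ) := by
  have hk0 : (1 : ℝ) ≤ k := by exact_mod_cast hk
  have hkpos : (0 : ℝ) < k := by linarith
  have hk1 : 1 / (k : ℝ) ≤ 1 := by
    rw [div_le_one hkpos]; exact hk0
  have hk2 : 0 < 1 / (k : ℝ) := by positivity
  have hx1 : nsq x = 1 := hx
  set z := α • x + β • perp x with hz
  have hD0 := D_nonneg x ζ
  -- the difference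
  have h1 := geo_near_diff hx hζ α β
  rw [← hz] at h1
  have hβ' : ‖β‖ ≤ √(1 / k) := Real.le_sqrt_of_sq_le hβ
  have h2 : ‖β‖ * √(2 * D x ζ) ≤ √(1 / k) * √(2 * D x ζ) :=
    mul_le_mul_of_nonneg_right hβ' (Real.sqrt_nonneg _)
  have h3 : √(1 / k) * √(2 * D x ζ) = √(1 / k * (2 * D x ζ)) := by
    rw [Real.sqrt_mul hk2.le]
  -- k * sqrt (2 D / k) ≤ k D / 2 + 1
  have h4 : √(1 / k * (2 * D x ζ)) ≤ D x ζ / 2 + 1 / k := by
    rw [Real.sqrt_le_left (by positivity)]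
    nlinarith [sq_nonneg (D x ζ / 2 - 1 / (k : ℝ))]
  have h5 : ‖ip z ζ - ip x ζ‖ ≤ 1 / k + (D x ζ / 2 + 1 / k) := by linarith
  have h6 : k * ‖ip z ζ - ip x ζ‖ ≤ 2 + k * D x ζ / 2 := by
    have h7 := mul_le_mul_of_nonneg_left h5 hkpos.le
    have h8 : (k : ℝ) * (1 / k + (D x ζ / 2 + 1 / k)) = 2 + k * D x ζ / 2 := by
      field_simp
      ring
    linarith
  have t1 : ‖1 - ip z ζ‖ ≤ D x ζ + ‖ip z ζ - ip x ζ‖ := by
    unfold D
    have h3 : (1 : ℂ) - ip z ζ = (1 - ip x ζ) - (ip z ζ - ip x ζ) := by ring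
    rw [h3]
    exact norm_sub_le _ _
  have t2 : D x ζ ≤ ‖1 - ip z ζ‖ + ‖ip z ζ - ip x ζ‖ := by
    unfold D
    have h3 : (1 : ℂ) - ip x ζ = (1 - ip z ζ) + (ip z ζ - ip x ζ) := by ring
    rw [h3]
    exact norm_add_le _ _
  have t1' := mul_le_mul_of_nonneg_left t1 hkpos.le
  have t2' := mul_le_mul_of_nonneg_left t2 hkpos.le
  rw [mul_add] at t1' t2'
  have hz0 : 0 ≤ k * ‖1 - ip z ζ‖ := by positivity
  have hkD : 0 ≤ k * D x ζ := by positivity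
  refine ⟨?_, ?_, ?_⟩
  · rw [hz, geo_nsq_comb, hx1, mul_one]
    have ha : ‖α‖ ≤ 1 + 1 / k := by
      have : ‖α‖ ≤ ‖α - 1‖ + ‖(1 : ℂ)‖ := by
        have h := norm_add_le (α - 1) 1
        rwa [sub_add_cancel] at h
      rw [norm_one] at this
      linarith
    have ha2 : ‖α‖ ^ 2 ≤ (1 + 1 / k) ^ 2 := pow_le_pow_left₀ (norm_nonneg _) ha 2
    have hk3 : (1 / (k : ℝ)) ^ 2 ≤ 1 / k := by nlinarith
    have : (4 : ℝ) / k = 4 * (1 / k) := by ring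
    rw [this]
    nlinarith
  · by_cases ht : k * D x ζ ≤ 4
    · linarith
    · push Not at ht
      linarith
  · linarith

/-! ### F_bound -/

theorem F_bound_exp {k : ℕ} (hk : 1 ≤ k) {s : ℂ} (hs : ‖s‖ ≤ 1 + 2 / k) (i : ℕ) (hi : i ≤ k) :
    ‖s ^ i‖ ≤ Real.exp 2 := by
  have hk0 : (0 : ℝ) < k := by exact_mod_cast hk
  have h1 : (1 : ℝ) + 2 / k ≤ Real.exp (2 / k) := by
    have := Real.add_one_le_exp (2 / (k : ℝ)); linarith
  have h2 : ‖s‖ ≤ Real.exp (2 / k) := hs.trans h1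
  rw [norm_pow]
  calc ‖s‖ ^ i ≤ (Real.exp (2 / k)) ^ i := pow_le_pow_left₀ (norm_nonneg _) h2 i
    _ ≤ (Real.exp (2 / k)) ^ k :=
        pow_le_pow_right₀ (Real.one_le_exp (by positivity)) hi
    _ = Real.exp 2 := by
        rw [← Real.exp_nat_mul]
        congr 1
        field_simp

theorem F_bound : ∃ C : ℝ, 0 < C ∧ ∀ k : ℕ, 1 ≤ k → ∀ s : ℂ, ‖s‖ ≤ 1 + 2 / k →
    ‖F k s‖ ≤ C / (1 + k * ‖1 - s‖) := by
  have he := Real.exp_pos 2
  refine ⟨1 + 2 * Real.exp 2, by positivity, fun k hk s hs => ?_⟩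
  have hk0 : (0 : ℝ) < k := by exact_mod_cast hk
  have hkc : (k : ℂ) ≠ 0 := by exact_mod_cast hk0.ne'
  rw [le_div_iff₀ (by positivity)]
  have h1 : ‖F k s‖ ≤ Real.exp 2 := by
    unfold F
    rw [norm_div, Complex.norm_natCast, div_le_iff₀ hk0]
    refine (norm_sum_le _ _).trans ?_
    refine (Finset.sum_le_sum (fun i hi =>
      F_bound_exp hk hs i (Finset.mem_range.1 hi).le)).trans ?_
    rw [Finset.sum_const, Finset.card_range, nsmul_eq_mul, mul_comm]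
  have h2 : (k * ‖1 - s‖) * ‖F k s‖ ≤ 1 + Real.exp 2 := by
    have e : (k : ℂ) * (1 - s) * F k s = 1 - s ^ k := by
      unfold F
      rw [← mul_neg_geom_sum s k]
      field_simp
    have e2 : (k * ‖1 - s‖) * ‖F k s‖ = ‖1 - s ^ k‖ := by
      rw [← e, norm_mul, norm_mul, Complex.norm_natCast]
    rw [e2]
    refine (norm_sub_le _ _).trans ?_
    rw [norm_one]
    have := F_bound_exp hk hs k le_rfl
    linarith
  have h3 : ‖F k s‖ * (1 + k * ‖1 - s‖) = ‖F k s‖ + (k * ‖1 - s‖) * ‖F k s‖ := by ring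
  rw [h3]
  linarith

theorem F_bound_pow {s : ℂ} (hs : ‖s‖ ≤ 1) (i : ℕ) : ‖s ^ i - 1‖ ≤ i * ‖1 - s‖ := by
  induction i with
  | zero => simp
  | succ i ih =>
    have e : s ^ (i + 1) - 1 = s * (s ^ i - 1) + (s - 1) := by ring
    rw [e]
    refine (norm_add_le _ _).trans ?_
    rw [norm_mul, norm_sub_rev s 1]
    push_cast
    have : ‖s‖ * ‖s ^ i - 1‖ ≤ 1 * (i * ‖1 - s‖) :=
      mul_le_mul hs ih (norm_nonneg _) zero_le_one
    linarith

theorem F_lower {k : ℕ} (hk : 1 ≤ k) {s : ℂ} (hs : ‖s‖ ≤ 1) (h : k * ‖1 - s‖ ≤ 1 / 2) :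
    1 / 2 ≤ ‖F k s‖ := by
  have hk0 : (0 : ℝ) < k := by exact_mod_cast hk
  have hkc : (k : ℂ) ≠ 0 := by exact_mod_cast hk0.ne'
  have h1 : F k s - 1 = (∑ i ∈ Finset.range k, (s ^ i - 1)) / k := by
    unfold F
    rw [Finset.sum_sub_distrib, Finset.sum_const, Finset.card_range, nsmul_eq_mul, mul_one,
      sub_div, div_self hkc]
  have h2 : ‖F k s - 1‖ ≤ 1 / 2 := by
    rw [h1, norm_div, Complex.norm_natCast, div_le_iff₀ hk0]
    refine (norm_sum_le _ _).trans ?_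
    have h3 : ∀ i ∈ Finset.range k, ‖s ^ i - 1‖ ≤ 1 / 2 := by
      intro i hi
      refine (F_bound_pow hs i).trans (le_trans ?_ h)
      have : (i : ℝ) ≤ k := by exact_mod_cast (Finset.mem_range.1 hi).le
      exact mul_le_mul_of_nonneg_right this (norm_nonneg _)
    refine (Finset.sum_le_sum h3).trans ?_
    rw [Finset.sum_const, Finset.card_range, nsmul_eq_mul, mul_comm]
  have h4 : ‖(1 : ℂ)‖ ≤ ‖F k s‖ + ‖F k s - 1‖ := by
    have : (1 : ℂ) = F k s - (F k s - 1) := by ring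
    calc ‖(1 : ℂ)‖ = ‖F k s - (F k s - 1)‖ := by rw [← this]
      _ ≤ _ := norm_sub_le _ _
  rw [norm_one] at h4
  linarith

/-! ### F_geo -/

theorem F_geo_nsq_smul (c : ℂ) (z : P) : nsq (c • z) = ‖c‖ ^ 2 * nsq z := by
  unfold nsq
  simp only [Prod.smul_fst, Prod.smul_snd, smul_eq_mul, norm_mul]
  ring

theorem F_geo_ip_smul (c : ℂ) (z w : P) : ip (c • z) w = c * ip z w := by
  unfold ip
  simp only [Prod.smul_fst, Prod.smul_snd, smul_eq_mul]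
  ring

theorem F_geo_dec (z : P) : ∃ ρ : ℝ, ∃ x ∈ S, 0 ≤ ρ ∧ ρ ^ 2 = nsq z ∧ z = (ρ : ℂ) • x := by
  have hn : 0 ≤ nsq z := by unfold nsq; positivity
  by_cases h : nsq z = 0
  · have h1 : z = 0 := by
      unfold nsq at h
      have h2 : ‖z.1‖ ^ 2 = 0 := by nlinarith [sq_nonneg ‖z.1‖, sq_nonneg ‖z.2‖]
      have h3 : ‖z.2‖ ^ 2 = 0 := by nlinarith [sq_nonneg ‖z.1‖, sq_nonneg ‖z.2‖]
      have h4 : z.1 = 0 := by simpa using h2
      have h5 : z.2 = 0 := by simpa using h3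
      exact Prod.ext h4 h5
    refine ⟨0, (1, 0), ?_, le_rfl, ?_, ?_⟩
    · change nsq (1, 0) = 1
      unfold nsq
      simp
    · rw [h]; norm_num
    · rw [h1]; simp
  · have h1 : 0 < nsq z := lt_of_le_of_ne hn (Ne.symm h)
    have h2 : 0 < √(nsq z) := Real.sqrt_pos.mpr h1
    refine ⟨√(nsq z), (((√(nsq z))⁻¹ : ℝ) : ℂ) • z, ?_, h2.le, Real.sq_sqrt hn, ?_⟩
    · change nsq _ = 1
      rw [F_geo_nsq_smul, Complex.norm_real, Real.norm_of_nonneg (inv_nonneg.mpr h2.le),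
        inv_pow, Real.sq_sqrt hn, inv_mul_cancel₀ h]
    · rw [smul_smul, ← Complex.ofReal_mul, mul_inv_cancel₀ h2.ne', Complex.ofReal_one, one_smul]

theorem F_geo_norm_ip {z ζ : P} (hζ : ζ ∈ S) {B : ℝ} (hB : 0 ≤ B) (hz : nsq z ≤ B ^ 2) :
    ‖ip z ζ‖ ≤ B := by
  have h1 := norm_ip_sq_le z ζ
  have h2 : nsq ζ = 1 := hζ
  rw [h2, mul_one] at h1
  exact abs_le_of_sq_le_sq' (h1.trans hz) hB |>.2

theorem F_geo_sq {k : ℕ} (hk : 1 ≤ k) : (1 : ℝ) + 4 / k ≤ (1 + 2 / k) ^ 2 := by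
  have hk0 : (0 : ℝ) < k := by exact_mod_cast hk
  have h1 : (1 + 2 / (k : ℝ)) ^ 2 = 1 + 4 / k + (2 / k) ^ 2 := by ring
  rw [h1]
  nlinarith [sq_nonneg (2 / (k : ℝ))]

theorem F_ball : ∃ C : ℝ, 0 < C ∧ ∀ k : ℕ, 1 ≤ k → ∀ z : P, nsq z ≤ 1 + 4 / k →
    ∃ x ∈ S, ∀ ζ ∈ S, ‖F k (ip z ζ)‖ ≤ C / (1 + k * D x ζ) := by
  obtain ⟨C, hC, hF⟩ := F_bound
  refine ⟨3 * C, by positivity, ?_⟩
  intro k hk z hz
  have hk0 : (0 : ℝ) < k := by exact_mod_cast hk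
  have hB0 : (0 : ℝ) ≤ 1 + 2 / k := by positivity
  obtain ⟨ρ, x, hx, hρ0, hρ2, hzx⟩ := F_geo_dec z
  have hρ : ρ ≤ 1 + 2 / k := by
    have h1 : ρ ^ 2 ≤ (1 + 2 / (k : ℝ)) ^ 2 := by rw [hρ2]; exact hz.trans (F_geo_sq hk)
    exact (abs_le_of_sq_le_sq' h1 hB0).2
  refine ⟨x, hx, ?_⟩
  intro ζ hζ
  have hs1 : ‖ip x ζ‖ ≤ 1 := by
    refine F_geo_norm_ip hζ zero_le_one ?_
    rw [one_pow]
    exact le_of_eq hx
  have hz1 : ‖ip z ζ‖ ≤ 1 + 2 / k := F_geo_norm_ip hζ hB0 (hz.trans (F_geo_sq hk))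
  have h1 := hF k hk (ip z ζ) hz1
  have hip : ip z ζ = (ρ : ℂ) * ip x ζ := by rw [hzx, F_geo_ip_smul]
  have hsn : 0 ≤ ‖ip x ζ‖ := norm_nonneg _
  have key : 1 + k * D x ζ ≤ 3 * (1 + k * ‖1 - ip z ζ‖) := by
    unfold D
    have h2 : 1 - ip x ζ = (1 - ip z ζ) + ((ρ - 1 : ℝ) : ℂ) * ip x ζ := by
      rw [hip]; push_cast; ring
    have h3 : ‖1 - ip x ζ‖ ≤ ‖1 - ip z ζ‖ + |ρ - 1| * ‖ip x ζ‖ := by
      calc ‖1 - ip x ζ‖ = ‖(1 - ip z ζ) + ((ρ - 1 : ℝ) : ℂ) * ip x ζ‖ := by rw [← h2]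
        _ ≤ ‖1 - ip z ζ‖ + ‖((ρ - 1 : ℝ) : ℂ) * ip x ζ‖ := norm_add_le _ _
        _ = _ := by rw [norm_mul, Complex.norm_real, Real.norm_eq_abs]
    have h0 : 0 ≤ ‖1 - ip z ζ‖ := norm_nonneg _
    rcases le_total ρ 1 with hρ1 | hρ1
    · have h4 : |ρ - 1| = 1 - ρ := by rw [abs_of_nonpos (by linarith)]; ring
      have h5 : 1 - ρ * ‖ip x ζ‖ ≤ ‖1 - ip z ζ‖ := by
        have h6 := norm_sub_norm_le (1 : ℂ) (ip z ζ)
        have h7 : ‖ip z ζ‖ = ρ * ‖ip x ζ‖ := by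
          rw [hip, norm_mul, Complex.norm_real, Real.norm_of_nonneg hρ0]
        rw [norm_one, h7] at h6
        exact h6
      rw [h4] at h3
      have h8 : ‖1 - ip x ζ‖ ≤ 2 * ‖1 - ip z ζ‖ := by nlinarith
      have h9 := mul_le_mul_of_nonneg_left h8 hk0.le
      have h10 : 0 ≤ (k : ℝ) * ‖1 - ip z ζ‖ := by positivity
      linarith
    · have h4 : |ρ - 1| = ρ - 1 := abs_of_nonneg (by linarith)
      rw [h4] at h3
      have h5 : (ρ - 1) * ‖ip x ζ‖ ≤ 2 / k := by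
        calc (ρ - 1) * ‖ip x ζ‖ ≤ (ρ - 1) * 1 := mul_le_mul_of_nonneg_left hs1 (by linarith)
          _ ≤ 2 / k := by linarith
      have h8 : ‖1 - ip x ζ‖ ≤ ‖1 - ip z ζ‖ + 2 / k := by linarith
      have h9 := mul_le_mul_of_nonneg_left h8 hk0.le
      have h11 : (k : ℝ) * (‖1 - ip z ζ‖ + 2 / k) = k * ‖1 - ip z ζ‖ + 2 := by
        field_simp
      have h10 : 0 ≤ (k : ℝ) * ‖1 - ip z ζ‖ := by positivity
      linarith
  have hD0 : 0 < 1 + k * D x ζ := by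
    have := D_nonneg x ζ
    positivity
  refine h1.trans ?_
  have h0 : 0 < 1 + k * ‖1 - ip z ζ‖ := by positivity
  rw [div_le_div_iff₀ h0 hD0]
  nlinarith

theorem F_near : ∃ C : ℝ, 0 < C ∧ ∀ k : ℕ, 1 ≤ k → ∀ x ∈ S, ∀ α β : ℂ, ‖α - 1‖ ≤ 1 / k →
    ‖β‖ ^ 2 ≤ 1 / k → ∀ ζ ∈ S, ‖F k (ip (α • x + β • perp x) ζ)‖ ≤ C / (1 + k * D x ζ) := by
  obtain ⟨C, hC, hF⟩ := F_bound
  refine ⟨5 * C, by positivity, ?_⟩
  intro k hk x hx α β hα hβ ζ hζ
  have hk0 : (0 : ℝ) < k := by exact_mod_cast hk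
  have hB0 : (0 : ℝ) ≤ 1 + 2 / k := by positivity
  obtain ⟨h1, h2, _⟩ := near_geo hk hx hζ hα hβ
  have hz1 := F_geo_norm_ip hζ hB0 (h1.trans (F_geo_sq hk))
  have h3 := hF k hk _ hz1
  have hD0 : 0 < 1 + k * D x ζ := by
    have := D_nonneg x ζ
    positivity
  refine h3.trans ?_
  have h0 : 0 < 1 + k * ‖1 - ip (α • x + β • perp x) ζ‖ := by positivity
  rw [div_le_div_iff₀ h0 hD0]
  nlinarith

/-! ### F_lip -/

theorem F_lip_lagrange (z w : P) : ‖ip z w‖ ^ 2 + ‖ip z (perp w)‖ ^ 2 = nsq z * nsq w := by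
  unfold ip nsq perp
  simp only [Complex.sq_norm, Complex.normSq_apply, Complex.add_re, Complex.add_im, Complex.mul_re,
    Complex.mul_im, Complex.conj_re, Complex.conj_im, map_neg, Complex.neg_re, Complex.neg_im]
  ring

theorem F_lip_dec (z w w' : P) : ip z w' * (nsq w : ℂ) =
    conj (ip w' w) * ip z w + conj (ip w' (perp w)) * ip z (perp w) := by
  unfold ip nsq perp
  apply Complex.ext
  · simp [Complex.sq_norm, Complex.normSq_apply]
    ring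
  · simp [Complex.sq_norm, Complex.normSq_apply]
    ring

theorem F_lip_norm_le {z w : P} (hz : z ∈ S) (hw : w ∈ S) : ‖ip z w‖ ≤ 1 := by
  have h := norm_ip_sq_le z w
  have h1 : nsq z = 1 := hz
  have h2 : nsq w = 1 := hw
  rw [h1, h2, mul_one] at h
  have := norm_nonneg (ip z w)
  nlinarith

theorem F_lip_perp {z w : P} (hz : z ∈ S) (hw : w ∈ S) : ‖ip z (perp w)‖ ^ 2 ≤ 2 * D z w := by
  have h := F_lip_lagrange z w
  have h1 : nsq z = 1 := hz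
  have h2 : nsq w = 1 := hw
  rw [h1, h2, mul_one] at h
  have h3 := F_lip_norm_le hz hw
  have h4 : 1 - ‖ip z w‖ ≤ D z w := by
    unfold D
    have := norm_sub_norm_le (1 : ℂ) (ip z w)
    rwa [norm_one] at this
  have h5 := norm_nonneg (ip z w)
  have h6 := D_nonneg z w
  nlinarith

theorem F_lip_ip {z w w' : P} (hz : z ∈ S) (hw : w ∈ S) (hw' : w' ∈ S) :
    ‖ip z w - ip z w'‖ ≤ D w w' + 2 * √(D w w' * D z w) := by
  have h1 : nsq w = 1 := hw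
  have h2 := F_lip_dec z w w'
  rw [h1] at h2
  have h3 : ip z w - ip z w' = (1 - conj (ip w' w)) * ip z w +
      (- (conj (ip w' (perp w)) * ip z (perp w))) := by
    have : ip z w' = conj (ip w' w) * ip z w + conj (ip w' (perp w)) * ip z (perp w) := by
      rw [← h2]; simp
    rw [this]; ring
  rw [h3]
  refine (norm_add_le _ _).trans ?_
  rw [norm_neg, norm_mul, norm_mul]
  have e1 : ‖1 - conj (ip w' w)‖ = D w w' := by
    rw [D_comm]
    unfold D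
    have : (1 : ℂ) - conj (ip w' w) = conj (1 - ip w' w) := by simp
    rw [this, Complex.norm_conj]
  have e2 : ‖conj (ip w' (perp w))‖ = ‖ip w' (perp w)‖ := Complex.norm_conj _
  rw [e1, e2]
  have h4 := F_lip_norm_le hz hw
  have h5 := F_lip_perp hz hw
  have h6 := F_lip_perp hw' hw
  rw [D_comm w' w] at h6
  have h7 := D_nonneg w w'
  have h8 := D_nonneg z w
  apply add_le_add
  · calc D w w' * ‖ip z w‖ ≤ D w w' * 1 := mul_le_mul_of_nonneg_left h4 h7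
      _ = D w w' := mul_one _
  · have h9 : ‖ip w' (perp w)‖ * ‖ip z (perp w)‖ =
        √((‖ip w' (perp w)‖ * ‖ip z (perp w)‖) ^ 2) := by
      rw [Real.sqrt_sq (by positivity)]
    have h10 : 2 * √(D w w' * D z w) = √((2 * D w w') * (2 * D z w)) := by
      rw [show (2 * D w w') * (2 * D z w) = 2 ^ 2 * (D w w' * D z w) by ring,
        Real.sqrt_mul (show (0 : ℝ) ≤ 2 ^ 2 by norm_num) (D w w' * D z w),
        Real.sqrt_sq (show (0 : ℝ) ≤ 2 by norm_num)]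
    rw [h9, h10]
    apply Real.sqrt_le_sqrt
    rw [mul_pow]
    exact mul_le_mul h6 h5 (by positivity) (by positivity)

theorem F_lip_pow {s t : ℂ} (hs : ‖s‖ ≤ 1) (ht : ‖t‖ ≤ 1) (i : ℕ) :
    ‖s ^ i - t ^ i‖ ≤ i * ‖s - t‖ := by
  induction i with
  | zero => simp
  | succ i ih =>
    have h : s ^ (i + 1) - t ^ (i + 1) = s * (s ^ i - t ^ i) + (s - t) * t ^ i := by ring
    rw [h]
    refine (norm_add_le _ _).trans ?_
    rw [norm_mul, norm_mul, norm_pow]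
    have h1 : ‖t‖ ^ i ≤ 1 := pow_le_one₀ (norm_nonneg _) ht
    have h2 := norm_nonneg (s - t)
    have h3 := norm_nonneg (s ^ i - t ^ i)
    have h4 := norm_nonneg s
    push_cast
    nlinarith

theorem F_lip_simple {k : ℕ} (hk : 1 ≤ k) {s t : ℂ} (hs : ‖s‖ ≤ 1) (ht : ‖t‖ ≤ 1) :
    ‖F k s - F k t‖ ≤ k * ‖s - t‖ := by
  have hk0 : (0 : ℝ) < k := by exact_mod_cast hk
  unfold F
  rw [← sub_div, ← Finset.sum_sub_distrib, norm_div, Complex.norm_natCast, div_le_iff₀ hk0]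
  refine (norm_sum_le _ _).trans ?_
  calc ∑ i ∈ Finset.range k, ‖s ^ i - t ^ i‖ ≤ ∑ i ∈ Finset.range k, (k : ℝ) * ‖s - t‖ := by
        apply Finset.sum_le_sum
        intro i hi
        refine (F_lip_pow hs ht i).trans ?_
        apply mul_le_mul_of_nonneg_right _ (norm_nonneg _)
        exact_mod_cast (Finset.mem_range.mp hi).le
    _ = k * ‖s - t‖ * k := by
        rw [Finset.sum_const, Finset.card_range, nsmul_eq_mul]; ring

theorem F_lip_geo {k : ℕ} (hk : 1 ≤ k) (s : ℂ) : (1 - s) * F k s = (1 - s ^ k) / k := by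
  unfold F
  rw [← mul_div_assoc]
  congr 1
  have := mul_neg_geom_sum s k
  exact this

theorem F_lip_Fle {k : ℕ} (hk : 1 ≤ k) {s : ℂ} (hs : ‖s‖ ≤ 1) : ‖F k s‖ ≤ 1 := by
  have hk0 : (0 : ℝ) < k := by exact_mod_cast hk
  unfold F
  rw [norm_div, Complex.norm_natCast, div_le_iff₀ hk0, one_mul]
  refine (norm_sum_le _ _).trans ?_
  calc ∑ i ∈ Finset.range k, ‖s ^ i‖ ≤ ∑ i ∈ Finset.range k, (1 : ℝ) := by
        apply Finset.sum_le_sum
        intro i _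
        rw [norm_pow]
        exact pow_le_one₀ (norm_nonneg _) hs
    _ = k := by simp

theorem F_lip_far {k : ℕ} (hk : 1 ≤ k) {s t : ℂ} (hs : ‖s‖ ≤ 1) (ht : ‖t‖ ≤ 1) :
    ‖1 - s‖ * ‖F k s - F k t‖ ≤ 2 * ‖s - t‖ := by
  have hk0 : (0 : ℝ) < k := by exact_mod_cast hk
  have hk0' : (k : ℂ) ≠ 0 := by
    have : k ≠ 0 := by omega
    exact_mod_cast this
  have h1 : (1 - s) * (F k s - F k t) = (t ^ k - s ^ k) / k + (s - t) * F k t := by
    have e1 := F_lip_geo hk s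
    have e2 := F_lip_geo hk t
    have e3 : (1 - s) * (F k s - F k t) = (1 - s) * F k s - (1 - t) * F k t + (s - t) * F k t := by
      ring
    rw [e3, e1, e2]
    ring
  rw [← norm_mul, h1]
  refine (norm_add_le _ _).trans ?_
  rw [norm_div, norm_mul, Complex.norm_natCast]
  have h2 : ‖t ^ k - s ^ k‖ / k ≤ ‖s - t‖ := by
    rw [div_le_iff₀ hk0, mul_comm, norm_sub_rev s t]
    exact F_lip_pow ht hs k
  have h3 := F_lip_Fle hk ht
  have h4 := norm_nonneg (s - t)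
  nlinarith

theorem F_lip_diff {k : ℕ} (hk : 1 ≤ k) {s t : ℂ} (hs : ‖s‖ ≤ 1) (ht : ‖t‖ ≤ 1) {r X : ℝ}
    (hr : 0 < r) (hX : X = k * ‖1 - s‖) (h : k * ‖s - t‖ ≤ 3 * r * √(1 + X)) :
    ‖F k s - F k t‖ ≤ 9 * r := by
  have hk0 : (0 : ℝ) < k := by exact_mod_cast hk
  have hX0 : 0 ≤ X := by rw [hX]; positivity
  have h1 := F_lip_simple hk hs ht
  have h2 := F_lip_far hk hs ht
  have h3 : X * ‖F k s - F k t‖ ≤ 2 * (k * ‖s - t‖) := by
    rw [hX]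
    calc (k : ℝ) * ‖1 - s‖ * ‖F k s - F k t‖ = k * (‖1 - s‖ * ‖F k s - F k t‖) := by ring
      _ ≤ k * (2 * ‖s - t‖) := mul_le_mul_of_nonneg_left h2 hk0.le
      _ = _ := by ring
  have h4 : (1 + X) * ‖F k s - F k t‖ ≤ 9 * r * √(1 + X) := by nlinarith
  have h5 : √(1 + X) * √(1 + X) = 1 + X := Real.mul_self_sqrt (by linarith)
  have h6 : 1 ≤ √(1 + X) := by
    rw [Real.one_le_sqrt]; linarith
  have h7 : √(1 + X) * ‖F k s - F k t‖ ≤ 9 * r := by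
    have h8 : √(1 + X) * (√(1 + X) * ‖F k s - F k t‖) ≤ √(1 + X) * (9 * r) := by
      calc √(1 + X) * (√(1 + X) * ‖F k s - F k t‖) = (√(1 + X) * √(1 + X)) * ‖F k s - F k t‖ := by
            ring
        _ = (1 + X) * ‖F k s - F k t‖ := by rw [h5]
        _ ≤ 9 * r * √(1 + X) := h4
        _ = √(1 + X) * (9 * r) := by ring
    exact le_of_mul_le_mul_left h8 (by linarith)
  have h9 := norm_nonneg (F k s - F k t)
  nlinarith

theorem F_lip (q : ℕ) (hq : 2 ≤ q) : ∃ C : ℝ, 0 < C ∧ ∀ k : ℕ, 1 ≤ k → ∀ r : ℝ, 0 < r → r ≤ 1 →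
    ∀ z ∈ S, ∀ ζ ∈ S, ∀ ζ' ∈ S, k * D ζ ζ' ≤ r ^ 2 →
    |‖F k (ip z ζ)‖ ^ (2 * q) - ‖F k (ip z ζ')‖ ^ (2 * q)| ≤ C * r * ((1 + k * D z ζ) ^ 3)⁻¹ := by
  obtain ⟨C0, hC0, hC⟩ := F_bound
  refine ⟨9 * (2 * q : ℕ) * (3 * C0) ^ (2 * q - 1), by positivity, ?_⟩
  intro k hk r hr hr1 z hz ζ hζ ζ' hζ' hD
  have hk0 : (0 : ℝ) < k := by exact_mod_cast hk
  obtain ⟨X, hXd⟩ : ∃ X : ℝ, X = k * D z ζ := ⟨_, rfl⟩
  have hX0 : 0 ≤ X := by rw [hXd]; have := D_nonneg z ζ; positivity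
  rw [← hXd]
  have hs := F_lip_norm_le hz hζ
  have ht := F_lip_norm_le hz hζ'
  -- difference of the arguments
  have hsX : √X ≤ √(1 + X) := Real.sqrt_le_sqrt (by linarith)
  have h1X : 1 ≤ √(1 + X) := by
    rw [Real.one_le_sqrt]; linarith
  have h1 : k * ‖ip z ζ - ip z ζ'‖ ≤ 3 * r * √(1 + X) := by
    have h2 := F_lip_ip hz hζ hζ'
    have h3 : k * √(D ζ ζ' * D z ζ) ≤ r * √X := by
      have e1 : (k : ℝ) * √(D ζ ζ' * D z ζ) = √((k * D ζ ζ') * X) := by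
        rw [hXd, show (k * D ζ ζ') * (k * D z ζ) = (k : ℝ) ^ 2 * (D ζ ζ' * D z ζ) by ring,
          Real.sqrt_mul (show (0 : ℝ) ≤ (k : ℝ) ^ 2 by positivity) (D ζ ζ' * D z ζ),
          Real.sqrt_sq hk0.le]
      have e2 : r * √X = √(r ^ 2 * X) := by
        rw [Real.sqrt_mul (by positivity), Real.sqrt_sq hr.le]
      rw [e1, e2]
      exact Real.sqrt_le_sqrt (mul_le_mul_of_nonneg_right hD hX0)
    calc k * ‖ip z ζ - ip z ζ'‖ ≤ k * (D ζ ζ' + 2 * √(D ζ ζ' * D z ζ)) :=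
          mul_le_mul_of_nonneg_left h2 hk0.le
      _ = k * D ζ ζ' + 2 * (k * √(D ζ ζ' * D z ζ)) := by ring
      _ ≤ r ^ 2 + 2 * (r * √X) := by linarith
      _ ≤ r * √(1 + X) + 2 * (r * √(1 + X)) := by
          have : r ^ 2 ≤ r * √(1 + X) := by nlinarith
          have : r * √X ≤ r * √(1 + X) := mul_le_mul_of_nonneg_left hsX hr.le
          linarith
      _ = 3 * r * √(1 + X) := by ring
  have hdiff := F_lip_diff hk hs ht hr hXd h1
  -- size of both values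
  have hFs : ‖F k (ip z ζ)‖ ≤ 3 * C0 / (1 + X) := by
    have := hC k hk (ip z ζ) (by
      have : (0 : ℝ) ≤ 2 / k := by positivity
      linarith)
    have h5 : (k : ℝ) * ‖1 - ip z ζ‖ = X := by rw [hXd]; rfl
    rw [h5] at this
    refine this.trans ?_
    apply div_le_div_of_nonneg_right (by linarith) (by linarith)
  have hX' : 1 + X ≤ 3 * (1 + k * D z ζ') := by
    have h6 := D_triangle hζ' hζ hz
    -- √(D ζ z) ≤ √(D ζ' z) + √(D ζ' ζ)
    rw [D_comm ζ z, D_comm ζ' z, D_comm ζ' ζ] at h6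
    have h7 := D_nonneg z ζ'
    have h8 := D_nonneg ζ ζ'
    have h9 := D_nonneg z ζ
    have e1 := Real.sq_sqrt h7
    have e2 := Real.sq_sqrt h8
    have e3 := Real.sq_sqrt h9
    have f1 := Real.sqrt_nonneg (D z ζ')
    have f2 := Real.sqrt_nonneg (D ζ ζ')
    have f3 := Real.sqrt_nonneg (D z ζ)
    have h10 : D z ζ ≤ 2 * D z ζ' + 2 * D ζ ζ' := by
      nlinarith [sq_nonneg (√(D z ζ') - √(D ζ ζ'))]
    have h11 : X ≤ 2 * (k * D z ζ') + 2 * (k * D ζ ζ') := by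
      rw [hXd]; nlinarith
    have h12 : 0 ≤ k * D z ζ' := by positivity
    nlinarith
  have hFt : ‖F k (ip z ζ')‖ ≤ 3 * C0 / (1 + X) := by
    have := hC k hk (ip z ζ') (by
      have : (0 : ℝ) ≤ 2 / k := by positivity
      linarith)
    refine this.trans ?_
    have h5 : (k : ℝ) * ‖1 - ip z ζ'‖ = k * D z ζ' := rfl
    rw [h5]
    have h12 : 0 ≤ k * D z ζ' := by have := D_nonneg z ζ'; positivity
    rw [div_le_div_iff₀ (by linarith) (by linarith)]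
    nlinarith
  have hmax : max |‖F k (ip z ζ)‖| |‖F k (ip z ζ')‖| ≤ 3 * C0 / (1 + X) := by
    rw [abs_of_nonneg (norm_nonneg _), abs_of_nonneg (norm_nonneg _)]
    exact max_le hFs hFt
  have hmain := abs_pow_sub_pow_le ‖F k (ip z ζ)‖ ‖F k (ip z ζ')‖ (2 * q)
  refine hmain.trans ?_
  have h13 : |‖F k (ip z ζ)‖ - ‖F k (ip z ζ')‖| ≤ 9 * r :=
    (abs_norm_sub_norm_le _ _).trans hdiff
  have h14 : max |‖F k (ip z ζ)‖| |‖F k (ip z ζ')‖| ^ (2 * q - 1) ≤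
      (3 * C0) ^ (2 * q - 1) * ((1 + X) ^ 3)⁻¹ := by
    calc max |‖F k (ip z ζ)‖| |‖F k (ip z ζ')‖| ^ (2 * q - 1)
        ≤ (3 * C0 / (1 + X)) ^ (2 * q - 1) := by
          apply pow_le_pow_left₀ _ hmax
          exact le_max_of_le_left (abs_nonneg _)
      _ = (3 * C0) ^ (2 * q - 1) * ((1 + X) ^ (2 * q - 1))⁻¹ := by
          rw [div_pow, div_eq_mul_inv]
      _ ≤ (3 * C0) ^ (2 * q - 1) * ((1 + X) ^ 3)⁻¹ := by
          apply mul_le_mul_of_nonneg_left _ (by positivity)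
          apply inv_anti₀ (by positivity)
          exact pow_le_pow_right₀ (by linarith) (by omega)
  calc |‖F k (ip z ζ)‖ - ‖F k (ip z ζ')‖| * ((2 * q : ℕ) : ℝ) *
        max |‖F k (ip z ζ)‖| |‖F k (ip z ζ')‖| ^ (2 * q - 1)
      ≤ (9 * r) * ((2 * q : ℕ) : ℝ) * ((3 * C0) ^ (2 * q - 1) * ((1 + X) ^ 3)⁻¹) := by
        apply mul_le_mul _ h14
        · apply pow_nonneg
          exact le_max_of_le_left (abs_nonneg _)
        · positivity
        · exact mul_le_mul_of_nonneg_right h13 (by positivity)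
    _ = _ := by ring

end Pool.Agent.H892PB
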