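import Pool.Agent.Helper892.PB.CIt

set_option autoImplicit false

open MeasureTheory Set
open scoped ComplexConjugate

namespace Pool.Agent.H892PB

/-! ### contDiffOn_series -/

theorem contDiffOn_series_hasFDerivWithinAt_tsum {E F : Type*} [NormedAddCommGroup E]
    [NormedSpace ℝ E] [NormedAddCommGroup F] [NormedSpace ℝ F] [CompleteSpace F] {K : Set E}
    (hK : Convex ℝ K) (f : ℕ → E → F) (f' : ℕ → E → E →L[ℝ] F) (u : ℕ → ℝ) (hu : Summable u)
    (hf : ∀ i, ∀ x ∈ K, HasFDerivWithinAt (f i) (f' i x) K x)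
    (hf' : ∀ i, ∀ x ∈ K, ‖f' i x‖ ≤ u i)
    (hs : ∀ x ∈ K, Summable fun i => f i x) (x : E) (hx : x ∈ K) :
    HasFDerivWithinAt (fun y => ∑' i, f i y) (∑' i, f' i x) K x := by
  have hs' : Summable fun i => f' i x := Summable.of_norm_bounded hu fun i => hf' i x hx
  rw [hasFDerivWithinAt_iff_isLittleO, Asymptotics.isLittleO_iff]
  intro c hc
  obtain ⟨N, hN⟩ := ((tendsto_sum_nat_add u).eventually
    (gt_mem_nhds (show (0:ℝ) < c / 4 by positivity))).exists
  have hfin : HasFDerivWithinAt (fun y => ∑ i ∈ Finset.range N, f i y)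
      (∑ i ∈ Finset.range N, f' i x) K x := HasFDerivWithinAt.fun_sum fun i _ => hf i x hx
  rw [hasFDerivWithinAt_iff_isLittleO, Asymptotics.isLittleO_iff] at hfin
  have h1 := hfin (show (0:ℝ) < c / 2 by positivity)
  filter_upwards [h1, self_mem_nhdsWithin] with y hy1 hyK
  have hu' : Summable fun i => u (i + N) := (summable_nat_add_iff N).2 hu
  have hy2 : Summable fun i => f (i + N) y := (summable_nat_add_iff N).2 (hs y hyK)
  have hx2 : Summable fun i => f (i + N) x := (summable_nat_add_iff N).2 (hs x hx)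
  have hx3 : Summable fun i => f' (i + N) x := (summable_nat_add_iff N).2 hs'
  have e1 : ∑' i, f i y = ∑ i ∈ Finset.range N, f i y + ∑' i, f (i + N) y :=
    ((hs y hyK).sum_add_tsum_nat_add N).symm
  have e2 : ∑' i, f i x = ∑ i ∈ Finset.range N, f i x + ∑' i, f (i + N) x :=
    ((hs x hx).sum_add_tsum_nat_add N).symm
  have e3 : ∑' i, f' i x = ∑ i ∈ Finset.range N, f' i x + ∑' i, f' (i + N) x :=
    (hs'.sum_add_tsum_nat_add N).symm
  have e4 : (∑' i, f' (i + N) x) (y - x) = ∑' i, f' (i + N) x (y - x) :=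
    (ContinuousLinearMap.apply ℝ F (y - x)).map_tsum hx3
  have hs4 : Summable fun i => f' (i + N) x (y - x) :=
    (ContinuousLinearMap.apply ℝ F (y - x)).summable hx3
  have e5 : ∑' i, f (i + N) y - ∑' i, f (i + N) x - (∑' i, f' (i + N) x) (y - x) =
      ∑' i, (f (i + N) y - f (i + N) x - f' (i + N) x (y - x)) := by
    rw [e4, (hy2.sub hx2).tsum_sub hs4, hy2.tsum_sub hx2]
  have hb : ∀ i, ‖f (i + N) y - f (i + N) x - f' (i + N) x (y - x)‖ ≤
      u (i + N) * (2 * ‖y - x‖) := by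
    intro i
    have b1 : ‖f (i + N) y - f (i + N) x‖ ≤ u (i + N) * ‖y - x‖ :=
      hK.norm_image_sub_le_of_norm_hasFDerivWithin_le (fun z hz => hf (i + N) z hz)
        (fun z hz => hf' (i + N) z hz) hx hyK
    have b2 : ‖f' (i + N) x (y - x)‖ ≤ u (i + N) * ‖y - x‖ :=
      ((f' (i + N) x).le_opNorm _).trans
        (mul_le_mul_of_nonneg_right (hf' (i + N) x hx) (norm_nonneg _))
    calc ‖f (i + N) y - f (i + N) x - f' (i + N) x (y - x)‖
        ≤ ‖f (i + N) y - f (i + N) x‖ + ‖f' (i + N) x (y - x)‖ := norm_sub_le _ _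
      _ ≤ u (i + N) * (2 * ‖y - x‖) := by linarith
  have hb2 : ‖∑' i, f (i + N) y - ∑' i, f (i + N) x - (∑' i, f' (i + N) x) (y - x)‖ ≤
      c / 2 * ‖y - x‖ := by
    rw [e5]
    have hsum : Summable fun i => u (i + N) * (2 * ‖y - x‖) := hu'.mul_right _
    refine (tsum_of_norm_bounded hsum.hasSum hb).trans ?_
    rw [tsum_mul_right]
    have := mul_le_mul_of_nonneg_right hN.le (show 0 ≤ 2 * ‖y - x‖ by positivity)
    linarith
  have e6 : ∑' i, f i y - ∑' i, f i x - (∑' i, f' i x) (y - x) =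
      (∑ i ∈ Finset.range N, f i y - ∑ i ∈ Finset.range N, f i x -
        (∑ i ∈ Finset.range N, f' i x) (y - x)) +
      (∑' i, f (i + N) y - ∑' i, f (i + N) x - (∑' i, f' (i + N) x) (y - x)) := by
    rw [e1, e2, e3, add_apply]
    abel
  rw [e6]
  refine (norm_add_le _ _).trans ?_
  linarith

theorem contDiffOn_series_convex : Convex ℝ {z : P | nsq z ≤ 1} := by
  have key : ∀ (u w : ℂ) (a b : ℝ), 0 ≤ a → 0 ≤ b → a + b = 1 →
      ‖a • u + b • w‖ ^ 2 ≤ a * ‖u‖ ^ 2 + b * ‖w‖ ^ 2 := by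
    intro u w a b ha hb hab
    have h1 : ‖a • u + b • w‖ ≤ a * ‖u‖ + b * ‖w‖ := by
      refine (norm_add_le _ _).trans ?_
      rw [norm_smul, norm_smul, Real.norm_of_nonneg ha, Real.norm_of_nonneg hb]
    have h2 : ‖a • u + b • w‖ ^ 2 ≤ (a * ‖u‖ + b * ‖w‖) ^ 2 :=
      pow_le_pow_left₀ (norm_nonneg _) h1 2
    have h3 : b = 1 - a := by linarith
    subst h3
    nlinarith [mul_nonneg ha hb, sq_nonneg (‖u‖ - ‖w‖), mul_nonneg (mul_nonneg ha hb) (sq_nonneg (‖u‖ - ‖w‖))]
  intro x hx y hy a b ha hb hab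
  simp only [mem_ofPred_eq, nsq] at hx hy ⊢
  have h1 := key x.1 y.1 a b ha hb hab
  have h2 := key x.2 y.2 a b ha hb hab
  have e1 : (a • x + b • y).1 = a • x.1 + b • y.1 := rfl
  have e2 : (a • x + b • y).2 = a • x.2 + b • y.2 := rfl
  rw [e1, e2]
  have h3 := mul_le_mul_of_nonneg_left hx ha
  have h4 := mul_le_mul_of_nonneg_left hy hb
  nlinarith

/-- Cauchy estimate for the derivative -/
theorem contDiffOn_series_fderiv_le (v : P → ℂ) (hv : Differentiable ℂ v) (y : P) (M : ℝ)
    (hM : ∀ x ∈ Metric.closedBall y 1, ‖v x‖ ≤ M) : ‖fderiv ℂ v y‖ ≤ M := by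
  have hM0 : 0 ≤ M := (norm_nonneg _).trans (hM y (Metric.mem_closedBall_self zero_le_one))
  refine ContinuousLinearMap.opNorm_le_bound _ hM0 fun k => ?_
  rcases eq_or_ne k 0 with rfl | hk
  · simp
  have hkn : 0 < ‖k‖ := norm_pos_iff.2 hk
  have hd : ∀ t : ℂ, HasDerivAt (fun t : ℂ => v (y + t • k)) (fderiv ℂ v (y + t • k) k) t := by
    intro t
    have h1 : HasDerivAt (fun t : ℂ => y + t • k) k t := by
      simpa using ((hasDerivAt_id t).smul_const k).const_add y
    exact (hv (y + t • k)).hasFDerivAt.comp_hasDerivAt t h1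
  have h0 : deriv (fun t : ℂ => v (y + t • k)) 0 = fderiv ℂ v y k := by
    have := (hd 0).deriv
    simpa using this
  have hdiff : Differentiable ℂ fun t : ℂ => v (y + t • k) := fun t => (hd t).differentiableAt
  have h2 := Complex.norm_deriv_le_of_forall_mem_sphere_norm_le (c := 0) (R := 1 / ‖k‖) (C := M)
    (f := fun t : ℂ => v (y + t • k)) (by positivity) hdiff.diffContOnCl (fun t ht => by
      refine hM _ ?_
      rw [mem_sphere_zero_iff_norm] at ht
      rw [mem_closedBall_iff_norm, add_sub_cancel_left, norm_smul, ht]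
      rw [one_div, inv_mul_cancel₀ hkn.ne'])
  rw [h0] at h2
  refine h2.trans (le_of_eq ?_)
  field_simp

theorem contDiffOn_series_deriv_line (v : P → ℂ) (hv : Differentiable ℂ v) (z h : P) (t : ℂ) :
    HasDerivAt (fun t : ℂ => v (z + t • h)) (fderiv ℂ v (z + t • h) h) t := by
  have h1 : HasDerivAt (fun t : ℂ => z + t • h) h t := by
    simpa using ((hasDerivAt_id t).smul_const h).const_add z
  exact (hv (z + t • h)).hasFDerivAt.comp_hasDerivAt t h1

theorem contDiffOn_series_diff_fderiv (v : P → ℂ) (hv : Differentiable ℂ v) (h : P) :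
    Differentiable ℂ fun z => fderiv ℂ v z h := by
  set k : ℝ → ℂ := fun θ => deriv (circleMap 0 1) θ * (1 / (circleMap 0 1 θ - 0) ^ 2) with hk
  have hkc : Continuous k := by
    simp only [hk, deriv_circleMap, sub_zero]
    refine ((continuous_circleMap 0 1).mul continuous_const).mul
      (continuous_const.div ((continuous_circleMap 0 1).pow 2) fun θ => ?_)
    exact pow_ne_zero 2 (circleMap_ne_center one_ne_zero)
  have hkn : ∀ θ, ‖k θ‖ = 1 := by
    intro θ
    simp [hk]
  have hform : (fun z => fderiv ℂ v z h) = fun z => (2 * (Real.pi : ℂ) * Complex.I)⁻¹ *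
      ∫ θ in (0 : ℝ)..2 * Real.pi, k θ * v (z + circleMap 0 1 θ • h) := by
    funext z
    have hd : Differentiable ℂ fun t : ℂ => v (z + t • h) :=
      fun t => (contDiffOn_series_deriv_line v hv z h t).differentiableAt
    have h1 := DiffContOnCl.deriv_eq_smul_circleIntegral (c := 0) (R := 1)
      (f := fun t : ℂ => v (z + t • h)) one_pos hd.diffContOnCl
    have h2 : deriv (fun t : ℂ => v (z + t • h)) 0 = fderiv ℂ v z h := by
      have := (contDiffOn_series_deriv_line v hv z h 0).deriv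
      simpa using this
    rw [h2] at h1
    have h3 : ∫ θ in (0 : ℝ)..2 * Real.pi, k θ * v (z + circleMap 0 1 θ • h) =
        (2 * (Real.pi : ℂ) * Complex.I) • fderiv ℂ v z h := by
      rw [← h1, circleIntegral]
      refine intervalIntegral.integral_congr fun θ _ => ?_
      simp only [hk, smul_eq_mul]
      ring
    rw [h3, smul_eq_mul, inv_mul_cancel_left₀ Complex.two_pi_I_ne_zero]
  rw [hform]
  intro z0
  refine DifferentiableAt.const_mul ?_ _
  -- local bound
  obtain ⟨M, hM⟩ : ∃ M, ∀ x ∈ Metric.closedBall z0 (2 + ‖h‖), ‖v x‖ ≤ M :=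
    (isCompact_closedBall z0 (2 + ‖h‖)).exists_bound_of_continuousOn hv.continuous.continuousOn
  have hcm : Continuous fun θ : ℝ => circleMap 0 1 θ • h :=
    (continuous_circleMap 0 1).smul continuous_const
  have hder := intervalIntegral.hasFDerivAt_integral_of_dominated_of_fderiv_le (𝕜 := ℂ)
    (μ := volume) (a := 0) (b := 2 * Real.pi) (s := Metric.ball z0 1)
    (F := fun z θ => k θ * v (z + circleMap 0 1 θ • h))
    (F' := fun z θ => k θ • fderiv ℂ v (z + circleMap 0 1 θ • h))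
    (x₀ := z0) (bound := fun _ => M) (Metric.ball_mem_nhds z0 one_pos)
    (Filter.Eventually.of_forall fun z =>
      (hkc.mul (hv.continuous.comp (continuous_const.add hcm))).aestronglyMeasurable)
    ((hkc.mul (hv.continuous.comp (continuous_const.add hcm))).intervalIntegrable _ _)
    ?_ ?_ intervalIntegrable_const ?_
  · exact hder.differentiableAt
  · have h1 : Measurable fun θ : ℝ => fderiv ℂ v (z0 + circleMap 0 1 θ • h) :=
      (measurable_fderiv ℂ v).comp (continuous_const.add hcm).measurable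
    exact (hkc.aestronglyMeasurable.smul h1.aestronglyMeasurable)
  · refine Filter.Eventually.of_forall fun θ _ z hz => ?_
    rw [norm_smul, hkn, one_mul]
    refine contDiffOn_series_fderiv_le v hv _ M fun x hx => hM x ?_
    rw [Metric.mem_ball, dist_eq_norm] at hz
    rw [mem_closedBall_iff_norm] at hx ⊢
    have e1 : x - z0 = (x - (z + circleMap 0 1 θ • h)) + (z - z0) + circleMap 0 1 θ • h := by abel
    rw [e1]
    refine (norm_add₃_le).trans ?_
    have e2 : ‖circleMap 0 1 θ • h‖ = ‖h‖ := by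
      rw [norm_smul]; simp
    rw [e2]
    linarith
  · refine Filter.Eventually.of_forall fun θ _ z _ => ?_
    have h1 : HasFDerivAt (fun z : P => z + circleMap 0 1 θ • h) (ContinuousLinearMap.id ℂ P) z :=
      (hasFDerivAt_id z).add_const _
    have h2 := (hv (z + circleMap 0 1 θ • h)).hasFDerivAt.comp z h1
    have h3 := h2.const_mul (k θ)
    simpa using h3

theorem contDiffOn_series_contDiff (n : ℕ) : ∀ (v : P → ℂ), Differentiable ℂ v →
    ContDiff ℂ (n : WithTop ℕ∞) v := by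
  induction n with
  | zero => intro v hv; simpa using hv.continuous
  | succ n ih =>
    intro v hv
    have : ((n + 1 : ℕ) : WithTop ℕ∞) = (n : WithTop ℕ∞) + 1 := by push_cast; rfl
    rw [this, contDiff_succ_iff_fderiv]
    refine ⟨hv, fun h => absurd h (by simp), ?_⟩
    rw [contDiff_clm_apply_iff]
    intro h
    exact ih _ (contDiffOn_series_diff_fderiv v hv h)

theorem contDiffOn_series (t : ℕ) (v : ℕ → P → ℂ) (hv : ∀ i, Differentiable ℂ (v i)) (b : ℕ → ℕ → ℝ)
    (hb : ∀ l ≤ t, Summable (b l))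
    (hbd : ∀ l ≤ t, ∀ i, ∀ z : P, nsq z ≤ 1 → ‖iteratedFDeriv ℝ l (v i) z‖ ≤ b l i) :
    ContDiffOn ℝ (t : WithTop ℕ∞) (fun z => ∑' i, v i z) {z | nsq z ≤ 1} := by
  have hcd : ∀ (i m : ℕ), ContDiff ℝ (m : WithTop ℕ∞) (v i) := fun i m =>
    (contDiffOn_series_contDiff m (v i) (hv i)).restrict_scalars ℝ
  have hsum : ∀ l ≤ t, ∀ z ∈ {z : P | nsq z ≤ 1},
      Summable fun i => iteratedFDeriv ℝ l (v i) z := fun l hl z hz =>
    Summable.of_norm_bounded (hb l hl) fun i => hbd l hl i z hz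
  have hmain : HasFTaylorSeriesUpToOn ((t : ℕ∞) : WithTop ℕ∞) (fun z => ∑' i, v i z)
      (fun z l => ∑' i, iteratedFDeriv ℝ l (v i) z) {z : P | nsq z ≤ 1} := by
    refine ⟨fun x hx => ?_, fun m hm x hx => ?_, fun m hm => ?_⟩
    · have h1 := (continuousMultilinearCurryFin0 ℝ P ℂ).toContinuousLinearEquiv.toContinuousLinearMap.map_tsum
        (hsum 0 (Nat.zero_le t) x hx)
      have h2 : (∑' i, iteratedFDeriv ℝ 0 (v i) x).curry0 =
          ∑' i, (iteratedFDeriv ℝ 0 (v i) x).curry0 := h1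
      rw [h2]
      refine tsum_congr fun i => ?_
      rfl
    · have hmt : m < t := by exact_mod_cast hm
      have hfd : ∀ i, ∀ y : P, HasFDerivAt (fun y => iteratedFDeriv ℝ m (v i) y)
          ((iteratedFDeriv ℝ (m + 1) (v i) y).curryLeft) y := by
        intro i y
        have hlt : (m : WithTop ℕ∞) < ((m + 1 : ℕ) : WithTop ℕ∞) := by
          exact_mod_cast Nat.lt_succ_self m
        have h1 := ((hcd i (m + 1)).differentiable_iteratedFDeriv hlt y).hasFDerivAt
        have h2 : fderiv ℝ (iteratedFDeriv ℝ m (v i)) y =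
            (iteratedFDeriv ℝ (m + 1) (v i) y).curryLeft := by
          rw [fderiv_iteratedFDeriv]; rfl
        rw [← h2]
        exact h1
      have h1 := contDiffOn_series_hasFDerivWithinAt_tsum contDiffOn_series_convex
        (fun i y => iteratedFDeriv ℝ m (v i) y)
        (fun i y => (iteratedFDeriv ℝ (m + 1) (v i) y).curryLeft) (b (m + 1)) (hb (m + 1) hmt)
        (fun i y _ => (hfd i y).hasFDerivWithinAt)
        (fun i y hy => by
          rw [ContinuousMultilinearMap.curryLeft_norm]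
          exact hbd (m + 1) hmt i y hy)
        (fun y hy => hsum m hmt.le y hy) x hx
      have h2 := (continuousMultilinearCurryLeftEquiv ℝ (fun _ : Fin (m + 1) => P)
        ℂ).toContinuousLinearEquiv.toContinuousLinearMap.map_tsum (hsum (m + 1) hmt x hx)
      have h3 : (∑' i, iteratedFDeriv ℝ (m + 1) (v i) x).curryLeft =
          ∑' i, (iteratedFDeriv ℝ (m + 1) (v i) x).curryLeft := h2
      show HasFDerivWithinAt _ ((∑' i, iteratedFDeriv ℝ (m + 1) (v i) x).curryLeft) _ _
      rw [h3]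
      exact h1
    · have hmt : m ≤ t := by exact_mod_cast hm
      refine continuousOn_tsum (fun i => ?_) (hb m hmt) (fun i z hz => hbd m hmt i z hz)
      exact ((hcd i m).continuous_iteratedFDeriv le_rfl).continuousOn
  have := hmain.contDiffOn
  exact_mod_cast this

/-! ### series_smooth -/

theorem series_smooth_nsq {z z' : P} {r : ℝ} (hr : 0 ≤ r) (hz : nsq z ≤ 1) (h : ‖z' - z‖ ≤ r) :
    nsq z' ≤ 1 + 4 * r + 2 * r ^ 2 := by
  unfold nsq at hz ⊢
  have h1 : ‖z'.1 - z.1‖ ≤ r := (norm_fst_le (z' - z)).trans h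
  have h2 : ‖z'.2 - z.2‖ ≤ r := (norm_snd_le (z' - z)).trans h
  have h3 : ‖z'.1‖ ≤ ‖z.1‖ + r := by
    have : z'.1 = z.1 + (z'.1 - z.1) := by ring
    rw [this]
    exact (norm_add_le _ _).trans (by linarith)
  have h4 : ‖z'.2‖ ≤ ‖z.2‖ + r := by
    have : z'.2 = z.2 + (z'.2 - z.2) := by ring
    rw [this]
    exact (norm_add_le _ _).trans (by linarith)
  have h5 : ‖z.1‖ ≤ 1 := by
    have := norm_nonneg z.1
    nlinarith [sq_nonneg ‖z.2‖]
  have h6 : ‖z.2‖ ≤ 1 := by
    have := norm_nonneg z.2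
    nlinarith [sq_nonneg ‖z.1‖]
  have h7 : ‖z'.1‖ ^ 2 ≤ (‖z.1‖ + r) ^ 2 := pow_le_pow_left₀ (norm_nonneg _) h3 2
  have h8 : ‖z'.2‖ ^ 2 ≤ (‖z.2‖ + r) ^ 2 := pow_le_pow_left₀ (norm_nonneg _) h4 2
  nlinarith

theorem series_smooth_rad {lam : ℕ} (hl : 2 ≤ lam) (i : ℕ) {z z' : P} (hz : nsq z ≤ 1)
    (h : ‖z' - z‖ ≤ 1 / (2 * (lam : ℝ) ^ (i + 1))) : nsq z' ≤ 1 + 4 / (lam : ℝ) ^ (i + 1) := by
  have hl' : (2 : ℝ) ≤ lam := by exact_mod_cast hl
  have hpow : (1 : ℝ) ≤ (lam : ℝ) ^ (i + 1) := one_le_pow₀ (by linarith)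
  refine (series_smooth_nsq (by positivity) hz h).trans ?_
  set A := (lam : ℝ) ^ (i + 1) with hA
  have hA0 : 0 < A := by linarith
  have h1 : 1 / (2 * A) = 1 / 2 * (1 / A) := by field_simp
  have h2 : 4 / A = 4 * (1 / A) := by ring
  rw [h1, h2]
  have h3 : 1 / A ≤ 1 := by
    rw [div_le_one hA0]
    exact hpow
  have h4 : 0 < 1 / A := by positivity
  nlinarith

theorem series_smooth_fderiv {f : P → ℂ} (hf : Differentiable ℂ f) (z : P) :
    ‖fderiv ℂ f z‖ = ‖iteratedFDeriv ℝ 1 f z‖ := by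
  rw [norm_iteratedFDeriv_one]
  have h : HasFDerivAt f ((fderiv ℂ f z).restrictScalars ℝ) z :=
    (hf z).hasFDerivAt.restrictScalars ℝ
  rw [h.fderiv, ContinuousLinearMap.norm_restrictScalars]

theorem series_smooth (t lam : ℕ) (hl : 2 ≤ lam) (C : ℝ) (v : ℕ → P → ℂ) (hv : ∀ i, Differentiable ℂ (v i))
    (hb : ∀ i, ∀ z : P, nsq z ≤ 1 + 4 / (lam : ℝ) ^ (i + 1) → ‖v i z‖ ≤ C * (1 / (lam : ℝ) ^ (t + 1)) ^ i) :
    ContDiffOn ℝ (t : WithTop ℕ∞) (fun z => ∑' i, v i z) {z | nsq z ≤ 1} ∧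
    DifferentiableOn ℂ (fun z => ∑' i, v i z) {z | nsq z < 1} := by
  have hl' : (2 : ℝ) ≤ lam := by exact_mod_cast hl
  have hlam0 : (0 : ℝ) < lam := by linarith
  have hC : 0 ≤ C := by
    have h1 : nsq (0 : P) ≤ 1 + 4 / (lam : ℝ) ^ (0 + 1) := by
      have : nsq (0 : P) = 0 := by simp [nsq]
      rw [this]
      positivity
    have h2 := hb 0 0 h1
    rw [pow_zero, mul_one] at h2
    exact (norm_nonneg _).trans h2
  have hM0 : ∀ i : ℕ, 0 ≤ C * (1 / (lam : ℝ) ^ (t + 1)) ^ i := fun i => by positivity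
  constructor
  · choose Cl hCl hCl2 using cauchy_iter
    apply contDiffOn_series t v hv (fun l i => Cl l * (C * (1 / (lam : ℝ) ^ (t + 1)) ^ i) /
      (1 / (2 * (lam : ℝ) ^ (i + 1))) ^ l)
    · intro l hlt
      have h1 : (fun i : ℕ => Cl l * (C * (1 / (lam : ℝ) ^ (t + 1)) ^ i) /
          (1 / (2 * (lam : ℝ) ^ (i + 1))) ^ l) =
          fun i : ℕ => (Cl l * C * (2 * lam) ^ l) * ((lam : ℝ) ^ l / (lam : ℝ) ^ (t + 1)) ^ i := by
        funext i
        have e1 : (1 / (2 * (lam : ℝ) ^ (i + 1))) ^ l = 1 / ((2 * lam) ^ l * ((lam : ℝ) ^ l) ^ i) := by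
          rw [one_div_pow, mul_pow, mul_pow, ← pow_mul, ← pow_mul]
          congr 1
          rw [mul_assoc, ← pow_add]
          congr 2
          ring
        rw [e1, div_pow, div_pow, one_pow]
        field_simp
      rw [h1]
      apply Summable.mul_left
      apply summable_geometric_of_lt_one (by positivity)
      rw [div_lt_one (by positivity)]
      exact pow_lt_pow_right₀ (by linarith) (by omega)
    · intro l _ i z hz
      apply hCl2 l (v i) (hv i) z _ _ (by positivity) (hM0 i)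
      intro z' hz'
      exact hb i z' (series_smooth_rad hl i hz hz')
  · intro z hz
    have hz' : nsq z < 1 := hz
    obtain ⟨C1, hC1, hC1'⟩ := cauchy_iter 1
    have hcont : Continuous nsq := by
      unfold nsq
      fun_prop
    obtain ⟨δ, hδ, hδ'⟩ : ∃ δ > 0, ∀ z' : P, ‖z' - z‖ ≤ 2 * δ → nsq z' ≤ 1 := by
      have h1 : ∀ᶠ z' in nhds z, nsq z' < 1 := hcont.continuousAt.eventually_lt continuousAt_const hz'
      obtain ⟨ε, hε, h2⟩ := Metric.eventually_nhds_iff.1 h1
      refine ⟨ε / 4, by positivity, fun z' h3 => (h2 ?_).le⟩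
      rw [dist_eq_norm]
      linarith
    have hsumM : Summable (fun i : ℕ => C * (1 / (lam : ℝ) ^ (t + 1)) ^ i) := by
      apply Summable.mul_left
      apply summable_geometric_of_lt_one (by positivity)
      rw [div_lt_one (by positivity)]
      exact one_lt_pow₀ (by linarith) (by omega)
    have hvb : ∀ i, ∀ z' : P, ‖z' - z‖ ≤ 2 * δ → ‖v i z'‖ ≤ C * (1 / (lam : ℝ) ^ (t + 1)) ^ i := by
      intro i z' h3
      apply hb
      have h4 := hδ' z' h3
      have h5 : 0 ≤ 4 / (lam : ℝ) ^ (i + 1) := by positivity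
      linarith
    have hsum1 : Summable (fun i : ℕ => C1 / δ * (C * (1 / (lam : ℝ) ^ (t + 1)) ^ i)) :=
      hsumM.mul_left _
    have hder := hasFDerivAt_tsum_of_isPreconnected (𝕜 := ℂ) (f := v)
      (f' := fun i x => fderiv ℂ (v i) x) (x₀ := z) (x := z) hsum1
      (Metric.isOpen_ball (x := z) (ε := δ)) (convex_ball z δ).isPreconnected
      (fun i x _ => (hv i x).hasFDerivAt)
      (fun i x hx => by
        rw [series_smooth_fderiv (hv i)]
        have h1 := hC1' (v i) (hv i) x δ _ hδ (hM0 i) (fun z' h2 => hvb i z' (by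
          have h3 : ‖x - z‖ < δ := by
            rw [← dist_eq_norm]
            exact hx
          calc ‖z' - z‖ = ‖(z' - x) + (x - z)‖ := by congr 1; abel
            _ ≤ ‖z' - x‖ + ‖x - z‖ := norm_add_le _ _
            _ ≤ 2 * δ := by linarith))
        refine h1.trans (le_of_eq ?_)
        rw [pow_one]
        ring)
      (Metric.mem_ball_self hδ)
      (Summable.of_norm_bounded hsumM (fun i => hvb i z (by
        rw [sub_self, norm_zero]
        positivity)))
      (Metric.mem_ball_self hδ)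
    exact hder.differentiableAt.differentiableWithinAt

end Pool.Agent.H892PB
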