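import Pool.Agent.Helper892.PB.Wav
import Pool.Agent.Helper892.PB.Ser
import Pool.Agent.Helper892.PB.Fin

set_option autoImplicit false

open MeasureTheory Set
open scoped ComplexConjugate

namespace Pool.Agent.H892PB

/-! ### assembly -/

theorem discretize (q : ℕ) (hq : 3 ≤ q) : ∃ C : ℝ, 0 < C ∧ ∀ r : ℝ, 0 < r → r ≤ 1 → ∃ K : ℕ, 0 < K ∧
    ∀ k : ℕ, 1 ≤ k → ∀ W : P → ℝ, Continuous W → ∀ ε : ℝ, 0 < ε → (∀ z ∈ S, 0 ≤ W z ∧ W z ≤ 2 * ε) →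
    ∃ (Λ : Finset P) (col : P → Fin K) (w : P → ℝ), (∀ ζ ∈ Λ, ζ ∈ S) ∧
      (∀ ζ ∈ Λ, ∀ ζ' ∈ Λ, ζ ≠ ζ' → r ^ 2 ≤ k * D ζ ζ') ∧
      (∀ ζ ∈ Λ, ∀ ζ' ∈ Λ, ζ ≠ ζ' → col ζ = col ζ' → 1 / r ^ 2 ≤ k * D ζ ζ') ∧
      (∀ ζ ∈ Λ, 0 ≤ w ζ ∧ w ζ ≤ C * ε * r ^ 4) ∧
      ∀ z ∈ S, |∑ ζ ∈ Λ, w ζ * ‖F k (ip z ζ)‖ ^ (2 * q) - T q k W z| ≤ C * r * ε := by
  obtain ⟨C, hC, hR⟩ := riemann q hq
  refine ⟨C, hC, fun r hr hr1 => ?_⟩
  obtain ⟨K, hK, hcol⟩ := color r hr hr1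
  refine ⟨K, hK, fun k hk W hW ε hε hWb => ?_⟩
  obtain ⟨Λ, h1, h2, h3⟩ := maxsep k hk r hr hr1
  obtain ⟨col, h4⟩ := hcol k hk Λ h1 h2
  obtain ⟨w, h5, h6⟩ := hR r hr hr1 k hk W hW ε hε hWb Λ h1 h3
  exact ⟨Λ, col, w, h1, h2, h4, h5, h6⟩

theorem diffs_add (ys : List P) (u v : P → ℝ) (z : P) :
    diffs ys (fun x => u x + v x) z = diffs ys u z + diffs ys v z := by
  induction ys generalizing z with
  | nil => rfl
  | cons y ys ih => simp only [diffs, ih]; ring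

theorem diffs_mul (ys : List P) (a : ℝ) (u : P → ℝ) (z : P) :
    diffs ys (fun x => a * u x) z = a * diffs ys u z := by
  induction ys generalizing z with
  | nil => rfl
  | cons y ys ih => simp only [diffs, ih]; ring

theorem diffs_const (ys : List P) (hys : ys ≠ []) (a : ℝ) (z : P) :
    diffs ys (fun _ => a) z = 0 := by
  have key : ∀ (ys : List P) (z z' : P), diffs ys (fun _ => a) z = diffs ys (fun _ => a) z' := by
    intro ys
    induction ys with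
    | nil => intro z z'; rfl
    | cons y ys ih =>
      intro z z'
      simp only [diffs]
      rw [ih z z', ih (act y z) (act y z')]
  cases ys with
  | nil => exact absurd rfl hys
  | cons y ys => simp only [diffs]; rw [key ys z (act y z)]; ring

/-- partial sums of the layers -/
noncomputable def hs {K d : ℕ} (v : ℕ → Fin K → Fin d → P → ℂ) (j : ℕ) (g : Fin K) (c : Fin d) (z : P) : ℂ :=
  ∑ i ∈ Finset.range j, v i g c z

/-- normalised error -/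
noncomputable def nn (cc : ℝ) (κ : ℝ) {K d : ℕ} (v : ℕ → Fin K → Fin d → P → ℂ) (j : ℕ) (z : P) : ℝ :=
  1 - ‖(cc : ℂ) * Complex.exp z.1‖ ^ 2 - ∑ g, ∑ c, ‖hs v j g c z‖ ^ 2 - κ ^ j

structure St (p lam K d m : ℕ) (τ B Cv cc c0 : ℝ) (j : ℕ) (v : ℕ → Fin K → Fin d → P → ℂ) : Prop where
  diff : ∀ i g c, Differentiable ℂ (v i g c)
  bd : ∀ i < j, ∀ z : P, nsq z ≤ 1 + 4 / (lam : ℝ) ^ (i + 1) →
      ∑ g, ∑ c, ‖v i g c z‖ ^ 2 ≤ (Cv * (1 / (lam : ℝ) ^ p) ^ i) ^ 2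
  small : ∀ z ∈ S, |nn cc (1 / (lam : ℝ) ^ (2 * p)) v j z| ≤ τ * (1 / (lam : ℝ) ^ (2 * p)) ^ j
  dbd : ∀ ys : List P, ys.length = m → (∀ y ∈ ys, y ∈ S ∧ (lam ^ j : ℕ) * ‖1 - y.1‖ ≤ c0) → ∀ z ∈ S,
      |diffs ys (nn cc (1 / (lam : ℝ) ^ (2 * p)) v j) z| ≤
        B * (1 / (lam : ℝ) ^ (2 * p)) ^ j * (ys.map (fun y => √((lam ^ j : ℕ) * ‖1 - y.1‖))).prod

theorem Dop_iter_cont (q k : ℕ) {u : P → ℝ} (hu : Continuous u) (i : ℕ) : Continuous ((Dop q k)^[i] u) := by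
  induction i with
  | zero => exact hu
  | succ i ih =>
    rw [Function.iterate_succ_apply']
    exact ih.sub (T_cont q k ih)

theorem T_W (q k : ℕ) (hk : 1 ≤ k) {u : P → ℝ} (hu : Continuous u) (a : ℝ) (m : ℕ) (z : P) :
    T q k (fun x => a + ∑ i ∈ Finset.range m, (Dop q k)^[i] u x) z = a + u z - (Dop q k)^[m] u z := by
  induction m with
  | zero => simp [T_const q k hk]
  | succ m ih =>
    have h1 : (fun x => a + ∑ i ∈ Finset.range (m + 1), (Dop q k)^[i] u x) =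
        (fun x => (a + ∑ i ∈ Finset.range m, (Dop q k)^[i] u x) + (Dop q k)^[m] u x) := by
      funext x; rw [Finset.sum_range_succ]; ring
    have h2 : Continuous (fun x => a + ∑ i ∈ Finset.range m, (Dop q k)^[i] u x) :=
      continuous_const.add (continuous_finsetSum _ fun i _ => Dop_iter_cont q k hu i)
    have h3 := T_add q k h2 (Dop_iter_cont q k hu m) z
    rw [h1, h3, ih, Function.iterate_succ_apply']
    simp only [Dop]; ring

theorem Dop_iter_bound (q k : ℕ) (hk : 1 ≤ k) {u : P → ℝ} (hu : Continuous u) {s : ℝ}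
    (h : ∀ z ∈ S, |u z| ≤ s) (i : ℕ) : ∀ z ∈ S, |(Dop q k)^[i] u z| ≤ 2 ^ i * s := by
  induction i with
  | zero => simpa using h
  | succ i ih =>
    intro z hz
    rw [Function.iterate_succ_apply']
    have h1 := ih z hz
    have h2 := T_bound q k hk (Dop_iter_cont q k hu i) ih z hz
    simp only [Dop]
    calc |(Dop q k)^[i] u z - T q k ((Dop q k)^[i] u) z|
        ≤ |(Dop q k)^[i] u z| + |T q k ((Dop q k)^[i] u) z| := abs_sub _ _
      _ ≤ 2 ^ i * s + 2 ^ i * s := add_le_add h1 h2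
      _ = 2 ^ (i + 1) * s := by ring

theorem hs_cont {K d : ℕ} {v : ℕ → Fin K → Fin d → P → ℂ} (hv : ∀ i g c, Differentiable ℂ (v i g c))
    (j : ℕ) (g : Fin K) (c : Fin d) : Differentiable ℂ (hs v j g c) := by
  unfold hs
  fun_prop

theorem nn_cont (cc κ : ℝ) {K d : ℕ} {v : ℕ → Fin K → Fin d → P → ℂ}
    (hv : ∀ i g c, Differentiable ℂ (v i g c)) (j : ℕ) : Continuous (nn cc κ v j) := by
  unfold nn
  have h1 : ∀ g c, Continuous (hs v j g c) := fun g c => (hs_cont hv j g c).continuous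
  fun_prop

theorem prod_scale (m' lam j : ℕ) (hlam : 1 ≤ lam) (ys : List P) (hys : ys.length = 2 * m') :
    (ys.map (fun y => √((lam ^ j : ℕ) * ‖1 - y.1‖))).prod =
      (1 / (lam : ℝ)) ^ m' * (ys.map (fun y => √((lam ^ (j + 1) : ℕ) * ‖1 - y.1‖))).prod := by
  have key : ∀ ys : List P, (ys.map (fun y => √((lam ^ j : ℕ) * ‖1 - y.1‖))).prod =
      (√(1 / (lam : ℝ))) ^ ys.length * (ys.map (fun y => √((lam ^ (j + 1) : ℕ) * ‖1 - y.1‖))).prod := by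
    intro ys
    induction ys with
    | nil => simp
    | cons y ys ih =>
      simp only [List.map_cons, List.prod_cons, List.length_cons, ih]
      have h : √(((lam ^ j : ℕ) : ℝ) * ‖1 - y.1‖) =
          √(1 / (lam : ℝ)) * √(((lam ^ (j + 1) : ℕ) : ℝ) * ‖1 - y.1‖) := by
        rw [← Real.sqrt_mul (by positivity)]
        congr 1
        push_cast
        have : (lam : ℝ) ≠ 0 := by positivity
        field_simp
        ring
      rw [h]; ring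
  rw [key ys, hys, pow_mul, Real.sq_sqrt (by positivity)]

theorem norm_sq_add_sum {ι : Type} [Fintype ι] (a b : ι → ℂ) :
    ∑ i, ‖a i + b i‖ ^ 2 = ∑ i, ‖a i‖ ^ 2 + (∑ i, b i * conj (b i)).re + 2 * (∑ i, a i * conj (b i)).re := by
  have h : ∀ i, ‖a i + b i‖ ^ 2 = ‖a i‖ ^ 2 + (b i * conj (b i)).re + 2 * (a i * conj (b i)).re := by
    intro i
    rw [← Complex.normSq_eq_norm_sq, ← Complex.normSq_eq_norm_sq, Complex.normSq_add, Complex.mul_conj]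
    simp
  simp only [h, Finset.sum_add_distrib, Complex.re_sum, Finset.mul_sum]

theorem sum_mul_conj_le {ι : Type} [Fintype ι] (a b : ι → ℂ) {M : ℝ}
    (ha : ∑ i, ‖a i‖ ^ 2 ≤ M) (hb : ∑ i, ‖b i‖ ^ 2 ≤ M) : ‖∑ i, a i * conj (b i)‖ ≤ M := by
  calc ‖∑ i, a i * conj (b i)‖ ≤ ∑ i, ‖a i * conj (b i)‖ := norm_sum_le _ _
    _ = ∑ i, ‖a i‖ * ‖b i‖ := by simp
    _ ≤ ∑ i, (‖a i‖ ^ 2 + ‖b i‖ ^ 2) / 2 := by
        apply Finset.sum_le_sum; intro i _; nlinarith [sq_nonneg (‖a i‖ - ‖b i‖)]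
    _ = (∑ i, ‖a i‖ ^ 2 + ∑ i, ‖b i‖ ^ 2) / 2 := by
        rw [← Finset.sum_add_distrib, Finset.sum_div]
    _ ≤ M := by linarith


theorem hs_update {K d : ℕ} (v : ℕ → Fin K → Fin d → P → ℂ) (j : ℕ) (vn : Fin K → Fin d → P → ℂ)
    (g : Fin K) (c : Fin d) (z : P) :
    hs (Function.update v j vn) (j + 1) g c z = hs v j g c z + vn g c z := by
  unfold hs
  rw [Finset.sum_range_succ, Function.update_self]
  congr 1
  apply Finset.sum_congr rfl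
  intro i hi
  rw [Function.update_of_ne (Finset.mem_range.1 hi).ne]

theorem nn_succ (cc κ : ℝ) {K d : ℕ} (v : ℕ → Fin K → Fin d → P → ℂ) (j : ℕ)
    (vn : Fin K → Fin d → P → ℂ) (z : P) :
    nn cc κ (Function.update v j vn) (j + 1) z = nn cc κ v j z + (κ ^ j - κ ^ (j + 1)) +
      (-1) * (∑ e : Fin K × Fin d, vn e.1 e.2 z * conj (vn e.1 e.2 z)).re +
      (-2) * (∑ e : Fin K × Fin d, hs v j e.1 e.2 z * conj (vn e.1 e.2 z)).re := by
  have h := norm_sq_add_sum (fun e : Fin K × Fin d => hs v j e.1 e.2 z) (fun e => vn e.1 e.2 z)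
  have h1 : ∑ g, ∑ c, ‖hs (Function.update v j vn) (j + 1) g c z‖ ^ 2 =
      ∑ e : Fin K × Fin d, ‖hs v j e.1 e.2 z + vn e.1 e.2 z‖ ^ 2 := by
    rw [Fintype.sum_prod_type]
    simp only [hs_update]
  have h2 : ∑ g, ∑ c, ‖hs v j g c z‖ ^ 2 = ∑ e : Fin K × Fin d, ‖hs v j e.1 e.2 z‖ ^ 2 := by
    rw [Fintype.sum_prod_type]
  unfold nn
  rw [h1, h2, h]
  ring

theorem sum_self_re {ι : Type} [Fintype ι] (b : ι → ℂ) :
    (∑ i, b i * conj (b i)).re = ∑ i, ‖b i‖ ^ 2 := by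
  rw [Complex.re_sum]
  apply Finset.sum_congr rfl
  intro i _
  rw [Complex.mul_conj, Complex.ofReal_re, Complex.normSq_eq_norm_sq]

/-- the inductive step for given constants -/
theorem step (p m w' q lam K d : ℕ) (hm : m = 2 * (4 * p + 1)) (hw : w' = 7 * p + 1) (hq : q = 2 * w' + 3)
    (hlam : 8 ≤ lam) (hp : 1 ≤ p) (hd : 2 ^ (2 * w') ≤ d)
    (c0 CC CN CD CW CX τ r Cv B cc : ℝ) (hc0 : 0 < c0) (hCC : 0 < CC) (hCN : 0 < CN) (hCD : 0 < CD)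
    (hCW : 0 < CW) (hCX : 0 < CX) (hτ : 0 < τ) (hτm : 2 ^ m * τ ≤ 1 / 8)
    (hr : r = τ * (1 / (lam : ℝ) ^ (2 * p)) / (16 * (CD + CW * CD + 1)))
    (hCv : Cv = √(CW * CD)) (hB : B = 2 * (CC * (Cv ^ 2 + 2) ) * (lam : ℝ) ^ (2 * p))
    (hL1 : 16 * (CC * (Cv ^ 2 + 2)) * CN ^ m ≤ τ * lam) (hL2 : 8 * CN ≤ lam)
    (hL5 : 16 * CX * √CD * Cv * (16 * (CD + CW * CD + 1) / τ) ^ 2 ≤ τ * lam)
    (Hcauchy : ∀ k : ℕ, 1 ≤ k → ∀ (ι : Type) [Fintype ι]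
    (A B : ι → P → ℂ), (∀ i, Differentiable ℂ (A i)) → (∀ i, Differentiable ℂ (B i)) → ∀ M : ℝ, 0 ≤ M →
    (∀ x ∈ S, ∀ α β α' β' : ℂ, ‖α - 1‖ ≤ 1 / k → ‖β‖ ^ 2 ≤ 1 / k → ‖α' - 1‖ ≤ 1 / k → ‖β'‖ ^ 2 ≤ 1 / k →
      ‖∑ i, A i (α • x + β • perp x) * conj (B i (α' • x + β' • perp x))‖ ≤ M) →
    ∀ ys : List P, ys.length = m → (∀ y ∈ ys, y ∈ S ∧ k * ‖1 - y.1‖ ≤ c0) → ∀ z ∈ S,
      |diffs ys (fun z => (∑ i, A i z * conj (B i z)).re) z|
        ≤ CC * M * (ys.map (fun y => √(k * ‖1 - y.1‖))).prod)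
    (Hneu : ∀ k0 k : ℕ, 1 ≤ k0 → k0 ≤ k → ∀ u : P → ℝ, Continuous u → ∀ s A : ℝ, 0 ≤ s → 0 ≤ A →
    (∀ z ∈ S, |u z| ≤ s) →
    (∀ ys : List P, ys.length = m → (∀ y ∈ ys, y ∈ S ∧ k0 * ‖1 - y.1‖ ≤ c0) → ∀ z ∈ S,
      |diffs ys u z| ≤ A * (ys.map (fun y => √(k0 * ‖1 - y.1‖))).prod) →
    ∀ z ∈ S, |(Dop q k)^[m] u z| ≤ A * (CN * √((k0 : ℝ) / k)) ^ m + CN * s * ((k0 : ℝ) / k) ^ (2 * q - 3))
    (Hdisc : ∀ k : ℕ, 1 ≤ k → ∀ W : P → ℝ, Continuous W → ∀ ε : ℝ, 0 < ε → (∀ z ∈ S, 0 ≤ W z ∧ W z ≤ 2 * ε) →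
    ∃ (Λ : Finset P) (col : P → Fin K) (w : P → ℝ), (∀ ζ ∈ Λ, ζ ∈ S) ∧
      (∀ ζ ∈ Λ, ∀ ζ' ∈ Λ, ζ ≠ ζ' → r ^ 2 ≤ k * D ζ ζ') ∧
      (∀ ζ ∈ Λ, ∀ ζ' ∈ Λ, ζ ≠ ζ' → col ζ = col ζ' → 1 / r ^ 2 ≤ k * D ζ ζ') ∧
      (∀ ζ ∈ Λ, 0 ≤ w ζ ∧ w ζ ≤ CD * ε * r ^ 4) ∧
      ∀ z ∈ S, |∑ ζ ∈ Λ, w ζ * ‖F k (ip z ζ)‖ ^ (2 * q) - T q k W z| ≤ CD * r * ε)
    (Hwave : ∀ (K d k : ℕ), 1 ≤ k → ∀ r : ℝ, 0 < r → r ≤ 1 →
    ∀ (Λ : Finset P) (col : P → Fin K) (w : P → ℝ) (ξ : P → Fin d → ℂ) (c1 ε : ℝ), 0 ≤ c1 → 0 ≤ ε →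
    (∀ ζ ∈ Λ, ζ ∈ S) →
    (∀ ζ ∈ Λ, ∀ ζ' ∈ Λ, ζ ≠ ζ' → r ^ 2 ≤ k * D ζ ζ') →
    (∀ ζ ∈ Λ, ∀ ζ' ∈ Λ, ζ ≠ ζ' → col ζ = col ζ' → 1 / r ^ 2 ≤ k * D ζ ζ') →
    (∀ ζ ∈ Λ, 0 ≤ w ζ ∧ w ζ ≤ c1 * ε * r ^ 4) →
    (∀ ζ ∈ Λ, ∑ c, ‖ξ ζ c‖ ^ 2 = 1) →
    (∀ z ∈ S, |∑ g, ∑ c, ‖wave q k Λ w ξ col g c z‖ ^ 2 - ∑ ζ ∈ Λ, w ζ * ‖F k (ip z ζ)‖ ^ (2 * q)|
      ≤ CW * c1 * ε * r ^ 2) ∧
    (∀ z : P, nsq z ≤ 1 + 4 / k → ∑ g, ∑ c, ‖wave q k Λ w ξ col g c z‖ ^ 2 ≤ CW * c1 * ε))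
    (Hcross : ∀ (K d j lam : ℕ), 2 ≤ lam →
    ∀ r : ℝ, 0 < r → r ≤ 1 → ∀ (Λ : Finset P) (col : P → Fin K) (w : P → ℝ) (ξ : P → Fin d → ℂ)
    (c1 ε Cv : ℝ), 0 ≤ c1 → 0 ≤ ε → 0 ≤ Cv → ∀ v : ℕ → Fin K → Fin d → P → ℂ,
    (∀ i g c, Differentiable ℂ (v i g c)) →
    (∀ i < j, ∀ z : P, nsq z ≤ 1 + 4 / (lam : ℝ) ^ (i + 1) →
      ∑ g, ∑ c, ‖v i g c z‖ ^ 2 ≤ (Cv * (1 / (lam : ℝ) ^ p) ^ i) ^ 2) →
    (∀ ζ ∈ Λ, ζ ∈ S) →
    (∀ ζ ∈ Λ, ∀ ζ' ∈ Λ, ζ ≠ ζ' → r ^ 2 ≤ (lam ^ (j + 1) : ℕ) * D ζ ζ') →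
    (∀ ζ ∈ Λ, 0 ≤ w ζ ∧ w ζ ≤ c1 * ε * r ^ 4) →
    (∀ ζ ∈ Λ, ∑ c, ‖ξ ζ c‖ ^ 2 = 1) →
    (∀ ζ ∈ Λ, ∀ l < 2 * w', ∀ u : P, iteratedDeriv l (fun t : ℂ =>
      ∑ c, (∑ i ∈ Finset.range j, v i (col ζ) c (ζ + t • u)) * conj (ξ ζ c)) 0 = 0) →
    ∀ x ∈ S, ∀ α β α' β' : ℂ, ‖α - 1‖ ≤ 1 / (lam ^ (j + 1) : ℕ) → ‖β‖ ^ 2 ≤ 1 / (lam ^ (j + 1) : ℕ) →
      ‖α' - 1‖ ≤ 1 / (lam ^ (j + 1) : ℕ) → ‖β'‖ ^ 2 ≤ 1 / (lam ^ (j + 1) : ℕ) →
      ‖∑ g, ∑ c, (∑ i ∈ Finset.range j, v i g c (α • x + β • perp x)) *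
          conj (wave (2 * w' + 3) (lam ^ (j + 1)) Λ w ξ col g c (α' • x + β' • perp x))‖
        ≤ CX * √(c1 * ε) * Cv * (1 / (lam : ℝ) ^ p) ^ j * (1 / r ^ 2) * (1 / (lam : ℝ) ^ (w' - p)))
    (j : ℕ) (v : ℕ → Fin K → Fin d → P → ℂ) (hst : St p lam K d m τ B Cv cc c0 j v) :
    ∃ v' : ℕ → Fin K → Fin d → P → ℂ, (∀ i < j, v' i = v i) ∧ St p lam K d m τ B Cv cc c0 (j + 1) v' := by
  classical
  -- abbreviations
  set κ : ℝ := 1 / (lam : ℝ) ^ (2 * p) with hκ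
  set k : ℕ := lam ^ (j + 1) with hk
  have hlam0 : (0 : ℝ) < lam := by have : 0 < lam := by omega
                                   exact_mod_cast this
  have hlam8 : (8 : ℝ) ≤ lam := by exact_mod_cast hlam
  have hk1 : 1 ≤ k := Nat.one_le_pow _ _ (by omega)
  have hκ0 : 0 < κ := by positivity
  have hlamp : (8 : ℝ) ≤ (lam : ℝ) ^ (2 * p) := by
    calc (8 : ℝ) ≤ lam := hlam8
      _ = (lam : ℝ) ^ 1 := (pow_one _).symm
      _ ≤ (lam : ℝ) ^ (2 * p) := pow_le_pow_right₀ (by linarith) (by omega)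
  have hκ8 : κ ≤ 1 / 8 := by
    rw [hκ]; exact one_div_le_one_div_of_le (by norm_num) hlamp
  set ε : ℝ := κ ^ j with hε
  have hε0 : 0 < ε := by positivity
  set n : P → ℝ := nn cc κ v j with hn
  have hncont : Continuous n := nn_cont cc κ hst.diff j
  have hτ1 : τ ≤ 1 := by
    have h1 : (1 : ℝ) ≤ 2 ^ m := one_le_pow₀ (by norm_num)
    nlinarith
  set Q : ℝ := CD + CW * CD + 1 with hQ
  have hQ1 : 1 ≤ Q := by have := mul_pos hCW hCD; linarith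
  have hr0 : 0 < r := by rw [hr]; positivity
  have hr1 : r ≤ 1 := by
    rw [hr, div_le_one (by positivity)]
    nlinarith
  have hrQ : 16 * Q * r = τ * κ := by rw [hr]; field_simp
  -- Neumann series
  set W : P → ℝ := fun x => (1 - κ) * ε + ∑ i ∈ Finset.range m, (Dop q k)^[i] n x with hW
  have hWcont : Continuous W :=
    continuous_const.add (continuous_finsetSum _ fun i _ => Dop_iter_cont q k hncont i)
  have hsum : ∀ z ∈ S, |∑ i ∈ Finset.range m, (Dop q k)^[i] n z| ≤ ε / 8 := by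
    intro z hz
    calc |∑ i ∈ Finset.range m, (Dop q k)^[i] n z| ≤ ∑ i ∈ Finset.range m, |(Dop q k)^[i] n z| :=
          Finset.abs_sum_le_sum_abs _ _
      _ ≤ ∑ i ∈ Finset.range m, 2 ^ i * (τ * ε) :=
          Finset.sum_le_sum fun i _ => Dop_iter_bound q k hk1 hncont hst.small i z hz
      _ = (2 ^ m - 1) * (τ * ε) := by
          rw [← Finset.sum_mul]
          congr 1
          have := Finset.sum_range_id_mul_two
          have h2 := geom_sum_eq (show (2 : ℝ) ≠ 1 by norm_num) m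
          rw [h2]; norm_num
      _ ≤ ε / 8 := by
          have h1 : 2 ^ m * τ * ε ≤ 1 / 8 * ε := mul_le_mul_of_nonneg_right hτm hε0.le
          have h2 : 0 < τ * ε := by positivity
          nlinarith
  have hWb : ∀ z ∈ S, 0 ≤ W z ∧ W z ≤ 2 * ε := by
    intro z hz
    have h1 := abs_le.1 (hsum z hz)
    have h2 : κ * ε ≤ 1 / 8 * ε := mul_le_mul_of_nonneg_right hκ8 hε0.le
    have h3 : 0 < κ * ε := by positivity
    constructor <;> simp only [hW] <;> nlinarith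
  obtain ⟨Λ, col, w, hΛS, hΛr, hΛR, hw01, hΛT⟩ := Hdisc k hk1 W hWcont ε hε0 hWb
  -- orthogonal vectors
  have horth : ∀ ζ : P, ∃ ξ : Fin d → ℂ, ∑ c, ‖ξ c‖ ^ 2 = 1 ∧ ∀ l < 2 * w', ∀ u : P,
      iteratedDeriv l (fun t : ℂ => ∑ c, hs v j (col ζ) c (ζ + t • u) * conj (ξ c)) 0 = 0 :=
    fun ζ => exists_orth (2 * w') d hd (hs v j (col ζ)) (fun c => hs_cont hst.diff j _ c) ζ
  choose ξ hξ1 hξ2 using horth
  obtain ⟨hwv1, hwv2⟩ := Hwave K d k hk1 r hr0 hr1 Λ col w ξ CD ε hCD.le hε0.le hΛS hΛr hΛR hw01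
    (fun ζ _ => hξ1 ζ)
  set vn : Fin K → Fin d → P → ℂ := wave q k Λ w ξ col with hvn
  have hvnd : ∀ g c, Differentiable ℂ (vn g c) := fun g c => wave_diff q k K d Λ w ξ col g c
  have hCv0 : 0 ≤ Cv := by rw [hCv]; positivity
  have hCv2 : Cv ^ 2 = CW * CD := by rw [hCv, Real.sq_sqrt (by positivity)]
  have hεp : ((1 / (lam : ℝ) ^ p) ^ j) ^ 2 = ε := by
    rw [hε, hκ, ← pow_mul, ← one_div_pow, ← one_div_pow, ← pow_mul, ← pow_mul]
    congr 1; ring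
  -- cross term
  have hcross : ∀ x ∈ S, ∀ α β α' β' : ℂ, ‖α - 1‖ ≤ 1 / k → ‖β‖ ^ 2 ≤ 1 / k →
      ‖α' - 1‖ ≤ 1 / k → ‖β'‖ ^ 2 ≤ 1 / k →
      ‖∑ e : Fin K × Fin d, hs v j e.1 e.2 (α • x + β • perp x) *
        conj (vn e.1 e.2 (α' • x + β' • perp x))‖ ≤ τ * (κ * ε) / 16 := by
    intro x hx α β α' β' h1 h2 h3 h4
    have h := Hcross K d j lam (by omega) r hr0 hr1 Λ col w ξ CD ε Cv hCD.le hε0.le hCv0 v hst.diff
      hst.bd hΛS hΛr hw01 (fun ζ _ => hξ1 ζ) (fun ζ _ l hl u => hξ2 ζ l hl u) x hx α β α' β' h1 h2 h3 h4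
    rw [Fintype.sum_prod_type]
    rw [← hq, ← hk] at h
    refine h.trans ?_
    have e1 : √(CD * ε) * (1 / (lam : ℝ) ^ p) ^ j = √CD * ε := by
      rw [Real.sqrt_mul hCD.le, ← hεp, Real.sqrt_sq (by positivity)]; ring
    have e2 : w' - p = 6 * p + 1 := by omega
    have e3 : (1 / r ^ 2) * (1 / (lam : ℝ) ^ (w' - p)) = (16 * Q / τ) ^ 2 * (κ * (1 / lam)) := by
      rw [e2, hr, hκ]
      field_simp
      ring
    calc CX * √(CD * ε) * Cv * (1 / (lam : ℝ) ^ p) ^ j * (1 / r ^ 2) * (1 / (lam : ℝ) ^ (w' - p))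
        = CX * Cv * (√(CD * ε) * (1 / (lam : ℝ) ^ p) ^ j) * ((1 / r ^ 2) * (1 / (lam : ℝ) ^ (w' - p))) := by ring
      _ = (16 * CX * √CD * Cv * (16 * Q / τ) ^ 2) * (1 / lam) * (κ * ε) / 16 := by rw [e1, e3]; ring
      _ ≤ (τ * lam) * (1 / lam) * (κ * ε) / 16 := by gcongr
      _ = τ * (κ * ε) / 16 := by field_simp
  have hVself : ∀ z, (∑ e : Fin K × Fin d, vn e.1 e.2 z * conj (vn e.1 e.2 z)).re =
      ∑ g, ∑ c, ‖vn g c z‖ ^ 2 := by
    intro z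
    rw [sum_self_re (fun e : Fin K × Fin d => vn e.1 e.2 z), Fintype.sum_prod_type]
  have hnn : nn cc κ (Function.update v j vn) (j + 1) = fun z => n z + (κ ^ j - κ ^ (j + 1)) +
      (-1) * (∑ e : Fin K × Fin d, vn e.1 e.2 z * conj (vn e.1 e.2 z)).re +
      (-2) * (∑ e : Fin K × Fin d, hs v j e.1 e.2 z * conj (vn e.1 e.2 z)).re := by
    funext z; exact nn_succ cc κ v j vn z
  have hkdiv : ((lam ^ j : ℕ) : ℝ) / (k : ℝ) = 1 / lam := by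
    rw [hk]; push_cast; rw [pow_succ]; field_simp
  have hm0 : m ≠ 0 := by omega
  have hB0 : 0 < B := by rw [hB]; positivity
  refine ⟨Function.update v j vn, fun i hi => Function.update_of_ne hi.ne _ _, ?_, ?_, ?_, ?_⟩
  · -- differentiability
    intro i g c
    by_cases hi : i = j
    · subst hi; rw [Function.update_self]; exact hvnd g c
    · rw [Function.update_of_ne hi]; exact hst.diff i g c
  · -- bounds
    intro i hi z hz
    by_cases hij : i = j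
    · subst hij
      rw [Function.update_self]
      have h := hwv2 z (by rw [hk]; push_cast; exact hz)
      refine h.trans (le_of_eq ?_)
      rw [mul_pow, hCv2, hεp]
    · rw [Function.update_of_ne hij]
      exact hst.bd i (by omega) z hz
  · -- smallness
    intro z hz
    have hid : nn cc κ (Function.update v j vn) (j + 1) z =
        (Dop q k)^[m] n z - (∑ ζ ∈ Λ, w ζ * ‖F k (ip z ζ)‖ ^ (2 * q) - T q k W z)
        - (∑ g, ∑ c, ‖vn g c z‖ ^ 2 - ∑ ζ ∈ Λ, w ζ * ‖F k (ip z ζ)‖ ^ (2 * q))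
        - 2 * (∑ e : Fin K × Fin d, hs v j e.1 e.2 z * conj (vn e.1 e.2 z)).re := by
      have h1 := T_W q k hk1 hncont ((1 - κ) * ε) m z
      have h2 : T q k W z = (1 - κ) * ε + n z - (Dop q k)^[m] n z := h1
      rw [hnn, h2, ← hVself z, pow_succ κ j, ← hε]
      ring
    have b1 : |(Dop q k)^[m] n z| ≤ τ * (κ * ε) / 8 + τ * (κ * ε) / 8 := by
      have h := Hneu (lam ^ j) k (Nat.one_le_pow _ _ (by omega)) (by rw [hk]; exact Nat.pow_le_pow_right (by omega) (by omega))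
        n hncont (τ * ε) (B * ε) (by positivity) (by positivity) hst.small hst.dbd z hz
      rw [hkdiv] at h
      refine h.trans (add_le_add ?_ ?_)
      · have e1 : (CN * √(1 / (lam : ℝ))) ^ m = CN ^ m * (1 / (lam : ℝ)) ^ (4 * p + 1) := by
          rw [mul_pow]; congr 1
          rw [hm, pow_mul, Real.sq_sqrt (by positivity)]
        rw [e1, hB, hκ]
        have e2 : 2 * (CC * (Cv ^ 2 + 2)) * (lam : ℝ) ^ (2 * p) * ε * (CN ^ m * (1 / (lam : ℝ)) ^ (4 * p + 1)) =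
            (16 * (CC * (Cv ^ 2 + 2)) * CN ^ m) * (1 / (lam : ℝ)) * (1 / (lam : ℝ) ^ (2 * p) * ε) / 8 := by
          have : (1 / (lam : ℝ)) ^ (4 * p + 1) = 1 / (lam : ℝ) * (1 / (lam : ℝ) ^ (2 * p)) * (1 / (lam : ℝ) ^ (2 * p)) := by
            rw [one_div_pow, show 4 * p + 1 = 1 + 2 * p + 2 * p by ring, pow_add, pow_add, pow_one]
            field_simp
          rw [this]
          field_simp
          ring
        rw [e2]
        have e3 : (16 * (CC * (Cv ^ 2 + 2)) * CN ^ m) * (1 / (lam : ℝ)) ≤ τ := by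
          calc (16 * (CC * (Cv ^ 2 + 2)) * CN ^ m) * (1 / (lam : ℝ)) ≤ (τ * lam) * (1 / (lam : ℝ)) :=
                mul_le_mul_of_nonneg_right hL1 (by positivity)
            _ = τ := by field_simp
        have e4 := mul_le_mul_of_nonneg_right e3 (show 0 ≤ (1 / (lam : ℝ) ^ (2 * p) * ε) by positivity)
        linarith
      · have e1 : (1 / (lam : ℝ)) ^ (2 * q - 3) ≤ (1 / (lam : ℝ)) * κ := by
          have h1 : 1 / (lam : ℝ) ≤ 1 := by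
            rw [div_le_one hlam0]; linarith
          calc (1 / (lam : ℝ)) ^ (2 * q - 3) ≤ (1 / (lam : ℝ)) ^ (2 * p + 1) :=
                pow_le_pow_of_le_one (by positivity) h1 (by omega)
            _ = (1 / (lam : ℝ)) * κ := by rw [hκ, pow_succ, one_div_pow]; ring
        have e2 : CN * (1 / (lam : ℝ)) ≤ 1 / 8 := by
          calc CN * (1 / (lam : ℝ)) = (8 * CN) * (1 / (lam : ℝ)) / 8 := by ring
            _ ≤ lam * (1 / (lam : ℝ)) / 8 := by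
                have := mul_le_mul_of_nonneg_right hL2 (show (0 : ℝ) ≤ 1 / (lam : ℝ) by positivity)
                linarith
            _ = 1 / 8 := by field_simp
        calc CN * (τ * ε) * (1 / (lam : ℝ)) ^ (2 * q - 3) ≤ CN * (τ * ε) * ((1 / (lam : ℝ)) * κ) :=
              mul_le_mul_of_nonneg_left e1 (by positivity)
          _ = (CN * (1 / (lam : ℝ))) * (τ * (κ * ε)) := by ring
          _ ≤ (1 / 8) * (τ * (κ * ε)) := mul_le_mul_of_nonneg_right e2 (by positivity)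
          _ = τ * (κ * ε) / 8 := by ring
    have b2 : |∑ ζ ∈ Λ, w ζ * ‖F k (ip z ζ)‖ ^ (2 * q) - T q k W z| ≤ τ * (κ * ε) / 16 := by
      refine (hΛT z hz).trans ?_
      have h1 : CD ≤ Q := by rw [hQ]; nlinarith [mul_pos hCW hCD]
      have h2 : CD * (r * ε) ≤ Q * (r * ε) := mul_le_mul_of_nonneg_right h1 (by positivity)
      have h3 : 16 * (Q * (r * ε)) = τ * (κ * ε) := by
        calc 16 * (Q * (r * ε)) = (16 * Q * r) * ε := by ring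
          _ = τ * (κ * ε) := by rw [hrQ]; ring
      linarith
    have b3 : |∑ g, ∑ c, ‖vn g c z‖ ^ 2 - ∑ ζ ∈ Λ, w ζ * ‖F k (ip z ζ)‖ ^ (2 * q)| ≤ τ * (κ * ε) / 16 := by
      refine (hwv1 z hz).trans ?_
      have h1 : CW * CD ≤ Q := by rw [hQ]; linarith
      have h2 : (CW * CD) * (r * ε) ≤ Q * (r * ε) := mul_le_mul_of_nonneg_right h1 (by positivity)
      have h3 : 16 * (Q * (r * ε)) = τ * (κ * ε) := by
        calc 16 * (Q * (r * ε)) = (16 * Q * r) * ε := by ring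
          _ = τ * (κ * ε) := by rw [hrQ]; ring
      have h4 : CW * CD * ε * r ^ 2 ≤ (CW * CD) * (r * ε) := by
        have h5 : r ^ 2 ≤ r := by nlinarith
        have h6 : 0 < CW * CD * ε := by positivity
        calc CW * CD * ε * r ^ 2 ≤ CW * CD * ε * r := mul_le_mul_of_nonneg_left h5 h6.le
          _ = (CW * CD) * (r * ε) := by ring
      linarith
    have b4 : |(∑ e : Fin K × Fin d, hs v j e.1 e.2 z * conj (vn e.1 e.2 z)).re| ≤ τ * (κ * ε) / 16 := by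
      have h := hcross z hz 1 0 1 0 (by simp) (by simp) (by simp) (by simp)
      simp only [one_smul, zero_smul, add_zero] at h
      exact (Complex.abs_re_le_norm _).trans h
    rw [hid, pow_succ κ j, ← hε, mul_comm ε κ]
    have hpos : 0 < τ * (κ * ε) := by positivity
    rw [abs_le] at b1 b2 b3 b4 ⊢
    constructor <;> nlinarith [b1.1, b1.2, b2.1, b2.2, b3.1, b3.2, b4.1, b4.2]
  · -- differences
    intro ys hys hyc z hz
    have hysne : ys ≠ [] := by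
      intro h; rw [h] at hys; simp at hys; omega
    set Pr : ℝ := (ys.map (fun y => √((lam ^ (j + 1) : ℕ) * ‖1 - y.1‖))).prod with hPr
    have hPr0 : 0 ≤ Pr := by
      rw [hPr]
      apply List.prod_nonneg
      intro a ha
      simp only [List.mem_map] at ha
      obtain ⟨y, _, rfl⟩ := ha
      positivity
    have hdec : diffs ys (nn cc κ (Function.update v j vn) (j + 1)) z =
        diffs ys n z + (-1) * diffs ys (fun z => (∑ e : Fin K × Fin d, vn e.1 e.2 z * conj (vn e.1 e.2 z)).re) z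
        + (-2) * diffs ys (fun z => (∑ e : Fin K × Fin d, hs v j e.1 e.2 z * conj (vn e.1 e.2 z)).re) z := by
      rw [hnn]
      rw [diffs_add ys (fun z => n z + (κ ^ j - κ ^ (j + 1)) +
        (-1) * (∑ e : Fin K × Fin d, vn e.1 e.2 z * conj (vn e.1 e.2 z)).re)
        (fun z => (-2) * (∑ e : Fin K × Fin d, hs v j e.1 e.2 z * conj (vn e.1 e.2 z)).re)]
      rw [diffs_add ys (fun z => n z + (κ ^ j - κ ^ (j + 1)))
        (fun z => (-1) * (∑ e : Fin K × Fin d, vn e.1 e.2 z * conj (vn e.1 e.2 z)).re)]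
      rw [diffs_add ys n (fun _ => κ ^ j - κ ^ (j + 1)), diffs_mul, diffs_mul, diffs_const ys hysne]
      ring
    have d1 : |diffs ys n z| ≤ (CC * (Cv ^ 2 + 2) / 4) * ε * Pr := by
      have h := hst.dbd ys hys (fun y hy => ⟨(hyc y hy).1, by
        refine le_trans ?_ (hyc y hy).2
        apply mul_le_mul_of_nonneg_right _ (norm_nonneg _)
        exact_mod_cast Nat.pow_le_pow_right (by omega) (by omega)⟩) z hz
      rw [prod_scale (4 * p + 1) lam j (by omega) ys (by omega), ← hPr] at h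
      refine h.trans ?_
      have e1 : B * (1 / (lam : ℝ)) ^ (4 * p + 1) ≤ CC * (Cv ^ 2 + 2) / 4 := by
        have h1 : 1 / (lam : ℝ) ≤ 1 / 8 := one_div_le_one_div_of_le (by norm_num) hlam8
        have e2 : B * (1 / (lam : ℝ)) ^ (4 * p + 1) =
            2 * (CC * (Cv ^ 2 + 2)) * ((1 / (lam : ℝ)) * (1 / (lam : ℝ)) ^ (2 * p)) := by
          have e3 : (1 / (lam : ℝ)) ^ (4 * p + 1) = (1 / (lam : ℝ)) * (1 / (lam : ℝ)) ^ (2 * p) * (1 / (lam : ℝ)) ^ (2 * p) := by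
            rw [show 4 * p + 1 = 1 + 2 * p + 2 * p by ring, pow_add, pow_add, pow_one]
          have e4 : (lam : ℝ) ^ (2 * p) * (1 / (lam : ℝ)) ^ (2 * p) = 1 := by
            rw [← mul_pow, mul_one_div_cancel hlam0.ne', one_pow]
          rw [hB, e3]
          calc 2 * (CC * (Cv ^ 2 + 2)) * (lam : ℝ) ^ (2 * p) *
                (1 / (lam : ℝ) * (1 / (lam : ℝ)) ^ (2 * p) * (1 / (lam : ℝ)) ^ (2 * p))
              = 2 * (CC * (Cv ^ 2 + 2)) * ((1 / (lam : ℝ)) * (1 / (lam : ℝ)) ^ (2 * p)) *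
                ((lam : ℝ) ^ (2 * p) * (1 / (lam : ℝ)) ^ (2 * p)) := by ring
            _ = _ := by rw [e4, mul_one]
        rw [e2]
        have h2 : (1 / (lam : ℝ)) ^ (2 * p) ≤ 1 := pow_le_one₀ (by positivity) (by linarith)
        have h3 : (1 / (lam : ℝ)) * (1 / (lam : ℝ)) ^ (2 * p) ≤ 1 / 8 := by
          calc (1 / (lam : ℝ)) * (1 / (lam : ℝ)) ^ (2 * p) ≤ (1 / 8) * 1 :=
                mul_le_mul h1 h2 (by positivity) (by norm_num)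
            _ = 1 / 8 := by norm_num
        have h4 : 0 < CC * (Cv ^ 2 + 2) := by positivity
        nlinarith
      calc B * ε * ((1 / (lam : ℝ)) ^ (4 * p + 1) * Pr) = (B * (1 / (lam : ℝ)) ^ (4 * p + 1)) * (ε * Pr) := by ring
        _ ≤ (CC * (Cv ^ 2 + 2) / 4) * (ε * Pr) := mul_le_mul_of_nonneg_right e1 (by positivity)
        _ = (CC * (Cv ^ 2 + 2) / 4) * ε * Pr := by ring
    have d2 : |diffs ys (fun z => (∑ e : Fin K × Fin d, vn e.1 e.2 z * conj (vn e.1 e.2 z)).re) z| ≤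
        CC * (Cv ^ 2 * ε) * Pr := by
      refine Hcauchy k hk1 (Fin K × Fin d) (fun e => vn e.1 e.2) (fun e => vn e.1 e.2)
        (fun e => hvnd e.1 e.2) (fun e => hvnd e.1 e.2) (Cv ^ 2 * ε) (by positivity) ?_ ys hys hyc z hz
      intro x hx α β α' β' h1 h2 h3 h4
      apply sum_mul_conj_le
      · rw [Fintype.sum_prod_type, hCv2]
        exact hwv2 _ (near_geo hk1 hx hx h1 h2).1
      · rw [Fintype.sum_prod_type, hCv2]
        exact hwv2 _ (near_geo hk1 hx hx h3 h4).1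
    have d3 : |diffs ys (fun z => (∑ e : Fin K × Fin d, hs v j e.1 e.2 z * conj (vn e.1 e.2 z)).re) z| ≤
        CC * (ε / 2) * Pr := by
      refine Hcauchy k hk1 (Fin K × Fin d) (fun e => hs v j e.1 e.2) (fun e => vn e.1 e.2)
        (fun e => hs_cont hst.diff j e.1 e.2) (fun e => hvnd e.1 e.2) (ε / 2) (by positivity) ?_ ys hys hyc z hz
      intro x hx α β α' β' h1 h2 h3 h4
      refine (hcross x hx α β α' β' h1 h2 h3 h4).trans ?_
      have h5 : τ * (κ * ε) ≤ 1 * (1 * ε) := by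
        apply mul_le_mul hτ1 _ (by positivity) (by norm_num)
        exact mul_le_mul_of_nonneg_right (by linarith) hε0.le
      linarith
    rw [hdec]
    have hfin : B * κ ^ (j + 1) * Pr = 2 * (CC * (Cv ^ 2 + 2)) * ε * Pr := by
      have e4 : (lam : ℝ) ^ (2 * p) * κ = 1 := by
        rw [hκ, mul_one_div_cancel (by positivity)]
      rw [hB, pow_succ κ j, ← hε]
      calc 2 * (CC * (Cv ^ 2 + 2)) * (lam : ℝ) ^ (2 * p) * (ε * κ) * Pr
          = 2 * (CC * (Cv ^ 2 + 2)) * ε * Pr * ((lam : ℝ) ^ (2 * p) * κ) := by ring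
        _ = _ := by rw [e4, mul_one]
    rw [hfin]
    have hcp : 0 ≤ CC * ε * Pr := by positivity
    have hcv : 0 ≤ CC * Cv ^ 2 * ε * Pr := by positivity
    rw [abs_le] at d1 d2 d3 ⊢
    constructor <;> nlinarith [d1.1, d1.2, d2.1, d2.2, d3.1, d3.2]

theorem re_le_sqrt_nsq (z : P) : z.1.re ≤ √(nsq z) := by
  apply Real.le_sqrt_of_sq_le
  have h1 : z.1.re ^ 2 ≤ ‖z.1‖ ^ 2 := by
    rw [← Complex.normSq_eq_norm_sq, Complex.normSq_apply]; nlinarith [sq_nonneg z.1.im]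
  unfold nsq
  nlinarith [sq_nonneg ‖z.2‖]

/-- the construction -/
theorem construct (t : ℕ) : ∃ (lam K d : ℕ) (cc Cv τ : ℝ), 2 ≤ lam ∧ 2 ≤ K * d ∧ 0 < cc ∧ 0 ≤ Cv ∧
    ∃ v : ℕ → Fin K → Fin d → P → ℂ, (∀ i g c, Differentiable ℂ (v i g c)) ∧
    (∀ i, ∀ z : P, nsq z ≤ 1 + 4 / (lam : ℝ) ^ (i + 1) →
      ∑ g, ∑ c, ‖v i g c z‖ ^ 2 ≤ (Cv * (1 / (lam : ℝ) ^ (t + 1)) ^ i) ^ 2) ∧
    (∀ j, ∀ z ∈ S, |nn cc (1 / (lam : ℝ) ^ (2 * (t + 1))) v j z| ≤ τ * (1 / (lam : ℝ) ^ (2 * (t + 1))) ^ j) := by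
  classical
  obtain ⟨p, hp⟩ : ∃ p, p = t + 1 := ⟨_, rfl⟩
  obtain ⟨m, hm⟩ : ∃ m, m = 2 * (4 * p + 1) := ⟨_, rfl⟩
  obtain ⟨w', hw'⟩ : ∃ w', w' = 7 * p + 1 := ⟨_, rfl⟩
  obtain ⟨q, hq⟩ : ∃ q, q = 2 * w' + 3 := ⟨_, rfl⟩
  obtain ⟨d, hd⟩ : ∃ d, d = 2 ^ (2 * w') := ⟨_, rfl⟩
  obtain ⟨c0, CC, hc0, hCC, Hcauchy⟩ := cauchy_diffs m
  obtain ⟨CN, hCN, Hneu⟩ := neumann m q (by omega) c0 hc0
  obtain ⟨CD, hCD, Hdisc0⟩ := discretize q (by omega)
  obtain ⟨CW, hCW, Hwave⟩ := wave_sq q (by omega)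
  obtain ⟨CX, hCX, Hcross⟩ := cross_bound p w' (by omega)
  obtain ⟨τ, hτ⟩ : ∃ τ : ℝ, τ = 1 / 2 ^ (m + 3) := ⟨_, rfl⟩
  have hτ0 : 0 < τ := by rw [hτ]; positivity
  have hτm : 2 ^ m * τ ≤ 1 / 8 := by
    rw [hτ, pow_add]
    apply le_of_eq
    field_simp
    norm_num
  have hτ1 : τ ≤ 1 := by
    have h1 : (1 : ℝ) ≤ 2 ^ m := one_le_pow₀ (by norm_num)
    nlinarith
  obtain ⟨Cv, hCv⟩ : ∃ Cv : ℝ, Cv = √(CW * CD) := ⟨_, rfl⟩
  have hCv0 : 0 ≤ Cv := by rw [hCv]; positivity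
  obtain ⟨X1, hX1⟩ : ∃ X1 : ℝ, X1 = 16 * (CC * (Cv ^ 2 + 2)) * CN ^ m := ⟨_, rfl⟩
  obtain ⟨X3, hX3⟩ : ∃ X3 : ℝ, X3 = 16 * CX * √CD * Cv * (16 * (CD + CW * CD + 1) / τ) ^ 2 := ⟨_, rfl⟩
  have hX10 : 0 ≤ X1 := by rw [hX1]; positivity
  have hX30 : 0 ≤ X3 := by rw [hX3]; positivity
  obtain ⟨lam, hlam⟩ := exists_nat_gt (8 + X1 / τ + 8 * CN + X3 / τ)
  have hlam8 : 8 ≤ lam := by
    have h1 : 0 ≤ X1 / τ := by positivity
    have h2 : 0 ≤ X3 / τ := by positivity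
    have : (8 : ℝ) ≤ lam := by linarith
    exact_mod_cast this
  have hL1 : 16 * (CC * (Cv ^ 2 + 2)) * CN ^ m ≤ τ * lam := by
    rw [← hX1]
    have h2 : 0 ≤ X3 / τ := by positivity
    have h3 : X1 / τ ≤ lam := by linarith
    rw [div_le_iff₀ hτ0] at h3
    linarith
  have hL2 : 8 * CN ≤ lam := by
    have h1 : 0 ≤ X1 / τ := by positivity
    have h2 : 0 ≤ X3 / τ := by positivity
    linarith
  have hL5 : 16 * CX * √CD * Cv * (16 * (CD + CW * CD + 1) / τ) ^ 2 ≤ τ * lam := by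
    rw [← hX3]
    have h2 : 0 ≤ X1 / τ := by positivity
    have h3 : X3 / τ ≤ lam := by linarith
    rw [div_le_iff₀ hτ0] at h3
    linarith
  have hlam0 : (0 : ℝ) < lam := by
    have : 0 < lam := by omega
    exact_mod_cast this
  have hlamR : (8 : ℝ) ≤ lam := by exact_mod_cast hlam8
  obtain ⟨r, hr⟩ : ∃ r : ℝ, r = τ * (1 / (lam : ℝ) ^ (2 * p)) / (16 * (CD + CW * CD + 1)) := ⟨_, rfl⟩
  have hr0 : 0 < r := by rw [hr]; positivity
  have hκ1 : 1 / (lam : ℝ) ^ (2 * p) ≤ 1 := by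
    rw [div_le_one (by positivity)]
    exact one_le_pow₀ (by linarith)
  have hr1 : r ≤ 1 := by
    rw [hr, div_le_one (by positivity)]
    have h1 : τ * (1 / (lam : ℝ) ^ (2 * p)) ≤ 1 * 1 := mul_le_mul hτ1 hκ1 (by positivity) (by norm_num)
    have h2 := mul_pos hCW hCD
    linarith
  obtain ⟨K, hK, Hdisc⟩ := Hdisc0 r hr0 hr1
  obtain ⟨B, hB⟩ : ∃ B : ℝ, B = 2 * (CC * (Cv ^ 2 + 2)) * (lam : ℝ) ^ (2 * p) := ⟨_, rfl⟩
  obtain ⟨cc, hcc⟩ : ∃ cc : ℝ, cc = √τ * Real.exp (-3) := ⟨_, rfl⟩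
  have hcc0 : 0 < cc := by rw [hcc]; positivity
  have hstep := fun (j : ℕ) (v : ℕ → Fin K → Fin d → P → ℂ) (hst : St p lam K d m τ B Cv cc c0 j v) =>
    step p m w' q lam K d hm hw' hq hlam8 (by omega) hd.ge c0 CC CN CD CW CX τ r Cv B cc hc0 hCC hCN hCD
      hCW hCX hτ0 hτm hr hCv hB hL1 hL2 hL5 Hcauchy Hneu Hdisc Hwave Hcross j v hst
  -- bound for the first component
  have hexp : ∀ z : P, nsq z ≤ 9 → ‖(cc : ℂ) * Complex.exp z.1‖ ≤ √τ := by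
    intro z hz
    have h1 : z.1.re ≤ 3 := by
      refine (re_le_sqrt_nsq z).trans ?_
      rw [Real.sqrt_le_left (by norm_num)]
      linarith
    rw [norm_mul, Complex.norm_real, Real.norm_of_nonneg hcc0.le, Complex.norm_exp, hcc, mul_assoc, ← Real.exp_add]
    calc √τ * Real.exp (-3 + z.1.re) ≤ √τ * 1 := by
          apply mul_le_mul_of_nonneg_left _ (Real.sqrt_nonneg _)
          rw [Real.exp_le_one_iff]; linarith
      _ = √τ := mul_one _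
  have hinit : St p lam K d m τ B Cv cc c0 0 (fun _ _ _ _ => 0) := by
    have hn0 : ∀ z, nn cc (1 / (lam : ℝ) ^ (2 * p)) (fun _ _ _ _ => 0 : ℕ → Fin K → Fin d → P → ℂ) 0 z =
        - ‖(cc : ℂ) * Complex.exp z.1‖ ^ 2 := by
      intro z
      simp [nn, hs]
    refine ⟨fun i g c => differentiable_const _, fun i hi => absurd hi (Nat.not_lt_zero _), ?_, ?_⟩
    · intro z hz
      rw [hn0, abs_neg, abs_of_nonneg (by positivity), pow_zero, mul_one]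
      have h1 := hexp z (by have : nsq z = 1 := hz
                            rw [this]; norm_num)
      calc ‖(cc : ℂ) * Complex.exp z.1‖ ^ 2 ≤ √τ ^ 2 := pow_le_pow_left₀ (norm_nonneg _) h1 2
        _ = τ := Real.sq_sqrt hτ0.le
    · intro ys hys hyc z hz
      have hfun : nn cc (1 / (lam : ℝ) ^ (2 * p)) (fun _ _ _ _ => 0 : ℕ → Fin K → Fin d → P → ℂ) 0 =
          fun z => (-1) * (∑ _i : Unit, ((cc : ℂ) * Complex.exp z.1) * conj ((cc : ℂ) * Complex.exp z.1)).re := by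
        funext z
        rw [hn0, sum_self_re (fun _ : Unit => (cc : ℂ) * Complex.exp z.1)]
        simp
      have hE : Differentiable ℂ (fun z : P => (cc : ℂ) * Complex.exp z.1) := by fun_prop
      have h := Hcauchy (lam ^ 0) (by simp) Unit (fun _ z => (cc : ℂ) * Complex.exp z.1)
        (fun _ z => (cc : ℂ) * Complex.exp z.1) (fun _ => hE) (fun _ => hE) 1 zero_le_one ?_ ys hys hyc z hz
      · rw [hfun, diffs_mul, abs_mul, pow_zero, mul_one]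
        rw [mul_one] at h
        have hP0 : 0 ≤ (ys.map (fun y => √((lam ^ 0 : ℕ) * ‖1 - y.1‖))).prod := by
          apply List.prod_nonneg
          intro a ha
          simp only [List.mem_map] at ha
          obtain ⟨y, _, rfl⟩ := ha
          positivity
        have hBC : CC ≤ B := by
          rw [hB]
          have h1 : (1 : ℝ) ≤ (lam : ℝ) ^ (2 * p) := one_le_pow₀ (by linarith)
          have h2 : CC ≤ 2 * (CC * (Cv ^ 2 + 2)) := by nlinarith [mul_nonneg hCC.le (sq_nonneg Cv)]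
          nlinarith
        calc |(-1 : ℝ)| * |diffs ys (fun z => (∑ _i : Unit, ((cc : ℂ) * Complex.exp z.1) *
              conj ((cc : ℂ) * Complex.exp z.1)).re) z|
            = |diffs ys (fun z => (∑ _i : Unit, ((cc : ℂ) * Complex.exp z.1) *
              conj ((cc : ℂ) * Complex.exp z.1)).re) z| := by simp
          _ ≤ CC * (ys.map (fun y => √((lam ^ 0 : ℕ) * ‖1 - y.1‖))).prod := h
          _ ≤ B * (ys.map (fun y => √((lam ^ 0 : ℕ) * ‖1 - y.1‖))).prod := mul_le_mul_of_nonneg_right hBC hP0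
      · intro x hx α β α' β' h1 h2 h3 h4
        have hb1 := (near_geo (k := lam ^ 0) (by simp) hx hx h1 h2).1
        have hb2 := (near_geo (k := lam ^ 0) (by simp) hx hx h3 h4).1
        have hc1 := hexp (α • x + β • perp x) (by refine hb1.trans ?_; norm_num)
        have hc2 := hexp (α' • x + β' • perp x) (by refine hb2.trans ?_; norm_num)
        have hs1 : √τ ≤ 1 := by rw [Real.sqrt_le_left (by norm_num)]; linarith
        simp only [Finset.univ_unique, Finset.sum_const, Finset.card_singleton, one_smul]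
        rw [norm_mul, RCLike.norm_conj]
        calc ‖(cc : ℂ) * Complex.exp (α • x + β • perp x).1‖ * ‖(cc : ℂ) * Complex.exp (α' • x + β' • perp x).1‖
            ≤ 1 * 1 := mul_le_mul (hc1.trans hs1) (hc2.trans hs1) (norm_nonneg _) zero_le_one
          _ = 1 := mul_one 1
  -- dependent choice
  choose g hg1 hg2 using hstep
  let f : (j : ℕ) → {v : ℕ → Fin K → Fin d → P → ℂ // St p lam K d m τ B Cv cc c0 j v} := fun j =>
    Nat.rec ⟨_, hinit⟩ (fun j u => ⟨g j u.1 u.2, hg2 j u.1 u.2⟩) j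
  have hf : ∀ j, ∀ i < j, (f (j + 1)).1 i = (f j).1 i := fun j => hg1 j (f j).1 (f j).2
  have hfV : ∀ j, ∀ i < j, (f j).1 i = (f (i + 1)).1 i := by
    intro j
    induction j with
    | zero => intro i hi; exact absurd hi (Nat.not_lt_zero _)
    | succ j ih =>
      intro i hi
      rcases Nat.lt_succ_iff_lt_or_eq.1 hi with h | h
      · rw [hf j i h, ih i h]
      · rw [h]
  refine ⟨lam, K, d, cc, Cv, τ, by omega, ?_, hcc0, hCv0, fun i => (f (i + 1)).1 i, ?_, ?_, ?_⟩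
  · have h1 : 2 ≤ d := by
      rw [hd]
      calc 2 = 2 ^ 1 := rfl
        _ ≤ 2 ^ (2 * w') := Nat.pow_le_pow_right (by omega) (by omega)
    calc 2 ≤ d := h1
      _ ≤ K * d := Nat.le_mul_of_pos_left d hK
  · intro i g c
    exact (f (i + 1)).2.diff i g c
  · intro i z hz
    rw [← hp]
    exact (f (i + 1)).2.bd i (Nat.lt_succ_self i) z hz
  · intro j z hz
    have h := (f j).2.small z hz
    rw [← hp]
    have heq : nn cc (1 / (lam : ℝ) ^ (2 * p)) (fun i => (f (i + 1)).1 i) j z =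
        nn cc (1 / (lam : ℝ) ^ (2 * p)) (f j).1 j z := by
      unfold nn
      have : ∀ g c, hs (fun i => (f (i + 1)).1 i) j g c z = hs (f j).1 j g c z := by
        intro g c
        unfold hs
        apply Finset.sum_congr rfl
        intro i hi
        rw [hfV j i (Finset.mem_range.1 hi)]
      simp only [this]
    rw [heq]
    exact h

theorem main_data (t : ℕ) : ∃ (K d : ℕ) (cc : ℝ), 2 ≤ K * d ∧ 0 < cc ∧
    ∃ f : Fin K × Fin d → P → ℂ, (∀ e, ContDiffOn ℝ (t : WithTop ℕ∞) (f e) {z | nsq z ≤ 1}) ∧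
      (∀ e, DifferentiableOn ℂ (f e) {z | nsq z < 1}) ∧
      ∀ z, nsq z = 1 → ‖(cc : ℂ) * Complex.exp z.1‖ ^ 2 + ∑ e, ‖f e z‖ ^ 2 = 1 := by
  obtain ⟨lam, K, d, cc, Cv, τ, hlam, hKd, hcc, hCv, v, hvd, hvb, hvn⟩ := construct t
  have hlam0 : (0 : ℝ) < lam := by
    have : 0 < lam := by omega
    exact_mod_cast this
  have hlam2 : (2 : ℝ) ≤ lam := by exact_mod_cast hlam
  have hb : ∀ g c i, ∀ z : P, nsq z ≤ 1 + 4 / (lam : ℝ) ^ (i + 1) →
      ‖v i g c z‖ ≤ Cv * (1 / (lam : ℝ) ^ (t + 1)) ^ i := by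
    intro g c i z hz
    have h1 := hvb i z hz
    have h2 : ‖v i g c z‖ ^ 2 ≤ ∑ g, ∑ c, ‖v i g c z‖ ^ 2 := by
      have h3 : ‖v i g c z‖ ^ 2 ≤ ∑ c, ‖v i g c z‖ ^ 2 :=
        Finset.single_le_sum (f := fun c => ‖v i g c z‖ ^ 2) (fun _ _ => by positivity) (Finset.mem_univ c)
      have h4 : ∑ c, ‖v i g c z‖ ^ 2 ≤ ∑ g, ∑ c, ‖v i g c z‖ ^ 2 :=
        Finset.single_le_sum (f := fun g => ∑ c, ‖v i g c z‖ ^ 2)
          (fun _ _ => Finset.sum_nonneg fun _ _ => by positivity) (Finset.mem_univ g)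
      exact h3.trans h4
    exact le_of_sq_le_sq (h2.trans h1) (by positivity)
  have hser := fun g c => series_smooth t lam hlam Cv (fun i => v i g c) (fun i => hvd i g c) (hb g c)
  refine ⟨K, d, cc, hKd, hcc, fun e z => ∑' i, v i e.1 e.2 z, fun e => (hser e.1 e.2).1,
    fun e => (hser e.1 e.2).2, ?_⟩
  intro z hz
  have hq1 : (1 / (lam : ℝ) ^ (t + 1)) < 1 := by
    rw [div_lt_one (by positivity)]
    exact one_lt_pow₀ (by linarith) (by omega)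
  have hκ1 : (1 / (lam : ℝ) ^ (2 * (t + 1))) < 1 := by
    rw [div_lt_one (by positivity)]
    exact one_lt_pow₀ (by linarith) (by omega)
  have hsum : ∀ g c, Summable (fun i => v i g c z) := by
    intro g c
    apply Summable.of_norm_bounded (g := fun i => Cv * (1 / (lam : ℝ) ^ (t + 1)) ^ i)
    · exact (summable_geometric_of_lt_one (by positivity) hq1).mul_left _
    · intro i
      apply hb g c i z
      rw [hz]
      have : 0 < 4 / (lam : ℝ) ^ (i + 1) := by positivity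
      linarith
  have hlim : ∀ g c, Filter.Tendsto (fun j => hs v j g c z) Filter.atTop (nhds (∑' i, v i g c z)) :=
    fun g c => (hsum g c).hasSum.tendsto_sum_nat
  have hκj : Filter.Tendsto (fun j : ℕ => (1 / (lam : ℝ) ^ (2 * (t + 1))) ^ j) Filter.atTop (nhds 0) :=
    tendsto_pow_atTop_nhds_zero_of_lt_one (by positivity) hκ1
  have hnn0 : Filter.Tendsto (fun j => nn cc (1 / (lam : ℝ) ^ (2 * (t + 1))) v j z) Filter.atTop (nhds 0) := by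
    apply squeeze_zero_norm (a := fun j => τ * (1 / (lam : ℝ) ^ (2 * (t + 1))) ^ j)
    · intro j
      exact hvn j z hz
    · simpa using hκj.const_mul τ
  have hnn1 : Filter.Tendsto (fun j => nn cc (1 / (lam : ℝ) ^ (2 * (t + 1))) v j z) Filter.atTop
      (nhds (1 - ‖(cc : ℂ) * Complex.exp z.1‖ ^ 2 - ∑ g, ∑ c, ‖∑' i, v i g c z‖ ^ 2 - 0)) := by
    unfold nn
    apply Filter.Tendsto.sub _ hκj
    apply Filter.Tendsto.sub tendsto_const_nhds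
    apply tendsto_finsetSum
    intro g _
    apply tendsto_finsetSum
    intro c _
    exact (hlim g c).norm.pow 2
  have huniq := tendsto_nhds_unique hnn0 hnn1
  rw [Fintype.sum_prod_type]
  linarith

theorem not_rational_map (t : ℕ) : ∃ N : ℕ, 2 < N ∧ ∃ G : (Fin 2 → ℂ) → (Fin N → ℂ),
      Set.MapsTo G {z : Fin 2 → ℂ | ∑ i, ‖z i‖ ^ 2 < 1} {w : Fin N → ℂ | ∑ j, ‖w j‖ ^ 2 < 1} ∧
      DifferentiableOn ℂ G {z : Fin 2 → ℂ | ∑ i, ‖z i‖ ^ 2 < 1} ∧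
      (∀ K : Set (Fin N → ℂ), K ⊆ {w : Fin N → ℂ | ∑ j, ‖w j‖ ^ 2 < 1} → IsCompact K →
        IsCompact ({z : Fin 2 → ℂ | ∑ i, ‖z i‖ ^ 2 < 1} ∩ G ⁻¹' K)) ∧
      ContDiffOn ℝ (t : WithTop ℕ∞) G {z : Fin 2 → ℂ | ∑ i, ‖z i‖ ^ 2 ≤ 1} ∧
      ¬ ∃ p : Fin N → MvPolynomial (Fin 2) ℂ, ∃ q : MvPolynomial (Fin 2) ℂ, q ≠ 0 ∧
        ∀ z ∈ {z : Fin 2 → ℂ | ∑ i, ‖z i‖ ^ 2 < 1}, ∀ j : Fin N,
          G z j * MvPolynomial.eval z q = MvPolynomial.eval z (p j) := by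
  obtain ⟨K, d, cc, hKd, hcc, f, hf1, hf2, hf3⟩ := main_data t
  exact final_of_data t (Fin K × Fin d) (by simpa using hKd) cc hcc f hf1 hf2 hf3

theorem not_main :
    ¬ (∃ t : ℕ, ∀ n N : ℕ, 1 < n → n < N →
    ∀ f : (Fin n → ℂ) → (Fin N → ℂ),
      Set.MapsTo f {z : Fin n → ℂ | ∑ i, ‖z i‖ ^ 2 < 1} {w : Fin N → ℂ | ∑ j, ‖w j‖ ^ 2 < 1} →
      DifferentiableOn ℂ f {z : Fin n → ℂ | ∑ i, ‖z i‖ ^ 2 < 1} →
      (∀ K : Set (Fin N → ℂ), K ⊆ {w : Fin N → ℂ | ∑ j, ‖w j‖ ^ 2 < 1} → IsCompact K →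
        IsCompact ({z : Fin n → ℂ | ∑ i, ‖z i‖ ^ 2 < 1} ∩ f ⁻¹' K)) →
      ContDiffOn ℝ (t : WithTop ℕ∞) f {z : Fin n → ℂ | ∑ i, ‖z i‖ ^ 2 ≤ 1} →
      ∃ p : Fin N → MvPolynomial (Fin n) ℂ, ∃ q : MvPolynomial (Fin n) ℂ, q ≠ 0 ∧
        ∀ z ∈ {z : Fin n → ℂ | ∑ i, ‖z i‖ ^ 2 < 1}, ∀ j : Fin N,
          f z j * MvPolynomial.eval z q = MvPolynomial.eval z (p j)) := by
  rintro ⟨t, ht⟩
  obtain ⟨N, hN, G, h1, h2, h3, h4, h5⟩ := not_rational_map t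
  exact h5 (ht 2 N (by norm_num) hN G h1 h2 h3 h4)

end Pool.Agent.H892PB
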