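import Pool.Agent.Helper892.PB.Sig

set_option autoImplicit false

open MeasureTheory Set
open scoped ComplexConjugate

namespace Pool.Agent.H892PB

/-! ### II_lower -/

theorem II_lower_norm {k : ℕ} (hk : 1 ≤ k) {s : ℂ} (hs : ‖s‖ ≤ 1) : ‖F k s‖ ≤ 1 := by
  unfold F
  rw [norm_div, Complex.norm_natCast, div_le_one (by exact_mod_cast hk)]
  calc ‖∑ i ∈ Finset.range k, s ^ i‖ ≤ ∑ i ∈ Finset.range k, ‖s ^ i‖ := norm_sum_le _ _
    _ ≤ ∑ i ∈ Finset.range k, (1:ℝ) := Finset.sum_le_sum fun i _ => by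
        rw [norm_pow]; exact pow_le_one₀ (norm_nonneg _) hs
    _ = k := by simp

theorem II_lower_S {y : P} (hy : y ∈ S) : ‖y.1‖ ≤ 1 := by
  have h : ‖y.1‖ ^ 2 + ‖y.2‖ ^ 2 = 1 := hy
  have h1 := norm_nonneg y.1
  have h2 := sq_nonneg ‖y.2‖
  nlinarith

theorem II_lower_cont (q k : ℕ) : Continuous (dens q k) := by
  unfold dens F
  fun_prop

theorem II_lower_nsq : Continuous nsq := by
  unfold nsq
  fun_prop

theorem II_lower (q : ℕ) : ∃ c : ℝ, 0 < c ∧ ∀ k : ℕ, 1 ≤ k → c / (k : ℝ) ^ 2 ≤ II q k := by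
  obtain ⟨c, hc, h⟩ := sig_lower0
  haveI := sig_finite
  refine ⟨(1 / 2) ^ (2 * q) * (c / 4), by positivity, fun k hk => ?_⟩
  have hk0 : (0 : ℝ) < k := by exact_mod_cast hk
  have hk1 : (1 : ℝ) ≤ k := by exact_mod_cast hk
  set δ : ℝ := 1 / (2 * k) with hδ
  have hδ0 : 0 < δ := by positivity
  have hδ2 : δ ≤ 2 := by
    rw [hδ, div_le_iff₀ (by positivity)]
    nlinarith
  have h1 := h δ hδ0 hδ2
  set A : Set P := {y | ‖1 - y.1‖ ≤ δ} with hA
  have hSm : MeasurableSet S := (isClosed_eq II_lower_nsq continuous_const).measurableSet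
  have hAm : MeasurableSet A := by
    apply IsClosed.measurableSet
    exact isClosed_le (by fun_prop) continuous_const
  have hint : Integrable (dens q k) sig := by
    apply Integrable.of_bound (II_lower_cont q k).aestronglyMeasurable 1
    rw [ae_iff]
    refine le_antisymm ((measure_mono ?_).trans_eq sig_S) (by positivity)
    intro y hy
    rw [Set.mem_compl_iff]
    intro hyS
    apply hy
    unfold dens
    rw [Real.norm_of_nonneg (by positivity)]
    exact pow_le_one₀ (norm_nonneg _) (II_lower_norm hk (II_lower_S hyS))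
  have hAS : sig A ≤ sig (A ∩ S) := by
    calc sig A ≤ sig (A ∩ S ∪ Sᶜ) := measure_mono fun y hy => by
          by_cases hyS : y ∈ S
          · exact Or.inl ⟨hy, hyS⟩
          · exact Or.inr hyS
      _ ≤ sig (A ∩ S) + sig Sᶜ := measure_union_le _ _
      _ = sig (A ∩ S) := by rw [sig_S, add_zero]
  have hlow : ∀ y ∈ A ∩ S, ((1:ℝ) / 2) ^ (2 * q) ≤ dens q k y := by
    rintro y ⟨hyA, hyS⟩
    unfold dens
    apply pow_le_pow_left₀ (by norm_num)
    apply F_lower hk (II_lower_S hyS)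
    have h2 : ‖1 - y.1‖ ≤ δ := hyA
    calc (k : ℝ) * ‖1 - y.1‖ ≤ k * δ := mul_le_mul_of_nonneg_left h2 hk0.le
      _ = 1 / 2 := by rw [hδ]; field_simp
  have h3 : c * δ ^ 2 ≤ sig.real (A ∩ S) := by
    rw [Measure.real, ← ENNReal.ofReal_le_iff_le_toReal (measure_ne_top _ _)]
    exact h1.trans hAS
  have h4 : ((1:ℝ) / 2) ^ (2 * q) * sig.real (A ∩ S) ≤ ∫ y in A ∩ S, dens q k y ∂sig := by
    have h5 := setIntegral_mono_on (μ := sig) (s := A ∩ S) (f := fun _ => ((1:ℝ) / 2) ^ (2 * q))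
      (g := dens q k) (integrableOn_const (measure_ne_top _ _)) hint.integrableOn
      (hAm.inter hSm) hlow
    rw [setIntegral_const, smul_eq_mul, mul_comm] at h5
    exact h5
  have h6 : ∫ y in A ∩ S, dens q k y ∂sig ≤ ∫ y, dens q k y ∂sig :=
    setIntegral_le_integral hint (Filter.Eventually.of_forall fun y => by
      unfold dens; positivity)
  have h7 : (1 / 2) ^ (2 * q) * (c / 4) / (k : ℝ) ^ 2 = (1 / 2) ^ (2 * q) * (c * δ ^ 2) := by
    rw [hδ]
    field_simp
    norm_num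
  rw [h7]
  exact ((mul_le_mul_of_nonneg_left h3 (by positivity)).trans h4).trans h6

/-! ### T_props -/

theorem T_props_ae : ∀ᵐ y ∂sig, y ∈ S := by
  rw [ae_iff]
  exact sig_S

theorem T_props_S : IsCompact S := by
  apply Metric.isCompact_of_isClosed_isBounded
  · have h1 : Continuous nsq := by unfold nsq; fun_prop
    exact isClosed_eq h1 continuous_const
  · apply Metric.isBounded_closedBall (x := (0 : P)) (r := 1) |>.subset
    intro z hz
    have hz' : ‖z.1‖ ^ 2 + ‖z.2‖ ^ 2 = 1 := hz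
    rw [mem_closedBall_zero_iff, Prod.norm_def, max_le_iff]
    constructor
    · nlinarith [sq_nonneg ‖z.2‖, norm_nonneg z.1]
    · nlinarith [sq_nonneg ‖z.1‖, norm_nonneg z.2]

theorem T_props_restrict : sig.restrict S = sig := Measure.restrict_eq_self_of_ae_mem T_props_ae

theorem T_props_int {g : P → ℝ} (hg : Continuous g) : Integrable g sig := by
  have := sig_finite
  rw [← T_props_restrict]
  exact hg.continuousOn.integrableOn_compact T_props_S

theorem T_props_dens (q k : ℕ) : Continuous (dens q k) := by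
  unfold dens F
  fun_prop

theorem T_props_dens_nonneg (q k : ℕ) (y : P) : 0 ≤ dens q k y := by
  unfold dens
  positivity

theorem T_props_act : Continuous (fun p : P × P => act p.1 p.2) := by
  have h1 : Continuous (fun p : P × P => p.1.1 • p.2) := by fun_prop
  have h2 : Continuous (fun p : P × P => perp p.2) := by
    have h3 : Continuous (fun p : P × P => conj p.2.1) :=
      Complex.continuous_conj.comp (by fun_prop)
    have h4 : Continuous (fun p : P × P => conj p.2.2) :=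
      Complex.continuous_conj.comp (by fun_prop)
    exact h4.neg.prodMk h3
  have h5 : Continuous (fun p : P × P => p.1.2) := by fun_prop
  exact h1.add (h5.smul h2)

theorem T_props_II (q k : ℕ) (hk : 1 ≤ k) : 0 < II q k := by
  obtain ⟨c, hc, h⟩ := II_lower q
  have hk' : (0 : ℝ) < k := by exact_mod_cast hk
  exact lt_of_lt_of_le (by positivity) (h k hk)

theorem T_props_cont (q k : ℕ) {u : P → ℝ} (hu : Continuous u) (z : P) :
    Continuous (fun y => u (act y z) * dens q k y) := by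
  apply Continuous.mul _ (T_props_dens q k)
  exact hu.comp (T_props_act.comp (by fun_prop : Continuous (fun y : P => (y, z))))

theorem T_cont (q k : ℕ) {u : P → ℝ} (hu : Continuous u) : Continuous (T q k u) := by
  have := sig_finite
  unfold T
  apply Continuous.div_const
  have h1 : Continuous (Function.uncurry (fun z y : P => u (act y z) * dens q k y)) := by
    apply Continuous.mul
    · exact hu.comp (T_props_act.comp (by fun_prop : Continuous (fun p : P × P => (p.2, p.1))))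
    · exact (T_props_dens q k).comp continuous_snd
  have h2 := continuous_parametric_integral_of_continuous (μ := sig) h1 T_props_S
  rw [T_props_restrict] at h2
  exact h2

theorem T_const (q k : ℕ) (hk : 1 ≤ k) (a : ℝ) (z : P) : T q k (fun _ => a) z = a := by
  unfold T
  rw [integral_const_mul]
  exact mul_div_cancel_right₀ a (T_props_II q k hk).ne'

theorem T_bound (q k : ℕ) (hk : 1 ≤ k) {u : P → ℝ} (hu : Continuous u) {s : ℝ} (h : ∀ z ∈ S, |u z| ≤ s) :
    ∀ z ∈ S, |T q k u z| ≤ s := by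
  intro z hz
  have hII := T_props_II q k hk
  unfold T
  rw [abs_div, abs_of_pos hII, div_le_iff₀ hII]
  have h1 : ‖∫ y, u (act y z) * dens q k y ∂sig‖ ≤ ∫ y, s * dens q k y ∂sig := by
    apply norm_integral_le_of_norm_le ((T_props_int (T_props_dens q k)).const_mul s)
    filter_upwards [T_props_ae] with y hy
    rw [norm_mul, Real.norm_eq_abs, Real.norm_eq_abs, abs_of_nonneg (T_props_dens_nonneg q k y)]
    exact mul_le_mul_of_nonneg_right (h _ (act_mem hy hz)) (T_props_dens_nonneg q k y)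
  rw [integral_const_mul, Real.norm_eq_abs] at h1
  exact h1

theorem T_add (q k : ℕ) {u v : P → ℝ} (hu : Continuous u) (hv : Continuous v) (z : P) :
    T q k (fun x => u x + v x) z = T q k u z + T q k v z := by
  unfold T
  rw [← add_div]
  congr 1
  rw [← integral_add (T_props_int (T_props_cont q k hu z)) (T_props_int (T_props_cont q k hv z))]
  congr 1
  funext y
  ring

/-! ### T_kernel -/

theorem T_kernel_ip_symm (z w : P) : ip z w = conj (ip w z) := by
  unfold ip
  simp only [map_add, map_mul, Complex.conj_conj]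
  ring

theorem T_kernel_F_conj (k : ℕ) (s : ℂ) : F k (conj s) = conj (F k s) := by
  unfold F
  simp only [map_div₀, map_sum, map_pow, Complex.conj_natCast]

theorem T_kernel_cont_F (k : ℕ) : Continuous (F k) := by
  unfold F
  fun_prop

theorem T_kernel (q k : ℕ) {u : P → ℝ} (hu : Continuous u) {z : P} (hz : z ∈ S) :
    T q k u z = (∫ ζ, u ζ * ‖F k (ip z ζ)‖ ^ (2 * q) ∂sig) / II q k := by
  have hact : Continuous (fun y : P => act y z) := by
    unfold act
    fun_prop
  have hip : Continuous (fun ζ : P => ip z ζ) := by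
    unfold ip
    exact (continuous_const.mul (Complex.continuous_conj.comp continuous_fst)).add
      (continuous_const.mul (Complex.continuous_conj.comp continuous_snd))
  have hg : Continuous (fun ζ : P => u ζ * ‖F k (ip z ζ)‖ ^ (2 * q)) :=
    hu.mul (((T_kernel_cont_F k).comp hip).norm.pow _)
  unfold T
  congr 1
  conv_rhs => rw [← sig_inv hz]
  rw [integral_map hact.aemeasurable hg.aestronglyMeasurable]
  apply integral_congr_ae
  refine Filter.Eventually.of_forall fun y => ?_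
  show u (act y z) * dens q k y = u (act y z) * ‖F k (ip z (act y z))‖ ^ (2 * q)
  congr 1
  unfold dens
  rw [T_kernel_ip_symm z (act y z), ip_act hz, T_kernel_F_conj, RCLike.norm_conj]

/-! ### kint1 -/

theorem kint1_D (y : P) : D ((1 : ℂ), (0 : ℂ)) y = ‖1 - y.1‖ := by
  have h : (1 : ℂ) - ip ((1 : ℂ), (0 : ℂ)) y = conj (1 - y.1) := by
    simp [ip]
  unfold D
  rw [h, Complex.norm_conj]

theorem kint1_norm {y : P} (hy : y ∈ S) : ‖y.1‖ ≤ 1 := by
  have h : ‖y.1‖ ^ 2 + ‖y.2‖ ^ 2 = 1 := hy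
  have h2 : ‖y.1‖ ^ 2 ≤ 1 ^ 2 := by nlinarith [sq_nonneg ‖y.2‖]
  exact le_of_sq_le_sq_of_nonneg h2
where
  le_of_sq_le_sq_of_nonneg {a : ℝ} (h : a ^ 2 ≤ 1 ^ 2) : a ≤ 1 :=
    (abs_le_of_sq_le_sq' h zero_le_one).2

theorem kint1 (q : ℕ) (hq : 3 ≤ q) : ∃ C : ℝ, 0 < C ∧ ∀ k : ℕ, 1 ≤ k →
    ∫ y, √(k * ‖1 - y.1‖) * dens q k y ∂sig ≤ C * II q k := by
  obtain ⟨C₁, hC₁, h1⟩ := F_bound
  obtain ⟨C₂, hC₂, h2⟩ := sig_int
  obtain ⟨c, hc, h3⟩ := II_lower q
  haveI := sig_finite
  refine ⟨C₁ ^ (2 * q) * C₂ / c, by positivity, fun k hk => ?_⟩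
  have hk0 : (0 : ℝ) < k := by exact_mod_cast hk
  have hz : ((1 : ℂ), (0 : ℂ)) ∈ S := by
    show nsq ((1 : ℂ), (0 : ℂ)) = 1
    simp [nsq]
  have hS : ∀ᵐ y ∂sig, y ∈ S := by
    rw [MeasureTheory.ae_iff]
    exact sig_S
  have hpt : ∀ y ∈ S, √(k * ‖1 - y.1‖) * dens q k y ≤
      C₁ ^ (2 * q) * ((1 + k * D ((1 : ℂ), (0 : ℂ)) y) ^ 3)⁻¹ := by
    intro y hy
    rw [kint1_D]
    obtain ⟨X, hX⟩ : ∃ X : ℝ, X = k * ‖1 - y.1‖ := ⟨_, rfl⟩
    have hX0 : 0 ≤ X := by rw [hX]; positivity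
    have hF := h1 k hk y.1 ((kint1_norm hy).trans (by
      have : (0 : ℝ) ≤ 2 / k := by positivity
      linarith))
    rw [← hX] at hF ⊢
    have hd : dens q k y ≤ (C₁ / (1 + X)) ^ (2 * q) := by
      unfold dens
      exact pow_le_pow_left₀ (norm_nonneg _) hF _
    have hd0 : 0 ≤ dens q k y := by unfold dens; positivity
    have hs : √X ≤ 1 + X := by
      rw [Real.sqrt_le_left (by linarith)]
      nlinarith
    have h1X : (1 : ℝ) ≤ 1 + X := by linarith
    have h1X0 : (0 : ℝ) < 1 + X := by linarith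
    calc √X * dens q k y ≤ (1 + X) * (C₁ / (1 + X)) ^ (2 * q) := by
          apply mul_le_mul hs hd hd0 h1X0.le
      _ = C₁ ^ (2 * q) * ((1 + X) / (1 + X) ^ (2 * q)) := by
          rw [div_pow]; ring
      _ ≤ C₁ ^ (2 * q) * ((1 + X) ^ 3)⁻¹ := by
          apply mul_le_mul_of_nonneg_left _ (by positivity)
          rw [div_le_iff₀ (by positivity), inv_mul_eq_div, le_div_iff₀ (by positivity)]
          calc (1 + X) * (1 + X) ^ 3 = (1 + X) ^ 4 := by ring
            _ ≤ (1 + X) ^ (2 * q) := pow_le_pow_right₀ h1X (by omega)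
  have hcont : Continuous fun y : P => C₁ ^ (2 * q) * ((1 + k * D ((1 : ℂ), (0 : ℂ)) y) ^ 3)⁻¹ := by
    have hD : Continuous fun y : P => D ((1 : ℂ), (0 : ℂ)) y := by
      simp only [kint1_D]
      fun_prop
    refine continuous_const.mul (Continuous.inv₀ (by fun_prop) ?_)
    intro y
    have := D_nonneg ((1 : ℂ), (0 : ℂ)) y
    positivity
  have hint : Integrable (fun y : P => C₁ ^ (2 * q) * ((1 + k * D ((1 : ℂ), (0 : ℂ)) y) ^ 3)⁻¹) sig := by
    refine Integrable.of_bound hcont.aestronglyMeasurable (C₁ ^ (2 * q)) (Filter.Eventually.of_forall fun y => ?_)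
    have hD := D_nonneg ((1 : ℂ), (0 : ℂ)) y
    rw [Real.norm_of_nonneg (by positivity)]
    have : ((1 + k * D ((1 : ℂ), (0 : ℂ)) y) ^ 3)⁻¹ ≤ 1 := by
      apply inv_le_one_of_one_le₀
      apply one_le_pow₀
      have : 0 ≤ k * D ((1 : ℂ), (0 : ℂ)) y := by positivity
      linarith
    calc C₁ ^ (2 * q) * ((1 + k * D ((1 : ℂ), (0 : ℂ)) y) ^ 3)⁻¹ ≤ C₁ ^ (2 * q) * 1 :=
          mul_le_mul_of_nonneg_left this (by positivity)
      _ = _ := mul_one _
  calc ∫ y, √(k * ‖1 - y.1‖) * dens q k y ∂sig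
      ≤ ∫ y, C₁ ^ (2 * q) * ((1 + k * D ((1 : ℂ), (0 : ℂ)) y) ^ 3)⁻¹ ∂sig := by
        apply integral_mono_of_nonneg
        · exact Filter.Eventually.of_forall fun y => by
            show 0 ≤ √(k * ‖1 - y.1‖) * dens q k y
            unfold dens
            positivity
        · exact hint
        · filter_upwards [hS] with y hy using hpt y hy
    _ = C₁ ^ (2 * q) * ∫ y, ((1 + k * D ((1 : ℂ), (0 : ℂ)) y) ^ 3)⁻¹ ∂sig := by
        rw [integral_const_mul]
    _ ≤ C₁ ^ (2 * q) * (C₂ / (k : ℝ) ^ 2) :=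
        mul_le_mul_of_nonneg_left (h2 k hk _ hz) (by positivity)
    _ = C₁ ^ (2 * q) * C₂ / c * (c / (k : ℝ) ^ 2) := by
        field_simp
    _ ≤ C₁ ^ (2 * q) * C₂ / c * II q k :=
        mul_le_mul_of_nonneg_left (h3 k hk) (by positivity)

/-! ### kint2 -/

theorem kint2 (q : ℕ) (hq : 3 ≤ q) (c0 : ℝ) (hc0 : 0 < c0) : ∃ C : ℝ, 0 < C ∧ ∀ k0 k : ℕ, 1 ≤ k0 → k0 ≤ k →
    ∫ y in {y : P | c0 < k0 * ‖1 - y.1‖}, dens q k y ∂sig ≤ C * ((k0 : ℝ) / k) ^ (2 * q - 3) * II q k := by
  classical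
  obtain ⟨C1, hC1, hF⟩ := F_bound
  obtain ⟨C2, hC2, hI⟩ := sig_int
  obtain ⟨c, hc, hL⟩ := II_lower q
  haveI := sig_finite
  refine ⟨C1 ^ (2 * q) * (1 / c0) ^ (2 * q - 3) * (C2 / c), by positivity, fun k0 k hk0 hk => ?_⟩
  have hk1 : 1 ≤ k := hk0.trans hk
  have hkR : (0 : ℝ) < k := by exact_mod_cast hk1
  have hk0R : (0 : ℝ) < k0 := by exact_mod_cast hk0
  have hAo : IsOpen {y : P | c0 < k0 * ‖1 - y.1‖} :=
    isOpen_lt continuous_const (by fun_prop)
  have hAm : MeasurableSet {y : P | c0 < k0 * ‖1 - y.1‖} := hAo.measurableSet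
  have hz : ((1, 0) : P) ∈ S := by simp [S, nsq]
  have hD : ∀ y : P, D ((1, 0) : P) y = ‖1 - y.1‖ := by
    intro y
    have h1 : (1 : ℂ) - ip ((1, 0) : P) y = conj (1 - y.1) := by simp [ip]
    show ‖(1 : ℂ) - ip ((1, 0) : P) y‖ = _
    rw [h1, Complex.norm_conj]
  have hgc : Continuous (fun y : P => C1 ^ (2 * q) * ((1 / c0) ^ (2 * q - 3) *
      ((k0 : ℝ) / k) ^ (2 * q - 3)) * ((1 + k * D ((1, 0) : P) y) ^ 3)⁻¹) := by
    simp_rw [hD]
    refine continuous_const.mul (Continuous.inv₀ (by fun_prop) fun y => ?_)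
    positivity
  have hgi : Integrable (fun y : P => C1 ^ (2 * q) * ((1 / c0) ^ (2 * q - 3) *
      ((k0 : ℝ) / k) ^ (2 * q - 3)) * ((1 + k * D ((1, 0) : P) y) ^ 3)⁻¹) sig := by
    refine Integrable.of_bound hgc.aestronglyMeasurable (C1 ^ (2 * q) * ((1 / c0) ^ (2 * q - 3) *
      ((k0 : ℝ) / k) ^ (2 * q - 3))) (Filter.Eventually.of_forall fun y => ?_)
    have hDn : 0 ≤ D ((1, 0) : P) y := by rw [hD]; exact norm_nonneg _
    rw [Real.norm_eq_abs, abs_of_nonneg (by positivity)]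
    refine mul_le_of_le_one_right (by positivity) ?_
    apply inv_le_one_of_one_le₀
    refine one_le_pow₀ ?_
    have : 0 ≤ (k : ℝ) * D ((1, 0) : P) y := by positivity
    linarith
  have hpt : ∀ y ∈ S, c0 < k0 * ‖1 - y.1‖ → dens q k y ≤ C1 ^ (2 * q) * ((1 / c0) ^ (2 * q - 3) *
      ((k0 : ℝ) / k) ^ (2 * q - 3)) * ((1 + k * D ((1, 0) : P) y) ^ 3)⁻¹ := by
    intro y hy hyA
    rw [hD]
    have hX0 : 0 ≤ (k : ℝ) * ‖1 - y.1‖ := by positivity
    have hy1 : ‖y.1‖ ≤ 1 + 2 / k := by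
      have h1 : ‖y.1‖ ^ 2 + ‖y.2‖ ^ 2 = 1 := hy
      have h2 : ‖y.1‖ ≤ 1 := by nlinarith [norm_nonneg y.1, sq_nonneg ‖y.2‖]
      have h3 : (0 : ℝ) ≤ 2 / k := by positivity
      linarith
    have h1 := hF k hk1 y.1 hy1
    have h2 : (1 + (k : ℝ) * ‖1 - y.1‖)⁻¹ ≤ 1 / c0 * ((k0 : ℝ) / k) := by
      have h3 : 1 / c0 * ((k0 : ℝ) / k) = (c0 * k / k0)⁻¹ := by
        rw [inv_div]; field_simp
      rw [h3]
      apply inv_anti₀ (by positivity)
      rw [div_le_iff₀ hk0R]
      nlinarith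
    calc dens q k y = ‖F k y.1‖ ^ (2 * q) := rfl
      _ ≤ (C1 / (1 + k * ‖1 - y.1‖)) ^ (2 * q) := pow_le_pow_left₀ (norm_nonneg _) h1 _
      _ = C1 ^ (2 * q) * (((1 + k * ‖1 - y.1‖)⁻¹) ^ (2 * q - 3) *
            ((1 + k * ‖1 - y.1‖)⁻¹) ^ 3) := by
          rw [← pow_add, show 2 * q - 3 + 3 = 2 * q by omega, div_eq_mul_inv, mul_pow]
      _ ≤ C1 ^ (2 * q) * ((1 / c0 * ((k0 : ℝ) / k)) ^ (2 * q - 3) *
            ((1 + k * ‖1 - y.1‖)⁻¹) ^ 3) := by
          refine mul_le_mul_of_nonneg_left (mul_le_mul_of_nonneg_right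
            (pow_le_pow_left₀ (by positivity) h2 _) (by positivity)) (by positivity)
      _ = _ := by rw [mul_pow, inv_pow]; ring
  have hS : ∀ᵐ y ∂sig, y ∈ S := by
    rw [ae_iff]
    exact sig_S
  have h1 : ∫ y in {y : P | c0 < k0 * ‖1 - y.1‖}, dens q k y ∂sig ≤
      ∫ y in {y : P | c0 < k0 * ‖1 - y.1‖}, C1 ^ (2 * q) * ((1 / c0) ^ (2 * q - 3) *
      ((k0 : ℝ) / k) ^ (2 * q - 3)) * ((1 + k * D ((1, 0) : P) y) ^ 3)⁻¹ ∂sig := by
    refine integral_mono_of_nonneg (Filter.Eventually.of_forall fun y => ?_)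
      hgi.integrableOn ?_
    · show 0 ≤ ‖F k y.1‖ ^ (2 * q)
      positivity
    · rw [Filter.EventuallyLE, ae_restrict_iff' hAm]
      filter_upwards [hS] with y hy hyA
      exact hpt y hy hyA
  have h2 : ∫ y in {y : P | c0 < k0 * ‖1 - y.1‖}, C1 ^ (2 * q) * ((1 / c0) ^ (2 * q - 3) *
      ((k0 : ℝ) / k) ^ (2 * q - 3)) * ((1 + k * D ((1, 0) : P) y) ^ 3)⁻¹ ∂sig ≤
      ∫ y, C1 ^ (2 * q) * ((1 / c0) ^ (2 * q - 3) *
      ((k0 : ℝ) / k) ^ (2 * q - 3)) * ((1 + k * D ((1, 0) : P) y) ^ 3)⁻¹ ∂sig := by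
    refine setIntegral_le_integral hgi (Filter.Eventually.of_forall fun y => ?_)
    have hDn : 0 ≤ D ((1, 0) : P) y := by rw [hD]; exact norm_nonneg _
    show 0 ≤ _
    positivity
  have h3 : C2 / (k : ℝ) ^ 2 ≤ C2 / c * II q k := by
    have := hL k hk1
    calc C2 / (k : ℝ) ^ 2 = C2 / c * (c / (k : ℝ) ^ 2) := by field_simp
      _ ≤ _ := mul_le_mul_of_nonneg_left this (by positivity)
  calc _ ≤ _ := h1.trans h2
    _ = C1 ^ (2 * q) * ((1 / c0) ^ (2 * q - 3) * ((k0 : ℝ) / k) ^ (2 * q - 3)) *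
        ∫ y, ((1 + k * D ((1, 0) : P) y) ^ 3)⁻¹ ∂sig := by
      rw [integral_const_mul]
    _ ≤ C1 ^ (2 * q) * ((1 / c0) ^ (2 * q - 3) * ((k0 : ℝ) / k) ^ (2 * q - 3)) *
        (C2 / c * II q k) :=
      mul_le_mul_of_nonneg_left ((hI k hk1 _ hz).trans h3) (by positivity)
    _ = _ := by ring

/-! ### neumann -/

theorem neumann_act_cont : Continuous (fun p : P × P => act p.1 p.2) := by
  unfold act perp
  fun_prop

theorem neumann_joint (ys : List P) (v : P × P → ℝ) (hv : Continuous v) :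
    Continuous (fun p : P × P => diffs ys (fun x => v (p.1, x)) p.2) := by
  induction ys with
  | nil =>
    simp only [diffs]
    exact hv
  | cons y' ys ih =>
    simp only [diffs]
    refine ih.sub ?_
    have h : Continuous (fun p : P × P => (p.1, act y' p.2)) :=
      continuous_fst.prodMk (neumann_act_cont.comp (continuous_const.prodMk continuous_snd))
    exact ih.comp h

theorem neumann_S_compact : IsCompact S := by
  apply Metric.isCompact_of_isClosed_isBounded
  · have h : Continuous nsq := by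
      unfold nsq
      fun_prop
    exact isClosed_eq h continuous_const
  · apply (Metric.isBounded_closedBall (x := (0 : P)) (r := 1)).subset
    intro z hz
    have hz' : ‖z.1‖ ^ 2 + ‖z.2‖ ^ 2 = 1 := hz
    rw [mem_closedBall_zero_iff, Prod.norm_def, max_le_iff]
    constructor
    · by_contra hc
      push Not at hc
      nlinarith [norm_nonneg z.2, sq_nonneg ‖z.2‖]
    · by_contra hc
      push Not at hc
      nlinarith [norm_nonneg z.1, sq_nonneg ‖z.1‖]

theorem neumann_ae_S : ∀ᵐ y ∂sig, y ∈ S := by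
  rw [ae_iff]
  exact sig_S

theorem neumann_integrable (g : P → ℝ) (hg : Continuous g) : Integrable g sig := by
  have := sig_finite
  have h1 : IntegrableOn g S sig := hg.continuousOn.integrableOn_compact neumann_S_compact
  have h2 : sig.restrict S = sig := Measure.restrict_eq_self_of_ae_mem neumann_ae_S
  rw [IntegrableOn, h2] at h1
  exact h1

theorem neumann_diffs_int (ys : List P) (v : P × P → ℝ) (hv : Continuous v) (z : P) :
    diffs ys (fun x => ∫ y, v (y, x) ∂sig) z = ∫ y, diffs ys (fun x => v (y, x)) z ∂sig := by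
  induction ys generalizing z with
  | nil => rfl
  | cons y' ys ih =>
    simp only [diffs]
    rw [ih z, ih (act y' z), integral_sub]
    · apply neumann_integrable
      exact (neumann_joint ys v hv).comp (continuous_id.prodMk continuous_const)
    · apply neumann_integrable
      exact (neumann_joint ys v hv).comp (continuous_id.prodMk continuous_const)

theorem neumann_diffs_mul (ys : List P) (w : P → ℝ) (c : ℝ) (z : P) :
    diffs ys (fun x => w x * c) z = diffs ys w z * c := by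
  induction ys generalizing z with
  | nil => rfl
  | cons y' ys ih =>
    simp only [diffs]
    rw [ih z, ih (act y' z)]
    ring

theorem neumann_diffs_append (ys : List P) (y : P) (u : P → ℝ) (z : P) :
    diffs (ys ++ [y]) u z = diffs ys (fun x => u x - u (act y x)) z := by
  induction ys generalizing z with
  | nil => rfl
  | cons y' ys ih =>
    simp only [List.cons_append, diffs]
    rw [ih z, ih (act y' z)]

theorem neumann_diffs_bound (ys : List P) (hys : ∀ y ∈ ys, y ∈ S) (u : P → ℝ) (s : ℝ)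
    (hu : ∀ z ∈ S, |u z| ≤ s) (z : P) (hz : z ∈ S) : |diffs ys u z| ≤ 2 ^ ys.length * s := by
  induction ys generalizing z with
  | nil => simpa [diffs] using hu z hz
  | cons y' ys ih =>
    simp only [diffs]
    have h1 := ih (fun y hy => hys y (List.mem_cons_of_mem _ hy)) z hz
    have h2 := ih (fun y hy => hys y (List.mem_cons_of_mem _ hy)) (act y' z)
      (act_mem (hys y' List.mem_cons_self) hz)
    have h3 := abs_sub (diffs ys u z) (diffs ys u (act y' z))
    rw [List.length_cons, pow_succ]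
    linarith

theorem neumann_dens_cont (q k : ℕ) : Continuous (dens q k) := by
  unfold dens F
  fun_prop

theorem neumann_dens_nonneg (q k : ℕ) (y : P) : 0 ≤ dens q k y := by
  unfold dens
  positivity

theorem neumann_Dop_eq (q k : ℕ) (hI : 0 < II q k) (u : P → ℝ) (hu : Continuous u) :
    Dop q k u = fun x => ∫ y, (u x - u (act y x)) * (dens q k y / II q k) ∂sig := by
  funext x
  have hd := neumann_dens_cont q k
  have hc : Continuous (fun y => u (act y x)) :=
    hu.comp (neumann_act_cont.comp (continuous_id.prodMk continuous_const))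
  have e : ∀ y, (u x - u (act y x)) * (dens q k y / II q k)
      = (u x * dens q k y - u (act y x) * dens q k y) / II q k := by
    intro y
    ring
  simp only [e]
  have hi1 : Integrable (fun y => u x * dens q k y) sig :=
    neumann_integrable _ (continuous_const.mul hd)
  have hi2 : Integrable (fun y => u (act y x) * dens q k y) sig :=
    neumann_integrable _ (hc.mul hd)
  rw [integral_div, integral_sub hi1 hi2, integral_const_mul]
  have e2 : ∫ y, dens q k y ∂sig = II q k := rfl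
  rw [e2]
  unfold Dop T
  field_simp

theorem neumann_diffs_Dop (q k : ℕ) (hI : 0 < II q k) (u : P → ℝ) (hu : Continuous u)
    (ys : List P) (z : P) :
    diffs ys (Dop q k u) z = ∫ y, diffs (ys ++ [y]) u z * (dens q k y / II q k) ∂sig := by
  rw [neumann_Dop_eq q k hI u hu]
  have hd := neumann_dens_cont q k
  have hv : Continuous (fun p : P × P => (u p.2 - u (act p.1 p.2)) * (dens q k p.1 / II q k)) :=
    ((hu.comp continuous_snd).sub (hu.comp neumann_act_cont)).mul
      ((hd.comp continuous_fst).div_const _)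
  rw [neumann_diffs_int ys (fun p : P × P => (u p.2 - u (act p.1 p.2)) * (dens q k p.1 / II q k)) hv]
  apply integral_congr_ae
  refine Filter.Eventually.of_forall (fun y => ?_)
  simp only []
  rw [neumann_diffs_mul, neumann_diffs_append]

theorem neumann_Dop_cont (q k : ℕ) (u : P → ℝ) (hu : Continuous u) : Continuous (Dop q k u) :=
  hu.sub (T_cont q k hu)

theorem neumann_Dop_bound (q k : ℕ) (hk : 1 ≤ k) (u : P → ℝ) (hu : Continuous u) (s : ℝ)
    (h : ∀ z ∈ S, |u z| ≤ s) (z : P) (hz : z ∈ S) : |Dop q k u z| ≤ 2 * s := by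
  have h1 := T_bound q k hk hu h z hz
  have h2 := h z hz
  have h3 := abs_sub (u z) (T q k u z)
  unfold Dop
  linarith

theorem neumann_prod_nonneg (k0 : ℕ) (ys : List P) :
    0 ≤ (ys.map (fun y => √(k0 * ‖1 - y.1‖))).prod := by
  apply List.prod_nonneg
  intro a ha
  rw [List.mem_map] at ha
  obtain ⟨y, _, rfl⟩ := ha
  exact Real.sqrt_nonneg _

theorem neumann_step (q k k0 : ℕ) (hI : 0 < II q k) (c0 G η : ℝ)
    (hG : ∫ y, √(k0 * ‖1 - y.1‖) * dens q k y ∂sig ≤ G * II q k)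
    (hη : ∫ y in {y : P | c0 < k0 * ‖1 - y.1‖}, dens q k y ∂sig ≤ η * II q k)
    (n : ℕ) (u : P → ℝ) (hu : Continuous u) (s A E : ℝ) (hs : 0 ≤ s) (hA : 0 ≤ A) (hE : 0 ≤ E)
    (hus : ∀ z ∈ S, |u z| ≤ s)
    (h : ∀ ys : List P, ys.length = n + 1 → (∀ y ∈ ys, y ∈ S ∧ k0 * ‖1 - y.1‖ ≤ c0) → ∀ z ∈ S,
      |diffs ys u z| ≤ A * (ys.map (fun y => √(k0 * ‖1 - y.1‖))).prod + E) :
    ∀ ys : List P, ys.length = n → (∀ y ∈ ys, y ∈ S ∧ k0 * ‖1 - y.1‖ ≤ c0) → ∀ z ∈ S,
      |diffs ys (Dop q k u) z| ≤ A * G * (ys.map (fun y => √(k0 * ‖1 - y.1‖))).prod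
        + (E + 2 ^ (n + 1) * s * η) := by
  intro ys hlen hys z hz
  rw [neumann_diffs_Dop q k hI u hu]
  have hd := neumann_dens_cont q k
  obtain ⟨p, hp⟩ : ∃ p, p = (ys.map (fun y => √(k0 * ‖1 - y.1‖))).prod := ⟨_, rfl⟩
  have hp0 : 0 ≤ p := by rw [hp]; exact neumann_prod_nonneg k0 ys
  rw [← hp]
  have hLm : MeasurableSet {y : P | c0 < k0 * ‖1 - y.1‖} := by
    apply measurableSet_lt measurable_const
    fun_prop
  have hγ : Continuous (fun y : P => √(k0 * ‖1 - y.1‖)) := by fun_prop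
  have hdi : Integrable (dens q k) sig := neumann_integrable _ hd
  have hb : ∀ᵐ y ∂sig, ‖diffs (ys ++ [y]) u z * (dens q k y / II q k)‖ ≤
      (A * p * (√(k0 * ‖1 - y.1‖) * dens q k y) + E * dens q k y
        + 2 ^ (n + 1) * s * ({y : P | c0 < k0 * ‖1 - y.1‖}.indicator (dens q k) y)) / II q k := by
    filter_upwards [neumann_ae_S] with y hy
    have hdn := neumann_dens_nonneg q k y
    rw [norm_mul, Real.norm_eq_abs, Real.norm_of_nonneg (by positivity), mul_div_assoc']
    apply div_le_div_of_nonneg_right _ hI.le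
    by_cases hsm : k0 * ‖1 - y.1‖ ≤ c0
    · have h1 := h (ys ++ [y]) (by rw [List.length_append, hlen]; rfl) (by
        intro y' hy'
        rw [List.mem_append, List.mem_singleton] at hy'
        rcases hy' with hy' | rfl
        · exact hys y' hy'
        · exact ⟨hy, hsm⟩) z hz
      rw [List.map_append, List.prod_append, ← hp, List.map_singleton, List.prod_singleton] at h1
      have hy1 : y ∉ {y : P | c0 < k0 * ‖1 - y.1‖} := by
        rw [mem_ofPred_eq]
        exact not_lt.2 hsm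
      rw [indicator_of_notMem hy1, mul_zero, add_zero]
      calc |diffs (ys ++ [y]) u z| * dens q k y
          ≤ (A * (p * √(k0 * ‖1 - y.1‖)) + E) * dens q k y :=
            mul_le_mul_of_nonneg_right h1 hdn
        _ = _ := by ring
    · have hy1 : y ∈ {y : P | c0 < k0 * ‖1 - y.1‖} := by
        rw [mem_ofPred_eq]
        exact not_le.1 hsm
      rw [indicator_of_mem hy1]
      have h1 := neumann_diffs_bound (ys ++ [y]) (by
        intro y' hy'
        rw [List.mem_append, List.mem_singleton] at hy'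
        rcases hy' with hy' | rfl
        · exact (hys y' hy').1
        · exact hy) u s hus z hz
      rw [List.length_append, hlen, List.length_singleton] at h1
      have h2 := mul_le_mul_of_nonneg_right h1 hdn
      have h3 : 0 ≤ A * p * (√(k0 * ‖1 - y.1‖) * dens q k y) + E * dens q k y := by positivity
      linarith
  have hi1 : Integrable (fun y => A * p * (√(k0 * ‖1 - y.1‖) * dens q k y)) sig :=
    neumann_integrable _ (continuous_const.mul (hγ.mul hd))
  have hi2 : Integrable (fun y => E * dens q k y) sig :=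
    neumann_integrable _ (continuous_const.mul hd)
  have hi3 : Integrable (fun y => 2 ^ (n + 1) * s *
      ({y : P | c0 < k0 * ‖1 - y.1‖}.indicator (dens q k) y)) sig :=
    (hdi.indicator hLm).const_mul _
  have hi12 : Integrable (fun y => A * p * (√(k0 * ‖1 - y.1‖) * dens q k y)
      + E * dens q k y) sig := hi1.add hi2
  have h4 := norm_integral_le_of_norm_le ((hi12.add hi3).div_const (II q k)) hb
  rw [Real.norm_eq_abs] at h4
  refine h4.trans ?_
  simp only [Pi.add_apply]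
  rw [integral_div, integral_add hi12 hi3]
  rw [integral_add hi1 hi2, integral_const_mul, integral_const_mul, integral_const_mul,
    integral_indicator hLm]
  have e2 : ∫ y, dens q k y ∂sig = II q k := rfl
  rw [e2, div_le_iff₀ hI]
  have h5 := mul_le_mul_of_nonneg_left hG (mul_nonneg hA hp0)
  have h6 := mul_le_mul_of_nonneg_left hη (show 0 ≤ 2 ^ (n + 1) * s by positivity)
  linarith

theorem neumann_iter (q k k0 : ℕ) (hk : 1 ≤ k) (hI : 0 < II q k) (c0 G η : ℝ) (hG0 : 0 ≤ G)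
    (hη0 : 0 ≤ η)
    (hG : ∫ y, √(k0 * ‖1 - y.1‖) * dens q k y ∂sig ≤ G * II q k)
    (hη : ∫ y in {y : P | c0 < k0 * ‖1 - y.1‖}, dens q k y ∂sig ≤ η * II q k)
    (n : ℕ) : ∀ (u : P → ℝ), Continuous u → ∀ (s A E : ℝ), 0 ≤ s → 0 ≤ A → 0 ≤ E →
    (∀ z ∈ S, |u z| ≤ s) →
    (∀ ys : List P, ys.length = n → (∀ y ∈ ys, y ∈ S ∧ k0 * ‖1 - y.1‖ ≤ c0) → ∀ z ∈ S,
      |diffs ys u z| ≤ A * (ys.map (fun y => √(k0 * ‖1 - y.1‖))).prod + E) →
    ∀ z ∈ S, |(Dop q k)^[n] u z| ≤ A * G ^ n + E + n * 2 ^ n * s * η := by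
  induction n with
  | zero =>
    intro u hu s A E hs hA hE hus h z hz
    have h1 := h [] rfl (by simp) z hz
    simpa [diffs] using h1
  | succ n ih =>
    intro u hu s A E hs hA hE hus h z hz
    rw [Function.iterate_succ_apply]
    have h1 := ih (Dop q k u) (neumann_Dop_cont q k u hu) (2 * s) (A * G)
      (E + 2 ^ (n + 1) * s * η) (by positivity) (by positivity) (by positivity)
      (neumann_Dop_bound q k hk u hu s hus)
      (neumann_step q k k0 hI c0 G η hG hη n u hu s A E hs hA hE hus h) z hz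
    refine h1.trans (le_of_eq ?_)
    push_cast
    ring

theorem neumann (m q : ℕ) (hq : 3 ≤ q) (c0 : ℝ) (hc0 : 0 < c0) : ∃ C : ℝ, 0 < C ∧
    ∀ k0 k : ℕ, 1 ≤ k0 → k0 ≤ k → ∀ u : P → ℝ, Continuous u → ∀ s A : ℝ, 0 ≤ s → 0 ≤ A →
    (∀ z ∈ S, |u z| ≤ s) →
    (∀ ys : List P, ys.length = m → (∀ y ∈ ys, y ∈ S ∧ k0 * ‖1 - y.1‖ ≤ c0) → ∀ z ∈ S,
      |diffs ys u z| ≤ A * (ys.map (fun y => √(k0 * ‖1 - y.1‖))).prod) →
    ∀ z ∈ S, |(Dop q k)^[m] u z| ≤ A * (C * √((k0 : ℝ) / k)) ^ m + C * s * ((k0 : ℝ) / k) ^ (2 * q - 3) := by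
  obtain ⟨C1, hC1, h1⟩ := kint1 q hq
  obtain ⟨C2, hC2, h2⟩ := kint2 q hq c0 hc0
  obtain ⟨cI, hcI, hI⟩ := II_lower q
  refine ⟨C1 + m * 2 ^ m * C2 + 1, by positivity, ?_⟩
  intro k0 k hk0 hk u hu s A hs hA hus h z hz
  have hk1 : 1 ≤ k := hk0.trans hk
  have hk0' : (0 : ℝ) < k0 := by exact_mod_cast hk0
  have hk' : (0 : ℝ) < k := by exact_mod_cast hk1
  have hII : 0 < II q k := lt_of_lt_of_le (by positivity) (hI k hk1)
  have hr : (0 : ℝ) ≤ (k0 : ℝ) / k := by positivity
  have hG : ∫ y, √(k0 * ‖1 - y.1‖) * dens q k y ∂sig ≤ (C1 * √((k0 : ℝ) / k)) * II q k := by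
    have e : ∀ y : P, √(k0 * ‖1 - y.1‖) * dens q k y
        = √((k0 : ℝ) / k) * (√(k * ‖1 - y.1‖) * dens q k y) := by
      intro y
      rw [← mul_assoc, ← Real.sqrt_mul hr]
      congr 2
      field_simp
    simp only [e]
    rw [integral_const_mul]
    have h3 := mul_le_mul_of_nonneg_left (h1 k hk1) (Real.sqrt_nonneg ((k0 : ℝ) / k))
    linarith
  have h3 := neumann_iter q k k0 hk1 hII c0 (C1 * √((k0 : ℝ) / k))
    (C2 * ((k0 : ℝ) / k) ^ (2 * q - 3)) (by positivity) (by positivity) hG (h2 k0 k hk0 hk) m u hu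
    s A 0 hs hA le_rfl hus (by simpa using h) z hz
  refine h3.trans ?_
  rw [add_zero]
  have h4 : (C1 * √((k0 : ℝ) / k)) ^ m ≤ ((C1 + m * 2 ^ m * C2 + 1) * √((k0 : ℝ) / k)) ^ m := by
    apply pow_le_pow_left₀ (by positivity)
    apply mul_le_mul_of_nonneg_right _ (Real.sqrt_nonneg _)
    have : (0 : ℝ) ≤ m * 2 ^ m * C2 := by positivity
    linarith
  have h5 := mul_le_mul_of_nonneg_left h4 hA
  have h6 : (m : ℝ) * 2 ^ m * s * (C2 * ((k0 : ℝ) / k) ^ (2 * q - 3))
      ≤ (C1 + m * 2 ^ m * C2 + 1) * s * ((k0 : ℝ) / k) ^ (2 * q - 3) := by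
    have h7 : 0 ≤ (C1 + 1) * s * ((k0 : ℝ) / k) ^ (2 * q - 3) := by positivity
    linarith
  linarith

end Pool.Agent.H892PB
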