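import Pool.Agent.Helper892.PB.Geo

set_option autoImplicit false

open MeasureTheory Set
open scoped ComplexConjugate

namespace Pool.Agent.H892PB

/-! ### sig_basic -/

theorem sig_basic_cont : Continuous nsq := by
  unfold nsq
  fun_prop

theorem sig_basic_meas : Measurable nrm := by
  have h : Measurable fun u : P => (((1 / √(nsq u) : ℝ)) : ℂ) :=
    Complex.measurable_ofReal.comp (measurable_const.div sig_basic_cont.measurable.sqrt)
  exact (h.mul measurable_fst).prodMk (h.mul measurable_snd)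

theorem sig_basic_sub : {u : P | 1 ≤ nsq u ∧ nsq u ≤ 4} ⊆ Metric.closedBall 0 2 := by
  rintro u ⟨-, hu⟩
  rw [mem_closedBall_zero_iff, Prod.norm_def, max_le_iff]
  unfold nsq at hu
  constructor
  · nlinarith [norm_nonneg u.1, norm_nonneg u.2, sq_nonneg ‖u.2‖]
  · nlinarith [norm_nonneg u.1, norm_nonneg u.2, sq_nonneg ‖u.1‖]

theorem sig_basic_nrm (u : P) (hu : 1 ≤ nsq u) : nsq (nrm u) = 1 := by
  have h0 : 0 < nsq u := by linarith
  have h1 : 0 < √(nsq u) := Real.sqrt_pos.2 h0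
  have h2 : √(nsq u) ^ 2 = nsq u := Real.sq_sqrt h0.le
  have h3 : ‖(((1 / √(nsq u) : ℝ)) : ℂ)‖ = 1 / √(nsq u) := by
    rw [Complex.norm_real, Real.norm_of_nonneg (by positivity)]
  have h4 : nsq (nrm u) = (1 / √(nsq u)) ^ 2 * nsq u := by
    conv_lhs => unfold nsq nrm
    rw [Prod.smul_fst, Prod.smul_snd, norm_smul, norm_smul, h3, mul_pow, mul_pow, ← mul_add]
    rfl
  rw [h4, div_pow, h2, one_pow]
  field_simp

theorem sig_finite : IsFiniteMeasure sig := by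
  haveI : IsFiniteMeasure ((volume : Measure P).restrict {u | 1 ≤ nsq u ∧ nsq u ≤ 4}) := by
    refine ⟨?_⟩
    rw [Measure.restrict_apply_univ]
    exact (measure_mono sig_basic_sub).trans_lt measure_closedBall_lt_top
  unfold sig
  infer_instance

theorem sig_S : sig Sᶜ = 0 := by
  have hS : MeasurableSet (S : Set P) := (isClosed_eq sig_basic_cont continuous_const).measurableSet
  unfold sig
  rw [Measure.map_apply sig_basic_meas hS.compl, Measure.restrict_apply (sig_basic_meas hS.compl)]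
  have : nrm ⁻¹' Sᶜ ∩ {u | 1 ≤ nsq u ∧ nsq u ≤ 4} = ∅ := by
    rw [eq_empty_iff_forall_notMem]
    rintro u ⟨h1, h2, -⟩
    exact h1 (sig_basic_nrm u h2)
  rw [this, measure_empty]

/-! ### sig_inv -/

theorem sig_inv_nsq {z : P} (hz : z ∈ S) (y : P) : nsq (act y z) = nsq y := by
  have hz' : nsq z = 1 := hz
  have h : nsq (act y z) = nsq y * nsq z := by
    unfold nsq act perp
    simp only [Prod.fst_add, Prod.snd_add, Prod.smul_fst, Prod.smul_snd, smul_eq_mul,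
      Complex.sq_norm, Complex.normSq_apply, Complex.add_re, Complex.add_im, Complex.mul_re,
      Complex.mul_im, Complex.neg_re, Complex.neg_im, Complex.conj_re, Complex.conj_im]
    ring
  rw [h, hz', mul_one]

/-- the linear map -/
noncomputable def sig_inv_U (z : P) : P →ₗ[ℝ] P where
  toFun y := act y z
  map_add' a b := by
    unfold act
    simp only [Prod.fst_add, Prod.snd_add, add_smul]
    abel
  map_smul' c a := by
    unfold act
    simp only [Prod.smul_fst, Prod.smul_snd, smul_assoc, smul_add, RingHom.id_apply]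

theorem sig_inv_apply (z y : P) : sig_inv_U z y = act y z := rfl

theorem sig_inv_cont (z : P) : Continuous (fun y : P => act y z) := by
  unfold act
  fun_prop

theorem sig_inv_nsq_cont : Continuous nsq := by
  unfold nsq
  fun_prop

theorem sig_inv_nsq_zero {y : P} (h : nsq y = 0) : y = 0 := by
  unfold nsq at h
  have h1 : ‖y.1‖ = 0 := by nlinarith [sq_nonneg ‖y.1‖, sq_nonneg ‖y.2‖]
  have h2 : ‖y.2‖ = 0 := by nlinarith [sq_nonneg ‖y.1‖, sq_nonneg ‖y.2‖]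
  exact Prod.ext (norm_eq_zero.1 h1) (norm_eq_zero.1 h2)

theorem sig_inv_det {z : P} (hz : z ∈ S) : LinearMap.det (sig_inv_U z) ≠ 0 := by
  have hinj : Function.Injective (sig_inv_U z) := by
    rw [← LinearMap.ker_eq_bot, LinearMap.ker_eq_bot']
    intro y hy
    apply sig_inv_nsq_zero
    rw [← sig_inv_nsq hz y, ← sig_inv_apply, hy]
    simp [nsq]
  have h := (LinearEquiv.ofInjectiveEndo (sig_inv_U z) hinj).isUnit_det'
  have e : ((LinearEquiv.ofInjectiveEndo (sig_inv_U z) hinj : P ≃ₗ[ℝ] P) : P →ₗ[ℝ] P) =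
      sig_inv_U z := LinearMap.ext fun _ => rfl
  rw [e] at h
  exact h.ne_zero

theorem sig_inv_mp {z : P} (hz : z ∈ S) :
    MeasurePreserving (fun y : P => act y z) (volume : Measure P) volume := by
  refine ⟨(sig_inv_cont z).measurable, ?_⟩
  haveI : (volume : Measure P).IsAddHaarMeasure :=
    inferInstanceAs (((volume : Measure ℂ).prod (volume : Measure ℂ)).IsAddHaarMeasure)
  have h1 := Measure.map_linearMap_addHaar_eq_smul_addHaar (volume : Measure P) (sig_inv_det hz)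
  have h0 : (fun y : P => act y z) = (sig_inv_U z : P → P) := rfl
  rw [h0, h1]
  set c := ENNReal.ofReal |(LinearMap.det (sig_inv_U z))⁻¹| with hc
  let B : Set P := {y | nsq y ≤ 1}
  have hB : MeasurableSet B := (isClosed_le sig_inv_nsq_cont continuous_const).measurableSet
  have h2 : Measure.map (sig_inv_U z) (volume : Measure P) B = volume B := by
    rw [Measure.map_apply (by rw [← h0]; exact (sig_inv_cont z).measurable) hB]
    congr 1
    ext y
    show nsq (act y z) ≤ 1 ↔ nsq y ≤ 1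
    rw [sig_inv_nsq hz]
  rw [h1, Measure.smul_apply, smul_eq_mul] at h2
  have hBtop : (volume : Measure P) B ≠ ⊤ := by
    refine ((measure_mono ?_).trans_lt (measure_closedBall_lt_top (x := (0 : P)) (r := 1))).ne
    intro y hy
    have hy' : ‖y.1‖ ^ 2 + ‖y.2‖ ^ 2 ≤ 1 := hy
    rw [mem_closedBall_zero_iff, Prod.norm_def]
    refine max_le ?_ ?_
    · nlinarith [sq_nonneg ‖y.1‖, sq_nonneg ‖y.2‖, norm_nonneg y.1]
    · nlinarith [sq_nonneg ‖y.1‖, sq_nonneg ‖y.2‖, norm_nonneg y.2]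
  have hBpos : (volume : Measure P) B ≠ 0 := by
    refine ((Metric.measure_ball_pos volume (0 : P) (by norm_num : (0 : ℝ) < 1/2)).trans_le
      (measure_mono ?_)).ne'
    intro y hy
    rw [mem_ball_zero_iff, Prod.norm_def, max_lt_iff] at hy
    show ‖y.1‖ ^ 2 + ‖y.2‖ ^ 2 ≤ 1
    nlinarith [hy.1, hy.2, norm_nonneg y.1, norm_nonneg y.2]
  have h3 : c = 1 := by
    have h4 : c * volume B = 1 * volume B := by rw [h2, one_mul]
    exact (ENNReal.mul_left_inj hBpos hBtop).1 h4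
  rw [h3, one_smul]

theorem sig_inv_nrm_meas : Measurable nrm := by
  unfold nrm
  have h := sig_inv_nsq_cont.measurable
  have h1 : Measurable (fun u : P => (((1 / √(nsq u) : ℝ)) : ℂ)) :=
    Complex.measurable_ofReal.comp (measurable_const.div h.sqrt)
  exact h1.smul measurable_id


theorem sig_inv {z : P} (hz : z ∈ S) : Measure.map (fun y => act y z) sig = sig := by
  have hm : Measurable (fun y : P => act y z) := (sig_inv_cont z).measurable
  have hSh : MeasurableSet {u : P | 1 ≤ nsq u ∧ nsq u ≤ 4} :=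
    ((isClosed_le continuous_const sig_inv_nsq_cont).inter
      (isClosed_le sig_inv_nsq_cont continuous_const)).measurableSet
  have h1 := (sig_inv_mp hz).restrict_preimage hSh
  have h2 : (fun y : P => act y z) ⁻¹' {u : P | 1 ≤ nsq u ∧ nsq u ≤ 4} =
      {u : P | 1 ≤ nsq u ∧ nsq u ≤ 4} := by
    ext y
    show (1 ≤ nsq (act y z) ∧ nsq (act y z) ≤ 4) ↔ (1 ≤ nsq y ∧ nsq y ≤ 4)
    rw [sig_inv_nsq hz]
  rw [h2] at h1
  unfold sig
  rw [Measure.map_map hm sig_inv_nrm_meas]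
  have h3 : (fun y : P => act y z) ∘ nrm = nrm ∘ (fun y : P => act y z) := by
    funext y
    show act (nrm y) z = nrm (act y z)
    unfold nrm
    rw [sig_inv_nsq hz]
    unfold act
    simp only [Prod.smul_fst, Prod.smul_snd, smul_assoc, smul_add]
  rw [h3, ← Measure.map_map sig_inv_nrm_meas hm, h1.map_eq]

/-! ### sig_vol -/

theorem sig_vol_nsq_cont : Continuous nsq := by
  unfold nsq
  fun_prop

theorem sig_vol_nrm_meas : Measurable nrm := by
  have h1 : Measurable fun u : P => (((1 / √(nsq u) : ℝ)) : ℂ) :=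
    Complex.measurable_ofReal.comp
      (measurable_const.div (Real.continuous_sqrt.measurable.comp sig_vol_nsq_cont.measurable))
  exact h1.smul measurable_id

theorem sig_vol_set_meas (δ : ℝ) : MeasurableSet {y : P | ‖1 - y.1‖ ≤ δ} := by
  apply IsClosed.measurableSet
  exact isClosed_le (by fun_prop) continuous_const

theorem sig_vol_eq (δ : ℝ) : sig {y | ‖1 - y.1‖ ≤ δ} =
    (volume : Measure P) (nrm ⁻¹' {y | ‖1 - y.1‖ ≤ δ} ∩ {u | 1 ≤ nsq u ∧ nsq u ≤ 4}) := by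
  unfold sig
  rw [Measure.map_apply sig_vol_nrm_meas (sig_vol_set_meas δ),
    Measure.restrict_apply (sig_vol_nrm_meas (sig_vol_set_meas δ))]

theorem sig_vol_rect (a b c d : ℝ) : (volume : Measure ℂ) (Icc a b ×ℂ Icc c d) =
    ENNReal.ofReal (b - a) * ENNReal.ofReal (d - c) := by
  have h1 : (Icc a b ×ℂ Icc c d) = Complex.measurableEquivRealProd ⁻¹' (Icc a b ×ˢ Icc c d) := by
    ext z
    simp [Complex.mem_reProdIm]
    tauto
  rw [h1, Complex.volume_preserving_equiv_real_prod.measure_preimage_equiv,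
    Measure.volume_eq_prod, Measure.prod_prod, Real.volume_Icc, Real.volume_Icc]

theorem sig_vol_fst (u : P) (h : 0 < √(nsq u)) : ‖1 - (nrm u).1‖ * √(nsq u) =
    ‖((√(nsq u) : ℝ) : ℂ) - u.1‖ := by
  have h1 : (nrm u).1 = (((1 / √(nsq u) : ℝ)) : ℂ) * u.1 := rfl
  have h2 : ((√(nsq u) : ℝ) : ℂ) - u.1 = (1 - (nrm u).1) * ((√(nsq u) : ℝ) : ℂ) := by
    rw [h1]
    have h3 : ((√(nsq u) : ℝ) : ℂ) ≠ 0 := by
      exact_mod_cast h.ne'
    push_cast
    field_simp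
  rw [h2, norm_mul, Complex.norm_real, Real.norm_of_nonneg h.le]

theorem sig_vol_box_up (δ : ℝ) (hδ : 0 < δ) :
    nrm ⁻¹' {y | ‖1 - y.1‖ ≤ δ} ∩ {u | 1 ≤ nsq u ∧ nsq u ≤ 4} ⊆
      (Icc (-2) 2 ×ℂ Icc (-(2 * δ)) (2 * δ)) ×ˢ Metric.closedBall (0 : ℂ) (√(8 * δ)) := by
  rintro u ⟨h1, h2, h3⟩
  have h1' : ‖1 - (nrm u).1‖ ≤ δ := h1
  set r := √(nsq u) with hr
  have hr1 : 1 ≤ r := by rw [hr]; exact Real.one_le_sqrt.2 h2
  have hr2 : r ≤ 2 := by
    rw [hr]
    rw [Real.sqrt_le_left (by norm_num)]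
    linarith
  have hrsq : r ^ 2 = ‖u.1‖ ^ 2 + ‖u.2‖ ^ 2 := by
    rw [hr, Real.sq_sqrt (by linarith)]
    rfl
  have hr0 : 0 < r := by linarith
  have h4 : ‖(r : ℂ) - u.1‖ ≤ 2 * δ := by
    rw [← sig_vol_fst u hr0]
    calc ‖1 - (nrm u).1‖ * r ≤ δ * 2 := by
          apply mul_le_mul h1' hr2 hr0.le hδ.le
      _ = 2 * δ := by ring
  have hre : |r - u.1.re| ≤ 2 * δ := by
    have := Complex.abs_re_le_norm ((r : ℂ) - u.1)
    simp only [Complex.sub_re, Complex.ofReal_re] at this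
    exact this.trans h4
  have him : |u.1.im| ≤ 2 * δ := by
    have := Complex.abs_im_le_norm ((r : ℂ) - u.1)
    simp only [Complex.sub_im, Complex.ofReal_im, zero_sub, abs_neg] at this
    exact this.trans h4
  have hu1 : ‖u.1‖ ≤ r := by
    have : ‖u.1‖ ^ 2 ≤ r ^ 2 := by rw [hrsq]; nlinarith [sq_nonneg ‖u.2‖]
    have h6 := abs_le_of_sq_le_sq this hr0.le
    rwa [abs_of_nonneg (norm_nonneg _)] at h6
  have hu1' : r - 2 * δ ≤ ‖u.1‖ := by
    have := norm_sub_norm_le (r : ℂ) u.1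
    rw [Complex.norm_real, Real.norm_of_nonneg hr0.le] at this
    linarith
  refine ⟨?_, ?_⟩
  · rw [Complex.mem_reProdIm]
    refine ⟨?_, ?_⟩
    · have h5 := (abs_le.1 (Complex.abs_re_le_norm u.1))
      exact ⟨by linarith, by linarith⟩
    · exact ⟨(abs_le.1 him).1, (abs_le.1 him).2⟩
  · rw [mem_closedBall_zero_iff]
    apply Real.le_sqrt_of_sq_le
    nlinarith [norm_nonneg u.1]

theorem sig_upper0 : ∃ C : ℝ, 0 < C ∧ ∀ δ : ℝ, 0 < δ → sig {y | ‖1 - y.1‖ ≤ δ} ≤ ENNReal.ofReal (C * δ ^ 2) := by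
  refine ⟨128 * Real.pi, by positivity, fun δ hδ => ?_⟩
  rw [sig_vol_eq]
  refine (measure_mono (sig_vol_box_up δ hδ)).trans ?_
  rw [Measure.volume_eq_prod, Measure.prod_prod, sig_vol_rect, Complex.volume_closedBall]
  have h1 : (ENNReal.ofReal (√(8 * δ)) ^ 2) = ENNReal.ofReal (8 * δ) := by
    rw [← ENNReal.ofReal_pow (Real.sqrt_nonneg _), Real.sq_sqrt (by positivity)]
  have h2 : ((NNReal.pi : NNReal) : ENNReal) = ENNReal.ofReal Real.pi := by
    rw [ENNReal.ofReal, ← NNReal.coe_real_pi, Real.toNNReal_coe]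
  rw [h1, h2, ← ENNReal.ofReal_mul (by norm_num), ← ENNReal.ofReal_mul (by positivity),
    ← ENNReal.ofReal_mul (by nlinarith)]
  apply ENNReal.ofReal_le_ofReal
  nlinarith [Real.pi_pos]

theorem sig_vol_box_low (δ : ℝ) (hδ : 0 < δ) (hδ2 : δ ≤ 2) :
    (Icc (6 / 5) (7 / 5) ×ℂ Icc (-(δ / 10)) (δ / 10)) ×ˢ Metric.closedBall (0 : ℂ) (√(δ / 10)) ⊆
      nrm ⁻¹' {y | ‖1 - y.1‖ ≤ δ} ∩ {u | 1 ≤ nsq u ∧ nsq u ≤ 4} := by
  rintro u ⟨h1, h2⟩
  rw [Complex.mem_reProdIm] at h1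
  obtain ⟨⟨h3, h4⟩, h5, h6⟩ := h1
  rw [mem_closedBall_zero_iff] at h2
  have h2' : ‖u.2‖ ^ 2 ≤ δ / 10 := by
    have := pow_le_pow_left₀ (norm_nonneg _) h2 2
    rwa [Real.sq_sqrt (by positivity)] at this
  have hn1 : ‖u.1‖ ^ 2 = u.1.re ^ 2 + u.1.im ^ 2 := by
    rw [Complex.sq_norm, Complex.normSq_apply]
    ring
  have him : u.1.im ^ 2 ≤ δ ^ 2 / 100 := by nlinarith
  have hnsq : nsq u = u.1.re ^ 2 + u.1.im ^ 2 + ‖u.2‖ ^ 2 := by
    unfold nsq
    rw [hn1]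
  have hge : 1 ≤ nsq u := by
    rw [hnsq]; nlinarith [sq_nonneg u.1.im, sq_nonneg ‖u.2‖]
  have hle : nsq u ≤ 4 := by
    rw [hnsq]; nlinarith
  refine ⟨?_, hge, hle⟩
  show ‖1 - (nrm u).1‖ ≤ δ
  set r := √(nsq u) with hr
  have hr1 : 1 ≤ r := by rw [hr]; exact Real.one_le_sqrt.2 hge
  have hrsq : r ^ 2 = u.1.re ^ 2 + u.1.im ^ 2 + ‖u.2‖ ^ 2 := by
    rw [hr, Real.sq_sqrt (by linarith), hnsq]
  have hr0 : 0 < r := by linarith
  have hrre : u.1.re ≤ r := by
    by_contra hc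
    push Not at hc
    nlinarith [sq_nonneg u.1.im, sq_nonneg ‖u.2‖]
  have hdiff : r - u.1.re ≤ δ / 10 := by
    by_contra hc
    push Not at hc
    nlinarith [sq_nonneg u.1.im, sq_nonneg ‖u.2‖]
  have hkey := sig_vol_fst u hr0
  rw [← hr] at hkey
  have h7 : ‖(r : ℂ) - u.1‖ ≤ |r - u.1.re| + |u.1.im| := by
    have := Complex.norm_le_abs_re_add_abs_im ((r : ℂ) - u.1)
    simpa using this
  have h8 : |r - u.1.re| ≤ δ / 10 := by
    rw [abs_of_nonneg (by linarith)]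
    exact hdiff
  have h9 : |u.1.im| ≤ δ / 10 := abs_le.2 ⟨h5, h6⟩
  have h10 : ‖1 - (nrm u).1‖ ≤ ‖1 - (nrm u).1‖ * r := le_mul_of_one_le_right (norm_nonneg _) hr1
  linarith

theorem sig_lower0 : ∃ c : ℝ, 0 < c ∧ ∀ δ : ℝ, 0 < δ → δ ≤ 2 → ENNReal.ofReal (c * δ ^ 2) ≤ sig {y | ‖1 - y.1‖ ≤ δ} := by
  refine ⟨1 / 250 * Real.pi, by positivity, fun δ hδ hδ2 => ?_⟩
  rw [sig_vol_eq]
  refine le_trans ?_ (measure_mono (sig_vol_box_low δ hδ hδ2))
  rw [Measure.volume_eq_prod, Measure.prod_prod, sig_vol_rect, Complex.volume_closedBall]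
  have h1 : (ENNReal.ofReal (√(δ / 10)) ^ 2) = ENNReal.ofReal (δ / 10) := by
    rw [← ENNReal.ofReal_pow (Real.sqrt_nonneg _), Real.sq_sqrt (by positivity)]
  have h2 : ((NNReal.pi : NNReal) : ENNReal) = ENNReal.ofReal Real.pi := by
    rw [ENNReal.ofReal, ← NNReal.coe_real_pi, Real.toNNReal_coe]
  rw [h1, h2, ← ENNReal.ofReal_mul (by norm_num), ← ENNReal.ofReal_mul (by positivity),
    ← ENNReal.ofReal_mul (by nlinarith)]
  apply ENNReal.ofReal_le_ofReal
  nlinarith [Real.pi_pos]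

/-! ### sig_ball -/

theorem sig_ball_eq {z : P} (hz : z ∈ S) (δ : ℝ) :
    sig {ζ | D z ζ ≤ δ} = sig {y | ‖1 - y.1‖ ≤ δ} := by
  have hc : Continuous (fun ζ : P => D z ζ) := by
    unfold D ip
    fun_prop
  have hm : MeasurableSet {ζ : P | D z ζ ≤ δ} := measurableSet_le hc.measurable measurable_const
  have ha : Continuous (fun y : P => act y z) := by
    unfold act
    fun_prop
  conv_lhs => rw [← sig_inv hz]
  rw [Measure.map_apply ha.measurable hm]
  congr 1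
  ext y
  simp only [mem_preimage, mem_setOf_eq]
  rw [D_act hz]

theorem sig_upper : ∃ C : ℝ, 0 < C ∧ ∀ z ∈ S, ∀ δ : ℝ, 0 < δ → (sig {ζ | D z ζ ≤ δ}).toReal ≤ C * δ ^ 2 := by
  obtain ⟨C, hC, h⟩ := sig_upper0
  refine ⟨C, hC, fun z hz δ hδ => ?_⟩
  rw [sig_ball_eq hz]
  exact ENNReal.toReal_le_of_le_ofReal (by positivity) (h δ hδ)

theorem sig_lower : ∃ c : ℝ, 0 < c ∧ ∀ z ∈ S, ∀ δ : ℝ, 0 < δ → δ ≤ 2 → c * δ ^ 2 ≤ (sig {ζ | D z ζ ≤ δ}).toReal := by
  obtain ⟨c, hc, h⟩ := sig_lower0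
  haveI := sig_finite
  refine ⟨c, hc, fun z hz δ hδ h2 => ?_⟩
  rw [sig_ball_eq hz]
  exact (ENNReal.ofReal_le_iff_le_toReal (measure_ne_top _ _)).mp (h δ hδ h2)

/-! ### sig_int -/

theorem sig_int_pt (X : ℝ) (hX : 0 ≤ X) (N : ℕ) (h : X ≤ 2 ^ N) :
    ((1 + X) ^ 3)⁻¹ ≤
      ∑ n ∈ Finset.range (N + 1), if X ≤ 2 ^ n then 8 * ((8:ℝ)⁻¹) ^ n else 0 := by
  induction N with
  | zero =>
    rw [Finset.sum_range_one, if_pos h]
    have h1 : ((1 + X) ^ 3)⁻¹ ≤ 1 := by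
      apply inv_le_one_of_one_le₀
      exact one_le_pow₀ (by linarith)
    rw [pow_zero]
    linarith
  | succ N ih =>
    rw [Finset.sum_range_succ]
    by_cases hN : X ≤ 2 ^ N
    · have h1 := ih hN
      have h2 : (0:ℝ) ≤ if X ≤ 2 ^ (N+1) then 8 * ((8:ℝ)⁻¹) ^ (N+1) else 0 := by
        split_ifs <;> positivity
      linarith
    · push Not at hN
      rw [if_pos h]
      have h1 : (0:ℝ) ≤ ∑ n ∈ Finset.range (N+1),
          if X ≤ 2 ^ n then 8 * ((8:ℝ)⁻¹) ^ n else 0 :=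
        Finset.sum_nonneg (fun n _ => by split_ifs <;> positivity)
      have h3 : ((1 + X)^3)⁻¹ ≤ (((2:ℝ)^N)^3)⁻¹ := by
        apply inv_anti₀ (by positivity)
        apply pow_le_pow_left₀ (by positivity)
        linarith
      have h4 : (((2:ℝ)^N)^3)⁻¹ = 8 * ((8:ℝ)⁻¹)^(N+1) := by
        rw [← pow_mul, mul_comm N 3, pow_mul, inv_pow, pow_succ]
        norm_num
        field_simp
        ring
      linarith

theorem sig_int : ∃ C : ℝ, 0 < C ∧ ∀ k : ℕ, 1 ≤ k → ∀ z ∈ S,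
    ∫ ζ, ((1 + k * D z ζ) ^ 3)⁻¹ ∂sig ≤ C / (k : ℝ) ^ 2 := by
  haveI := sig_finite
  obtain ⟨C, hC, hup⟩ := sig_upper
  refine ⟨16 * C, by positivity, ?_⟩
  intro k hk z hz
  have hk0 : (0:ℝ) < k := by exact_mod_cast hk
  have hD : Continuous (fun ζ => D z ζ) := by
    unfold D ip
    fun_prop
  have hA : ∀ n : ℕ, MeasurableSet {ζ | D z ζ ≤ 2 ^ n / k} :=
    fun n => (isClosed_le hD continuous_const).measurableSet
  have hint : ∀ n : ℕ, Integrable ({ζ | D z ζ ≤ 2 ^ n / k}.indicator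
      (fun _ => 8 * ((8:ℝ)⁻¹) ^ n)) sig := fun n => (integrable_const _).indicator (hA n)
  have hS : ∀ᵐ ζ ∂sig, ζ ∈ S := by
    rw [ae_iff]
    exact sig_S
  have h1 : ∫ ζ, ((1 + k * D z ζ) ^ 3)⁻¹ ∂sig ≤
      ∫ ζ, ∑ n ∈ Finset.range (k + 1 + 1), {ζ | D z ζ ≤ 2 ^ n / k}.indicator
        (fun _ => 8 * ((8:ℝ)⁻¹) ^ n) ζ ∂sig := by
    apply integral_mono_of_nonneg
    · refine Filter.Eventually.of_forall (fun ζ => ?_)
      have := D_nonneg z ζ
      change 0 ≤ ((1 + k * D z ζ) ^ 3)⁻¹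
      positivity
    · exact integrable_finset_sum _ (fun n _ => hint n)
    · filter_upwards [hS] with ζ hζ
      have e1 := D_nonneg z ζ
      have e2 := D_le_two hz hζ
      have e3 : (k : ℝ) * D z ζ ≤ 2 ^ (k + 1) := by
        have e4 : (k : ℝ) ≤ 2 ^ k := by
          exact_mod_cast (Nat.lt_two_pow_self (n := k)).le
        have e5 : (k : ℝ) * D z ζ ≤ k * 2 := mul_le_mul_of_nonneg_left e2 hk0.le
        rw [pow_succ]
        linarith
      refine (sig_int_pt (k * D z ζ) (by positivity) (k + 1) e3).trans (le_of_eq ?_)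
      apply Finset.sum_congr rfl
      intro n _
      rw [Set.indicator_apply]
      have e6 : ((k : ℝ) * D z ζ ≤ 2 ^ n) ↔ ζ ∈ {ζ | D z ζ ≤ 2 ^ n / k} := by
        change _ ↔ D z ζ ≤ 2 ^ n / k
        rw [le_div_iff₀ hk0, mul_comm]
      simp only [e6]
  rw [integral_finset_sum _ (fun n _ => hint n)] at h1
  refine h1.trans ?_
  have h2 : ∀ n ∈ Finset.range (k + 1 + 1), ∫ ζ, {ζ | D z ζ ≤ 2 ^ n / k}.indicator
        (fun _ => 8 * ((8:ℝ)⁻¹) ^ n) ζ ∂sig ≤ 8 * C / (k : ℝ) ^ 2 * (1 / 2) ^ n := by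
    intro n _
    rw [integral_indicator_const _ (hA n), smul_eq_mul]
    have h3 : sig.real {ζ | D z ζ ≤ 2 ^ n / k} ≤ C * (2 ^ n / k) ^ 2 :=
      hup z hz (2 ^ n / k) (by positivity)
    have h5 := mul_le_mul_of_nonneg_right h3 (show (0:ℝ) ≤ 8 * (8⁻¹) ^ n by positivity)
    refine h5.trans (le_of_eq ?_)
    have e : ((2:ℝ) ^ n) ^ 2 * (8⁻¹) ^ n = (1 / 2) ^ n := by
      rw [← pow_mul, mul_comm n 2, pow_mul, ← mul_pow]
      norm_num
    rw [← e]
    ring
  refine (Finset.sum_le_sum h2).trans ?_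
  rw [← Finset.mul_sum]
  have h6 := sum_geometric_two_le (k + 1 + 1)
  have h7 := mul_le_mul_of_nonneg_left h6 (show 0 ≤ 8 * C / (k : ℝ) ^ 2 by positivity)
  refine h7.trans (le_of_eq ?_)
  ring

end Pool.Agent.H892PB
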