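import Pool.Agent.Helper892.PB.Disc
import Pool.Agent.Helper892.PB.Cau

set_option autoImplicit false

open MeasureTheory Set
open scoped ComplexConjugate

namespace Pool.Agent.H892PB

/-! ### wave_diff -/

theorem wave_diff (q k K d : ℕ) (Λ : Finset P) (w : P → ℝ) (ξ : P → Fin d → ℂ) (col : P → Fin K)
    (g : Fin K) (c : Fin d) : Differentiable ℂ (wave q k Λ w ξ col g c) := by
  have h1 : ∀ ζ : P, Differentiable ℂ fun z : P => ip z ζ := by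
    intro ζ
    unfold ip
    exact (differentiable_fst.mul_const _).add (differentiable_snd.mul_const _)
  have h2 : ∀ ζ : P, Differentiable ℂ fun z : P => F k (ip z ζ) := by
    intro ζ
    unfold F
    simp only [div_eq_mul_inv]
    apply Differentiable.mul_const
    apply Differentiable.fun_sum
    intro i _
    exact (h1 ζ).pow i
  unfold wave
  apply Differentiable.fun_sum
  intro ζ _
  exact ((h2 ζ).pow q).const_mul _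

/-! ### pair_sum -/

theorem pair_sum (q : ℕ) (hq : 3 ≤ q) : ∃ C : ℝ, 0 < C ∧ ∀ (K k : ℕ), 1 ≤ k → ∀ r : ℝ, 0 < r → r ≤ 1 →
    ∀ (Λ : Finset P) (col : P → Fin K), (∀ ζ ∈ Λ, ζ ∈ S) →
    (∀ ζ ∈ Λ, ∀ ζ' ∈ Λ, ζ ≠ ζ' → r ^ 2 ≤ k * D ζ ζ') →
    (∀ ζ ∈ Λ, ∀ ζ' ∈ Λ, ζ ≠ ζ' → col ζ = col ζ' → 1 / r ^ 2 ≤ k * D ζ ζ') →
    ∀ x ∈ S, ∑ e ∈ (Λ ×ˢ Λ).filter (fun e => e.1 ≠ e.2 ∧ col e.1 = col e.2),
      ((1 + k * D x e.1) ^ q)⁻¹ * ((1 + k * D x e.2) ^ q)⁻¹ ≤ C * r ^ (2 * (q - 3)) / r ^ 8 := by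
  obtain ⟨C, hC, hsep⟩ := sep_sum
  refine ⟨2 ^ (q - 3) * C ^ 2, by positivity, ?_⟩
  intro K k hk r hr hr1 Λ col hΛ h1 h2 x hx
  have hk0 : (0:ℝ) ≤ k := Nat.cast_nonneg k
  have hs := hsep k hk r hr hr1 Λ hΛ h1 x hx
  have hf0 : ∀ ζ, 0 ≤ ((1 + k * D x ζ) ^ 3)⁻¹ := fun ζ => by
    have := mul_nonneg hk0 (D_nonneg x ζ)
    positivity
  have hterm : ∀ e ∈ (Λ ×ˢ Λ).filter (fun e => e.1 ≠ e.2 ∧ col e.1 = col e.2),
      ((1 + k * D x e.1) ^ q)⁻¹ * ((1 + k * D x e.2) ^ q)⁻¹ ≤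
      (2 * r ^ 2) ^ (q - 3) * (((1 + k * D x e.1) ^ 3)⁻¹ * ((1 + k * D x e.2) ^ 3)⁻¹) := by
    intro e he
    rw [Finset.mem_filter, Finset.mem_product] at he
    obtain ⟨⟨he1, he2⟩, hne, hcol⟩ := he
    have hA0 : 0 ≤ k * D x e.1 := mul_nonneg hk0 (D_nonneg x e.1)
    have hB0 : 0 ≤ k * D x e.2 := mul_nonneg hk0 (D_nonneg x e.2)
    have h3 := h2 e.1 he1 e.2 he2 hne hcol
    have h4 := D_triangle hx (hΛ e.1 he1) (hΛ e.2 he2)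
    have h5 : D e.1 e.2 ≤ 2 * D x e.1 + 2 * D x e.2 := by
      have s1 := Real.sqrt_nonneg (D e.1 e.2)
      have s2 := Real.sqrt_nonneg (D x e.2)
      have s3 := Real.sqrt_nonneg (D x e.1)
      have q1 := Real.sq_sqrt (D_nonneg e.1 e.2)
      have q2 := Real.sq_sqrt (D_nonneg x e.2)
      have q3 := Real.sq_sqrt (D_nonneg x e.1)
      have h6 : √(D e.1 e.2) ^ 2 ≤ (√(D x e.2) + √(D x e.1)) ^ 2 := by
        exact pow_le_pow_left₀ s1 h4 2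
      nlinarith [sq_nonneg (√(D x e.2) - √(D x e.1))]
    have h6 : 1 / r ^ 2 ≤ 2 * ((1 + k * D x e.1) * (1 + k * D x e.2)) := by
      have h7 : k * D e.1 e.2 ≤ k * (2 * D x e.1 + 2 * D x e.2) :=
        mul_le_mul_of_nonneg_left h5 hk0
      nlinarith [mul_nonneg hA0 hB0]
    have hP : 0 < (1 + k * D x e.1) * (1 + k * D x e.2) := by positivity
    have h8 : ((1 + k * D x e.1) * (1 + k * D x e.2))⁻¹ ≤ 2 * r ^ 2 := by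
      rw [div_le_iff₀ (by positivity)] at h6
      rw [inv_le_iff_one_le_mul₀ hP]
      linarith
    have hq' : q = (q - 3) + 3 := by omega
    have e1 : ((1 + k * D x e.1) ^ q)⁻¹ * ((1 + k * D x e.2) ^ q)⁻¹ =
        (((1 + k * D x e.1) * (1 + k * D x e.2))⁻¹) ^ (q - 3) *
          (((1 + k * D x e.1) ^ 3)⁻¹ * ((1 + k * D x e.2) ^ 3)⁻¹) := by
      conv_lhs => rw [hq']
      rw [pow_add, pow_add, inv_pow, mul_pow]
      field_simp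
    rw [e1]
    exact mul_le_mul_of_nonneg_right (pow_le_pow_left₀ (inv_nonneg.2 hP.le) h8 _)
      (mul_nonneg (hf0 _) (hf0 _))
  calc ∑ e ∈ (Λ ×ˢ Λ).filter (fun e => e.1 ≠ e.2 ∧ col e.1 = col e.2),
      ((1 + k * D x e.1) ^ q)⁻¹ * ((1 + k * D x e.2) ^ q)⁻¹
      ≤ ∑ e ∈ (Λ ×ˢ Λ).filter (fun e => e.1 ≠ e.2 ∧ col e.1 = col e.2),
        (2 * r ^ 2) ^ (q - 3) * (((1 + k * D x e.1) ^ 3)⁻¹ * ((1 + k * D x e.2) ^ 3)⁻¹) :=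
        Finset.sum_le_sum hterm
    _ ≤ ∑ e ∈ Λ ×ˢ Λ,
        (2 * r ^ 2) ^ (q - 3) * (((1 + k * D x e.1) ^ 3)⁻¹ * ((1 + k * D x e.2) ^ 3)⁻¹) :=
        Finset.sum_le_sum_of_subset_of_nonneg (Finset.filter_subset _ _)
          (fun e _ _ => mul_nonneg (by positivity) (mul_nonneg (hf0 _) (hf0 _)))
    _ = (2 * r ^ 2) ^ (q - 3) * ((∑ ζ ∈ Λ, ((1 + k * D x ζ) ^ 3)⁻¹) *
          ∑ ζ ∈ Λ, ((1 + k * D x ζ) ^ 3)⁻¹) := by
        rw [← Finset.mul_sum, Finset.sum_mul_sum, Finset.sum_product]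
    _ ≤ (2 * r ^ 2) ^ (q - 3) * ((C / r ^ 4) * (C / r ^ 4)) := by
        apply mul_le_mul_of_nonneg_left _ (by positivity)
        exact mul_le_mul hs hs (Finset.sum_nonneg (fun ζ _ => hf0 ζ)) (by positivity)
    _ = 2 ^ (q - 3) * C ^ 2 * r ^ (2 * (q - 3)) / r ^ 8 := by
        rw [mul_pow, ← pow_mul]
        field_simp

/-! ### wave_sq -/

theorem wave_sq_scalar {K : ℕ} (Λ : Finset P) (col : P → Fin K) (b : P → ℂ) :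
    ∑ g, ‖∑ ζ ∈ Λ.filter (fun ζ => col ζ = g), b ζ‖ ^ 2 = ∑ ζ ∈ Λ, ‖b ζ‖ ^ 2 +
      ∑ e ∈ (Λ ×ˢ Λ).filter (fun e => e.1 ≠ e.2 ∧ col e.1 = col e.2), (b e.1 * conj (b e.2)).re := by
  classical
  have h1 : ∀ g, ‖∑ ζ ∈ Λ.filter (fun ζ => col ζ = g), b ζ‖ ^ 2 =
      ∑ e ∈ ((Λ ×ˢ Λ).filter (fun e => col e.1 = col e.2)).filter (fun e => col e.1 = g),
        (b e.1 * conj (b e.2)).re := by
    intro g
    have h2 : ((Λ ×ˢ Λ).filter (fun e => col e.1 = col e.2)).filter (fun e => col e.1 = g) =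
        (Λ.filter (fun ζ => col ζ = g)) ×ˢ (Λ.filter (fun ζ => col ζ = g)) := by
      ext e
      simp only [Finset.mem_filter, Finset.mem_product]
      constructor
      · rintro ⟨⟨⟨h3, h4⟩, h5⟩, h6⟩
        exact ⟨⟨h3, h6⟩, h4, by rw [← h5]; exact h6⟩
      · rintro ⟨⟨h3, h6⟩, h4, h7⟩
        exact ⟨⟨⟨h3, h4⟩, by rw [h6, h7]⟩, h6⟩
    have h3 : ∀ A : Finset P, ∑ e ∈ A ×ˢ A, (b e.1 * conj (b e.2)) =
        (∑ ζ ∈ A, b ζ) * conj (∑ ζ ∈ A, b ζ) := by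
      intro A
      rw [Finset.sum_product, map_sum, Finset.sum_mul_sum]
    rw [h2, ← Complex.re_sum, h3, Complex.mul_conj, Complex.ofReal_re, Complex.normSq_eq_norm_sq]
  simp only [h1]
  rw [Finset.sum_fiberwise]
  rw [← Finset.sum_filter_add_sum_filter_not ((Λ ×ˢ Λ).filter (fun e => col e.1 = col e.2))
    (fun e => e.1 = e.2)]
  congr 1
  · have h3 : ((Λ ×ˢ Λ).filter (fun e => col e.1 = col e.2)).filter (fun e => e.1 = e.2) =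
        Λ.diag := by
      ext e
      simp only [Finset.mem_filter, Finset.mem_product, Finset.mem_diag]
      constructor
      · rintro ⟨⟨⟨h3, h4⟩, h5⟩, h6⟩
        exact ⟨h3, h6⟩
      · rintro ⟨h3, h6⟩
        exact ⟨⟨⟨h3, by rw [← h6]; exact h3⟩, by rw [h6]⟩, h6⟩
    rw [h3, Finset.sum_diag]
    apply Finset.sum_congr rfl
    intro ζ _
    rw [Complex.mul_conj, Complex.ofReal_re, Complex.normSq_eq_norm_sq]
  · apply Finset.sum_congr _ (fun _ _ => rfl)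
    ext e
    simp only [Finset.mem_filter, Finset.mem_product]
    constructor
    · rintro ⟨⟨⟨h3, h4⟩, h5⟩, h6⟩
      exact ⟨⟨h3, h4⟩, h6, h5⟩
    · rintro ⟨⟨h3, h4⟩, h6, h5⟩
      exact ⟨⟨⟨h3, h4⟩, h5⟩, h6⟩

theorem wave_sq_expand {K d : ℕ} (Λ : Finset P) (col : P → Fin K) (a : P → Fin d → ℂ) :
    |∑ g, ∑ c, ‖∑ ζ ∈ Λ.filter (fun ζ => col ζ = g), a ζ c‖ ^ 2 - ∑ ζ ∈ Λ, ∑ c, ‖a ζ c‖ ^ 2| ≤
      ∑ e ∈ (Λ ×ˢ Λ).filter (fun e => e.1 ≠ e.2 ∧ col e.1 = col e.2),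
        ∑ c, ‖a e.1 c‖ * ‖a e.2 c‖ := by
  rw [Finset.sum_comm]
  have h1 : ∀ c, ∑ g, ‖∑ ζ ∈ Λ.filter (fun ζ => col ζ = g), a ζ c‖ ^ 2 = _ :=
    fun c => wave_sq_scalar Λ col (fun ζ => a ζ c)
  simp only [h1]
  rw [Finset.sum_add_distrib, Finset.sum_comm (s := Finset.univ) (t := Λ), add_sub_cancel_left,
    Finset.sum_comm]
  refine (Finset.abs_sum_le_sum_abs _ _).trans ?_
  apply Finset.sum_le_sum
  intro e _
  refine (Finset.abs_sum_le_sum_abs _ _).trans ?_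
  apply Finset.sum_le_sum
  intro c _
  refine (Complex.abs_re_le_norm _).trans ?_
  rw [norm_mul, Complex.norm_conj]

/-- the main estimate of the off-diagonal part -/
theorem wave_sq_off (q : ℕ) (hq : 6 ≤ q) {CP : ℝ} (hCP0 : 0 < CP) {K d k : ℕ} {r : ℝ} (hr : 0 < r)
    (hr1 : r ≤ 1) (Λ : Finset P) (col : P → Fin K) (w : P → ℝ) (ξ : P → Fin d → ℂ) (c1 ε : ℝ)
    (hc1 : 0 ≤ c1) (hε : 0 ≤ ε)
    (hw : ∀ ζ ∈ Λ, 0 ≤ w ζ ∧ w ζ ≤ c1 * ε * r ^ 4)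
    (hξ : ∀ ζ ∈ Λ, ∑ c, ‖ξ ζ c‖ ^ 2 = 1) (z x : P) (M : ℝ) (hM : 0 ≤ M)
    (hP : ∑ e ∈ (Λ ×ˢ Λ).filter (fun e => e.1 ≠ e.2 ∧ col e.1 = col e.2),
      ((1 + k * D x e.1) ^ q)⁻¹ * ((1 + k * D x e.2) ^ q)⁻¹ ≤ CP * r ^ (2 * (q - 3)) / r ^ 8)
    (hF : ∀ ζ ∈ Λ, ‖F k (ip z ζ)‖ ≤ M / (1 + k * D x ζ)) :
    |∑ g, ∑ c, ‖wave q k Λ w ξ col g c z‖ ^ 2 - ∑ ζ ∈ Λ, w ζ * ‖F k (ip z ζ)‖ ^ (2 * q)|
      ≤ M ^ (2 * q) * CP * c1 * ε * r ^ 2 := by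
  set a : P → Fin d → ℂ := fun ζ c => ((√(w ζ) : ℝ) : ℂ) * ξ ζ c * (F k (ip z ζ)) ^ q with ha
  have hna : ∀ ζ c, ‖a ζ c‖ = √(w ζ) * ‖ξ ζ c‖ * ‖F k (ip z ζ)‖ ^ q := by
    intro ζ c
    rw [ha]
    simp only [norm_mul, norm_pow, Complex.norm_real, Real.norm_eq_abs, abs_of_nonneg (Real.sqrt_nonneg _)]
  have hdiag : ∑ ζ ∈ Λ, ∑ c, ‖a ζ c‖ ^ 2 = ∑ ζ ∈ Λ, w ζ * ‖F k (ip z ζ)‖ ^ (2 * q) := by
    apply Finset.sum_congr rfl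
    intro ζ hζ
    have h1 : ∀ c, ‖a ζ c‖ ^ 2 = (w ζ * ‖F k (ip z ζ)‖ ^ (2 * q)) * ‖ξ ζ c‖ ^ 2 := by
      intro c
      rw [hna, mul_pow, mul_pow, Real.sq_sqrt (hw ζ hζ).1, ← pow_mul, mul_comm q 2]
      ring
    simp only [h1]
    rw [← Finset.mul_sum, hξ ζ hζ, mul_one]
  have hexp := wave_sq_expand Λ col a
  rw [hdiag] at hexp
  refine hexp.trans ?_
  have hterm : ∀ e ∈ (Λ ×ˢ Λ).filter (fun e => e.1 ≠ e.2 ∧ col e.1 = col e.2),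
      ∑ c, ‖a e.1 c‖ * ‖a e.2 c‖ ≤ (c1 * ε * r ^ 4 * M ^ (2 * q)) *
        (((1 + k * D x e.1) ^ q)⁻¹ * ((1 + k * D x e.2) ^ q)⁻¹) := by
    intro e he
    rw [Finset.mem_filter, Finset.mem_product] at he
    obtain ⟨⟨he1, he2⟩, -⟩ := he
    have h1 : ∑ c, ‖a e.1 c‖ * ‖a e.2 c‖ = (√(w e.1) * √(w e.2)) *
        (‖F k (ip z e.1)‖ ^ q * ‖F k (ip z e.2)‖ ^ q) * ∑ c, ‖ξ e.1 c‖ * ‖ξ e.2 c‖ := by
      rw [Finset.mul_sum]
      apply Finset.sum_congr rfl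
      intro c _
      rw [hna, hna]
      ring
    have h2 : ∑ c, ‖ξ e.1 c‖ * ‖ξ e.2 c‖ ≤ 1 := by
      have h3 : ∑ c, ‖ξ e.1 c‖ * ‖ξ e.2 c‖ ≤ ∑ c, (‖ξ e.1 c‖ ^ 2 / 2 + ‖ξ e.2 c‖ ^ 2 / 2) := by
        apply Finset.sum_le_sum
        intro c _
        nlinarith [sq_nonneg (‖ξ e.1 c‖ - ‖ξ e.2 c‖)]
      rw [Finset.sum_add_distrib, ← Finset.sum_div, ← Finset.sum_div, hξ _ he1, hξ _ he2] at h3
      linarith
    have h3 : √(w e.1) * √(w e.2) ≤ c1 * ε * r ^ 4 := by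
      have hb : 0 ≤ c1 * ε * r ^ 4 := by positivity
      calc √(w e.1) * √(w e.2) ≤ √(c1 * ε * r ^ 4) * √(c1 * ε * r ^ 4) :=
            mul_le_mul (Real.sqrt_le_sqrt (hw _ he1).2) (Real.sqrt_le_sqrt (hw _ he2).2)
              (Real.sqrt_nonneg _) (Real.sqrt_nonneg _)
        _ = c1 * ε * r ^ 4 := Real.mul_self_sqrt hb
    have h4 : ∀ ζ ∈ Λ, ‖F k (ip z ζ)‖ ^ q ≤ M ^ q * ((1 + k * D x ζ) ^ q)⁻¹ := by
      intro ζ hζ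
      calc ‖F k (ip z ζ)‖ ^ q ≤ (M / (1 + k * D x ζ)) ^ q :=
            pow_le_pow_left₀ (norm_nonneg _) (hF ζ hζ) q
        _ = M ^ q * ((1 + k * D x ζ) ^ q)⁻¹ := by rw [div_pow, div_eq_mul_inv]
    have hD : ∀ ζ, 0 < 1 + (k : ℝ) * D x ζ := by
      intro ζ
      have := D_nonneg x ζ
      positivity
    have h5 : ‖F k (ip z e.1)‖ ^ q * ‖F k (ip z e.2)‖ ^ q ≤
        M ^ (2 * q) * (((1 + k * D x e.1) ^ q)⁻¹ * ((1 + k * D x e.2) ^ q)⁻¹) := by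
      have hD1 := hD e.1
      have hD2 := hD e.2
      calc ‖F k (ip z e.1)‖ ^ q * ‖F k (ip z e.2)‖ ^ q ≤
          (M ^ q * ((1 + k * D x e.1) ^ q)⁻¹) * (M ^ q * ((1 + k * D x e.2) ^ q)⁻¹) :=
            mul_le_mul (h4 _ he1) (h4 _ he2) (by positivity) (by positivity)
        _ = M ^ (2 * q) * (((1 + k * D x e.1) ^ q)⁻¹ * ((1 + k * D x e.2) ^ q)⁻¹) := by
            rw [two_mul, pow_add]
            ring
    rw [h1]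
    have h6 : 0 ≤ ∑ c, ‖ξ e.1 c‖ * ‖ξ e.2 c‖ := Finset.sum_nonneg (fun c _ => by positivity)
    calc (√(w e.1) * √(w e.2)) *
        (‖F k (ip z e.1)‖ ^ q * ‖F k (ip z e.2)‖ ^ q) * ∑ c, ‖ξ e.1 c‖ * ‖ξ e.2 c‖
        ≤ (√(w e.1) * √(w e.2)) * (‖F k (ip z e.1)‖ ^ q * ‖F k (ip z e.2)‖ ^ q) * 1 :=
          mul_le_mul_of_nonneg_left h2 (by positivity)
      _ = (√(w e.1) * √(w e.2)) * (‖F k (ip z e.1)‖ ^ q * ‖F k (ip z e.2)‖ ^ q) := mul_one _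
      _ ≤ (c1 * ε * r ^ 4) *
          (M ^ (2 * q) * (((1 + k * D x e.1) ^ q)⁻¹ * ((1 + k * D x e.2) ^ q)⁻¹)) :=
          mul_le_mul h3 h5 (by positivity) (by positivity)
      _ = _ := by ring
  refine (Finset.sum_le_sum hterm).trans ?_
  rw [← Finset.mul_sum]
  have hb : 0 ≤ c1 * ε * r ^ 4 * M ^ (2 * q) := by positivity
  refine (mul_le_mul_of_nonneg_left hP hb).trans ?_
  have hrr : r ^ 4 * (r ^ (2 * (q - 3)) / r ^ 8) ≤ r ^ 2 := by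
    obtain ⟨m, rfl⟩ : ∃ m, q = m + 6 := ⟨q - 6, by omega⟩
    have e1 : 2 * (m + 6 - 3) = 2 * m + 6 := by omega
    rw [e1]
    have e2 : r ^ 4 * (r ^ (2 * m + 6) / r ^ 8) = r ^ 2 * r ^ (2 * m) := by
      have : r ≠ 0 := hr.ne'
      field_simp
      ring
    rw [e2]
    have : r ^ (2 * m) ≤ 1 := pow_le_one₀ hr.le hr1
    nlinarith [pow_pos hr 2]
  calc c1 * ε * r ^ 4 * M ^ (2 * q) * (CP * r ^ (2 * (q - 3)) / r ^ 8)
      = (M ^ (2 * q) * CP * c1 * ε) * (r ^ 4 * (r ^ (2 * (q - 3)) / r ^ 8)) := by ring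
    _ ≤ (M ^ (2 * q) * CP * c1 * ε) * r ^ 2 :=
        mul_le_mul_of_nonneg_left hrr (by positivity)

theorem wave_sq (q : ℕ) (hq : 6 ≤ q) : ∃ C : ℝ, 0 < C ∧ ∀ (K d k : ℕ), 1 ≤ k → ∀ r : ℝ, 0 < r → r ≤ 1 →
    ∀ (Λ : Finset P) (col : P → Fin K) (w : P → ℝ) (ξ : P → Fin d → ℂ) (c1 ε : ℝ), 0 ≤ c1 → 0 ≤ ε →
    (∀ ζ ∈ Λ, ζ ∈ S) →
    (∀ ζ ∈ Λ, ∀ ζ' ∈ Λ, ζ ≠ ζ' → r ^ 2 ≤ k * D ζ ζ') →
    (∀ ζ ∈ Λ, ∀ ζ' ∈ Λ, ζ ≠ ζ' → col ζ = col ζ' → 1 / r ^ 2 ≤ k * D ζ ζ') →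
    (∀ ζ ∈ Λ, 0 ≤ w ζ ∧ w ζ ≤ c1 * ε * r ^ 4) →
    (∀ ζ ∈ Λ, ∑ c, ‖ξ ζ c‖ ^ 2 = 1) →
    (∀ z ∈ S, |∑ g, ∑ c, ‖wave q k Λ w ξ col g c z‖ ^ 2 - ∑ ζ ∈ Λ, w ζ * ‖F k (ip z ζ)‖ ^ (2 * q)|
      ≤ C * c1 * ε * r ^ 2) ∧
    (∀ z : P, nsq z ≤ 1 + 4 / k → ∑ g, ∑ c, ‖wave q k Λ w ξ col g c z‖ ^ 2 ≤ C * c1 * ε) := by
  obtain ⟨CF, hCF0, hCF⟩ := F_near
  obtain ⟨CB, hCB0, hCB⟩ := F_ball
  obtain ⟨CP, hCP0, hCP⟩ := pair_sum q (by omega)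
  obtain ⟨CS, hCS0, hCS⟩ := sep_sum
  refine ⟨CF ^ (2 * q) * CP + CB ^ (2 * q) * (CP + CS), by positivity, ?_⟩
  intro K d k hk r hr hr1 Λ col w ξ c1 ε hc1 hε hS hsep hsepc hw hξ
  have hk0 : (0:ℝ) < k := by exact_mod_cast hk
  constructor
  · intro z hz
    have hF : ∀ ζ ∈ Λ, ‖F k (ip z ζ)‖ ≤ CF / (1 + k * D z ζ) := by
      intro ζ hζ
      have := hCF k hk z hz 1 0 (by simp) (by simp) ζ (hS ζ hζ)
      rw [one_smul, zero_smul, add_zero] at this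
      exact this
    refine (wave_sq_off q hq hCP0 hr hr1 Λ col w ξ c1 ε hc1 hε hw hξ z z CF hCF0.le
      (hCP K k hk r hr hr1 Λ col hS hsep hsepc z hz) hF).trans ?_
    have h1 : CF ^ (2 * q) * CP ≤ CF ^ (2 * q) * CP + CB ^ (2 * q) * (CP + CS) := by
      have : 0 ≤ CB ^ (2 * q) * (CP + CS) := by positivity
      linarith
    have h2 : 0 ≤ c1 * ε * r ^ 2 := by positivity
    calc CF ^ (2 * q) * CP * c1 * ε * r ^ 2 = CF ^ (2 * q) * CP * (c1 * ε * r ^ 2) := by ring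
      _ ≤ (CF ^ (2 * q) * CP + CB ^ (2 * q) * (CP + CS)) * (c1 * ε * r ^ 2) :=
          mul_le_mul_of_nonneg_right h1 h2
      _ = _ := by ring
  · intro z hz
    obtain ⟨x, hx, hxF⟩ := hCB k hk z hz
    have hF : ∀ ζ ∈ Λ, ‖F k (ip z ζ)‖ ≤ CB / (1 + k * D x ζ) := fun ζ hζ => hxF ζ (hS ζ hζ)
    have hoff := wave_sq_off q hq hCP0 hr hr1 Λ col w ξ c1 ε hc1 hε hw hξ z x CB hCB0.le
      (hCP K k hk r hr hr1 Λ col hS hsep hsepc x hx) hF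
    have hsum := hCS k hk r hr hr1 Λ hS hsep x hx
    have hdiag : ∑ ζ ∈ Λ, w ζ * ‖F k (ip z ζ)‖ ^ (2 * q) ≤ CB ^ (2 * q) * CS * c1 * ε := by
      have h1 : ∀ ζ ∈ Λ, w ζ * ‖F k (ip z ζ)‖ ^ (2 * q) ≤
          (c1 * ε * r ^ 4 * CB ^ (2 * q)) * ((1 + k * D x ζ) ^ 3)⁻¹ := by
        intro ζ hζ
        have hD0 := D_nonneg x ζ
        have hD1 : 1 ≤ 1 + (k : ℝ) * D x ζ := by
          have : 0 ≤ (k : ℝ) * D x ζ := by positivity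
          linarith
        have hD2 : 0 < 1 + (k : ℝ) * D x ζ := by linarith
        have h2 : ‖F k (ip z ζ)‖ ^ (2 * q) ≤ CB ^ (2 * q) * ((1 + k * D x ζ) ^ 3)⁻¹ := by
          calc ‖F k (ip z ζ)‖ ^ (2 * q) ≤ (CB / (1 + k * D x ζ)) ^ (2 * q) :=
                pow_le_pow_left₀ (norm_nonneg _) (hF ζ hζ) _
            _ = CB ^ (2 * q) * ((1 + k * D x ζ) ^ (2 * q))⁻¹ := by rw [div_pow, div_eq_mul_inv]
            _ ≤ CB ^ (2 * q) * ((1 + k * D x ζ) ^ 3)⁻¹ := by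
                apply mul_le_mul_of_nonneg_left _ (by positivity)
                apply inv_anti₀ (by positivity)
                exact pow_le_pow_right₀ hD1 (by omega)
        calc w ζ * ‖F k (ip z ζ)‖ ^ (2 * q) ≤
            (c1 * ε * r ^ 4) * (CB ^ (2 * q) * ((1 + k * D x ζ) ^ 3)⁻¹) :=
              mul_le_mul (hw ζ hζ).2 h2 (by positivity) (by positivity)
          _ = _ := by ring
      refine (Finset.sum_le_sum h1).trans ?_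
      rw [← Finset.mul_sum]
      have hb : 0 ≤ c1 * ε * r ^ 4 * CB ^ (2 * q) := by positivity
      refine (mul_le_mul_of_nonneg_left hsum hb).trans (le_of_eq ?_)
      have : r ≠ 0 := hr.ne'
      field_simp
    have h3 := abs_le.1 hoff
    have hr2 : r ^ 2 ≤ 1 := pow_le_one₀ hr.le hr1
    have h4 : CB ^ (2 * q) * CP * c1 * ε * r ^ 2 ≤ CB ^ (2 * q) * CP * c1 * ε := by
      have : 0 ≤ CB ^ (2 * q) * CP * c1 * ε := by positivity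
      nlinarith
    have h5 : 0 ≤ CF ^ (2 * q) * CP * c1 * ε := by positivity
    have h6 : (CF ^ (2 * q) * CP + CB ^ (2 * q) * (CP + CS)) * c1 * ε =
        CF ^ (2 * q) * CP * c1 * ε + CB ^ (2 * q) * CP * c1 * ε + CB ^ (2 * q) * CS * c1 * ε := by
      ring
    rw [h6]
    linarith [h3.2]

/-! ### cross_bound -/

theorem cross_bound_geo (p w' lam : ℕ) (hw : p + 1 ≤ w') (hl : 2 ≤ lam) (Cv : ℝ) (hCv : 0 ≤ Cv) (j : ℕ) :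
    ∑ i ∈ Finset.range j, (Cv * (1 / (lam : ℝ) ^ p) ^ i) *
        ((((lam ^ (i + 1) : ℕ) : ℝ)) / ((lam ^ (j + 1) : ℕ) : ℝ)) ^ w'
      ≤ 2 * Cv * (1 / (lam : ℝ) ^ p) ^ j * (1 / (lam : ℝ) ^ (w' - p)) := by
  have hL : (2 : ℝ) ≤ (lam : ℝ) := by exact_mod_cast hl
  have hL0 : (0 : ℝ) < (lam : ℝ) := by linarith
  have hab : (1 / (lam : ℝ)) ^ w' = (1 / (lam : ℝ) ^ p) * (1 / (lam : ℝ) ^ (w' - p)) := by
    rw [one_div_pow, one_div_mul_one_div, ← pow_add, Nat.add_sub_cancel' (by omega : p ≤ w')]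
  have hb : 1 / (lam : ℝ) ^ (w' - p) ≤ 1 / 2 := by
    apply one_div_le_one_div_of_le (by norm_num)
    calc (2 : ℝ) ≤ lam := hL
      _ = (lam : ℝ) ^ 1 := (pow_one _).symm
      _ ≤ (lam : ℝ) ^ (w' - p) := pow_le_pow_right₀ (by linarith) (by omega)
  have ha0 : 0 ≤ 1 / (lam : ℝ) ^ p := by positivity
  have hb0 : 0 ≤ 1 / (lam : ℝ) ^ (w' - p) := by positivity
  generalize hA : 1 / (lam : ℝ) ^ p = a at *
  generalize hB : 1 / (lam : ℝ) ^ (w' - p) = b at *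
  induction j with
  | zero => simp; positivity
  | succ j ih =>
    rw [Finset.sum_range_succ]
    have h1 : ∑ i ∈ Finset.range j, (Cv * a ^ i) *
        ((((lam ^ (i + 1) : ℕ) : ℝ)) / ((lam ^ (j + 1 + 1) : ℕ) : ℝ)) ^ w'
        = (a * b) * ∑ i ∈ Finset.range j, (Cv * a ^ i) *
        ((((lam ^ (i + 1) : ℕ) : ℝ)) / ((lam ^ (j + 1) : ℕ) : ℝ)) ^ w' := by
      rw [Finset.mul_sum]
      apply Finset.sum_congr rfl
      intro i _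
      have : (((lam ^ (i + 1) : ℕ) : ℝ)) / ((lam ^ (j + 1 + 1) : ℕ) : ℝ)
          = ((((lam ^ (i + 1) : ℕ) : ℝ)) / ((lam ^ (j + 1) : ℕ) : ℝ)) * (1 / (lam : ℝ)) := by
        push_cast
        rw [pow_succ (lam : ℝ) (j + 1)]
        field_simp
      rw [this, mul_pow, hab]
      ring
    have h2 : ((((lam ^ (j + 1) : ℕ) : ℝ)) / ((lam ^ (j + 1 + 1) : ℕ) : ℝ)) ^ w' = a * b := by
      rw [← hab]
      congr 1
      push_cast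
      rw [pow_succ (lam : ℝ) (j + 1)]
      field_simp
    rw [h1, h2]
    have h3 : (a * b) * ∑ i ∈ Finset.range j, (Cv * a ^ i) *
        ((((lam ^ (i + 1) : ℕ) : ℝ)) / ((lam ^ (j + 1) : ℕ) : ℝ)) ^ w' ≤ (a * b) * (2 * Cv * a ^ j * b) :=
      mul_le_mul_of_nonneg_left ih (by positivity)
    have h4 : Cv * a ^ (j + 1) * b * b ≤ Cv * a ^ (j + 1) * b * (1 / 2) :=
      mul_le_mul_of_nonneg_left hb (by positivity)
    have h5 : (a * b) * (2 * Cv * a ^ j * b) = 2 * (Cv * a ^ (j + 1) * b * b) := by ring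
    have h6 : Cv * a ^ j * (a * b) = Cv * a ^ (j + 1) * b := by ring
    rw [h5] at h3
    rw [h6]
    linarith

theorem cross_bound_cs {d : ℕ} (a b : Fin d → ℂ) (M : ℝ) (hM : 0 ≤ M)
    (ha : ∑ c, ‖a c‖ ^ 2 ≤ M ^ 2) (hb : ∑ c, ‖b c‖ ^ 2 = 1) :
    ‖∑ c, a c * conj (b c)‖ ≤ M := by
  have h1 : ‖∑ c, a c * conj (b c)‖ ≤ ∑ c, ‖a c‖ * ‖b c‖ := by
    refine (norm_sum_le _ _).trans (le_of_eq ?_)
    apply Finset.sum_congr rfl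
    intro c _
    rw [norm_mul, RCLike.norm_conj]
  have h2 : (∑ c, ‖a c‖ * ‖b c‖) ^ 2 ≤ (∑ c, ‖a c‖ ^ 2) * (∑ c, ‖b c‖ ^ 2) :=
    Finset.sum_mul_sq_le_sq_mul_sq _ _ _
  have h3 : 0 ≤ ∑ c, ‖a c‖ * ‖b c‖ := Finset.sum_nonneg (fun c _ => by positivity)
  rw [hb, mul_one] at h2
  exact h1.trans (abs_le_of_sq_le_sq' (h2.trans ha) hM).2

theorem cross_bound_swap {K d : ℕ} (q k : ℕ) (Λ : Finset P) (w : P → ℝ) (ξ : P → Fin d → ℂ)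
    (col : P → Fin K) (V : Fin K → Fin d → ℂ) (z' : P) :
    ∑ g, ∑ c, V g c * conj (wave q k Λ w ξ col g c z')
      = ∑ ζ ∈ Λ, (((√(w ζ) : ℝ) : ℂ) * conj (F k (ip z' ζ) ^ q)) *
          ∑ c, V (col ζ) c * conj (ξ ζ c) := by
  rw [← Finset.sum_fiberwise Λ col]
  apply Finset.sum_congr rfl
  intro g _
  simp only [wave, map_sum, Finset.mul_sum]
  rw [Finset.sum_comm]
  apply Finset.sum_congr rfl
  intro ζ hζ
  have hg : col ζ = g := (Finset.mem_filter.1 hζ).2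
  apply Finset.sum_congr rfl
  intro c _
  rw [hg]
  simp only [map_mul, Complex.conj_ofReal]
  ring

theorem cross_bound (p w' : ℕ) (hw : p + 1 ≤ w') : ∃ C : ℝ, 0 < C ∧ ∀ (K d j lam : ℕ), 2 ≤ lam →
    ∀ r : ℝ, 0 < r → r ≤ 1 → ∀ (Λ : Finset P) (col : P → Fin K) (w : P → ℝ) (ξ : P → Fin d → ℂ)
    (c1 ε Cv : ℝ), 0 ≤ c1 → 0 ≤ ε → 0 ≤ Cv → ∀ v : ℕ → Fin K → Fin d → P → ℂ,
    (∀ i g c, Differentiable ℂ (v i g c)) →
    (∀ i < j, ∀ z : P, nsq z ≤ 1 + 4 / (lam : ℝ) ^ (i + 1) →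
      ∑ g, ∑ c, ‖v i g c z‖ ^ 2 ≤ (Cv * (1 / (lam : ℝ) ^ p) ^ i) ^ 2) →
    (∀ ζ ∈ Λ, ζ ∈ S) →
    (∀ ζ ∈ Λ, ∀ ζ' ∈ Λ, ζ ≠ ζ' → r ^ 2 ≤ (lam ^ (j + 1) : ℕ) * D ζ ζ') →
    (∀ ζ ∈ Λ, 0 ≤ w ζ ∧ w ζ ≤ c1 * ε * r ^ 4) →
    (∀ ζ ∈ Λ, ∑ c, ‖ξ ζ c‖ ^ 2 = 1) →
    (∀ ζ ∈ Λ, ∀ l < 2 * w', ∀ u : P, iteratedDeriv l (fun t : ℂ =>
      ∑ c, (∑ i ∈ Finset.range j, v i (col ζ) c (ζ + t • u)) * conj (ξ ζ c)) 0 = 0) →
    ∀ x ∈ S, ∀ α β α' β' : ℂ, ‖α - 1‖ ≤ 1 / (lam ^ (j + 1) : ℕ) → ‖β‖ ^ 2 ≤ 1 / (lam ^ (j + 1) : ℕ) →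
      ‖α' - 1‖ ≤ 1 / (lam ^ (j + 1) : ℕ) → ‖β'‖ ^ 2 ≤ 1 / (lam ^ (j + 1) : ℕ) →
      ‖∑ g, ∑ c, (∑ i ∈ Finset.range j, v i g c (α • x + β • perp x)) *
          conj (wave (2 * w' + 3) (lam ^ (j + 1)) Λ w ξ col g c (α' • x + β' • perp x))‖
        ≤ C * √(c1 * ε) * Cv * (1 / (lam : ℝ) ^ p) ^ j * (1 / r ^ 2) * (1 / (lam : ℝ) ^ (w' - p)) := by
  obtain ⟨C1, hC1, hjet⟩ := jet_bound w'
  obtain ⟨C2, hC2, hF⟩ := F_near
  obtain ⟨C3, hC3, hsep⟩ := sep_sum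
  refine ⟨2 * C1 * C2 ^ (2 * w' + 3) * C3, by positivity, ?_⟩
  intro K d j lam hlam r hr hr1 Λ col w ξ c1 ε Cv hc1 hε hCv v hdiff hv hΛ hsepΛ hwt hξ hjetv
    x hx α β α' β' hα hβ hα' hβ'
  have hL : (2 : ℝ) ≤ (lam : ℝ) := by exact_mod_cast hlam
  have hL0 : (0 : ℝ) < (lam : ℝ) := by linarith
  have hk1 : 1 ≤ lam ^ (j + 1) := Nat.one_le_pow _ _ (by omega)
  set z : P := α • x + β • perp x with hz
  set z' : P := α' • x + β' • perp x with hz'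
  rw [cross_bound_swap (2 * w' + 3) (lam ^ (j + 1)) Λ w ξ col
    (fun g c => ∑ i ∈ Finset.range j, v i g c z) z']
  set G : ℝ := 2 * Cv * (1 / (lam : ℝ) ^ p) ^ j * (1 / (lam : ℝ) ^ (w' - p)) with hG
  have hG0 : 0 ≤ G := by positivity
  have hterm : ∀ ζ ∈ Λ, ‖(((√(w ζ) : ℝ) : ℂ) * conj (F (lam ^ (j + 1)) (ip z' ζ) ^ (2 * w' + 3))) *
          ∑ c, (∑ i ∈ Finset.range j, v i (col ζ) c z) * conj (ξ ζ c)‖
      ≤ (√(c1 * ε) * r ^ 2 * C2 ^ (2 * w' + 3) * C1 * G) *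
        ((1 + ((lam ^ (j + 1) : ℕ) : ℝ) * D x ζ) ^ 3)⁻¹ := by
    intro ζ hζ
    have hD0 : 0 ≤ D x ζ := D_nonneg x ζ
    have hB : 1 ≤ 1 + ((lam ^ (j + 1) : ℕ) : ℝ) * D x ζ := by
      have : 0 ≤ ((lam ^ (j + 1) : ℕ) : ℝ) * D x ζ := by positivity
      linarith
    set B : ℝ := 1 + ((lam ^ (j + 1) : ℕ) : ℝ) * D x ζ with hBdef
    have hB0 : 0 < B := by linarith
    -- weight
    have hsw : √(w ζ) ≤ √(c1 * ε) * r ^ 2 := by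
      have h1 : √(w ζ) ≤ √(c1 * ε * r ^ 4) := Real.sqrt_le_sqrt (hwt ζ hζ).2
      have h2 : √(c1 * ε * r ^ 4) = √(c1 * ε) * r ^ 2 := by
        rw [Real.sqrt_mul (by positivity)]
        congr 1
        rw [show r ^ 4 = (r ^ 2) ^ 2 by ring]
        exact Real.sqrt_sq (by positivity)
      rw [h2] at h1
      exact h1
    -- F
    have hFz : ‖F (lam ^ (j + 1)) (ip z' ζ)‖ ≤ C2 / B :=
      hF (lam ^ (j + 1)) hk1 x hx α' β' hα' hβ' ζ (hΛ ζ hζ)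
    have hFq : ‖F (lam ^ (j + 1)) (ip z' ζ)‖ ^ (2 * w' + 3) ≤ (C2 / B) ^ (2 * w' + 3) :=
      pow_le_pow_left₀ (norm_nonneg _) hFz _
    -- H
    have hH : ‖∑ c, (∑ i ∈ Finset.range j, v i (col ζ) c z) * conj (ξ ζ c)‖
        ≤ C1 * G * B ^ (2 * w') := by
      have hsw2 : ∀ y : P, ∑ c, (∑ i ∈ Finset.range j, v i (col ζ) c y) * conj (ξ ζ c)
          = ∑ i ∈ Finset.range j, ∑ c, v i (col ζ) c y * conj (ξ ζ c) := by
        intro y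
        simp only [Finset.sum_mul]
        rw [Finset.sum_comm]
      rw [hsw2]
      have := hjet j (fun i y => ∑ c, v i (col ζ) c y * conj (ξ ζ c))
        (fun i => Cv * (1 / (lam : ℝ) ^ p) ^ i) (fun i => lam ^ (i + 1)) (lam ^ (j + 1)) hk1
        (fun i => by
          apply Differentiable.fun_sum
          intro c _
          exact (hdiff i (col ζ) c).mul_const _)
        (fun i hi => ⟨by positivity, Nat.one_le_pow _ _ (by omega),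
          Nat.pow_le_pow_right (by omega) (by omega)⟩)
        (fun i hi y hy => by
          apply cross_bound_cs (fun c => v i (col ζ) c y) (ξ ζ) _ (by positivity) _ (hξ ζ hζ)
          have hy' : nsq y ≤ 1 + 4 / (lam : ℝ) ^ (i + 1) := by
            have h := hy
            push_cast at h
            exact h
          refine le_trans ?_ (hv i hi y hy')
          exact Finset.single_le_sum (f := fun g => ∑ c, ‖v i g c y‖ ^ 2)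
            (fun g _ => Finset.sum_nonneg (fun c _ => by positivity)) (Finset.mem_univ (col ζ)))
        ζ (hΛ ζ hζ)
        (fun l hl u => by
          have h := hjetv ζ hζ l hl u
          have he : (fun t : ℂ => ∑ c, (∑ i ∈ Finset.range j, v i (col ζ) c (ζ + t • u)) * conj (ξ ζ c))
              = (fun t : ℂ => ∑ i ∈ Finset.range j, ∑ c, v i (col ζ) c (ζ + t • u) * conj (ξ ζ c)) := by
            funext t
            exact hsw2 (ζ + t • u)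
          rw [he] at h
          exact h)
        x hx α β hα hβ
      refine this.trans ?_
      apply mul_le_mul_of_nonneg_right _ (by positivity)
      apply mul_le_mul_of_nonneg_left _ hC1.le
      exact cross_bound_geo p w' lam hw hlam Cv hCv j
    rw [norm_mul, norm_mul, RCLike.norm_conj, norm_pow, Complex.norm_real, Real.norm_eq_abs,
      abs_of_nonneg (Real.sqrt_nonneg _)]
    calc √(w ζ) * ‖F (lam ^ (j + 1)) (ip z' ζ)‖ ^ (2 * w' + 3) *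
          ‖∑ c, (∑ i ∈ Finset.range j, v i (col ζ) c z) * conj (ξ ζ c)‖
        ≤ (√(c1 * ε) * r ^ 2) * (C2 / B) ^ (2 * w' + 3) * (C1 * G * B ^ (2 * w')) := by
          apply mul_le_mul _ hH (norm_nonneg _) (by positivity)
          exact mul_le_mul hsw hFq (by positivity) (by positivity)
      _ = (√(c1 * ε) * r ^ 2 * C2 ^ (2 * w' + 3) * C1 * G) * (B ^ 3)⁻¹ := by
          rw [div_pow, show B ^ (2 * w' + 3) = B ^ (2 * w') * B ^ 3 by rw [pow_add]]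
          field_simp
  refine (norm_sum_le _ _).trans ((Finset.sum_le_sum hterm).trans ?_)
  rw [← Finset.mul_sum]
  have hs := hsep (lam ^ (j + 1)) hk1 r hr hr1 Λ hΛ hsepΛ x hx
  have hpos : 0 ≤ √(c1 * ε) * r ^ 2 * C2 ^ (2 * w' + 3) * C1 * G := by positivity
  refine (mul_le_mul_of_nonneg_left hs hpos).trans (le_of_eq ?_)
  rw [hG]
  have hr4 : r ^ 2 * (C3 / r ^ 4) = C3 * (1 / r ^ 2) := by
    field_simp
  calc √(c1 * ε) * r ^ 2 * C2 ^ (2 * w' + 3) * C1 *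
        (2 * Cv * (1 / (lam : ℝ) ^ p) ^ j * (1 / (lam : ℝ) ^ (w' - p))) * (C3 / r ^ 4)
      = √(c1 * ε) * C2 ^ (2 * w' + 3) * C1 *
        (2 * Cv * (1 / (lam : ℝ) ^ p) ^ j * (1 / (lam : ℝ) ^ (w' - p))) * (r ^ 2 * (C3 / r ^ 4)) := by ring
    _ = _ := by rw [hr4]; ring

end Pool.Agent.H892PB
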